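import Pool.Agent.Helper37.GP.LS

/-!
# GP-5 : Siegel's lemma (MP_290158_ag)
-/

open Polynomial

namespace Pool.Agent.Helper37.GP

section Siegel

attribute [local instance] Matrix.seminormedAddCommGroup

/-- Siegel's lemma with natural number bounds. -/
theorem siegel_nat {α β : Type} [Fintype α] [Fintype β] (A : Matrix α β ℤ) {M κ : ℕ}
    (hM : 1 ≤ M) (hA : ∀ i j, |A i j| ≤ M) (hcard : Fintype.card α < Fintype.card β)
    (hκ : Fintype.card α ≤ κ * (Fintype.card β - Fintype.card α)) :
    ∃ t : β → ℤ, t ≠ 0 ∧ A.mulVec t = 0 ∧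
      ∀ j, |t j| ≤ ((Fintype.card β * M) ^ κ : ℕ) := by
  classical
  have hβ : 1 ≤ Fintype.card β := by omega
  have hbase : 1 ≤ Fintype.card β * M := Nat.mul_pos (by omega) (by omega)
  rcases Nat.eq_zero_or_pos (Fintype.card α) with h0 | hpos
  · have hne : Nonempty β := Fintype.card_pos_iff.mp (by omega)
    have hem : IsEmpty α := Fintype.card_eq_zero_iff.mp h0
    refine ⟨fun _ => 1, ?_, ?_, ?_⟩
    · intro h
      obtain ⟨b⟩ := hne
      have := congrFun h b
      simp at this
    · ext i
      exact hem.elim i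
    · intro j
      have : 1 ≤ (Fintype.card β * M) ^ κ := Nat.one_le_pow _ _ (by omega)
      simp only [abs_one]
      exact_mod_cast this
  · obtain ⟨t, ht0, htA, htn⟩ := Int.Matrix.exists_ne_zero_int_vec_norm_le A hcard hpos
    refine ⟨t, ht0, htA, fun j => ?_⟩
    have h1 : ‖t j‖ ≤ ‖t‖ := norm_le_pi_norm t j
    have hAn : ‖A‖ ≤ M := by
      rw [Matrix.norm_le_iff (by positivity)]
      intro i j
      have := hA i j
      rw [Int.norm_eq_abs]
      exact_mod_cast this
    have hmax : max 1 ‖A‖ ≤ M := max_le (by exact_mod_cast hM) hAn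
    have hexp : ((Fintype.card α : ℝ) / ((Fintype.card β : ℝ) - Fintype.card α)) ≤ κ := by
      have hsub : (0 : ℝ) < (Fintype.card β : ℝ) - Fintype.card α := by
        have : (Fintype.card α : ℝ) < Fintype.card β := by exact_mod_cast hcard
        linarith
      rw [div_le_iff₀ hsub]
      have h2 : ((Fintype.card β - Fintype.card α : ℕ) : ℝ) =
          (Fintype.card β : ℝ) - Fintype.card α := by
        rw [Nat.cast_sub hcard.le]
      rw [← h2]
      exact_mod_cast hκ
    have h3 : ((Fintype.card β : ℝ) * max 1 ‖A‖) ^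
        ((Fintype.card α : ℝ) / ((Fintype.card β : ℝ) - Fintype.card α)) ≤
        ((Fintype.card β : ℝ) * M) ^ (κ : ℝ) := by
      have hb1 : (1 : ℝ) ≤ (Fintype.card β : ℝ) * M := by exact_mod_cast hbase
      have hexp0 : 0 ≤ (Fintype.card α : ℝ) / ((Fintype.card β : ℝ) - Fintype.card α) := by
        apply div_nonneg (by positivity)
        have : (Fintype.card α : ℝ) < Fintype.card β := by exact_mod_cast hcard
        linarith
      calc ((Fintype.card β : ℝ) * max 1 ‖A‖) ^
            ((Fintype.card α : ℝ) / ((Fintype.card β : ℝ) - Fintype.card α))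
          ≤ ((Fintype.card β : ℝ) * M) ^
            ((Fintype.card α : ℝ) / ((Fintype.card β : ℝ) - Fintype.card α)) := by
            apply Real.rpow_le_rpow (by positivity) _ hexp0
            gcongr
        _ ≤ ((Fintype.card β : ℝ) * M) ^ (κ : ℝ) :=
            Real.rpow_le_rpow_of_exponent_le hb1 hexp
    have h4 : ‖t j‖ ≤ (((Fintype.card β * M) ^ κ : ℕ) : ℝ) := by
      refine h1.trans (htn.trans (h3.trans ?_))
      rw [Real.rpow_natCast]
      push_cast
      exact le_rfl
    rw [Int.norm_eq_abs] at h4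
    exact_mod_cast h4

end Siegel

/-- Coefficients of a polynomial (in `s`) times a Laurent series (in `1/s`). -/
theorem coeff_emb_mul {p : ℚ[X]} {D : ℕ} (hp : p.natDegree ≤ D) (f : LaurentSeries ℚ) (n : ℤ) :
    (emb p * f).coeff n = ∑ i ∈ Finset.range (D + 1), p.coeff i * f.coeff (n + i) := by
  conv_lhs => rw [p.as_sum_range' (D + 1) (by omega)]
  rw [map_sum, Finset.sum_mul, HahnSeries.coeff_sum]
  refine Finset.sum_congr rfl fun i _ => ?_
  rw [emb_monomial, HahnSeries.coeff_single_mul]
  congr 2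
  ring

theorem aux_forms {R D E κ H : ℕ} (hH : 2 ≤ H) (hE : E < R * (D + 1))
    (hκ : E ≤ κ * (R * (D + 1) - E)) (e : Fin R → PowerSeries ℚ) (hb : ∀ a, GBound H (e a))
    (hd : GDen H e) :
    ∃ p : Fin R → ℤ[X], p ≠ 0 ∧ (∀ a, (p a).natDegree ≤ D) ∧
      (∀ a i, |(p a).coeff i| ≤ ((R * (D + 1) * H ^ (2 * E + 2)) ^ κ : ℕ)) ∧
      OrdGE ((E : ℤ) - D) (∑ a, emb ((p a).map (Int.castRingHom ℚ)) * ps (e a)) := by
  classical
  obtain ⟨d, hd0, hdH, hdz⟩ := hd E
  -- the equations
  have hex : ∀ (k : Fin E) (ai : Fin R × Fin (D + 1)), ∃ z : ℤ,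
      (d : ℚ) * (ps (e ai.1)).coeff ((k : ℤ) - D + (ai.2 : ℕ)) = z ∧
      |z| ≤ ((H ^ (2 * E + 2) : ℕ) : ℤ) := by
    rintro k ⟨a, i⟩
    have hk := k.2
    have hi := i.2
    simp only
    by_cases hneg : (k : ℤ) - D + (i : ℕ) < 0
    · refine ⟨0, ?_, by positivity⟩
      rw [ordGE_ps _ _ hneg]
      simp
    · obtain ⟨m, hm⟩ : ∃ m : ℕ, (k : ℤ) - D + (i : ℕ) = m := ⟨((k : ℤ) - D + (i : ℕ)).toNat, by omega⟩
      have hmE : m ≤ E := by omega
      have hco : (ps (e a)).coeff ((k : ℤ) - D + (i : ℕ)) = PowerSeries.coeff m (e a) := by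
        rw [hm, ps_coeff, if_neg (by omega)]
        simp
      obtain ⟨z, hz⟩ := hdz m hmE a
      refine ⟨z, by rw [hco, hz], ?_⟩
      have h1 : |(z : ℚ)| ≤ ((H ^ (2 * E + 2) : ℕ) : ℚ) := by
        rw [← hz, abs_mul]
        have h2 : |(d : ℚ)| ≤ (H : ℚ) ^ (E + 1) := by
          rw [Nat.abs_cast]
          exact_mod_cast hdH
        have h3 : |PowerSeries.coeff m (e a)| ≤ (H : ℚ) ^ (E + 1) := by
          refine (hb a m).trans ?_
          apply pow_le_pow_right₀
          · have : 1 ≤ H := by omega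
            exact_mod_cast this
          · omega
        calc |(d : ℚ)| * |PowerSeries.coeff m (e a)| ≤ (H : ℚ) ^ (E + 1) * (H : ℚ) ^ (E + 1) :=
              mul_le_mul h2 h3 (abs_nonneg _) (by positivity)
          _ = ((H ^ (2 * E + 2) : ℕ) : ℚ) := by
              push_cast
              rw [← pow_add]
              congr 1
              ring
      exact_mod_cast h1
  choose z hz hzb using hex
  let A : Matrix (Fin E) (Fin R × Fin (D + 1)) ℤ := Matrix.of fun k ai => z k ai
  have hcardβ : Fintype.card (Fin R × Fin (D + 1)) = R * (D + 1) := by simp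
  obtain ⟨t, ht0, htA, htb⟩ := siegel_nat A (M := H ^ (2 * E + 2)) (κ := κ)
    (Nat.one_le_pow _ _ (by omega)) (fun k ai => hzb k ai) (by rw [hcardβ]; simpa using hE)
    (by rw [hcardβ]; simpa using hκ)
  rw [hcardβ] at htb
  let p : Fin R → ℤ[X] := fun a => ∑ i : Fin (D + 1), monomial (i : ℕ) (t (a, i))
  have hcoeff : ∀ a (i : Fin (D + 1)), (p a).coeff (i : ℕ) = t (a, i) := by
    intro a i
    simp only [p, finsetSum_coeff, coeff_monomial]
    rw [Finset.sum_eq_single i]
    · simp
    · intro j _ hj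
      rw [if_neg]
      intro h
      exact hj (Fin.ext h)
    · simp
  have hdeg : ∀ a, (p a).natDegree ≤ D := by
    intro a
    refine natDegree_sum_le_of_forall_le _ _ fun i _ => ?_
    refine (natDegree_monomial_le _).trans ?_
    have := i.2
    omega
  refine ⟨p, ?_, hdeg, ?_, ?_⟩
  · intro hp
    apply ht0
    ext ⟨a, i⟩
    rw [← hcoeff a i, congrFun hp a]
    simp
  · intro a i
    by_cases hi : i < D + 1
    · have := hcoeff a ⟨i, hi⟩
      simp only at this
      rw [this]
      exact htb _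
    · rw [coeff_eq_zero_of_natDegree_lt (by have := hdeg a; omega)]
      simp only [abs_zero]
      positivity
  · intro n hn
    rw [HahnSeries.coeff_sum]
    have hdegm : ∀ a, ((p a).map (Int.castRingHom ℚ)).natDegree ≤ D := fun a =>
      natDegree_map_le.trans (hdeg a)
    by_cases hnD : n < -(D : ℤ)
    · refine Finset.sum_eq_zero fun a _ => ?_
      have := ordGE_mul (ordGE_emb (hdegm a)) (ordGE_ps (e a))
      exact this n (by omega)
    · obtain ⟨k, hk⟩ : ∃ k : ℕ, n = (k : ℤ) - D := ⟨(n + D).toNat, by omega⟩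
      have hkE : k < E := by omega
      have hrow := congrFun htA ⟨k, hkE⟩
      have hd1 : (d : ℚ) ≠ 0 := by exact_mod_cast hd0.ne'
      have hsum : (d : ℚ) * ∑ a, (emb ((p a).map (Int.castRingHom ℚ)) * ps (e a)).coeff n =
          ((A.mulVec t) ⟨k, hkE⟩ : ℤ) := by
        simp only [Matrix.mulVec, dotProduct, A, Matrix.of_apply]
        rw [Fintype.sum_prod_type]
        push_cast
        rw [Finset.mul_sum]
        refine Finset.sum_congr rfl fun a _ => ?_
        rw [coeff_emb_mul (hdegm a), Finset.sum_range, Finset.mul_sum]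
        refine Finset.sum_congr rfl fun i _ => ?_
        have h5 := hz ⟨k, hkE⟩ (a, i)
        simp only at h5
        rw [← h5, coeff_map, hcoeff a i, hk]
        simp only [eq_intCast]
        ring
      rw [hrow] at hsum
      simp only [Pi.zero_apply, Int.cast_zero] at hsum
      exact (mul_eq_zero.mp hsum).resolve_left hd1

end Pool.Agent.Helper37.GP
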