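import Pool.Agent.Helper37.GP.BigSys

/-!
# The tensor system: the commutant (right translations)
-/

open Polynomial

namespace Pool.Agent.Helper37.GP

/-- Right translation by constant matrices, as a substitution. -/
noncomputable def rsub {d : ℕ} (h : Fin d → Matrix (Fin 2) (Fin 2) ℚ) :
    Var d → MvPolynomial (Var d) ℚ :=
  fun v => ∑ c : Fin 2, MvPolynomial.X (v.1, v.2.1, c) * MvPolynomial.C (h v.1 c v.2.2)

/-- The weight of the block `j`. -/
def blk {d : ℕ} (j : Fin d) : Var d → ℕ := fun v => if v.1 = j then 1 else 0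

theorem weight_blk {d : ℕ} (j : Fin d) (m : Var d →₀ ℕ) :
    Finsupp.weight (blk j) m = ∑ a : Fin 2, ∑ b : Fin 2, m (j, a, b) := by
  classical
  rw [Finsupp.weight_apply, Finsupp.sum_fintype _ _ (by simp)]
  rw [Fintype.sum_prod_type, Finset.sum_eq_single j]
  · rw [Fintype.sum_prod_type]
    refine Finset.sum_congr rfl fun a _ => Finset.sum_congr rfl fun b _ => ?_
    simp [blk]
  · intro i _ hi
    refine Finset.sum_eq_zero fun x _ => ?_
    simp [blk, hi]
  · simp

/-- `x^m (X h)` as a polynomial in `X`, with the same block degrees. -/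
theorem bde_rsub {d : ℕ} (h : Fin d → Matrix (Fin 2) (Fin 2) ℚ) (m : Var d →₀ ℕ) :
    ∀ m' ∈ (MvPolynomial.aeval (rsub h) (MvPolynomial.monomial m (1 : ℚ))).support,
      ∀ j, ∑ a : Fin 2, ∑ b : Fin 2, m' (j, a, b) = ∑ a : Fin 2, ∑ b : Fin 2, m (j, a, b) := by
  classical
  intro m' hm' j
  have hv : ∀ v : Var d, MvPolynomial.IsWeightedHomogeneous (blk j) (rsub h v) (blk j v) := by
    intro v
    refine MvPolynomial.IsWeightedHomogeneous.sum _ _ _ fun c _ => ?_
    have h1 := (MvPolynomial.isWeightedHomogeneous_X ℚ (blk j) ((v.1, v.2.1, c) : Var d)).mul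
      (MvPolynomial.isWeightedHomogeneous_C (blk j) (h v.1 c v.2.2))
    have h2 : blk j ((v.1, v.2.1, c) : Var d) + 0 = blk j v := by simp [blk]
    rw [h2] at h1
    exact h1
  have hw : MvPolynomial.IsWeightedHomogeneous (blk j)
      (MvPolynomial.aeval (rsub h) (MvPolynomial.monomial m (1 : ℚ)))
      (Finsupp.weight (blk j) m) := by
    rw [MvPolynomial.aeval_monomial, map_one, one_mul, Finsupp.prod_fintype _ _ (by simp)]
    have h3 := MvPolynomial.IsWeightedHomogeneous.prod (w := blk j) (s := Finset.univ)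
      (fun v : Var d => rsub h v ^ m v) (fun v => m v • blk j v)
      (fun v _ => (hv v).pow (m v))
    have h4 : Finsupp.weight (blk j) m = ∑ v : Var d, m v • blk j v := by
      rw [Finsupp.weight_apply, Finsupp.sum_fintype _ _ (by simp)]
    rw [h4]
    exact h3
  have h5 := hw (MvPolynomial.mem_support_iff.mp hm')
  rw [weight_blk, weight_blk] at h5
  exact h5

/-- The matrix of the right translation by `h` on the functions `Z^(mon α)`. -/
noncomputable def rmat {d δ R : ℕ} (Φ : FSp d δ R) (h : Fin d → Matrix (Fin 2) (Fin 2) ℚ) :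
    Matrix (Fin R) (Fin R) ℚ := Matrix.of fun α μ =>
  ∑ m' ∈ (MvPolynomial.aeval (rsub h) (MvPolynomial.monomial (Φ.mon α) (1 : ℚ))).support,
    (MvPolynomial.aeval (rsub h) (MvPolynomial.monomial (Φ.mon α) (1 : ℚ))).coeff m' * Φ.ρ m' μ

theorem rmat_spec {d δ R : ℕ} (Φ : FSp d δ R) (h : Fin d → Matrix (Fin 2) (Fin 2) ℚ)
    {K : Type} [Field K] [Algebra ℚ K] (Z : Fin d → Matrix (Fin 2) (Fin 2) K)
    (hZ : ∀ j, (Z j).det = 1) (α : Fin R) :
    mev (fun j => Z j * (h j).map (algebraMap ℚ K)) (Φ.mon α) =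
      ∑ μ, algebraMap ℚ K (rmat Φ h α μ) * mev Z (Φ.mon μ) := by
  classical
  set G := MvPolynomial.aeval (rsub h) (MvPolynomial.monomial (Φ.mon α) (1 : ℚ)) with hG
  have h1 : mev (fun j => Z j * (h j).map (algebraMap ℚ K)) (Φ.mon α) =
      MvPolynomial.aeval (pt Z) G := by
    rw [mev_eq_aeval (L := ℚ), hG, ← AlgHom.comp_apply, MvPolynomial.comp_aeval]
    congr 2
    funext v
    simp only [pt, rsub, Matrix.mul_apply, Matrix.map_apply, map_sum, map_mul,
      MvPolynomial.aeval_X, MvPolynomial.aeval_C]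
  rw [h1]
  conv_lhs => rw [G.as_sum]
  rw [map_sum]
  have h2 : ∀ m' ∈ G.support, MvPolynomial.aeval (pt Z) (MvPolynomial.monomial m' (G.coeff m')) =
      ∑ μ, algebraMap ℚ K (G.coeff m' * Φ.ρ m' μ) * mev Z (Φ.mon μ) := by
    intro m' hm'
    have hbd : BDe δ m' := by
      intro j
      rw [bde_rsub h (Φ.mon α) m' hm' j]
      exact Φ.hd α j
    have h3 : MvPolynomial.monomial m' (G.coeff m') =
        MvPolynomial.C (G.coeff m') * MvPolynomial.monomial m' 1 := by
      rw [MvPolynomial.C_mul_monomial, mul_one]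
    rw [h3, map_mul, MvPolynomial.aeval_C, ← mev_eq_aeval, red_field Φ Z hZ hbd, Finset.mul_sum]
    refine Finset.sum_congr rfl fun μ _ => ?_
    rw [map_mul, mul_assoc]
  rw [Finset.sum_congr rfl h2, Finset.sum_comm]
  refine Finset.sum_congr rfl fun μ _ => ?_
  rw [← Finset.sum_mul]
  congr 1
  simp only [rmat, Matrix.of_apply]
  rw [map_sum]

theorem dd_constMul (c : ℚ) (f : LaurentSeries ℚ) :
    dd (algebraMap ℚ (LaurentSeries ℚ) c * f) = algebraMap ℚ (LaurentSeries ℚ) c * dd f := by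
  have h0 : dd (algebraMap ℚ (LaurentSeries ℚ) c) = 0 := by
    rw [← emb_C, dd_emb, derivative_C, map_zero]
  rw [dd_mul, h0, zero_mul, add_zero]

theorem dd_sum' {ι : Type} (s : Finset ι) (f : ι → LaurentSeries ℚ) :
    dd (∑ i ∈ s, f i) = ∑ i ∈ s, dd (f i) := by
  classical
  induction s using Finset.induction_on with
  | empty =>
    simp only [Finset.sum_empty]
    have := dd_constMul 0 0
    simpa using this
  | insert a s ha ih => rw [Finset.sum_insert ha, Finset.sum_insert ha, dd_add, ih]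

/-- Right translation preserves the solutions. -/
theorem isSol_right {d : ℕ} {T : Fin d → ℚ[X]}
    {A : Fin d → Matrix (Fin 2) (Fin 2) ℚ[X]}
    {Z : Fin d → Matrix (Fin 2) (Fin 2) (LaurentSeries ℚ)}
    (hode : ∀ j b, IsSol (T j) (A j) (fun a => Z j a b))
    (h : Fin d → Matrix (Fin 2) (Fin 2) ℚ) (j : Fin d) (b : Fin 2) :
    IsSol (T j) (A j) (fun a => (Z j * (h j).map (algebraMap ℚ (LaurentSeries ℚ))) a b) := by
  intro a
  simp only [Matrix.mul_apply, Matrix.map_apply]
  have h1 : dd (∑ c, Z j a c * algebraMap ℚ (LaurentSeries ℚ) (h j c b)) =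
      ∑ c, algebraMap ℚ (LaurentSeries ℚ) (h j c b) * dd (Z j a c) := by
    rw [dd_sum']
    refine Finset.sum_congr rfl fun c _ => ?_
    rw [mul_comm, dd_constMul]
  rw [h1, Finset.mul_sum]
  have h2 : ∀ c, emb (T j) * (algebraMap ℚ (LaurentSeries ℚ) (h j c b) * dd (Z j a c)) =
      ∑ i, emb (A j a i) * Z j i c * algebraMap ℚ (LaurentSeries ℚ) (h j c b) := by
    intro c
    have h3 : emb (T j) * dd (Z j a c) = ∑ i, emb (A j a i) * Z j i c := hode j c a
    rw [mul_left_comm, h3, Finset.mul_sum]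
    refine Finset.sum_congr rfl fun i _ => ?_
    ring
  simp_rw [h2]
  rw [Finset.sum_comm]
  refine Finset.sum_congr rfl fun i _ => ?_
  rw [Finset.mul_sum]
  refine Finset.sum_congr rfl fun c _ => ?_
  ring

theorem rmat_comm {d δ R : ℕ} (Φ : FSp d δ R) {T : Fin d → ℚ[X]}
    {A : Fin d → Matrix (Fin 2) (Fin 2) ℚ[X]}
    {Z : Fin d → Matrix (Fin 2) (Fin 2) (LaurentSeries ℚ)} (hZ : ∀ j, (Z j).det = 1)
    (hode : ∀ j b, IsSol (T j) (A j) (fun a => Z j a b))
    (hind : ∀ P : Fin R → ℚ[X], ∑ a, emb (P a) * mev Z (Φ.mon a) = 0 → P = 0)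
    (h : Fin d → Matrix (Fin 2) (Fin 2) ℚ) (hdet : ∀ j, (h j).det = 1) :
    (rmat Φ h).map C * bigB T A Φ.mon Φ.ρ = bigB T A Φ.mon Φ.ρ * (rmat Φ h).map C := by
  classical
  set B := bigB T A Φ.mon Φ.ρ with hB
  set S := rmat Φ h with hS
  have hdet' : ∀ j, (Z j * (h j).map (algebraMap ℚ (LaurentSeries ℚ))).det = 1 := by
    intro j
    rw [Matrix.det_mul, hZ j, one_mul]
    have := (RingHom.map_det (algebraMap ℚ (LaurentSeries ℚ)) (h j))
    rw [hdet j, map_one] at this
    rw [this]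
    rfl
  have e1 := isSol_big Φ hZ hode
  have e2 := isSol_big Φ hdet' (isSol_right hode h)
  ext1 α β
  have key : ∑ μ, emb ((S.map C * B - B * S.map C) α μ) * mev Z (Φ.mon μ) = 0 := by
    have h1 := e2 α
    simp only [rmat_spec Φ h Z hZ] at h1
    rw [dd_sum'] at h1
    simp_rw [dd_constMul] at h1
    rw [Finset.mul_sum] at h1
    have h2 : ∀ μ, emb (∏ j, T j) * (algebraMap ℚ (LaurentSeries ℚ) (S α μ) *
        dd (mev Z (Φ.mon μ))) = ∑ ν, emb (C (S α μ) * B μ ν) * mev Z (Φ.mon ν) := by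
      intro μ
      have h3 := e1 μ
      simp only at h3
      rw [mul_left_comm, h3, Finset.mul_sum]
      refine Finset.sum_congr rfl fun ν _ => ?_
      rw [map_mul, emb_C]
      ring
    simp_rw [← hS] at h1
    simp_rw [h2] at h1
    rw [Finset.sum_comm] at h1
    simp_rw [Finset.mul_sum] at h1
    rw [Finset.sum_comm (s := (Finset.univ : Finset (Fin R))) (t := Finset.univ)
      (f := fun x i => emb (bigB T A Φ.mon Φ.ρ α x) *
        (algebraMap ℚ (LaurentSeries ℚ) (S x i) * mev Z (Φ.mon i)))] at h1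
    have h4 : ∀ μ, emb ((S.map C * B - B * S.map C) α μ) * mev Z (Φ.mon μ) =
        (∑ x, emb (C (S α x) * B x μ) * mev Z (Φ.mon μ)) -
        ∑ x, emb (B α x) * (algebraMap ℚ (LaurentSeries ℚ) (S x μ) * mev Z (Φ.mon μ)) := by
      intro μ
      rw [Matrix.sub_apply, map_sub, sub_mul, Matrix.mul_apply, Matrix.mul_apply, map_sum,
        map_sum, Finset.sum_mul, Finset.sum_mul]
      congr 1
      refine Finset.sum_congr rfl fun x _ => ?_
      rw [map_mul, Matrix.map_apply, emb_C]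
      ring
    simp_rw [h4]
    rw [Finset.sum_sub_distrib, h1, sub_self]
  have h5 := congrFun (hind _ key) β
  simp only [Matrix.sub_apply, Pi.zero_apply] at h5
  exact sub_eq_zero.mp h5

theorem comm_big {d δ R : ℕ} (Φ : FSp d δ R) {T : Fin d → ℚ[X]}
    {A : Fin d → Matrix (Fin 2) (Fin 2) ℚ[X]}
    {Z : Fin d → Matrix (Fin 2) (Fin 2) (LaurentSeries ℚ)} (hZ : ∀ j, (Z j).det = 1)
    (hode : ∀ j b, IsSol (T j) (A j) (fun a => Z j a b))
    (hind : ∀ P : Fin R → ℚ[X], ∑ a, emb (P a) * mev Z (Φ.mon a) = 0 → P = 0)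
    (c : Fin R → ℚ) : ∃ S : Matrix (Fin R) (Fin R) ℚ,
      S.map C * bigB T A Φ.mon Φ.ρ = bigB T A Φ.mon Φ.ρ * S.map C ∧
      ∀ a, ∑ b, S a b * mev (fun _ => (1 : Matrix (Fin 2) (Fin 2) ℚ)) (Φ.mon b) = c a := by
  classical
  set B := bigB T A Φ.mon Φ.ρ with hB
  let V : Set (Fin R → ℚ) := {v | ∃ h : Fin d → Matrix (Fin 2) (Fin 2) ℚ, (∀ j, (h j).det = 1) ∧
    ∀ a, v a = mev h (Φ.mon a)}
  have hspan : Submodule.span ℚ V = ⊤ := by
    by_contra hne
    obtain ⟨f, hf0, hf⟩ := Submodule.exists_le_ker_of_lt_top _ (lt_top_iff_ne_top.mpr hne)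
    apply hf0
    have hc : (fun a => f (Pi.single a 1)) = (0 : Fin R → ℚ) := by
      apply Φ.ind
      intro h hdet
      rw [map_sum]
      have hmem : (fun a => mev h (Φ.mon a)) ∈ Submodule.span ℚ V :=
        Submodule.subset_span ⟨h, hdet, fun a => rfl⟩
      have h0 : f (fun a => mev h (Φ.mon a)) = 0 := hf hmem
      have h1 : f (fun a => mev h (Φ.mon a)) = ∑ a, mev h (Φ.mon a) * f (Pi.single a 1) := by
        conv_lhs => rw [pi_eq_sum_univ' (fun a => mev h (Φ.mon a))]
        rw [map_sum]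
        refine Finset.sum_congr rfl fun a _ => ?_
        rw [map_smul, smul_eq_mul]
      rw [h1] at h0
      rw [← h0]
      refine Finset.sum_congr rfl fun a _ => ?_
      rw [map_mul, MvPolynomial.eval_C, mul_comm]
      congr 1
      have := mev_eq_aeval (L := ℚ) h (Φ.mon a)
      rw [this, MvPolynomial.aeval_eq_eval]
    apply LinearMap.pi_ext'
    intro a
    ext
    have := congrFun hc a
    simpa using this
  have hmem : c ∈ Submodule.span ℚ V := by rw [hspan]; trivial
  induction hmem using Submodule.span_induction with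
  | mem v hv =>
    obtain ⟨h, hdet, hv⟩ := hv
    refine ⟨rmat Φ h, rmat_comm Φ hZ hode hind h hdet, fun a => ?_⟩
    have h1 := rmat_spec Φ h (K := ℚ) (fun _ => 1) (by simp) a
    rw [hv a]
    have h2 : (fun j => (1 : Matrix (Fin 2) (Fin 2) ℚ) * (h j).map (algebraMap ℚ ℚ)) = h := by
      funext j
      rw [one_mul]
      ext x y
      simp
    rw [h2] at h1
    rw [h1]
    rfl
  | zero =>
    refine ⟨0, ?_, fun a => by simp⟩
    have : (0 : Matrix (Fin R) (Fin R) ℚ).map (C : ℚ →+* ℚ[X]) = 0 := by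
      ext1 x y; simp
    rw [this, zero_mul, mul_zero]
  | add x y _ _ hx hy =>
    obtain ⟨S, hS1, hS2⟩ := hx
    obtain ⟨S', hS1', hS2'⟩ := hy
    refine ⟨S + S', ?_, fun a => ?_⟩
    · have : (S + S').map (C : ℚ →+* ℚ[X]) = S.map C + S'.map C := by
        ext1 x y; simp
      rw [this, add_mul, mul_add, hS1, hS1']
    · rw [Pi.add_apply, ← hS2 a, ← hS2' a, ← Finset.sum_add_distrib]
      refine Finset.sum_congr rfl fun b _ => ?_
      rw [Matrix.add_apply, add_mul]
  | smul r x _ hx =>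
    obtain ⟨S, hS1, hS2⟩ := hx
    refine ⟨r • S, ?_, fun a => ?_⟩
    · have : (r • S).map (C : ℚ →+* ℚ[X]) = C r • S.map C := by
        ext1 x y; simp
      rw [this, smul_mul_assoc, mul_smul_comm, hS1]
    · rw [Pi.smul_apply, ← hS2 a, smul_eq_mul, Finset.mul_sum]
      refine Finset.sum_congr rfl fun b _ => ?_
      rw [Matrix.smul_apply, smul_eq_mul, mul_assoc]

end Pool.Agent.Helper37.GP
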