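import Pool.Agent.Helper37.GP.Defs2

/-!
# GP-13 : polynomial functions on `SL₂^d`
-/

open Polynomial

namespace Pool.Agent.Helper37.GP

namespace FunSpace

/-- a product of four elementary matrices -/
def PM {A : Type} [CommRing A] (x : Fin 4 → A) : Matrix (Fin 2) (Fin 2) A :=
  !![(1 + x 0 * x 1) + ((1 + x 0 * x 1) * x 2 + x 0) * x 3, (1 + x 0 * x 1) * x 2 + x 0;
    x 1 + (x 1 * x 2 + 1) * x 3, x 1 * x 2 + 1]

theorem PM_det {A : Type} [CommRing A] (x : Fin 4 → A) : (PM x).det = 1 := by
  rw [PM, Matrix.det_fin_two_of]; ring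

theorem PM_map {A B : Type} [CommRing A] [CommRing B] (f : A →+* B) (x : Fin 4 → A) (a b : Fin 2) :
    f (PM x a b) = PM (fun i => f (x i)) a b := by
  fin_cases a <;> fin_cases b <;> simp [PM]

theorem exists_PM {K : Type} [Field K] (Z : Matrix (Fin 2) (Fin 2) K) (hZ : Z.det = 1) :
    ∃ x : Fin 4 → K, PM x = Z := by
  rw [Matrix.det_fin_two] at hZ
  -- choose the last parameter
  obtain ⟨t, ht⟩ : ∃ t : K, Z 1 0 - Z 1 1 * t ≠ 0 := by
    by_cases hc : Z 1 0 = 0
    · refine ⟨-1, ?_⟩
      intro h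
      rw [hc] at h hZ
      have : Z 1 1 = 0 := by simpa using h
      rw [this] at hZ
      simp at hZ
    · exact ⟨0, by simpa using hc⟩
  set a := Z 0 0 - Z 0 1 * t with ha
  set c := Z 1 0 - Z 1 1 * t with hc
  have hdet : a * Z 1 1 - Z 0 1 * c = 1 := by rw [ha, hc]; linear_combination hZ
  refine ⟨![(a - 1) / c, c, (Z 1 1 - 1) / c, t], ?_⟩
  have e1 : 1 + (a - 1) / c * c = a := by field_simp; ring
  have e2 : a * ((Z 1 1 - 1) / c) + (a - 1) / c = Z 0 1 := by
    field_simp
    linear_combination hdet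
  have e3 : c * ((Z 1 1 - 1) / c) + 1 = Z 1 1 := by field_simp; ring
  ext i j
  fin_cases i <;> fin_cases j
  · simp [PM, e1, e2]; rw [ha]; ring
  · simp [PM, e1, e2]
  · simp [PM, e3]; rw [hc]; ring
  · simp [PM, e3]

end FunSpace

open FunSpace in
theorem van_field {d : ℕ} {L K : Type} [Field L] [Field K] [CharZero L] [Algebra L K]
    {F : MvPolynomial (Var d) L}
    (hF : ∀ Z : Fin d → Matrix (Fin 2) (Fin 2) ℚ, (∀ j, (Z j).det = 1) →
      MvPolynomial.eval (fun v => algebraMap ℚ L (pt Z v)) F = 0)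
    (Z : Fin d → Matrix (Fin 2) (Fin 2) K) (hZ : ∀ j, (Z j).det = 1) :
    MvPolynomial.aeval (pt Z) F = 0 := by
  classical
  set P : Var d → MvPolynomial (Fin d × Fin 4) L :=
    pt (fun j => PM (fun i => MvPolynomial.X (j, i))) with hP
  have hev : ∀ {B : Type} [CommRing B] [Algebra L B] (x : Fin d × Fin 4 → B),
      MvPolynomial.aeval x (MvPolynomial.aeval P F) =
        MvPolynomial.aeval (pt fun j => PM fun i => x (j, i)) F := by
    intro B _ _ x
    have h1 : (MvPolynomial.aeval x).comp (MvPolynomial.aeval P) =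
        MvPolynomial.aeval (R := L) (pt fun j => PM fun i => x (j, i)) := by
      apply MvPolynomial.algHom_ext
      rintro ⟨j, a, b⟩
      simp only [AlgHom.comp_apply, MvPolynomial.aeval_X, hP, pt]
      have := PM_map (MvPolynomial.aeval x : MvPolynomial (Fin d × Fin 4) L →ₐ[L] B).toRingHom
        (fun i => (MvPolynomial.X (j, i) : MvPolynomial (Fin d × Fin 4) L)) a b
      simpa using this
    rw [← h1]; rfl
  have hG : MvPolynomial.aeval P F = 0 := by
    apply MvPolynomial.funext_set (fun _ => Set.range (algebraMap ℚ L))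
    · intro _
      exact Set.infinite_range_of_injective (algebraMap ℚ L).injective
    · intro x hx
      have hx' : ∀ p, ∃ q : ℚ, algebraMap ℚ L q = x p := fun p => hx p (Set.mem_univ _)
      choose q hq using hx'
      have h1 := hF (fun j => PM fun i => q (j, i)) (fun j => PM_det _)
      have h2 : (fun v => algebraMap ℚ L (pt (fun j => PM fun i => q (j, i)) v)) =
          pt (fun j => PM fun i => x (j, i)) := by
        funext v
        simp only [pt]
        rw [PM_map]
        simp only [hq]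
      rw [h2] at h1
      have h3 := hev x
      have e : ∀ {τ : Type} (y : τ → L) (p : MvPolynomial τ L),
          MvPolynomial.aeval y p = MvPolynomial.eval y p := by
        intro τ y p
        rw [← MvPolynomial.coe_aeval_eq_eval]; rfl
      rw [e, e] at h3
      rw [map_zero]
      exact h3.trans h1
  have hex : ∀ j, ∃ x : Fin 4 → K, PM x = Z j := fun j => exists_PM (Z j) (hZ j)
  choose x hx using hex
  have h1 := hev (fun p : Fin d × Fin 4 => x p.1 p.2)
  rw [hG, map_zero] at h1
  rw [h1]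
  congr 1
  congr 1
  funext v
  simp only [pt]
  rw [← hx]

theorem vanQ_field {d : ℕ} {F : MvPolynomial (Var d) ℚ} (hF : VanQ F) {K : Type} [Field K]
    [Algebra ℚ K] (Z : Fin d → Matrix (Fin 2) (Fin 2) K) (hZ : ∀ j, (Z j).det = 1) :
    MvPolynomial.aeval (pt Z) F = 0 := by
  apply van_field _ Z hZ
  intro Z hZ
  have := hF Z hZ
  simpa using this

/-- A basis (of monomials) of the polynomial functions of block degree `≤ δ` on `SL₂(ℚ)^d`. -/
theorem fspace (d δ : ℕ) : ∃ (R : ℕ) (mon : Fin R → (Var d →₀ ℕ)) (i₀ : Fin R)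
    (ρ : (Var d →₀ ℕ) → Fin R → ℚ), mon i₀ = 0 ∧ (∀ a, BDe δ (mon a)) ∧
    (∀ m, BDe δ m → VanQ (MvPolynomial.monomial m 1
      - ∑ a, MvPolynomial.C (ρ m a) * MvPolynomial.monomial (mon a) 1)) ∧
    (∀ c : Fin R → ℚ, VanQ (∑ a, MvPolynomial.C (c a) * MvPolynomial.monomial (mon a) 1) →
      c = 0) := by
  classical
  -- the functions on `SL₂(ℚ)^d`
  let SL : Type := {Z : Fin d → Matrix (Fin 2) (Fin 2) ℚ // ∀ j, (Z j).det = 1}
  let v : (Var d →₀ ℕ) → (SL → ℚ) := fun m Z => MvPolynomial.eval (pt Z.1) (MvPolynomial.monomial m 1)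
  let S : Set (Var d →₀ ℕ) := {m | BDe δ m}
  have hSfin : S.Finite := by
    have h1 : S ⊆ {m : Var d →₀ ℕ | m ≤ Finsupp.equivFunOnFinite.symm (fun _ => δ)} := by
      intro m hm
      intro x
      obtain ⟨j, a, b⟩ := x
      have h2 := hm j
      simp only [Finsupp.equivFunOnFinite_symm_apply_apply]
      calc m (j, a, b) ≤ ∑ b : Fin 2, m (j, a, b) :=
            Finset.single_le_sum (f := fun b => m (j, a, b)) (fun _ _ => Nat.zero_le _)
              (Finset.mem_univ b)
        _ ≤ ∑ a : Fin 2, ∑ b : Fin 2, m (j, a, b) :=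
            Finset.single_le_sum (f := fun a => ∑ b : Fin 2, m (j, a, b))
              (fun _ _ => Nat.zero_le _) (Finset.mem_univ a)
        _ ≤ δ := h2
    exact (Set.finite_Iic _).subset h1
  have h0S : (0 : Var d →₀ ℕ) ∈ S := by
    intro j; simp
  have h0 : LinearIndepOn ℚ v {(0 : Var d →₀ ℕ)} := by
    rw [linearIndepOn_singleton_iff]
    intro h
    have h1 := congrFun h ⟨fun _ => 1, fun _ => Matrix.det_one⟩
    simp [v] at h1
  have hst : ({(0 : Var d →₀ ℕ)} : Set (Var d →₀ ℕ)) ⊆ S := by simpa using h0S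
  set E := h0.extend hst with hE
  have hEs : E ⊆ S := h0.extend_subset hst
  have h0E : (0 : Var d →₀ ℕ) ∈ E := h0.subset_extend hst rfl
  have hind : LinearIndepOn ℚ v E := h0.linearIndepOn_extend hst
  have hspan : v '' S ⊆ Submodule.span ℚ (v '' E) := h0.image_subset_span_image_extend hst
  have hEfin : E.Finite := hSfin.subset hEs
  haveI : Fintype E := hEfin.fintype
  let e : Fin (Fintype.card E) ≃ E := (Fintype.equivFin E).symm
  have hρ : ∀ m, ∃ ρ : Fin (Fintype.card E) → ℚ, BDe δ m → v m = ∑ a, ρ a • v (e a).1 := by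
    intro m
    by_cases hm : BDe δ m
    · have h1 := hspan ⟨m, hm, rfl⟩
      have h2 : v '' E = Set.range (fun a => v (e a).1) := by
        ext f
        constructor
        · rintro ⟨x, hx, rfl⟩
          exact ⟨e.symm ⟨x, hx⟩, by simp⟩
        · rintro ⟨a, rfl⟩
          exact ⟨(e a).1, (e a).2, rfl⟩
      rw [h2] at h1
      obtain ⟨ρ, hρ⟩ := (Submodule.mem_span_range_iff_exists_fun ℚ).1 h1
      exact ⟨ρ, fun _ => hρ.symm⟩
    · exact ⟨0, fun h => absurd h hm⟩
  choose ρ hρ using hρ
  refine ⟨Fintype.card E, fun a => (e a).1, e.symm ⟨0, h0E⟩, ρ, by simp, fun a => hEs (e a).2,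
    ?_, ?_⟩
  · intro m hm Z hZ
    have h1 := congrFun (hρ m hm) ⟨Z, hZ⟩
    simp only [Finset.sum_apply, Pi.smul_apply, smul_eq_mul, v] at h1
    rw [map_sub, map_sum, h1]
    simp
  · intro c hc
    have hli : LinearIndependent ℚ (fun a => v (e a).1) := by
      have := hind.linearIndependent
      exact this.comp e e.injective
    rw [Fintype.linearIndependent_iff] at hli
    funext a
    apply hli c _ a
    funext Z
    have h1 := hc Z.1 Z.2
    rw [map_sum] at h1
    simpa [v] using h1

end Pool.Agent.Helper37.GP
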