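import Pool.Agent.Helper37.GP.Defs

/-!
# GP-1 : Laurent series calculus (MP_290158_ag)
-/

open Polynomial

namespace Pool.Agent.Helper37.GP

/-! ### Products as finite sums -/

/-- The coefficients of a product, as sums over an integer interval. -/
theorem coeff_mul_Icc {f g : LaurentSeries ℚ} {M N : ℤ} (hf : OrdGE M f) (hg : OrdGE N g)
    (n : ℤ) : (f * g).coeff n = ∑ i ∈ Finset.Icc M (n - N), f.coeff i * g.coeff (n - i) := by
  rw [HahnSeries.coeff_mul]
  refine Finset.sum_of_injOn (fun ij => ij.1) ?_ ?_ ?_ ?_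
  · rintro ⟨i, j⟩ hij ⟨i', j'⟩ hij' h
    rw [Finset.mem_coe, Finset.mem_antidiagonal] at hij hij'
    obtain ⟨_, _, h3⟩ := hij
    obtain ⟨_, _, h3'⟩ := hij'
    simp only at h h3 h3'
    simp only [Prod.mk.injEq]
    constructor
    · exact h
    · omega
  · rintro ⟨i, j⟩ hij
    rw [Finset.mem_coe, Finset.mem_antidiagonal] at hij
    obtain ⟨h1, h2, h3⟩ := hij
    simp only [HahnSeries.mem_support] at h1 h2 h3
    simp only [Finset.coe_Icc, Set.mem_Icc]
    constructor
    · by_contra hlt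
      exact h1 (hf i (by omega))
    · by_contra hlt
      exact h2 (hg j (by omega))
  · intro i _ hi
    by_contra hne
    apply hi
    refine ⟨(i, n - i), ?_, rfl⟩
    rw [Finset.mem_coe, Finset.mem_antidiagonal]
    refine ⟨left_ne_zero_of_mul hne, right_ne_zero_of_mul hne, ?_⟩
    simp
  · rintro ⟨i, j⟩ hij
    rw [Finset.mem_antidiagonal] at hij
    obtain ⟨_, _, h3⟩ := hij
    simp only at h3
    have : j = n - i := by omega
    simp [this]

theorem exists_ordGE (f : LaurentSeries ℚ) : ∃ N : ℤ, OrdGE N f :=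
  ⟨f.order, fun _ hi => HahnSeries.coeff_eq_zero_of_lt_order hi⟩

/-! ### The embedding -/

theorem emb_C (c : ℚ) : emb (C c) = algebraMap ℚ (LaurentSeries ℚ) c := by
  simp [emb]

theorem emb_X : emb X = HahnSeries.single (-1 : ℤ) (1 : ℚ) := by
  simp [emb]

theorem algebraMap_eq_single (c : ℚ) :
    algebraMap ℚ (LaurentSeries ℚ) c = HahnSeries.single (0 : ℤ) c := by
  have h : (algebraMap ℚ (LaurentSeries ℚ)) = (HahnSeries.C : ℚ →+* LaurentSeries ℚ) :=
    RingHom.ext_rat _ _
  rw [h, HahnSeries.C_apply]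

theorem emb_monomial (k : ℕ) (c : ℚ) :
    emb (monomial k c) = HahnSeries.single (-(k : ℤ)) c := by
  rw [← C_mul_X_pow_eq_monomial, map_mul, map_pow, emb_C, emb_X, algebraMap_eq_single,
    HahnSeries.single_pow, HahnSeries.single_mul_single]
  simp

theorem emb_coeff (p : ℚ[X]) (n : ℤ) :
    (emb p).coeff n = if n ≤ 0 then p.coeff (-n).toNat else 0 := by
  induction p using Polynomial.induction_on' with
  | add p q hp hq =>
    rw [map_add, HahnSeries.coeff_add, hp, hq]
    split_ifs <;> simp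
  | monomial k c =>
    rw [emb_monomial, HahnSeries.coeff_single]
    by_cases hn : n ≤ 0
    · rw [if_pos hn, coeff_monomial]
      by_cases h : n = -(k : ℤ)
      · rw [if_pos h, if_pos (by omega)]
      · rw [if_neg h, if_neg (by omega)]
    · rw [if_neg hn, if_neg (by omega)]

theorem emb_coeff_neg (p : ℚ[X]) (k : ℕ) : (emb p).coeff (-(k : ℤ)) = p.coeff k := by
  rw [emb_coeff, if_pos (by omega)]
  congr 1
  omega

theorem emb_coeff_pos (p : ℚ[X]) {n : ℤ} (hn : 0 < n) : (emb p).coeff n = 0 := by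
  rw [emb_coeff, if_neg (by omega)]

theorem emb_injective : Function.Injective emb := by
  intro p q h
  ext k
  rw [← emb_coeff_neg, ← emb_coeff_neg, h]

/-! ### The derivation -/

theorem dd_coeff (f : LaurentSeries ℚ) (n : ℤ) :
    (dd f).coeff n = -((n : ℚ) - 1) * f.coeff (n - 1) := by
  have h : n = (n - 2) + 2 := by ring
  rw [dd, HahnSeries.coeff_neg]
  conv_lhs => rw [h]
  rw [HahnSeries.coeff_single_mul_add]
  rw [LaurentSeries.derivative_apply, LaurentSeries.hasseDeriv_coeff, Ring.choose_one_right]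
  have h2 : n - 2 + ((1 : ℕ) : ℤ) = n - 1 := by push_cast; ring
  rw [h2, zsmul_eq_mul]
  push_cast
  ring

theorem dd_add (f g : LaurentSeries ℚ) : dd (f + g) = dd f + dd g := by
  ext n
  simp only [dd_coeff, HahnSeries.coeff_add]
  ring

theorem dd_zero : dd (0 : LaurentSeries ℚ) = 0 := by
  ext n
  simp only [dd_coeff, HahnSeries.coeff_zero]
  ring

theorem dd_sum {ι : Type} (s : Finset ι) (f : ι → LaurentSeries ℚ) :
    dd (∑ i ∈ s, f i) = ∑ i ∈ s, dd (f i) := by
  classical
  induction s using Finset.induction_on with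
  | empty => simp [dd_zero]
  | insert a s ha ih => rw [Finset.sum_insert ha, Finset.sum_insert ha, dd_add, ih]

theorem ordGE_dd {f : LaurentSeries ℚ} {N : ℤ} (hf : OrdGE N f) : OrdGE (N + 1) (dd f) := by
  intro i hi
  rw [dd_coeff, hf _ (by omega), mul_zero]

theorem dd_mul (f g : LaurentSeries ℚ) : dd (f * g) = f * dd g + dd f * g := by
  obtain ⟨M, hf⟩ := exists_ordGE f
  obtain ⟨N, hg⟩ := exists_ordGE g
  ext n
  rw [dd_coeff, HahnSeries.coeff_add, coeff_mul_Icc hf hg, coeff_mul_Icc hf (ordGE_dd hg),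
    coeff_mul_Icc (ordGE_dd hf) hg]
  have h1 : ∑ i ∈ Finset.Icc (M + 1) (n - N), (dd f).coeff i * g.coeff (n - i) =
      ∑ i ∈ Finset.Icc M (n - 1 - N), (dd f).coeff (i + 1) * g.coeff (n - 1 - i) := by
    refine Finset.sum_nbij' (fun i => i - 1) (fun i => i + 1) ?_ ?_ ?_ ?_ ?_
    · intro i hi
      simp only [Finset.mem_Icc] at hi ⊢
      omega
    · intro i hi
      simp only [Finset.mem_Icc] at hi ⊢
      omega
    · intro i _
      ring
    · intro i _
      ring
    · intro i _
      have e1 : i - 1 + 1 = i := by ring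
      have e2 : n - 1 - (i - 1) = n - i := by ring
      rw [e1, e2]
  have h2 : n - (N + 1) = n - 1 - N := by ring
  rw [h1, h2, Finset.mul_sum, ← Finset.sum_add_distrib]
  refine Finset.sum_congr rfl fun i _ => ?_
  rw [dd_coeff, dd_coeff]
  have e1 : i + 1 - 1 = i := by ring
  have e2 : n - i - 1 = n - 1 - i := by ring
  rw [e1, e2]
  push_cast
  ring

theorem dd_emb (p : ℚ[X]) : dd (emb p) = emb (derivative p) := by
  ext n
  rw [dd_coeff, emb_coeff, emb_coeff]
  by_cases hn : n ≤ 0
  · rw [if_pos hn, if_pos (by omega), coeff_derivative]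
    have e1 : (-(n - 1)).toNat = (-n).toNat + 1 := by omega
    rw [e1]
    have e2 : (((-n).toNat : ℕ) : ℚ) = -(n : ℚ) := by
      have : (((-n).toNat : ℕ) : ℤ) = -n := by omega
      exact_mod_cast this
    rw [e2]
    ring
  · rw [if_neg hn]
    by_cases h1 : n = 1
    · subst h1
      simp
    · rw [if_neg (by omega), mul_zero]

theorem dd_eq_zero {f : LaurentSeries ℚ} (h : dd f = 0) :
    ∃ c : ℚ, f = algebraMap ℚ (LaurentSeries ℚ) c := by
  refine ⟨f.coeff 0, ?_⟩
  rw [algebraMap_eq_single]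
  ext n
  rw [HahnSeries.coeff_single]
  by_cases hn : n = 0
  · rw [if_pos hn, hn]
  · rw [if_neg hn]
    have h1 : (dd f).coeff (n + 1) = 0 := by rw [h]; rfl
    rw [dd_coeff] at h1
    have e1 : n + 1 - 1 = n := by ring
    rw [e1] at h1
    have hn' : (n : ℚ) ≠ 0 := by exact_mod_cast hn
    rcases mul_eq_zero.mp h1 with h2 | h2
    · exfalso
      apply hn'
      push_cast at h2
      linarith
    · exact h2

/-! ### Orders -/

theorem ordGE_mono {f : LaurentSeries ℚ} {M N : ℤ} (hMN : M ≤ N) (h : OrdGE N f) :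
    OrdGE M f := fun i hi => h i (by omega)

theorem ordGE_add {f g : LaurentSeries ℚ} {N : ℤ} (hf : OrdGE N f) (hg : OrdGE N g) :
    OrdGE N (f + g) := fun i hi => by
  rw [HahnSeries.coeff_add, hf i hi, hg i hi, add_zero]

theorem ordGE_sum {ι : Type} (s : Finset ι) (f : ι → LaurentSeries ℚ) {N : ℤ}
    (h : ∀ i ∈ s, OrdGE N (f i)) : OrdGE N (∑ i ∈ s, f i) := by
  intro n hn
  rw [HahnSeries.coeff_sum]
  exact Finset.sum_eq_zero fun i hi => h i hi n hn

theorem ordGE_mul {f g : LaurentSeries ℚ} {M N : ℤ} (hf : OrdGE M f) (hg : OrdGE N g) :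
    OrdGE (M + N) (f * g) := by
  intro n hn
  rw [coeff_mul_Icc hf hg, Finset.Icc_eq_empty (by omega), Finset.sum_empty]

theorem ordGE_emb {p : ℚ[X]} {D : ℕ} (hp : p.natDegree ≤ D) : OrdGE (-(D : ℤ)) (emb p) := by
  intro n hn
  rw [emb_coeff, if_pos (by omega)]
  exact coeff_eq_zero_of_natDegree_lt (by omega)

theorem ps_coeff (f : PowerSeries ℚ) (n : ℤ) :
    (ps f).coeff n = if n < 0 then 0 else PowerSeries.coeff n.natAbs f :=
  PowerSeries.coeff_coe f n

theorem ordGE_ps (f : PowerSeries ℚ) : OrdGE 0 (ps f) := by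
  intro n hn
  rw [ps_coeff, if_pos hn]

/-- A nonzero polynomial times a series with nonzero constant term has order `- deg`. -/
theorem le_of_ordGE_emb_mul {p : ℚ[X]} (hp : p ≠ 0) {f : LaurentSeries ℚ} (hf : OrdGE 0 f)
    (h0 : f.coeff 0 ≠ 0) {N : ℤ} (h : OrdGE N (emb p * f)) : N ≤ -(p.natDegree : ℤ) := by
  by_contra hlt
  have h1 := h (-(p.natDegree : ℤ)) (by omega)
  rw [coeff_mul_Icc (ordGE_emb le_rfl) hf, sub_zero, Finset.Icc_self, Finset.sum_singleton,
    emb_coeff_neg, sub_self] at h1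
  rcases mul_eq_zero.mp h1 with h2 | h2
  · exact hp (leadingCoeff_eq_zero.mp h2)
  · exact h0 h2

/-- Uniqueness at a regular point: a solution of `T e' = B e`, with `deg B ≤ deg T - 2`,
vanishing at `s = ∞` is zero. -/
theorem sol_unique {ι : Type} [Fintype ι] {T : ℚ[X]} {B : Matrix ι ι ℚ[X]}
    (hB : ∀ a b, (B a b).natDegree + 2 ≤ T.natDegree)
    {e : ι → LaurentSeries ℚ} (he : IsSol T B e) (h1 : ∀ a, OrdGE 1 (e a)) :
    ∀ a, e a = 0 := by
  classical
  by_contra hcon
  push Not at hcon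
  obtain ⟨a₀, ha₀⟩ := hcon
  have hex : ∃ n : ℕ, ∃ a, (e a).coeff (n : ℤ) ≠ 0 := by
    by_contra hall
    push Not at hall
    apply ha₀
    ext n
    by_cases hn : n < 1
    · exact h1 a₀ n hn
    · have := hall n.toNat a₀
      rw [show ((n.toNat : ℕ) : ℤ) = n by omega] at this
      exact this
  obtain ⟨a, ha⟩ := Nat.find_spec hex
  set n := Nat.find hex with hn
  have hmin : ∀ b, OrdGE (n : ℤ) (e b) := by
    intro b i hi
    by_cases hi1 : i < 1
    · exact h1 b i hi1
    · have := Nat.find_min hex (m := i.toNat) (by omega)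
      push Not at this
      have h2 := this b
      rw [show ((i.toNat : ℕ) : ℤ) = i by omega] at h2
      exact h2
  have hn1 : 1 ≤ n := by
    by_contra hlt
    exact ha (h1 a _ (by omega))
  have heq := congrArg (fun f : LaurentSeries ℚ => f.coeff ((n : ℤ) + 1 - T.natDegree)) (he a)
  have hr : (∑ b, emb (B a b) * e b).coeff ((n : ℤ) + 1 - T.natDegree) = 0 := by
    have : OrdGE (-((T.natDegree : ℤ) - 2) + n) (∑ b, emb (B a b) * e b) := by
      refine ordGE_sum _ _ fun b _ => ?_
      refine ordGE_mul ?_ (hmin b)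
      have h3 := hB a b
      have h4 := ordGE_emb (p := B a b) (D := T.natDegree - 2) (by omega)
      refine ordGE_mono ?_ h4
      omega
    exact this _ (by omega)
  rw [hr, coeff_mul_Icc (ordGE_emb (le_refl T.natDegree)) (ordGE_dd (hmin a))] at heq
  have e1 : (n : ℤ) + 1 - T.natDegree - (n + 1) = -(T.natDegree : ℤ) := by ring
  have e2 : (n : ℤ) + 1 - T.natDegree - -(T.natDegree : ℤ) = n + 1 := by ring
  rw [e1, Finset.Icc_self, Finset.sum_singleton, emb_coeff_neg, e2, dd_coeff] at heq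
  have e3 : (n : ℤ) + 1 - 1 = n := by ring
  rw [e3] at heq
  have hT : T.coeff T.natDegree ≠ 0 := by
    have h3 := hB a a
    intro h0
    have : T = 0 := leadingCoeff_eq_zero.mp h0
    rw [this] at h3
    simp at h3
  have hn0 : (n : ℚ) ≠ 0 := by
    have : n ≠ 0 := by omega
    exact_mod_cast this
  rcases mul_eq_zero.mp heq with h2 | h2
  · exact hT h2
  · rcases mul_eq_zero.mp h2 with h3 | h3
    · apply hn0
      push_cast at h3
      linarith
    · exact ha h3

end Pool.Agent.Helper37.GP
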