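import Pool.Agent.Helper37.GP.Defs4
import Pool.Agent.Helper37.GP.LS
import Pool.Agent.Helper37.GP.FunSpace

/-!
# The tensor system: solutions and commutant
-/

open Polynomial

namespace Pool.Agent.Helper37.GP

theorem mev_eq_aeval {d : ℕ} {L K : Type} [CommSemiring L] [CommSemiring K] [Algebra L K]
    (Z : Fin d → Matrix (Fin 2) (Fin 2) K) (m : Var d →₀ ℕ) :
    mev Z m = MvPolynomial.aeval (pt Z) (MvPolynomial.monomial m (1 : L)) := by
  rw [MvPolynomial.aeval_monomial, map_one, one_mul, Finsupp.prod_fintype _ _ (by simp)]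
  rfl

theorem mev_add {d : ℕ} {K : Type} [CommSemiring K] (Z : Fin d → Matrix (Fin 2) (Fin 2) K)
    (m m' : Var d →₀ ℕ) : mev Z (m + m') = mev Z m * mev Z m' := by
  unfold mev
  rw [← Finset.prod_mul_distrib]
  exact Finset.prod_congr rfl fun v _ => by rw [Finsupp.add_apply, pow_add]

theorem mev_single {d : ℕ} {K : Type} [CommSemiring K] (Z : Fin d → Matrix (Fin 2) (Fin 2) K)
    (v : Var d) : mev Z (Finsupp.single v 1) = pt Z v := by
  classical
  unfold mev
  rw [Finset.prod_eq_single v]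
  · simp
  · intro w _ hw
    rw [Finsupp.single_apply, if_neg (Ne.symm hw), pow_zero]
  · simp

theorem mev_zero {d : ℕ} {K : Type} [CommSemiring K] (Z : Fin d → Matrix (Fin 2) (Fin 2) K) :
    mev Z (0 : Var d →₀ ℕ) = 1 := by
  simp [mev]

theorem red_field {d δ R : ℕ} (Φ : FSp d δ R) {K : Type} [Field K] [Algebra ℚ K]
    (Z : Fin d → Matrix (Fin 2) (Fin 2) K) (hZ : ∀ j, (Z j).det = 1) {m : Var d →₀ ℕ}
    (hm : BDe δ m) : mev Z m = ∑ μ, algebraMap ℚ K (Φ.ρ m μ) * mev Z (Φ.mon μ) := by
  have h := vanQ_field (Φ.red m hm) Z hZ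
  rw [map_sub, map_sum, sub_eq_zero, ← mev_eq_aeval] at h
  rw [h]
  refine Finset.sum_congr rfl fun μ _ => ?_
  rw [map_mul, ← mev_eq_aeval, MvPolynomial.aeval_C]

/-- The derivation `d/ds` evaluated on polynomial expressions. -/
theorem dd_aeval {σ : Type} [Fintype σ] (x : σ → LaurentSeries ℚ) (p : MvPolynomial σ ℚ) :
    dd (MvPolynomial.aeval x p) =
      ∑ v, MvPolynomial.aeval x (MvPolynomial.pderiv v p) * dd (x v) := by
  classical
  have hC : ∀ c : ℚ, dd (algebraMap ℚ (LaurentSeries ℚ) c) = 0 := by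
    intro c
    rw [← emb_C, dd_emb, derivative_C, map_zero]
  induction p using MvPolynomial.induction_on with
  | C a =>
    rw [← MvPolynomial.algebraMap_eq, AlgHom.commutes, hC]
    simp
  | add p q hp hq =>
    rw [map_add, dd_add, hp, hq, ← Finset.sum_add_distrib]
    refine Finset.sum_congr rfl fun v _ => ?_
    rw [map_add, map_add]; ring
  | mul_X p n hp =>
    rw [map_mul, dd_mul, hp, MvPolynomial.aeval_X]
    have : ∀ v, MvPolynomial.aeval x (MvPolynomial.pderiv v (p * MvPolynomial.X n)) * dd (x v) =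
        MvPolynomial.aeval x (MvPolynomial.pderiv v p) * dd (x v) * x n +
          (if v = n then MvPolynomial.aeval x p * dd (x v) else 0) := by
      intro v
      rw [Derivation.leibniz, map_add, smul_eq_mul, smul_eq_mul, map_mul, map_mul,
        MvPolynomial.aeval_X]
      by_cases hv : v = n
      · subst hv
        rw [MvPolynomial.pderiv_X_self, if_pos rfl, map_one]; ring
      · rw [MvPolynomial.pderiv_X_of_ne (Ne.symm hv), if_neg hv, map_zero]; ring
    simp_rw [this]
    rw [Finset.sum_add_distrib, Finset.sum_ite_eq' Finset.univ n, if_pos (Finset.mem_univ n),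
      ← Finset.sum_mul]
    ring

theorem dd_mev {d : ℕ} (Z : Fin d → Matrix (Fin 2) (Fin 2) (LaurentSeries ℚ)) (m : Var d →₀ ℕ) :
    dd (mev Z m) = ∑ v, (m v : LaurentSeries ℚ) * mev Z (m - Finsupp.single v 1) * dd (pt Z v) := by
  rw [mev_eq_aeval (L := ℚ), dd_aeval]
  refine Finset.sum_congr rfl fun v _ => ?_
  rw [MvPolynomial.pderiv_monomial, one_mul, MvPolynomial.aeval_monomial, mev_eq_aeval (L := ℚ),
    MvPolynomial.aeval_monomial, map_one, one_mul]
  simp

theorem bde_move {d δ : ℕ} {m : Var d →₀ ℕ} (hm : BDe δ m) {j : Fin d} {a b c : Fin 2}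
    (h : m (j, a, b) ≠ 0) :
    BDe δ (m - Finsupp.single (j, a, b) 1 + Finsupp.single (j, c, b) 1) := by
  classical
  intro i
  by_cases hi : i = j
  · subst hi
    have h1 := hm i
    simp only [Finsupp.add_apply, Finsupp.tsub_apply, Finsupp.single_apply, Fin.sum_univ_two,
      Prod.mk.injEq, true_and] at h1 ⊢
    fin_cases a <;> fin_cases b <;> fin_cases c <;> simp at h h1 ⊢ <;> omega
  · have h1 := hm i
    have h2 : ∀ x y : Fin 2, (m - Finsupp.single (j, a, b) 1 + Finsupp.single (j, c, b) 1 :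
        Var d →₀ ℕ) (i, x, y) = m (i, x, y) := by
      intro x y
      simp [Finsupp.add_apply, Finsupp.tsub_apply, Finsupp.single_apply, Ne.symm hi]
    simp_rw [h2]
    exact h1

theorem isSol_big {d δ R : ℕ} (Φ : FSp d δ R) {T : Fin d → ℚ[X]}
    {A : Fin d → Matrix (Fin 2) (Fin 2) ℚ[X]}
    {Z : Fin d → Matrix (Fin 2) (Fin 2) (LaurentSeries ℚ)} (hZ : ∀ j, (Z j).det = 1)
    (hode : ∀ j b, IsSol (T j) (A j) (fun a => Z j a b)) :
    IsSol (∏ j, T j) (bigB T A Φ.mon Φ.ρ) (fun α => mev Z (Φ.mon α)) := by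
  classical
  intro α
  set m := Φ.mon α with hm
  have hbd : BDe δ m := Φ.hd α
  show emb (∏ j, T j) * dd (mev Z m) = _
  rw [dd_mev, Finset.mul_sum]
  -- each variable
  have key : ∀ j a b, emb (∏ j, T j) * ((m (j, a, b) : LaurentSeries ℚ) *
      mev Z (m - Finsupp.single (j, a, b) 1) * dd (pt Z (j, a, b))) =
      ∑ μ, emb ((∏ i ∈ Finset.univ.erase j, T i) * ∑ c, A j a c *
        C ((m (j, a, b) : ℚ) * Φ.ρ (m - Finsupp.single (j, a, b) 1 + Finsupp.single (j, c, b) 1) μ))
        * mev Z (Φ.mon μ) := by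
    intro j a b
    rw [← Finset.mul_prod_erase Finset.univ T (Finset.mem_univ j), map_mul]
    have h1 : emb (T j) * dd (pt Z (j, a, b)) = ∑ c, emb (A j a c) * Z j c b := hode j b a
    calc emb (T j) * emb (∏ i ∈ Finset.univ.erase j, T i) * ((m (j, a, b) : LaurentSeries ℚ) *
          mev Z (m - Finsupp.single (j, a, b) 1) * dd (pt Z (j, a, b)))
        = emb (∏ i ∈ Finset.univ.erase j, T i) * ((m (j, a, b) : LaurentSeries ℚ) *
          mev Z (m - Finsupp.single (j, a, b) 1)) * (emb (T j) * dd (pt Z (j, a, b))) := by ring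
      _ = ∑ c, emb (∏ i ∈ Finset.univ.erase j, T i) * emb (A j a c) *
          ((m (j, a, b) : LaurentSeries ℚ) *
            mev Z (m - Finsupp.single (j, a, b) 1 + Finsupp.single (j, c, b) 1)) := by
          rw [h1, Finset.mul_sum]
          refine Finset.sum_congr rfl fun c _ => ?_
          rw [mev_add, mev_single]
          simp only [pt]
          ring
      _ = ∑ c, emb (∏ i ∈ Finset.univ.erase j, T i) * emb (A j a c) *
          ∑ μ, algebraMap ℚ (LaurentSeries ℚ) ((m (j, a, b) : ℚ) *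
            Φ.ρ (m - Finsupp.single (j, a, b) 1 + Finsupp.single (j, c, b) 1) μ) *
              mev Z (Φ.mon μ) := by
          refine Finset.sum_congr rfl fun c _ => ?_
          congr 1
          by_cases h0 : m (j, a, b) = 0
          · rw [h0]; simp
          · rw [red_field Φ Z hZ (bde_move hbd h0), Finset.mul_sum]
            refine Finset.sum_congr rfl fun μ _ => ?_
            rw [map_mul, map_natCast]; ring
      _ = _ := by
          simp_rw [Finset.mul_sum]
          rw [Finset.sum_comm]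
          refine Finset.sum_congr rfl fun μ _ => ?_
          rw [map_sum, Finset.sum_mul]
          refine Finset.sum_congr rfl fun c _ => ?_
          rw [map_mul emb, map_mul emb, emb_C]
          ring
  rw [Fintype.sum_prod_type]
  simp_rw [Fintype.sum_prod_type]
  simp_rw [key]
  have hR : ∀ μ, emb (bigB T A Φ.mon Φ.ρ α μ) * mev Z (Φ.mon μ) = ∑ j, ∑ a, ∑ b,
      emb ((∏ i ∈ Finset.univ.erase j, T i) * ∑ c, A j a c *
        C ((m (j, a, b) : ℚ) * Φ.ρ (m - Finsupp.single (j, a, b) 1 + Finsupp.single (j, c, b) 1) μ))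
        * mev Z (Φ.mon μ) := by
    intro μ
    simp only [bigB, Matrix.of_apply]
    rw [map_sum, Finset.sum_mul]
    refine Finset.sum_congr rfl fun j _ => ?_
    rw [Finset.mul_sum, map_sum, Finset.sum_mul]
    refine Finset.sum_congr rfl fun a _ => ?_
    rw [Finset.mul_sum, map_sum, Finset.sum_mul]
  simp_rw [hR]
  rw [Finset.sum_comm (s := (Finset.univ : Finset (Fin R)))]
  refine Finset.sum_congr rfl fun j _ => ?_
  rw [Finset.sum_comm (s := (Finset.univ : Finset (Fin R)))]
  refine Finset.sum_congr rfl fun a _ => ?_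
  rw [Finset.sum_comm (s := (Finset.univ : Finset (Fin R)))]

end Pool.Agent.Helper37.GP
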