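import Pool.Agent.Helper37.GP.Rows
import Pool.Agent.Helper37.GP.BigSys

/-!
# GP-20d : Galochkin's condition for the tensor system
-/

open Polynomial

namespace Pool.Agent.Helper37.GP

namespace BigGal


/-! ### divided derivatives -/

/-- the divided iterates -/
noncomputable def dv (f : (LaurentSeries ℚ)) (n : ℕ) : (LaurentSeries ℚ) := algebraMap ℚ (LaurentSeries ℚ) ((n.factorial : ℚ)⁻¹) * dd^[n] f

lemma dd_const (c : ℚ) : dd (algebraMap ℚ (LaurentSeries ℚ) c) = 0 := by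
  rw [← emb_C, dd_emb, derivative_C, map_zero]

lemma dd_zero : dd 0 = 0 := by
  have := dd_const 0
  rwa [map_zero] at this

lemma dv_succ (f : (LaurentSeries ℚ)) (n : ℕ) : ((n : (LaurentSeries ℚ)) + 1) * dv f (n + 1) = dd (dv f n) := by
  unfold dv
  rw [dd_mul, dd_const, zero_mul, add_zero, Function.iterate_succ_apply', ← mul_assoc]
  congr 1
  have h : ((n : (LaurentSeries ℚ)) + 1) = algebraMap ℚ (LaurentSeries ℚ) ((n : ℚ) + 1) := by
    rw [map_add, map_natCast, map_one]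
  rw [h, ← map_mul]
  congr 1
  rw [Nat.factorial_succ]
  push_cast
  have h1 : ((n : ℚ) + 1) ≠ 0 := by positivity
  have h2 : (n.factorial : ℚ) ≠ 0 := by positivity
  field_simp

lemma succ_ne (n : ℕ) : ((n : (LaurentSeries ℚ)) + 1) ≠ 0 := by
  have h : ((n : (LaurentSeries ℚ)) + 1) = algebraMap ℚ (LaurentSeries ℚ) ((n : ℚ) + 1) := by
    rw [map_add, map_natCast, map_one]
  rw [h, Ne, map_eq_zero]
  positivity

lemma dv_mul (f g : (LaurentSeries ℚ)) (n : ℕ) :
    dv (f * g) n = ∑ p ∈ Finset.HasAntidiagonal.antidiagonal n, dv f p.1 * dv g p.2 := by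
  induction n with
  | zero => simp [dv]
  | succ n ih =>
    apply mul_left_cancel₀ (succ_ne n)
    rw [dv_succ, ih, dd_sum]
    have h1 : ∀ p ∈ Finset.HasAntidiagonal.antidiagonal n, dd (dv f p.1 * dv g p.2) =
        ((p.1 : (LaurentSeries ℚ)) + 1) * (dv f (p.1 + 1) * dv g p.2) +
        ((p.2 : (LaurentSeries ℚ)) + 1) * (dv f p.1 * dv g (p.2 + 1)) := by
      intro p _
      rw [dd_mul, ← dv_succ, ← dv_succ]
      ring
    rw [Finset.sum_congr rfl h1, Finset.sum_add_distrib]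
    have h2 : ((n : (LaurentSeries ℚ)) + 1) * ∑ p ∈ Finset.HasAntidiagonal.antidiagonal (n + 1),
        dv f p.1 * dv g p.2 =
        (∑ p ∈ Finset.HasAntidiagonal.antidiagonal (n + 1), (p.1 : (LaurentSeries ℚ)) * (dv f p.1 * dv g p.2)) +
        ∑ p ∈ Finset.HasAntidiagonal.antidiagonal (n + 1), (p.2 : (LaurentSeries ℚ)) * (dv f p.1 * dv g p.2) := by
      rw [Finset.mul_sum, ← Finset.sum_add_distrib]
      refine Finset.sum_congr rfl fun p hp => ?_
      have hp' : p.1 + p.2 = n + 1 := Finset.HasAntidiagonal.mem_antidiagonal.1 hp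
      have : (n : (LaurentSeries ℚ)) + 1 = (p.1 : (LaurentSeries ℚ)) + (p.2 : (LaurentSeries ℚ)) := by
        rw [← Nat.cast_add, hp']; push_cast; rfl
      rw [this]
      ring
    rw [h2, Finset.Nat.sum_antidiagonal_succ, Finset.Nat.sum_antidiagonal_succ']
    simp only [Nat.cast_zero, zero_mul, zero_add, Nat.cast_add, Nat.cast_one]

/-! ### integrality -/

lemma intBy_mul {q q' : ℕ} {p p' : ℚ[X]} (h : IntBy q p) (h' : IntBy q' p') :
    IntBy (q * q') (p * p') := by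
  intro n
  rw [coeff_mul, Finset.mul_sum]
  choose z hz using h
  choose z' hz' using h'
  refine ⟨∑ x ∈ Finset.HasAntidiagonal.antidiagonal n, z x.1 * z' x.2, ?_⟩
  push_cast
  refine Finset.sum_congr rfl fun x _ => ?_
  rw [← hz, ← hz']
  ring

lemma intBy_mono {q q' : ℕ} {p : ℚ[X]} (h : IntBy q p) (hq : q ∣ q') : IntBy q' p := by
  obtain ⟨k, rfl⟩ := hq
  intro n
  obtain ⟨z, hz⟩ := h n
  exact ⟨k * z, by push_cast; rw [← hz]; ring⟩

lemma intBy_map (p : ℤ[X]) : IntBy 1 (p.map (Int.castRingHom ℚ)) := by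
  intro n
  exact ⟨p.coeff n, by simp⟩

lemma intBy_zero (q : ℕ) : IntBy q 0 := fun n => ⟨0, by simp⟩

lemma intBy_add {q : ℕ} {p p' : ℚ[X]} (h : IntBy q p) (h' : IntBy q p') : IntBy q (p + p') := by
  intro n
  obtain ⟨z, hz⟩ := h n
  obtain ⟨z', hz'⟩ := h' n
  exact ⟨z + z', by rw [coeff_add, mul_add, hz, hz']; push_cast; rfl⟩

lemma intBy_neg {q : ℕ} {p : ℚ[X]} (h : IntBy q p) : IntBy q (-p) := by
  intro n
  obtain ⟨z, hz⟩ := h n
  exact ⟨-z, by rw [coeff_neg, mul_neg, hz]; push_cast; rfl⟩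

/-! ### the modules of integral combinations of monomials -/

variable {d : ℕ}

/-- block degrees -/
def bdeg (m : Var d →₀ ℕ) (j : Fin d) : ℕ := ∑ a : Fin 2, ∑ b : Fin 2, m (j, a, b)

/-- integral combinations of monomials -/
noncomputable def W (Z : Fin d → Matrix (Fin 2) (Fin 2) (LaurentSeries ℚ)) (b : Fin d → ℕ) (M : ℕ) :
    AddSubgroup (LaurentSeries ℚ) :=
  AddSubgroup.closure {f | ∃ (p : ℚ[X]) (m : Var d →₀ ℕ), IntBy M p ∧ (∀ j, bdeg m j ≤ b j) ∧
    f = emb p * mev Z m}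

lemma mev_add {K : Type} [CommSemiring K] (Z : Fin d → Matrix (Fin 2) (Fin 2) K)
    (m m' : Var d →₀ ℕ) : mev Z (m + m') = mev Z m * mev Z m' := by
  unfold mev
  rw [← Finset.prod_mul_distrib]
  exact Finset.prod_congr rfl fun v _ => by rw [Finsupp.add_apply, pow_add]

lemma mev_zero {K : Type} [CommSemiring K] (Z : Fin d → Matrix (Fin 2) (Fin 2) K) :
    mev Z 0 = 1 := by
  simp [mev]

lemma mev_single {K : Type} [CommSemiring K] (Z : Fin d → Matrix (Fin 2) (Fin 2) K)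
    (v : Var d) : mev Z (Finsupp.single v 1) = pt Z v := by
  unfold mev
  rw [Finset.prod_eq_single v]
  · simp
  · intro w _ hw
    rw [Finsupp.single_apply, if_neg (Ne.symm hw), pow_zero]
  · simp

lemma bdeg_add (m m' : Var d →₀ ℕ) (j : Fin d) : bdeg (m + m') j = bdeg m j + bdeg m' j := by
  unfold bdeg
  simp only [Finsupp.add_apply, Finset.sum_add_distrib]

lemma bdeg_single (v : Var d) (j : Fin d) :
    bdeg (Finsupp.single v 1) j = if v.1 = j then 1 else 0 := by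
  obtain ⟨i, a, b⟩ := v
  unfold bdeg
  simp only [Fin.sum_univ_two, Finsupp.single_apply, Prod.mk.injEq]
  by_cases h : i = j
  · subst h
    fin_cases a <;> fin_cases b <;> simp
  · simp [h]

lemma gen_mem {Z : Fin d → Matrix (Fin 2) (Fin 2) (LaurentSeries ℚ)} {b : Fin d → ℕ} {M : ℕ} {p : ℚ[X]}
    {m : Var d →₀ ℕ} (hp : IntBy M p) (hm : ∀ j, bdeg m j ≤ b j) : emb p * mev Z m ∈ W Z b M :=
  AddSubgroup.subset_closure ⟨p, m, hp, hm, rfl⟩

lemma W_mono {Z : Fin d → Matrix (Fin 2) (Fin 2) (LaurentSeries ℚ)} {b b' : Fin d → ℕ} {M M' : ℕ}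
    (hb : ∀ j, b j ≤ b' j) (hM : M ∣ M') : W Z b M ≤ W Z b' M' := by
  unfold W
  rw [AddSubgroup.closure_le]
  rintro f ⟨p, m, hp, hm, rfl⟩
  exact AddSubgroup.subset_closure ⟨p, m, intBy_mono hp hM, fun j => (hm j).trans (hb j), rfl⟩

lemma W_mul {Z : Fin d → Matrix (Fin 2) (Fin 2) (LaurentSeries ℚ)} {b b' : Fin d → ℕ} {M M' : ℕ} {f g : (LaurentSeries ℚ)}
    (hf : f ∈ W Z b M) (hg : g ∈ W Z b' M') : f * g ∈ W Z (b + b') (M * M') := by
  induction hf using AddSubgroup.closure_induction with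
  | mem f hf =>
    obtain ⟨p, m, hp, hm, rfl⟩ := hf
    induction hg using AddSubgroup.closure_induction with
    | mem g hg =>
      obtain ⟨p', m', hp', hm', rfl⟩ := hg
      have e : emb p * mev Z m * (emb p' * mev Z m') = emb (p * p') * mev Z (m + m') := by
        rw [map_mul, mev_add]; ring
      rw [e]
      refine gen_mem (intBy_mul hp hp') fun j => ?_
      rw [bdeg_add]
      exact add_le_add (hm j) (hm' j)
    | zero => rw [mul_zero]; exact zero_mem _
    | add x y _ _ hx hy => rw [mul_add]; exact add_mem hx hy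
    | neg x _ hx => rw [mul_neg]; exact neg_mem hx
  | zero => rw [zero_mul]; exact zero_mem _
  | add x y _ _ hx hy => rw [add_mul]; exact add_mem hx hy
  | neg x _ hx => rw [neg_mul]; exact neg_mem hx

/-- all weighted divided derivatives of order `≤ J` are integral combinations -/
def Pr (Z : Fin d → Matrix (Fin 2) (Fin 2) (LaurentSeries ℚ)) (t : (LaurentSeries ℚ)) (J : ℕ) (b : Fin d → ℕ) (M : ℕ)
    (f : (LaurentSeries ℚ)) : Prop := ∀ n ≤ J, t ^ n * dv f n ∈ W Z b M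

lemma Pr_mul {Z : Fin d → Matrix (Fin 2) (Fin 2) (LaurentSeries ℚ)} {t : (LaurentSeries ℚ)} {J : ℕ} {b b' : Fin d → ℕ}
    {M M' : ℕ} {f g : (LaurentSeries ℚ)} (hf : Pr Z t J b M f) (hg : Pr Z t J b' M' g) :
    Pr Z t J (b + b') (M * M') (f * g) := by
  intro n hn
  rw [dv_mul, Finset.mul_sum]
  refine sum_mem fun p hp => ?_
  have hp' : p.1 + p.2 = n := Finset.HasAntidiagonal.mem_antidiagonal.1 hp
  have e : t ^ n * (dv f p.1 * dv g p.2) = (t ^ p.1 * dv f p.1) * (t ^ p.2 * dv g p.2) := by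
    rw [← hp', pow_add]; ring
  rw [e]
  exact W_mul (hf _ (by omega)) (hg _ (by omega))

lemma Pr_one (Z : Fin d → Matrix (Fin 2) (Fin 2) (LaurentSeries ℚ)) (t : (LaurentSeries ℚ)) (J : ℕ) : Pr Z t J 0 1 1 := by
  intro n _
  cases n with
  | zero =>
    have e : t ^ 0 * dv (1 : (LaurentSeries ℚ)) 0 = emb 1 * mev Z 0 := by
      rw [mev_zero]
      simp [dv]
    rw [e]
    refine gen_mem ?_ fun j => ?_
    · have := intBy_map 1
      rwa [Polynomial.map_one] at this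
    · simp [bdeg]
  | succ n =>
    have h1 : dd (1 : (LaurentSeries ℚ)) = 0 := by
      have := dd_const 1
      rwa [map_one] at this
    have h2 : ∀ k, dd^[k] (0 : (LaurentSeries ℚ)) = 0 := by
      intro k
      induction k with
      | zero => rfl
      | succ k ih => rw [Function.iterate_succ_apply, dd_zero, ih]
    have e : t ^ (n + 1) * dv (1 : (LaurentSeries ℚ)) (n + 1) = 0 := by
      rw [dv, Function.iterate_succ_apply, h1, h2, mul_zero, mul_zero]
    rw [e]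
    exact zero_mem _

lemma Pr_pow {Z : Fin d → Matrix (Fin 2) (Fin 2) (LaurentSeries ℚ)} {t : (LaurentSeries ℚ)} {J : ℕ} {b : Fin d → ℕ}
    {M : ℕ} {f : (LaurentSeries ℚ)} (hf : Pr Z t J b M f) (k : ℕ) :
    Pr Z t J (k • b) (M ^ k) (f ^ k) := by
  induction k with
  | zero => simpa using Pr_one Z t J
  | succ k ih =>
    rw [pow_succ, pow_succ, succ_nsmul]
    exact Pr_mul ih hf

lemma Pr_prod {Z : Fin d → Matrix (Fin 2) (Fin 2) (LaurentSeries ℚ)} {t : (LaurentSeries ℚ)} {J : ℕ} {ι : Type}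
    (s : Finset ι) {b : ι → Fin d → ℕ} {M : ι → ℕ} {f : ι → (LaurentSeries ℚ)}
    (hf : ∀ i ∈ s, Pr Z t J (b i) (M i) (f i)) :
    Pr Z t J (∑ i ∈ s, b i) (∏ i ∈ s, M i) (∏ i ∈ s, f i) := by
  classical
  induction s using Finset.induction_on with
  | empty => simpa using Pr_one Z t J
  | insert i s hi ih =>
    rw [Finset.sum_insert hi, Finset.prod_insert hi, Finset.prod_insert hi]
    exact Pr_mul (hf i (Finset.mem_insert_self _ _))
      (ih fun k hk => hf k (Finset.mem_insert_of_mem hk))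

/-- one entry -/
lemma Pr_entry {T : Fin d → ℤ[X]} {A : Fin d → Matrix (Fin 2) (Fin 2) ℚ[X]}
    {Z : Fin d → Matrix (Fin 2) (Fin 2) (LaurentSeries ℚ)}
    (hode : ∀ j b, IsSol ((T j).map (Int.castRingHom ℚ)) (A j) (fun a => Z j a b))
    {J q : ℕ} (hq : ∀ i ≤ J, ∀ j a b,
      IntBy q (beta ((T j).map (Int.castRingHom ℚ)) (A j) i a b)) (v : Var d) :
    Pr Z (emb (∏ j, (T j).map (Int.castRingHom ℚ))) J (Pi.single v.1 1) q (pt Z v) := by
  classical
  obtain ⟨j, a, b⟩ := v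
  intro n hn
  set Tq : Fin d → ℚ[X] := fun j => (T j).map (Int.castRingHom ℚ) with hTq
  have h1 : (∏ j, Tq j) = Tq j * ∏ i ∈ Finset.univ.erase j, Tq i :=
    (Finset.mul_prod_erase Finset.univ Tq (Finset.mem_univ j)).symm
  have h2 := beta_sol (hode j b) n a
  have h3 : (n.factorial : (LaurentSeries ℚ)) ≠ 0 := by
    have : (n.factorial : (LaurentSeries ℚ)) = algebraMap ℚ (LaurentSeries ℚ) (n.factorial : ℚ) := by simp
    rw [this, Ne, map_eq_zero]
    positivity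
  have h4 : algebraMap ℚ (LaurentSeries ℚ) ((n.factorial : ℚ)⁻¹) * (n.factorial : (LaurentSeries ℚ)) = 1 := by
    have : (n.factorial : (LaurentSeries ℚ)) = algebraMap ℚ (LaurentSeries ℚ) (n.factorial : ℚ) := by simp
    rw [this, ← map_mul, inv_mul_cancel₀ (by positivity), map_one]
  have e : emb (∏ j, Tq j) ^ n * dv (pt Z (j, a, b)) n =
      ∑ c, emb ((∏ i ∈ Finset.univ.erase j, Tq i) ^ n * beta (Tq j) (A j) n a c) *
        mev Z (Finsupp.single (j, c, b) 1) := by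
    have h5 : ∀ c, mev Z (Finsupp.single (j, c, b) 1) = Z j c b := fun c => mev_single Z (j, c, b)
    simp only [h5]
    have h6 : ∑ c, emb ((∏ i ∈ Finset.univ.erase j, Tq i) ^ n * beta (Tq j) (A j) n a c) *
        Z j c b = emb (∏ i ∈ Finset.univ.erase j, Tq i) ^ n *
          ∑ c, emb (beta (Tq j) (A j) n a c) * Z j c b := by
      rw [Finset.mul_sum]
      refine Finset.sum_congr rfl fun c _ => ?_
      rw [map_mul, map_pow]
      ring
    rw [h6, h1, map_mul, mul_pow, dv]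
    have h7 : ∑ c, emb (beta (Tq j) (A j) n a c) * Z j c b =
        algebraMap ℚ (LaurentSeries ℚ) ((n.factorial : ℚ)⁻¹) * (emb (Tq j) ^ n * dd^[n] (Z j a b)) := by
      rw [← h2, ← mul_assoc, h4, one_mul]
    rw [h7]
    show emb (Tq j) ^ n * emb (∏ i ∈ Finset.univ.erase j, Tq i) ^ n *
      (algebraMap ℚ (LaurentSeries ℚ) ((n.factorial : ℚ)⁻¹) * dd^[n] (Z j a b)) = _
    ring
  rw [e]
  refine sum_mem fun c _ => gen_mem ?_ fun i => ?_
  · have h8 : (∏ i ∈ Finset.univ.erase j, Tq i) ^ n =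
        ((∏ i ∈ Finset.univ.erase j, T i) ^ n).map (Int.castRingHom ℚ) := by
      rw [Polynomial.map_pow, Polynomial.map_prod]
    rw [h8]
    have := intBy_mul (intBy_map ((∏ i ∈ Finset.univ.erase j, T i) ^ n)) (hq n hn j a c)
    rwa [one_mul] at this
  · rw [bdeg_single]
    simp only [Pi.single_apply]
    split_ifs with h9 h10
    · exact le_rfl
    · exact absurd h9.symm h10
    · exact zero_le_one
    · exact le_rfl

lemma Pr_mon {T : Fin d → ℤ[X]} {A : Fin d → Matrix (Fin 2) (Fin 2) ℚ[X]}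
    {Z : Fin d → Matrix (Fin 2) (Fin 2) (LaurentSeries ℚ)}
    (hode : ∀ j b, IsSol ((T j).map (Int.castRingHom ℚ)) (A j) (fun a => Z j a b))
    {J q : ℕ} (hq : ∀ i ≤ J, ∀ j a b,
      IntBy q (beta ((T j).map (Int.castRingHom ℚ)) (A j) i a b)) {δ : ℕ} {m : Var d →₀ ℕ}
    (hm : BDe δ m) :
    Pr Z (emb (∏ j, (T j).map (Int.castRingHom ℚ))) J (fun _ => δ) (q ^ (d * δ)) (mev Z m) := by
  have h := Pr_prod (Z := Z) (t := emb (∏ j, (T j).map (Int.castRingHom ℚ))) (J := J)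
    Finset.univ (fun v _ => Pr_pow (Pr_entry hode hq v) (m v))
  intro n hn
  have h1 := h n hn
  refine W_mono ?_ ?_ h1
  · intro j
    rw [Finset.sum_apply]
    simp only [Pi.smul_apply, Pi.single_apply, smul_eq_mul, mul_ite, mul_one, mul_zero]
    rw [Fintype.sum_prod_type]
    have h2 : ∀ i : Fin d, ∑ y : Fin 2 × Fin 2, (if j = i then m (i, y) else 0) =
        if j = i then ∑ y : Fin 2 × Fin 2, m (i, y) else 0 := by
      intro i
      split_ifs <;> simp
    simp only [h2]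
    rw [Finset.sum_ite_eq Finset.univ j, if_pos (Finset.mem_univ j), Fintype.sum_prod_type]
    exact hm j
  · rw [Finset.prod_pow_eq_pow_sum]
    apply pow_dvd_pow
    rw [Fintype.sum_prod_type]
    calc ∑ j : Fin d, ∑ y : Fin 2 × Fin 2, m (j, y) ≤ ∑ j : Fin d, δ := by
          refine Finset.sum_le_sum fun j _ => ?_
          rw [Fintype.sum_prod_type]
          exact hm j
      _ = d * δ := by simp

lemma finite_BDe (δ : ℕ) : {m : Var d →₀ ℕ | BDe δ m}.Finite := by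
  have h1 : {m : Var d →₀ ℕ | BDe δ m} ⊆
      (fun m : Var d →₀ ℕ => (m : Var d → ℕ)) ⁻¹' (Set.pi Set.univ fun _ => Set.Iic δ) := by
    intro m hm
    simp only [Set.mem_preimage, Set.mem_pi, Set.mem_univ, Set.mem_Iic, forall_true_left]
    rintro ⟨j, a, b⟩
    have := hm j
    refine le_trans ?_ this
    calc m (j, a, b) ≤ ∑ b', m (j, a, b') :=
          Finset.single_le_sum (f := fun b' => m (j, a, b')) (fun _ _ => Nat.zero_le _)
            (Finset.mem_univ b)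
      _ ≤ ∑ a', ∑ b', m (j, a', b') :=
          Finset.single_le_sum (f := fun a' => ∑ b', m (j, a', b')) (fun _ _ => Nat.zero_le _)
            (Finset.mem_univ a)
  refine Set.Finite.subset (Set.Finite.preimage ?_ (Set.Finite.pi fun _ => Set.finite_Iic δ)) h1
  exact (DFunLike.coe_injective).injOn

/-- a common denominator of the reduction coefficients -/
lemma exists_rden {δ R : ℕ} (Φ : FSp d δ R) : ∃ r : ℕ, 0 < r ∧ ∀ m, BDe δ m → ∀ μ,
    ∃ z : ℤ, (r : ℚ) * Φ.ρ m μ = z := by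
  classical
  let S := (finite_BDe (d := d) δ).toFinset
  refine ⟨∏ m ∈ S, ∏ μ, (Φ.ρ m μ).den, ?_, ?_⟩
  · exact Finset.prod_pos fun m _ => Finset.prod_pos fun μ _ => (Φ.ρ m μ).pos
  · intro m hm μ
    have hmS : m ∈ S := by
      rw [Set.Finite.mem_toFinset]; exact hm
    have hdvd : (Φ.ρ m μ).den ∣ ∏ m ∈ S, ∏ μ, (Φ.ρ m μ).den :=
      (Finset.dvd_prod_of_mem (fun μ => (Φ.ρ m μ).den) (Finset.mem_univ μ)).trans
        (Finset.dvd_prod_of_mem (fun m => ∏ μ, (Φ.ρ m μ).den) hmS)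
    obtain ⟨k, hk⟩ := hdvd
    refine ⟨k * (Φ.ρ m μ).num, ?_⟩
    rw [hk]
    push_cast
    have h1 : ((Φ.ρ m μ).den : ℚ) * Φ.ρ m μ = (Φ.ρ m μ).num := by
      rw [mul_comm]; exact Rat.mul_den_eq_num _
    rw [← h1]
    ring

lemma reduce {δ R : ℕ} (Φ : FSp d δ R) {r : ℕ} (hr : ∀ m, BDe δ m → ∀ μ,
    ∃ z : ℤ, (r : ℚ) * Φ.ρ m μ = z) {Z : Fin d → Matrix (Fin 2) (Fin 2) (LaurentSeries ℚ)}
    (hZ : ∀ j, (Z j).det = 1) {M : ℕ} {f : (LaurentSeries ℚ)} (hf : f ∈ W Z (fun _ => δ) M) :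
    ∃ P : Fin R → ℚ[X], (∀ μ, IntBy (r * M) (P μ)) ∧ f = ∑ μ, emb (P μ) * mev Z (Φ.mon μ) := by
  induction hf using AddSubgroup.closure_induction with
  | mem f hf =>
    obtain ⟨p, m, hp, hm, rfl⟩ := hf
    have hm' : BDe δ m := hm
    refine ⟨fun μ => C (Φ.ρ m μ) * p, fun μ n => ?_, ?_⟩
    · obtain ⟨z1, h1⟩ := hr m hm' μ
      obtain ⟨z2, h2⟩ := hp n
      refine ⟨z1 * z2, ?_⟩
      rw [coeff_C_mul]
      push_cast
      rw [← h1, ← h2]
      ring
    · rw [red_field Φ Z hZ hm', Finset.mul_sum]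
      refine Finset.sum_congr rfl fun μ _ => ?_
      rw [map_mul, emb_C]
      ring
  | zero => exact ⟨fun _ => 0, fun _ => intBy_zero _, by simp⟩
  | add x y _ _ hx hy =>
    obtain ⟨P, hP, rfl⟩ := hx
    obtain ⟨Q, hQ, rfl⟩ := hy
    refine ⟨fun μ => P μ + Q μ, fun μ => intBy_add (hP μ) (hQ μ), ?_⟩
    rw [← Finset.sum_add_distrib]
    exact Finset.sum_congr rfl fun μ _ => by rw [map_add]; ring
  | neg x _ hx =>
    obtain ⟨P, hP, rfl⟩ := hx
    refine ⟨fun μ => -P μ, fun μ => intBy_neg (hP μ), ?_⟩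
    rw [← Finset.sum_neg_distrib]
    exact Finset.sum_congr rfl fun μ _ => by rw [map_neg]; ring

end BigGal

open BigGal

theorem gal_big {d δ R : ℕ} (Φ : FSp d δ R) : ∃ c : ℕ, ∀ (H : ℕ), 2 ≤ H →
    ∀ (T : Fin d → ℤ[X]) (A : Fin d → Matrix (Fin 2) (Fin 2) ℚ[X])
    (Z : Fin d → Matrix (Fin 2) (Fin 2) (LaurentSeries ℚ)), (∀ j, (Z j).det = 1) →
    (∀ j b, IsSol ((T j).map (Int.castRingHom ℚ)) (A j) (fun a => Z j a b)) →
    (∀ P : Fin R → ℚ[X], ∑ a, emb (P a) * mev Z (Φ.mon a) = 0 → P = 0) →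
    -- a common denominator for all factors
    (∀ J, ∃ q : ℕ, 0 < q ∧ q ≤ H ^ (J + 1) ∧ ∀ i ≤ J, ∀ j a b,
      IntBy q (beta ((T j).map (Int.castRingHom ℚ)) (A j) i a b)) →
    Galochkin (∏ j, (T j).map (Int.castRingHom ℚ))
      (bigB (fun j => (T j).map (Int.castRingHom ℚ)) A Φ.mon Φ.ρ) (H ^ c) := by
  classical
  obtain ⟨r, hr0, hr⟩ := exists_rden Φ
  refine ⟨r + d * δ, ?_⟩
  intro H hH T A Z hZ hode hind hq J
  obtain ⟨q, hq0, hqH, hqI⟩ := hq J
  refine ⟨r * q ^ (d * δ), by positivity, ?_, ?_⟩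
  · have h1 : r ≤ H ^ r := (Nat.lt_pow_self (by omega)).le
    calc r * q ^ (d * δ) ≤ H ^ r * (H ^ (J + 1)) ^ (d * δ) := by gcongr
      _ = H ^ (r + (J + 1) * (d * δ)) := by rw [← pow_mul, ← pow_add]
      _ ≤ H ^ ((r + d * δ) * (J + 1)) := by
          apply Nat.pow_le_pow_right (by omega)
          nlinarith [Nat.zero_le (r * J)]
      _ = (H ^ (r + d * δ)) ^ (J + 1) := by rw [pow_mul]
  · intro i hi a b
    set Tq : Fin d → ℚ[X] := fun j => (T j).map (Int.castRingHom ℚ) with hTq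
    have hsol := isSol_big Φ hZ hode
    have h1 := beta_sol hsol i a
    have h2 := Pr_mon hode hqI (Φ.hd a) i hi
    obtain ⟨P, hP, hP'⟩ := reduce Φ hr hZ h2
    have h4 : algebraMap ℚ (LaurentSeries ℚ) ((i.factorial : ℚ)⁻¹) *
        (i.factorial : LaurentSeries ℚ) = 1 := by
      have : (i.factorial : LaurentSeries ℚ) =
        algebraMap ℚ (LaurentSeries ℚ) (i.factorial : ℚ) := by simp
      rw [this, ← map_mul, inv_mul_cancel₀ (by positivity), map_one]
    have h5 : ∑ μ, emb (beta (∏ j, Tq j) (bigB Tq A Φ.mon Φ.ρ) i a μ) * mev Z (Φ.mon μ) =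
        ∑ μ, emb (P μ) * mev Z (Φ.mon μ) := by
      rw [← hP', dv]
      calc ∑ μ, emb (beta (∏ j, Tq j) (bigB Tq A Φ.mon Φ.ρ) i a μ) * mev Z (Φ.mon μ)
          = algebraMap ℚ (LaurentSeries ℚ) ((i.factorial : ℚ)⁻¹) *
            ((i.factorial : LaurentSeries ℚ) *
            ∑ μ, emb (beta (∏ j, Tq j) (bigB Tq A Φ.mon Φ.ρ) i a μ) * mev Z (Φ.mon μ)) := by
              rw [← mul_assoc, h4, one_mul]
        _ = _ := by
            rw [h1]
            ring
    have h6 := hind (fun μ => beta (∏ j, Tq j) (bigB Tq A Φ.mon Φ.ρ) i a μ - P μ) (by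
      have : ∀ μ, emb (beta (∏ j, Tq j) (bigB Tq A Φ.mon Φ.ρ) i a μ - P μ) *
          mev Z (Φ.mon μ) = emb (beta (∏ j, Tq j) (bigB Tq A Φ.mon Φ.ρ) i a μ) *
          mev Z (Φ.mon μ) - emb (P μ) * mev Z (Φ.mon μ) := by
        intro μ; rw [map_sub]; ring
      simp only [this]
      rw [Finset.sum_sub_distrib, h5, sub_self])
    have h7 := congrFun h6 b
    simp only [Pi.zero_apply, sub_eq_zero] at h7
    rw [h7]
    exact hP b

end Pool.Agent.Helper37.GP
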