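import Pool.Agent.Helper37.GP.Defs2

/-!
# Definitions for the tensor system (MP_290158_ag)
-/

open Polynomial

namespace Pool.Agent.Helper37.GP

/-- The value of the monomial with exponent `m` at a tuple of matrices. -/
noncomputable def mev {d : ℕ} {K : Type} [CommSemiring K] (Z : Fin d → Matrix (Fin 2) (Fin 2) K)
    (m : Var d →₀ ℕ) : K := ∏ v, pt Z v ^ m v

/-- A basis of monomials of the functions of block degree `≤ δ` on `SL₂(ℚ)^d`. -/
structure FSp (d δ R : ℕ) where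
  /-- the exponents -/
  mon : Fin R → (Var d →₀ ℕ)
  /-- the index of the constant function -/
  i₀ : Fin R
  /-- the reduction to the basis -/
  ρ : (Var d →₀ ℕ) → Fin R → ℚ
  h0 : mon i₀ = 0
  hd : ∀ a, BDe δ (mon a)
  red : ∀ m, BDe δ m → VanQ (MvPolynomial.monomial m 1
      - ∑ a, MvPolynomial.C (ρ m a) * MvPolynomial.monomial (mon a) 1)
  ind : ∀ c : Fin R → ℚ, VanQ (∑ a, MvPolynomial.C (c a) * MvPolynomial.monomial (mon a) 1) → c = 0

/-- The matrix of the tensor system: if `T_j Z_j' = A_j Z_j` then the monomials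
`e_α = Z^(mon α)` satisfy `(∏ T_j) e' = bigB e`. -/
noncomputable def bigB {d R : ℕ} (T : Fin d → ℚ[X]) (A : Fin d → Matrix (Fin 2) (Fin 2) ℚ[X])
    (mon : Fin R → (Var d →₀ ℕ)) (ρ : (Var d →₀ ℕ) → Fin R → ℚ) :
    Matrix (Fin R) (Fin R) ℚ[X] :=
  Matrix.of fun α μ => ∑ j, (∏ i ∈ Finset.univ.erase j, T i) * ∑ a, ∑ b, ∑ c, A j a c *
    C ((mon α (j, a, b) : ℚ) *
      ρ (mon α - Finsupp.single (j, a, b) 1 + Finsupp.single (j, c, b) 1) μ)

end Pool.Agent.Helper37.GP
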