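import Pool.Agent.Helper37.GP.Eval
import Pool.Agent.Helper37.GP.Defs4

/-!
# GP-20a: elementary bounds for monomials in power series and for polynomials
-/

open Polynomial

namespace Pool.Agent.Helper37.GP

namespace BoundsAux

lemma gbound_mono {H H' : ℕ} (h : H ≤ H') {f : PowerSeries ℚ} (hf : GBound H f) :
    GBound H' f := fun n => le_trans (hf n)
  (pow_le_pow_left₀ (by positivity) (by exact_mod_cast h) _)

lemma gbound_one {H : ℕ} (hH : 1 ≤ H) : GBound H (1 : PowerSeries ℚ) := by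
  intro n
  have hH' : (1 : ℚ) ≤ H := by exact_mod_cast hH
  rw [PowerSeries.coeff_one]
  split_ifs
  · rw [abs_one]; exact one_le_pow₀ hH'
  · rw [abs_zero]; positivity

lemma pev_one (s : ℝ) : pev (1 : PowerSeries ℚ) s = 1 := by
  unfold pev
  rw [tsum_eq_single 0]
  · simp
  · intro n hn
    simp [PowerSeries.coeff_one, hn]

lemma exists_pred {ι : Type*} [Fintype ι] {m : ι → ℕ} {k : ℕ} (h : ∑ i, m i = k + 1) :
    ∃ (i : ι) (m' : ι → ℕ), ∑ j, m' j = k ∧
      ∀ {M : Type} [CommMonoid M] (f : ι → M), ∏ j, f j ^ m j = f i * ∏ j, f j ^ m' j := by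
  classical
  obtain ⟨i, hi⟩ : ∃ i, m i ≠ 0 := by
    by_contra hcon
    push Not at hcon
    simp [hcon] at h
  refine ⟨i, Function.update m i (m i - 1), ?_, ?_⟩
  · rw [← Finset.add_sum_erase _ _ (Finset.mem_univ i)] at h ⊢
    have : ∑ x ∈ Finset.univ.erase i, Function.update m i (m i - 1) x =
        ∑ x ∈ Finset.univ.erase i, m x := by
      refine Finset.sum_congr rfl fun x hx => ?_
      rw [Function.update_of_ne (Finset.ne_of_mem_erase hx)]
    rw [this, Function.update_self]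
    omega
  · intro M _ f
    rw [← Finset.mul_prod_erase _ _ (Finset.mem_univ i),
      ← Finset.mul_prod_erase _ (fun j => f j ^ Function.update m i (m i - 1) j)
        (Finset.mem_univ i)]
    have : ∏ x ∈ Finset.univ.erase i, f x ^ Function.update m i (m i - 1) x =
        ∏ x ∈ Finset.univ.erase i, f x ^ m x := by
      refine Finset.prod_congr rfl fun x hx => ?_
      rw [Function.update_of_ne (Finset.ne_of_mem_erase hx)]
    rw [this, Function.update_self, ← mul_assoc, ← pow_succ']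
    congr 3
    omega

lemma prod_pow_zero {ι M : Type*} [Fintype ι] [CommMonoid M] {m : ι → ℕ} (h : ∑ i, m i = 0)
    (f : ι → M) : ∏ j, f j ^ m j = 1 := by
  refine Finset.prod_eq_one fun i _ => ?_
  have := (Finset.sum_eq_zero_iff.1 h) i (Finset.mem_univ i)
  rw [this, pow_zero]

lemma coeff_mul_abs_le {H : ℕ} (hH : 2 ≤ H) {f g : PowerSeries ℚ} (hf : GBound H f)
    (hg : GBound H g) : GBound (H ^ 3) (f * g) := by
  intro n
  have hH' : (2 : ℚ) ≤ H := by exact_mod_cast hH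
  have hH1 : (1 : ℚ) ≤ H := by linarith
  rw [PowerSeries.coeff_mul]
  refine le_trans (Finset.abs_sum_le_sum_abs _ _) ?_
  have h1 : ∀ p ∈ Finset.HasAntidiagonal.antidiagonal n,
      |PowerSeries.coeff p.1 f * PowerSeries.coeff p.2 g| ≤ (H : ℚ) ^ (n + 2) := by
    intro p hp
    rw [abs_mul]
    have e : (H : ℚ) ^ (n + 2) = (H : ℚ) ^ (p.1 + 1) * (H : ℚ) ^ (p.2 + 1) := by
      rw [← pow_add]; congr 1
      have := Finset.HasAntidiagonal.mem_antidiagonal.1 hp
      omega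
    rw [e]
    exact mul_le_mul (hf _) (hg _) (abs_nonneg _) (by positivity)
  refine le_trans (Finset.sum_le_sum h1) ?_
  rw [Finset.sum_const, Finset.Nat.card_antidiagonal, nsmul_eq_mul]
  have h2 : ((n + 1 : ℕ) : ℚ) ≤ (H : ℚ) ^ (n + 1) := by
    have h3 : (n + 1 : ℕ) ≤ 2 ^ (n + 1) := (Nat.lt_two_pow_self).le
    calc ((n + 1 : ℕ) : ℚ) ≤ ((2 ^ (n + 1) : ℕ) : ℚ) := by exact_mod_cast h3
      _ = (2 : ℚ) ^ (n + 1) := by push_cast; rfl
      _ ≤ (H : ℚ) ^ (n + 1) := pow_le_pow_left₀ (by norm_num) hH' _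
  calc ((n + 1 : ℕ) : ℚ) * (H : ℚ) ^ (n + 2) ≤ (H : ℚ) ^ (n + 1) * (H : ℚ) ^ (n + 2) :=
        mul_le_mul_of_nonneg_right h2 (by positivity)
    _ = (H : ℚ) ^ (2 * n + 3) := by rw [← pow_add]; congr 1; omega
    _ ≤ (H : ℚ) ^ (3 * (n + 1)) := pow_le_pow_right₀ hH1 (by omega)
    _ = ((H ^ 3 : ℕ) : ℚ) ^ (n + 1) := by push_cast; rw [← pow_mul]

lemma gbound_prod_aux {ι : Type} [Fintype ι] {H : ℕ} (hH : 2 ≤ H) {f : ι → PowerSeries ℚ}
    (hf : ∀ i, GBound H (f i)) : ∀ (k : ℕ) (m : ι → ℕ), ∑ i, m i = k →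
      GBound (H ^ 3 ^ k) (∏ i, f i ^ m i) := by
  intro k
  induction k with
  | zero =>
    intro m hm
    rw [prod_pow_zero hm]
    exact gbound_one (Nat.one_le_pow _ _ (by omega))
  | succ k ih =>
    intro m hm
    obtain ⟨i, m', hm', he⟩ := exists_pred hm
    rw [he f]
    have h1 : H ≤ H ^ 3 ^ k := Nat.le_self_pow (pow_ne_zero _ (by norm_num)) H
    have h2 : 2 ≤ H ^ 3 ^ k := le_trans hH h1
    have := coeff_mul_abs_le h2 (gbound_mono h1 (hf i)) (ih m' hm')
    rwa [← pow_mul, ← pow_succ] at this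

end BoundsAux

open BoundsAux

theorem gbound_mul {H : ℕ} (hH : 2 ≤ H) {f g : PowerSeries ℚ} (hf : GBound H f)
    (hg : GBound H g) : GBound (H ^ 3) (f * g) := coeff_mul_abs_le hH hf hg

/-- Monomials in finitely many series with a common geometric bound. -/
theorem gbound_prod {ι : Type} [Fintype ι] (N : ℕ) : ∃ c : ℕ, ∀ (H : ℕ), 2 ≤ H →
    ∀ f : ι → PowerSeries ℚ, (∀ i, GBound H (f i)) → ∀ m : ι → ℕ, ∑ i, m i ≤ N →
      GBound (H ^ c) (∏ i, f i ^ m i) := by
  refine ⟨3 ^ N, fun H hH f hf m hm => ?_⟩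
  refine gbound_mono ?_ (gbound_prod_aux hH hf _ m rfl)
  exact Nat.pow_le_pow_right (by omega) (Nat.pow_le_pow_right (by norm_num) hm)

namespace BoundsAux

/-- integrality up to `n` after multiplication by `q` -/
def IU (n q : ℕ) (f : PowerSeries ℚ) : Prop :=
  ∀ m ≤ n, ∃ z : ℤ, (q : ℚ) * PowerSeries.coeff m f = z

lemma iu_one (n : ℕ) : IU n 1 1 := by
  intro m _
  rw [PowerSeries.coeff_one]
  split_ifs
  · exact ⟨1, by simp⟩
  · exact ⟨0, by simp⟩

lemma iu_mul {n q q' : ℕ} {f g : PowerSeries ℚ} (hf : IU n q f) (hg : IU n q' g) :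
    IU n (q * q') (f * g) := by
  classical
  intro m hm
  have h : ∀ p : ℕ × ℕ, ∃ z : ℤ, p ∈ Finset.HasAntidiagonal.antidiagonal m →
      ((q * q' : ℕ) : ℚ) * (PowerSeries.coeff p.1 f * PowerSeries.coeff p.2 g) = z := by
    intro p
    by_cases hp : p ∈ Finset.HasAntidiagonal.antidiagonal m
    · have := Finset.HasAntidiagonal.mem_antidiagonal.1 hp
      obtain ⟨z1, h1⟩ := hf p.1 (by omega)
      obtain ⟨z2, h2⟩ := hg p.2 (by omega)
      refine ⟨z1 * z2, fun _ => ?_⟩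
      push_cast
      rw [← h1, ← h2]
      ring
    · exact ⟨0, fun h => absurd h hp⟩
  choose z hz using h
  refine ⟨∑ p ∈ Finset.HasAntidiagonal.antidiagonal m, z p, ?_⟩
  rw [PowerSeries.coeff_mul, Finset.mul_sum]
  push_cast
  exact Finset.sum_congr rfl fun p hp => by
    have := hz p hp
    push_cast at this
    exact this

lemma iu_scale {n q : ℕ} (q' : ℕ) {f : PowerSeries ℚ} (hf : IU n q f) : IU n (q * q') f := by
  intro m hm
  obtain ⟨z, hz⟩ := hf m hm
  refine ⟨q' * z, ?_⟩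
  push_cast
  rw [← hz]
  ring

lemma iu_prod {ι : Type} [Fintype ι] {n d : ℕ} {f : ι → PowerSeries ℚ}
    (hf : ∀ i, IU n d (f i)) : ∀ (k : ℕ) (m : ι → ℕ), ∑ i, m i = k →
      IU n (d ^ k) (∏ i, f i ^ m i) := by
  intro k
  induction k with
  | zero =>
    intro m hm
    rw [prod_pow_zero hm, pow_zero]
    exact iu_one n
  | succ k ih =>
    intro m hm
    obtain ⟨i, m', hm', he⟩ := exists_pred hm
    rw [he f, pow_succ']
    exact iu_mul (hf i) (ih m' hm')

end BoundsAux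

/-- Denominators of monomials. -/
theorem gden_prod {ι κ : Type} [Fintype ι] {N H : ℕ} {f : ι → PowerSeries ℚ} (hf : GDen H f)
    (m : κ → ι → ℕ) (hm : ∀ k, ∑ i, m k i ≤ N) :
    GDen (H ^ N) (fun k => ∏ i, f i ^ m k i) := by
  intro n
  obtain ⟨d, hd0, hd, hz⟩ := hf n
  refine ⟨d ^ N, pow_pos hd0 N, ?_, ?_⟩
  · calc d ^ N ≤ (H ^ (n + 1)) ^ N := Nat.pow_le_pow_left hd N
      _ = (H ^ N) ^ (n + 1) := by rw [← pow_mul, ← pow_mul, mul_comm]
  · intro j hj k
    have h1 : IU n (d ^ (∑ i, m k i)) (∏ i, f i ^ m k i) :=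
      iu_prod (fun i j hj => hz j hj i) _ (m k) rfl
    have h2 := iu_scale (d ^ (N - ∑ i, m k i)) h1
    rw [← pow_add, Nat.add_sub_cancel' (hm k)] at h2
    exact h2 j hj

theorem pev_prod {ι : Type} [Fintype ι] (N : ℕ) : ∃ c : ℕ, ∀ (H : ℕ), 2 ≤ H →
    ∀ f : ι → PowerSeries ℚ, (∀ i, GBound H (f i)) → ∀ m : ι → ℕ, ∑ i, m i ≤ N →
      ∀ s : ℝ, (H : ℝ) ^ c < s → pev (∏ i, f i ^ m i) s = ∏ i, pev (f i) s ^ m i := by
  refine ⟨2 * 3 ^ N, fun H hH f hf m hm s hs => ?_⟩
  have hH1 : (1 : ℝ) ≤ H := by exact_mod_cast (by omega : 1 ≤ H)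
  have key : ∀ (k : ℕ), k ≤ N → ∀ (m : ι → ℕ), ∑ i, m i = k →
      pev (∏ i, f i ^ m i) s = ∏ i, pev (f i) s ^ m i := by
    intro k
    induction k with
    | zero =>
      intro _ m hm
      rw [prod_pow_zero hm, prod_pow_zero hm, pev_one]
    | succ k ih =>
      intro hk m hm
      obtain ⟨i, m', hm', he⟩ := exists_pred hm
      rw [he f, he (fun i => pev (f i) s), ← ih (by omega) m' hm']
      have h1 : H ≤ H ^ 3 ^ k := Nat.le_self_pow (pow_ne_zero _ (by norm_num)) H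
      have h2 : 2 ≤ H ^ 3 ^ k := le_trans hH h1
      refine pev_mul h2 (gbound_mono h1 (hf i)) (gbound_prod_aux hH hf k m' hm') ?_
      refine lt_of_le_of_lt ?_ hs
      push_cast
      rw [← pow_mul]
      refine pow_le_pow_right₀ hH1 ?_
      have : 3 ^ k ≤ 3 ^ N := Nat.pow_le_pow_right (by norm_num) (by omega)
      omega
  exact key _ hm m rfl

namespace BoundsAux

lemma one_le_K {K : ℕ} (c : ℕ) : (1 : ℚ) ≤ ((K : ℚ) + 1) ^ c :=
  one_le_pow₀ (by have : (0 : ℚ) ≤ K := Nat.cast_nonneg K; linarith)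

lemma const_le_K {K : ℕ} (hK : 1 ≤ K) (n : ℕ) : (n : ℚ) ≤ ((K : ℚ) + 1) ^ n := by
  have h3 : n ≤ 2 ^ n := (Nat.lt_two_pow_self).le
  have hK' : (1 : ℚ) ≤ K := by exact_mod_cast hK
  calc (n : ℚ) ≤ ((2 ^ n : ℕ) : ℚ) := by exact_mod_cast h3
    _ = (2 : ℚ) ^ n := by push_cast; rfl
    _ ≤ ((K : ℚ) + 1) ^ n := pow_le_pow_left₀ (by norm_num) (by linarith) _

lemma pow_mono_K {K : ℕ} {a b : ℕ} (h : a ≤ b) : ((K : ℚ) + 1) ^ a ≤ ((K : ℚ) + 1) ^ b :=
  pow_le_pow_right₀ (by have : (0 : ℚ) ≤ K := Nat.cast_nonneg K; linarith) h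

end BoundsAux

/-- Coefficients of `p(a + k X)` are polynomially bounded in `K ≥ a, k`. -/
theorem coeff_comp_le (p : ℚ[X]) : ∃ c : ℕ, ∀ K a k : ℕ, 1 ≤ K → a ≤ K → k ≤ K → ∀ i,
    |(p.comp (C (a : ℚ) + C (k : ℚ) * X)).coeff i| ≤ ((K : ℚ) + 1) ^ c := by
  induction p using Polynomial.induction_on with
  | C r =>
    obtain ⟨n, hn⟩ := exists_nat_ge |r|
    refine ⟨n, fun K a k hK _ _ i => ?_⟩
    rw [C_comp, coeff_C]
    split_ifs
    · exact le_trans hn (const_le_K hK n)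
    · rw [abs_zero]; positivity
  | add p q hp hq =>
    obtain ⟨c1, h1⟩ := hp
    obtain ⟨c2, h2⟩ := hq
    refine ⟨max c1 c2 + 1, fun K a k hK ha hk i => ?_⟩
    have hK' : (1 : ℚ) ≤ K := by exact_mod_cast hK
    rw [add_comp, coeff_add]
    refine le_trans (abs_add_le _ _) ?_
    have e1 := le_trans (h1 K a k hK ha hk i) (pow_mono_K (K := K) (le_max_left c1 c2))
    have e2 := le_trans (h2 K a k hK ha hk i) (pow_mono_K (K := K) (le_max_right c1 c2))
    have e3 : (0 : ℚ) ≤ ((K : ℚ) + 1) ^ (max c1 c2) := by positivity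
    rw [pow_succ]
    nlinarith
  | monomial n r h =>
    obtain ⟨c, h⟩ := h
    refine ⟨c + 2, fun K a k hK ha hk i => ?_⟩
    have hK' : (1 : ℚ) ≤ K := by exact_mod_cast hK
    have ha' : (a : ℚ) ≤ K := by exact_mod_cast ha
    have hk' : (k : ℚ) ≤ K := by exact_mod_cast hk
    have ha0 : (0 : ℚ) ≤ a := Nat.cast_nonneg a
    have hk0 : (0 : ℚ) ≤ k := Nat.cast_nonneg k
    set q := (C r * X ^ n).comp (C (a : ℚ) + C (k : ℚ) * X) with hq
    have e : (C r * X ^ (n + 1)).comp (C (a : ℚ) + C (k : ℚ) * X) =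
        q * C (a : ℚ) + (q * X) * C (k : ℚ) := by
      rw [hq, pow_succ, ← mul_assoc, mul_comp, X_comp]
      ring
    rw [e, coeff_add, coeff_mul_C, coeff_mul_C]
    have b1 : |q.coeff i| ≤ ((K : ℚ) + 1) ^ c := h K a k hK ha hk i
    have b2 : |(q * X).coeff i| ≤ ((K : ℚ) + 1) ^ c := by
      cases i with
      | zero => rw [mul_coeff_zero, coeff_X_zero, mul_zero, abs_zero]; positivity
      | succ i => rw [coeff_mul_X]; exact h K a k hK ha hk i
    refine le_trans (abs_add_le _ _) ?_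
    rw [abs_mul, abs_mul, abs_of_nonneg ha0, abs_of_nonneg hk0]
    have e3 : (0 : ℚ) ≤ ((K : ℚ) + 1) ^ c := by positivity
    have f1 : |q.coeff i| * a ≤ ((K : ℚ) + 1) ^ c * K :=
      mul_le_mul b1 ha' ha0 e3
    have f2 : |(q * X).coeff i| * k ≤ ((K : ℚ) + 1) ^ c * K :=
      mul_le_mul b2 hk' hk0 e3
    refine le_trans (add_le_add f1 f2) ?_
    rw [pow_add, ← mul_add]
    exact mul_le_mul_of_nonneg_left (by nlinarith) e3

/-- Coefficients of products of boundedly many polynomials of bounded degree. -/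
theorem coeff_prod_le {ι : Type} (D c N : ℕ) : ∃ c' : ℕ, ∀ K : ℕ, 1 ≤ K → ∀ (s : Finset ι),
    s.card ≤ N → ∀ p : ι → ℚ[X], (∀ i ∈ s, (p i).natDegree ≤ D) →
    (∀ i ∈ s, ∀ j, |(p i).coeff j| ≤ ((K : ℚ) + 1) ^ c) →
    ∀ j, |(∏ i ∈ s, p i).coeff j| ≤ ((K : ℚ) + 1) ^ c' := by
  classical
  refine ⟨N * (c + D + 1), fun K hK s hs p hD hp => ?_⟩
  suffices h : ∀ j, |(∏ i ∈ s, p i).coeff j| ≤ ((K : ℚ) + 1) ^ (s.card * (c + D + 1)) from
    fun j => le_trans (h j) (pow_mono_K (Nat.mul_le_mul_right _ hs))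
  clear hs
  induction s using Finset.induction_on with
  | empty =>
    intro j
    rw [Finset.prod_empty, coeff_one]
    split_ifs
    · rw [abs_one]; exact one_le_K _
    · rw [abs_zero]; positivity
  | insert a s ha ih =>
    intro j
    have ih' := ih (fun i hi => hD i (Finset.mem_insert_of_mem hi))
      (fun i hi => hp i (Finset.mem_insert_of_mem hi))
    rw [Finset.prod_insert ha, Finset.card_insert_of_notMem ha, coeff_mul]
    set q := ∏ i ∈ s, p i
    have hDa := hD a (Finset.mem_insert_self a s)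
    have hpa := hp a (Finset.mem_insert_self a s)
    have h1 : ∑ x ∈ Finset.HasAntidiagonal.antidiagonal j, (p a).coeff x.1 * q.coeff x.2 =
        ∑ x ∈ (Finset.HasAntidiagonal.antidiagonal j).filter (fun x => x.1 ≤ D),
          (p a).coeff x.1 * q.coeff x.2 := by
      rw [Finset.sum_filter_of_ne]
      intro x _ hx
      by_contra hcon
      push Not at hcon
      apply hx
      rw [coeff_eq_zero_of_natDegree_lt (lt_of_le_of_lt hDa hcon), zero_mul]
    rw [h1]
    refine le_trans (Finset.abs_sum_le_sum_abs _ _) ?_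
    have h2 : ∀ x ∈ (Finset.HasAntidiagonal.antidiagonal j).filter (fun x => x.1 ≤ D),
        |(p a).coeff x.1 * q.coeff x.2| ≤
          ((K : ℚ) + 1) ^ c * ((K : ℚ) + 1) ^ (s.card * (c + D + 1)) := by
      intro x _
      rw [abs_mul]
      exact mul_le_mul (hpa _) (ih' _) (abs_nonneg _) (by positivity)
    refine le_trans (Finset.sum_le_sum h2) ?_
    rw [Finset.sum_const, nsmul_eq_mul]
    have h3 : ((Finset.HasAntidiagonal.antidiagonal j).filter (fun x => x.1 ≤ D)).card ≤ D + 1 := by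
      have : ((Finset.HasAntidiagonal.antidiagonal j).filter (fun x => x.1 ≤ D)).card ≤
          (Finset.range (D + 1)).card := by
        refine Finset.card_le_card_of_injOn (fun x => x.1) ?_ ?_
        · intro x hx
          have := (Finset.mem_filter.1 hx).2
          simp only [Finset.coe_range, Set.mem_Iio]
          omega
        · intro x hx y hy hxy
          have h4 := Finset.HasAntidiagonal.mem_antidiagonal.1 (Finset.mem_filter.1 hx).1
          have h5 := Finset.HasAntidiagonal.mem_antidiagonal.1 (Finset.mem_filter.1 hy).1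
          simp only at hxy
          exact Prod.ext hxy (by omega)
      simpa using this
    have h4 : ((((Finset.HasAntidiagonal.antidiagonal j).filter (fun x => x.1 ≤ D)).card : ℕ) : ℚ) ≤
        ((K : ℚ) + 1) ^ (D + 1) :=
      le_trans (by exact_mod_cast h3) (const_le_K hK (D + 1))
    calc _ ≤ ((K : ℚ) + 1) ^ (D + 1) *
          (((K : ℚ) + 1) ^ c * ((K : ℚ) + 1) ^ (s.card * (c + D + 1))) :=
          mul_le_mul_of_nonneg_right h4 (by positivity)
      _ = ((K : ℚ) + 1) ^ ((s.card + 1) * (c + D + 1)) := by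
          rw [← pow_add, ← pow_add]; congr 1; ring

end Pool.Agent.Helper37.GP
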