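import Pool.Agent.Helper37.GP.Defs

/-!
# GP-6: evaluation of power series in `1/s`
-/

open Polynomial

namespace Pool.Agent.Helper37.GP

namespace EvalAux

/-- the terms of the series `pev` -/
noncomputable def tm (f : PowerSeries ℚ) (s : ℝ) (n : ℕ) : ℝ :=
  ((PowerSeries.coeff n f : ℚ) : ℝ) * (1 / s) ^ n

lemma pev_eq (f : PowerSeries ℚ) (s : ℝ) : pev f s = ∑' n, tm f s n := rfl

lemma abs_tm_le {H : ℕ} {f : PowerSeries ℚ} (hf : GBound H f) {s : ℝ} (hs : 0 < s) (n : ℕ) :
    |tm f s n| ≤ H * (H / s) ^ n := by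
  unfold tm
  rw [abs_mul, abs_pow, abs_of_pos (one_div_pos.2 hs)]
  have h1 : |((PowerSeries.coeff n f : ℚ) : ℝ)| ≤ (H : ℝ) ^ (n + 1) := by exact_mod_cast hf n
  calc |((PowerSeries.coeff n f : ℚ) : ℝ)| * (1 / s) ^ n
      ≤ (H : ℝ) ^ (n + 1) * (1 / s) ^ n := mul_le_mul_of_nonneg_right h1 (by positivity)
    _ = H * (H / s) ^ n := by rw [pow_succ, div_eq_mul_one_div (H : ℝ) s, mul_pow]; ring

lemma summable_tm {H : ℕ} {f : PowerSeries ℚ} (hf : GBound H f) {s : ℝ} (hs : (H : ℝ) < s) :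
    Summable fun n => ‖tm f s n‖ := by
  have hs0 : 0 < s := lt_of_le_of_lt (Nat.cast_nonneg H) hs
  refine Summable.of_nonneg_of_le (fun n => norm_nonneg _) (fun n => abs_tm_le hf hs0 n) ?_
  exact (summable_geometric_of_lt_one (by positivity) ((div_lt_one hs0).2 hs)).mul_left _

lemma hasSum_tm {H : ℕ} {f : PowerSeries ℚ} (hf : GBound H f) {s : ℝ} (hs : (H : ℝ) < s) :
    HasSum (tm f s) (pev f s) := (summable_tm hf hs).of_norm.hasSum

/-- the geometric bound for a shifted tail -/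
lemma abs_tsum_le {F : ℕ → ℝ} {c x : ℝ} (hc : 0 ≤ c) (hx0 : 0 ≤ x) (hx : x ≤ 1 / 2)
    (h : ∀ n, |F n| ≤ c * x ^ n) : |∑' n, F n| ≤ 2 * c := by
  have hx1 : x < 1 := by linarith
  have hg := (summable_geometric_of_lt_one hx0 hx1).mul_left c
  have h1 : |∑' n, F n| ≤ ∑' n, c * x ^ n := by
    have := tsum_of_norm_bounded hg.hasSum (f := F) (fun n => by
      rw [Real.norm_eq_abs]; exact h n)
    rwa [Real.norm_eq_abs] at this
  rw [tsum_mul_left, tsum_geometric_of_lt_one hx0 hx1] at h1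
  have h2 : (1 - x)⁻¹ ≤ 2 := by
    rw [inv_le_comm₀ (by linarith) (by norm_num)]
    linarith
  nlinarith

lemma coeff_bound {H : ℕ} (hH : 1 ≤ H) {f : PowerSeries ℚ} (hf : GBound H f) (m n : ℕ) :
    |PowerSeries.coeff n (PowerSeries.X ^ m * f)| ≤ (H : ℚ) ^ (n + 1) := by
  rw [PowerSeries.coeff_X_pow_mul']
  split_ifs with h
  · refine le_trans (hf (n - m)) ?_
    exact pow_le_pow_right₀ (by exact_mod_cast hH) (by omega)
  · simp

lemma hasSum_shift {H : ℕ} {f : PowerSeries ℚ} (hf : GBound H f) {s : ℝ} (hs : (H : ℝ) < s)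
    (c : ℚ) (m : ℕ) :
    HasSum (tm (PowerSeries.C c * (PowerSeries.X ^ m * f)) s) (c * (1 / s) ^ m * pev f s) := by
  have h1 := (hasSum_tm hf hs).mul_left ((c : ℝ) * (1 / s) ^ m)
  have hinj : Function.Injective fun n : ℕ => n + m := fun a b h => by simpa using h
  rw [← hinj.hasSum_iff]
  · have e1 : (tm (PowerSeries.C c * (PowerSeries.X ^ m * f)) s ∘ fun n : ℕ => n + m) =
        fun n => (c : ℝ) * (1 / s) ^ m * tm f s n := by
      funext n
      simp only [Function.comp, tm, PowerSeries.coeff_C_mul]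
      rw [PowerSeries.coeff_X_pow_mul', if_pos (by omega), Nat.add_sub_cancel, pow_add]
      push_cast
      ring
    rw [e1]
    exact h1
  · intro n hn
    have hnm : ¬ m ≤ n := by
      intro h
      exact hn ⟨n - m, by simp only; omega⟩
    simp only [tm, PowerSeries.coeff_C_mul]
    rw [PowerSeries.coeff_X_pow_mul', if_neg hnm]
    simp

lemma emb_mul_single {D : ℕ} {Q : ℚ[X]} (hQ : Q.natDegree ≤ D) :
    HahnSeries.single (D : ℤ) (1 : ℚ) * emb Q =
      ps (∑ k ∈ Finset.range (D + 1), PowerSeries.C (Q.coeff k) * PowerSeries.X ^ (D - k)) := by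
  have h1 : emb Q = ∑ k ∈ Finset.range (D + 1),
      algebraMap ℚ (LaurentSeries ℚ) (Q.coeff k) * HahnSeries.single (-1 : ℤ) (1 : ℚ) ^ k := by
    unfold emb
    rw [Polynomial.coe_eval₂RingHom]
    exact Polynomial.eval₂_eq_sum_range' _ (Nat.lt_succ_of_le hQ) _
  unfold ps
  rw [h1, map_sum, Finset.mul_sum]
  refine Finset.sum_congr rfl fun k hk => ?_
  have hk' : k ≤ D := Nat.lt_succ_iff.1 (Finset.mem_range.1 hk)
  rw [map_mul, HahnSeries.ofPowerSeries_X_pow, HahnSeries.ofPowerSeries_C, HahnSeries.single_pow,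
    one_pow]
  have h2 : algebraMap ℚ (LaurentSeries ℚ) (Q.coeff k) = HahnSeries.C (Q.coeff k) :=
    RingHom.congr_fun (Subsingleton.elim (algebraMap ℚ (LaurentSeries ℚ)) HahnSeries.C) _
  rw [h2, mul_left_comm, HahnSeries.single_mul_single, one_mul]
  congr 2
  rw [Nat.cast_sub hk', nsmul_eq_mul]
  ring_nf

end EvalAux

open EvalAux

theorem pev_mul {H : ℕ} (hH : 2 ≤ H) {f g : PowerSeries ℚ} (hf : GBound H f) (hg : GBound H g)
    {s : ℝ} (hs : (H : ℝ) ^ 2 < s) : pev (f * g) s = pev f s * pev g s := by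
  have hH' : (2 : ℝ) ≤ H := by exact_mod_cast hH
  have hs1 : (H : ℝ) < s := by nlinarith
  rw [pev_eq f, pev_eq g,
    tsum_mul_tsum_eq_tsum_sum_antidiagonal_of_summable_norm (summable_tm hf hs1)
      (summable_tm hg hs1), pev_eq]
  congr 1
  funext n
  simp only [tm, PowerSeries.coeff_mul]
  push_cast
  rw [Finset.sum_mul]
  refine Finset.sum_congr rfl fun p hp => ?_
  rw [← Finset.HasAntidiagonal.mem_antidiagonal.1 hp, pow_add]
  ring

theorem pev_bound {H : ℕ} (hH : 2 ≤ H) {f : PowerSeries ℚ} (hf : GBound H f) {s : ℝ}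
    (hs : (2 : ℝ) * H ≤ s) : |pev f s| ≤ 2 * H := by
  have hH' : (2 : ℝ) ≤ H := by exact_mod_cast hH
  have hs0 : 0 < s := by linarith
  rw [pev_eq]
  refine abs_tsum_le (x := H / s) (by positivity) (by positivity) ?_ (fun n => abs_tm_le hf hs0 n)
  rw [div_le_div_iff₀ hs0 (by norm_num)]
  linarith

/-- A linear form with large order at infinity is small at `s`. -/
theorem form_small {R D H : ℕ} (hH : 2 ≤ H) (Q : Fin R → ℚ[X]) (hQ : ∀ a, (Q a).natDegree ≤ D)
    {M : ℚ} (hM : ∀ a i, |(Q a).coeff i| ≤ M) (e : Fin R → PowerSeries ℚ)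
    (he : ∀ a, GBound H (e a)) {N : ℕ} (hN : OrdGE (N : ℤ) (∑ a, emb (Q a) * ps (e a))) {s : ℝ}
    (hs : (2 : ℝ) * H ≤ s) :
    |∑ a, ((Q a).map (algebraMap ℚ ℝ)).eval s * pev (e a) s| ≤
      2 * R * (D + 1) * M * (H : ℝ) ^ (D + N + 1) / s ^ N := by
  rcases Nat.eq_zero_or_pos R with rfl | hR
  · simp
  have hM0 : 0 ≤ M := le_trans (abs_nonneg _) (hM ⟨0, hR⟩ 0)
  have hM0' : (0 : ℝ) ≤ (M : ℝ) := by exact_mod_cast hM0
  have hH' : (2 : ℝ) ≤ H := by exact_mod_cast hH
  have hs0 : 0 < s := by linarith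
  have hs1 : (H : ℝ) < s := by linarith
  set G : PowerSeries ℚ := ∑ a, ∑ k ∈ Finset.range (D + 1),
    PowerSeries.C ((Q a).coeff k) * (PowerSeries.X ^ (D - k) * e a) with hG
  -- the value
  have hval : HasSum (tm G s) (∑ a, ∑ k ∈ Finset.range (D + 1),
      (((Q a).coeff k : ℚ) : ℝ) * (1 / s) ^ (D - k) * pev (e a) s) := by
    have h1 : HasSum (fun n => ∑ a, ∑ k ∈ Finset.range (D + 1),
        tm (PowerSeries.C ((Q a).coeff k) * (PowerSeries.X ^ (D - k) * e a)) s n)
        (∑ a, ∑ k ∈ Finset.range (D + 1),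
          (((Q a).coeff k : ℚ) : ℝ) * (1 / s) ^ (D - k) * pev (e a) s) :=
      hasSum_sum fun a _ => hasSum_sum fun k _ => hasSum_shift (he a) hs1 _ _
    convert h1 using 1
    funext n
    simp only [tm, hG, map_sum]
    push_cast
    rw [Finset.sum_mul]
    refine Finset.sum_congr rfl fun a _ => ?_
    rw [Finset.sum_mul]
  have hsD : s ^ D * (∑ a, ∑ k ∈ Finset.range (D + 1),
      (((Q a).coeff k : ℚ) : ℝ) * (1 / s) ^ (D - k) * pev (e a) s) =
      ∑ a, ((Q a).map (algebraMap ℚ ℝ)).eval s * pev (e a) s := by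
    rw [Finset.mul_sum]
    refine Finset.sum_congr rfl fun a _ => ?_
    have hdeg : ((Q a).map (algebraMap ℚ ℝ)).natDegree < D + 1 :=
      Nat.lt_succ_of_le (le_trans Polynomial.natDegree_map_le (hQ a))
    rw [Polynomial.eval_eq_sum_range' hdeg, Finset.mul_sum, Finset.sum_mul]
    refine Finset.sum_congr rfl fun k hk => ?_
    have hk' : k ≤ D := Nat.lt_succ_iff.1 (Finset.mem_range.1 hk)
    have h2 : s ^ D * (1 / s) ^ (D - k) = s ^ k := by
      rw [one_div, inv_pow]
      have : s ^ D = s ^ k * s ^ (D - k) := by rw [← pow_add]; congr 1; omega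
      rw [this]
      field_simp
    rw [Polynomial.coeff_map]
    have h3 : (algebraMap ℚ ℝ) ((Q a).coeff k) = (((Q a).coeff k : ℚ) : ℝ) := rfl
    rw [h3, ← h2]
    ring
  -- vanishing of the first coefficients
  have hvan : ∀ n < D + N, PowerSeries.coeff n G = 0 := by
    intro n hn
    have h1 : ps G = HahnSeries.single (D : ℤ) (1 : ℚ) * ∑ a, emb (Q a) * ps (e a) := by
      rw [hG, Finset.mul_sum]
      unfold ps
      rw [map_sum]
      refine Finset.sum_congr rfl fun a _ => ?_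
      rw [← mul_assoc, emb_mul_single (hQ a)]
      unfold ps
      rw [← map_mul, Finset.sum_mul]
      congr 1
      refine Finset.sum_congr rfl fun k _ => ?_
      rw [mul_assoc]
    have h2 : (ps G).coeff (n : ℤ) = PowerSeries.coeff n G := by
      unfold ps
      exact HahnSeries.ofPowerSeries_apply_coeff G n
    rw [← h2, h1, HahnSeries.coeff_single_mul, one_mul]
    exact hN _ (by omega)
  -- bound of the coefficients
  have hcoef : ∀ n, |PowerSeries.coeff n G| ≤ R * (D + 1) * M * (H : ℚ) ^ (n + 1) := by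
    intro n
    rw [hG, map_sum]
    refine le_trans (Finset.abs_sum_le_sum_abs _ _) ?_
    have h1 : ∀ a ∈ (Finset.univ : Finset (Fin R)),
        |PowerSeries.coeff n (∑ k ∈ Finset.range (D + 1),
          PowerSeries.C ((Q a).coeff k) * (PowerSeries.X ^ (D - k) * e a))| ≤
        (D + 1) * (M * (H : ℚ) ^ (n + 1)) := by
      intro a _
      rw [map_sum]
      refine le_trans (Finset.abs_sum_le_sum_abs _ _) ?_
      have h2 : ∀ k ∈ Finset.range (D + 1),
          |PowerSeries.coeff n (PowerSeries.C ((Q a).coeff k) *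
            (PowerSeries.X ^ (D - k) * e a))| ≤ M * (H : ℚ) ^ (n + 1) := by
        intro k _
        rw [PowerSeries.coeff_C_mul, abs_mul]
        exact mul_le_mul (hM a k) (coeff_bound (by omega) (he a) _ _) (abs_nonneg _) hM0
      refine le_trans (Finset.sum_le_sum h2) ?_
      rw [Finset.sum_const, Finset.card_range, nsmul_eq_mul]
      push_cast
      exact le_refl _
    refine le_trans (Finset.sum_le_sum h1) ?_
    rw [Finset.sum_const, Finset.card_univ, Fintype.card_fin, nsmul_eq_mul]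
    exact le_of_eq (by ring)
  -- tail
  have htail : |∑' n, tm G s n| ≤ 2 * (R * (D + 1) * M * (H : ℝ) ^ (D + N + 1) / s ^ (D + N)) := by
    have h1 : ∑' n, tm G s n = ∑' n, tm G s (n + (D + N)) := by
      rw [← hval.summable.sum_add_tsum_nat_add (D + N)]
      have : ∑ n ∈ Finset.range (D + N), tm G s n = 0 := by
        apply Finset.sum_eq_zero
        intro n hn
        simp [tm, hvan n (Finset.mem_range.1 hn)]
      rw [this, zero_add]
    rw [h1]
    refine abs_tsum_le (x := H / s) (by positivity) (by positivity) ?_ ?_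
    · rw [div_le_div_iff₀ hs0 (by norm_num)]
      linarith
    · intro n
      unfold tm
      rw [abs_mul, abs_pow, abs_of_pos (one_div_pos.2 hs0)]
      have h2 : |((PowerSeries.coeff (n + (D + N)) G : ℚ) : ℝ)| ≤
          R * (D + 1) * M * (H : ℝ) ^ (n + (D + N) + 1) := by
        exact_mod_cast hcoef (n + (D + N))
      refine le_trans (mul_le_mul_of_nonneg_right h2 (by positivity)) (le_of_eq ?_)
      have e1 : (H : ℝ) ^ (n + (D + N) + 1) = (H : ℝ) ^ (D + N + 1) * (H : ℝ) ^ n := by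
        rw [← pow_add]; congr 1; omega
      rw [e1, pow_add (1 / s) n (D + N), one_div, inv_pow, inv_pow, div_pow]
      field_simp
  have hfin : ∑ a, ((Q a).map (algebraMap ℚ ℝ)).eval s * pev (e a) s = s ^ D * ∑' n, tm G s n := by
    rw [← hsD, hval.tsum_eq]
  rw [hfin, abs_mul, abs_of_pos (by positivity : 0 < s ^ D)]
  calc s ^ D * |∑' n, tm G s n|
      ≤ s ^ D * (2 * (R * (D + 1) * M * (H : ℝ) ^ (D + N + 1) / s ^ (D + N))) :=
        mul_le_mul_of_nonneg_left htail (by positivity)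
    _ = 2 * R * (D + 1) * M * (H : ℝ) ^ (D + N + 1) / s ^ N := by
        rw [pow_add s D N]
        field_simp

end Pool.Agent.Helper37.GP
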