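import Pool.Agent.Helper37.GP.Defs

/-!
# GP-2b : sizes and denominators of the iterates
-/

open Polynomial

namespace Pool.Agent.Helper37.GP

namespace RowSize

theorem coeff_mul_le {p q : ℚ[X]} {τ : ℕ} {A M : ℚ} (hp : p.natDegree ≤ τ)
    (hA : ∀ i, |p.coeff i| ≤ A) (hM : ∀ i, |q.coeff i| ≤ M) (n : ℕ) :
    |(p * q).coeff n| ≤ (τ + 1) * A * M := by
  have hA0 : 0 ≤ A := (abs_nonneg _).trans (hA 0)
  have hM0 : 0 ≤ M := (abs_nonneg _).trans (hM 0)
  rw [Polynomial.coeff_mul]
  have h1 : ∑ x ∈ Finset.HasAntidiagonal.antidiagonal n, p.coeff x.1 * q.coeff x.2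
      = ∑ k ∈ Finset.range (n + 1), p.coeff k * q.coeff (n - k) :=
    Finset.Nat.sum_antidiagonal_eq_sum_range_succ (fun a b => p.coeff a * q.coeff b) n
  rw [h1]
  have h2 : ∑ k ∈ Finset.range (n + 1), p.coeff k * q.coeff (n - k)
      = ∑ k ∈ (Finset.range (n + 1)).filter (fun k => k ≤ τ), p.coeff k * q.coeff (n - k) := by
    rw [Finset.sum_filter]
    refine Finset.sum_congr rfl fun k _ => ?_
    split_ifs with h
    · rfl
    · rw [Polynomial.coeff_eq_zero_of_natDegree_lt (by omega), zero_mul]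
  rw [h2]
  refine (Finset.abs_sum_le_sum_abs _ _).trans ?_
  refine (Finset.sum_le_card_nsmul _ _ (A * M) ?_).trans ?_
  · intro k _
    rw [abs_mul]
    exact mul_le_mul (hA k) (hM _) (abs_nonneg _) hA0
  · rw [nsmul_eq_mul]
    have h3 : ((Finset.range (n + 1)).filter (fun k => k ≤ τ)).card ≤ τ + 1 := by
      refine (Finset.card_le_card (t := Finset.range (τ + 1)) ?_).trans (by simp)
      intro k hk
      simp only [Finset.mem_filter, Finset.mem_range] at hk ⊢
      omega
    have h4 : (((Finset.range (n + 1)).filter (fun k => k ≤ τ)).card : ℚ) ≤ τ + 1 := by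
      exact_mod_cast h3
    calc (((Finset.range (n + 1)).filter (fun k => k ≤ τ)).card : ℚ) * (A * M)
        ≤ (τ + 1) * (A * M) := mul_le_mul_of_nonneg_right h4 (mul_nonneg hA0 hM0)
      _ = (τ + 1) * A * M := by ring

theorem coeff_derivative_le {p : ℚ[X]} {τ : ℕ} {A : ℚ} (hp : p.natDegree ≤ τ)
    (hA : ∀ i, |p.coeff i| ≤ A) (n : ℕ) : |(derivative p).coeff n| ≤ τ * A := by
  have hA0 : 0 ≤ A := (abs_nonneg _).trans (hA 0)
  rw [coeff_derivative]
  by_cases h : n + 1 ≤ τ
  · rw [abs_mul]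
    have : |((n : ℚ) + 1)| ≤ τ := by
      rw [abs_of_nonneg (by positivity)]
      exact_mod_cast h
    calc |p.coeff (n + 1)| * |((n : ℚ) + 1)| ≤ A * τ :=
          mul_le_mul (hA _) this (abs_nonneg _) hA0
      _ = τ * A := mul_comm _ _
  · rw [Polynomial.coeff_eq_zero_of_natDegree_lt (by omega), zero_mul, abs_zero]
    positivity

theorem row_succ_apply {ι : Type} [Fintype ι] [DecidableEq ι] (T : ℚ[X]) (B : Matrix ι ι ℚ[X])
    (P : ι → ℚ[X]) (j : ℕ) (a : ι) :
    row T B P (j + 1) a = C (((j : ℚ) + 1)⁻¹) * (T * derivative (row T B P j a)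
      - ((j : ℚ[X]) * derivative T) * row T B P j a + ∑ b, row T B P j b * B b a) := by
  simp only [row, Pi.smul_apply, Pi.add_apply, Pi.sub_apply, smul_eq_mul, Matrix.vecMul,
    dotProduct]

theorem beta_succ_apply {ι : Type} [Fintype ι] [DecidableEq ι] (T : ℚ[X]) (B : Matrix ι ι ℚ[X])
    (j : ℕ) (a c : ι) :
    beta T B (j + 1) a c = C (((j : ℚ) + 1)⁻¹) * (T * derivative (beta T B j a c)
      - ((j : ℚ[X]) * derivative T) * beta T B j a c + ∑ b, beta T B j a b * B b c) := by
  simp only [beta, Matrix.smul_apply, Matrix.add_apply, Matrix.sub_apply, smul_eq_mul,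
      Matrix.map_apply, Matrix.mul_apply]

theorem beta_succ_mul {ι : Type} [Fintype ι] [DecidableEq ι] (T : ℚ[X]) (B : Matrix ι ι ℚ[X])
    (j : ℕ) (a c : ι) :
    ((j : ℚ[X]) + 1) * beta T B (j + 1) a c = (T * derivative (beta T B j a c)
      - ((j : ℚ[X]) * derivative T) * beta T B j a c + ∑ b, beta T B j a b * B b c) := by
  rw [beta_succ_apply, ← mul_assoc]
  have : ((j : ℚ[X]) + 1) * C (((j : ℚ) + 1)⁻¹) = 1 := by
    have h : ((j : ℚ[X]) + 1) = C ((j : ℚ) + 1) := by simp
    rw [h, ← C_mul, mul_inv_cancel₀ (by positivity), C_1]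
  rw [this, one_mul]

theorem derivative_hasseDeriv (m : ℕ) (p : ℚ[X]) :
    derivative (hasseDeriv m p) = ((m : ℚ[X]) + 1) * hasseDeriv (m + 1) p := by
  ext n
  have h : ((m : ℚ[X]) + 1) = C ((m : ℚ) + 1) := by simp
  rw [coeff_derivative, h, coeff_C_mul, hasseDeriv_coeff, hasseDeriv_coeff]
  have h1 : n + 1 + m = n + (m + 1) := by ring
  rw [h1]
  have h2 : ((n + (m + 1)).choose m) * (n + 1) = (n + (m + 1)).choose (m + 1) * (m + 1) := by
    have := Nat.choose_succ_right_eq (n + (m + 1)) m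
    rw [this]
    congr 1
    omega
  have h3 : (((n + (m + 1)).choose m : ℕ) : ℚ) * ((n : ℚ) + 1) =
      ((n + (m + 1)).choose (m + 1) : ℕ) * ((m : ℚ) + 1) := by exact_mod_cast h2
  linear_combination h3 * p.coeff (n + (m + 1))

theorem row_eq_beta' {ι : Type} [Fintype ι] [DecidableEq ι] (T : ℚ[X]) (B : Matrix ι ι ℚ[X])
    (P : ι → ℚ[X]) (j : ℕ) (a : ι) :
    row T B P j a = ∑ i ∈ Finset.range (j + 1), ∑ b,
      T ^ (j - i) * hasseDeriv (j - i) (P b) * beta T B i b a := by
  induction j generalizing a with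
  | zero => simp [row, beta, Matrix.one_apply]
  | succ j ih =>
    have key : T * derivative (row T B P j a)
        - ((j : ℚ[X]) * derivative T) * row T B P j a + ∑ b, row T B P j b * B b a =
        ((j : ℚ[X]) + 1) * ∑ i ∈ Finset.range (j + 1 + 1), ∑ b,
          T ^ (j + 1 - i) * hasseDeriv (j + 1 - i) (P b) * beta T B i b a := by
      set X : ℕ → ℚ[X] := fun i => ∑ b,
          T ^ (j + 1 - i) * hasseDeriv (j + 1 - i) (P b) * beta T B i b a with hX
      have hR : ((j : ℚ[X]) + 1) * ∑ i ∈ Finset.range (j + 1 + 1), X i =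
          ∑ i ∈ Finset.range (j + 1), (((j + 1 - i : ℕ) : ℚ[X]) * X i + ((i + 1 : ℕ) : ℚ[X]) * X (i + 1)) := by
        have e1 : ((j : ℚ[X]) + 1) * ∑ i ∈ Finset.range (j + 1 + 1), X i =
            ∑ i ∈ Finset.range (j + 1 + 1), ((j + 1 - i : ℕ) : ℚ[X]) * X i +
            ∑ i ∈ Finset.range (j + 1 + 1), ((i : ℕ) : ℚ[X]) * X i := by
          rw [Finset.mul_sum, ← Finset.sum_add_distrib]
          refine Finset.sum_congr rfl fun i hi => ?_
          rw [← add_mul]
          congr 1
          have : i ≤ j + 1 := by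
            have := Finset.mem_range.mp hi
            omega
          push_cast [Nat.cast_sub this]
          ring
        rw [e1, Finset.sum_add_distrib]
        congr 1
        · rw [Finset.sum_range_succ]
          simp
        · rw [Finset.sum_range_succ']
          simp
      rw [hR]
      have hsum : ∑ b, row T B P j b * B b a = ∑ i ∈ Finset.range (j + 1), ∑ b,
          T ^ (j - i) * hasseDeriv (j - i) (P b) * ∑ c, beta T B i b c * B c a := by
        simp only [ih, Finset.sum_mul, Finset.mul_sum]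
        rw [Finset.sum_comm]
        refine Finset.sum_congr rfl fun i _ => ?_
        rw [Finset.sum_comm]
        refine Finset.sum_congr rfl fun b _ => ?_
        refine Finset.sum_congr rfl fun c _ => ?_
        ring
      rw [hsum, ih, map_sum, Finset.mul_sum, Finset.mul_sum, ← Finset.sum_sub_distrib,
        ← Finset.sum_add_distrib]
      refine Finset.sum_congr rfl fun i hi => ?_
      have hij : i ≤ j := by
        have := Finset.mem_range.mp hi
        omega
      rw [map_sum, Finset.mul_sum, Finset.mul_sum, ← Finset.sum_sub_distrib,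
        ← Finset.sum_add_distrib, hX]
      dsimp only
      rw [Finset.mul_sum, Finset.mul_sum, ← Finset.sum_add_distrib]
      refine Finset.sum_congr rfl fun b _ => ?_
      obtain ⟨m, rfl⟩ := Nat.exists_eq_add_of_le hij
      have e2 : i + m - i = m := by omega
      have e3 : i + m + 1 - i = m + 1 := by omega
      have e4 : i + m + 1 - (i + 1) = m := by omega
      rw [e2, e3, e4]
      have hb := beta_succ_mul T B i b a
      rw [derivative_mul, derivative_mul, derivative_pow, derivative_hasseDeriv]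
      have hm : T * (C ((m : ℕ) : ℚ) * T ^ (m - 1) * derivative T) = (m : ℚ[X]) * T ^ m * derivative T := by
        cases m with
        | zero => simp
        | succ m =>
          rw [Nat.add_sub_cancel, pow_succ]
          simp
          ring
      have hcast : (((i + 1 : ℕ)) : ℚ[X]) = (i : ℚ[X]) + 1 := by push_cast; ring
      have hcast2 : (((i + m : ℕ)) : ℚ[X]) = (i : ℚ[X]) + m := by push_cast; ring
      have hcast3 : (((m + 1 : ℕ)) : ℚ[X]) = (m : ℚ[X]) + 1 := by push_cast; ring
      rw [hcast, hcast2, hcast3]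
      set S := ∑ c, beta T B i b c * B c a
      linear_combination (hasseDeriv m (P b) * beta T B i b a) * hm
        - (T ^ m * hasseDeriv m (P b)) * hb
    rw [row_succ_apply, key, ← mul_assoc]
    have : C (((j : ℚ) + 1)⁻¹) * ((j : ℚ[X]) + 1) = 1 := by
      have h : ((j : ℚ[X]) + 1) = C ((j : ℚ) + 1) := by simp
      rw [h, ← C_mul, inv_mul_cancel₀ (by positivity), C_1]
    rw [this, one_mul]

theorem natDegree_row_le {ι : Type} [Fintype ι] [DecidableEq ι] {T : ℚ[X]}
    {B : Matrix ι ι ℚ[X]} {τ D : ℕ} (hT : T.natDegree ≤ τ) (hB : ∀ a b, (B a b).natDegree ≤ τ)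
    {P : ι → ℚ[X]} (hP : ∀ a, (P a).natDegree ≤ D) (j : ℕ) (a : ι) :
    (row T B P j a).natDegree ≤ D + τ * j := by
  induction j generalizing a with
  | zero => simpa [row] using hP a
  | succ j ih =>
    rw [row_succ_apply]
    refine (natDegree_C_mul_le _ _).trans ?_
    have hτ : τ * (j + 1) = τ * j + τ := by ring
    refine (natDegree_add_le _ _).trans (max_le ((natDegree_sub_le _ _).trans (max_le ?_ ?_)) ?_)
    · refine natDegree_mul_le.trans ?_
      have := (natDegree_derivative_le (row T B P j a))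
      have := ih a
      omega
    · refine natDegree_mul_le.trans ?_
      have h1 : ((j : ℚ[X]) * derivative T).natDegree ≤ τ := by
        refine natDegree_mul_le.trans ?_
        have := natDegree_derivative_le T
        rw [natDegree_natCast]
        omega
      have := ih a
      omega
    · refine natDegree_sum_le_of_forall_le _ _ fun b _ => ?_
      refine natDegree_mul_le.trans ?_
      have := ih b
      have := hB b a
      omega

theorem row_bound {R τ : ℕ} {H : ℕ} {T : ℚ[X]}
    {B : Matrix (Fin R) (Fin R) ℚ[X]} (hT : T.natDegree ≤ τ) (hB : ∀ a b, (B a b).natDegree ≤ τ)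
    (hTc : ∀ i, |T.coeff i| ≤ H) (hBc : ∀ a b i, |(B a b).coeff i| ≤ H)
    {D : ℕ} {M : ℚ} {P : Fin R → ℚ[X]} (hP : ∀ a, (P a).natDegree ≤ D)
    (hM : ∀ a i, |(P a).coeff i| ≤ M) (j : ℕ) (a : Fin R) (i : ℕ) :
    |(row T B P j a).coeff i| ≤
      M * (((H * (τ + 1) * (2 * τ + R + 1) : ℕ) : ℚ) ^ j * ((D + j).choose j : ℚ)) := by
  induction j generalizing a i with
  | zero => simpa [row] using hM a i
  | succ j ih =>
    set A : ℚ := ((H * (τ + 1) * (2 * τ + R + 1) : ℕ) : ℚ) with hA
    set N : ℚ := M * (A ^ j * ((D + j).choose j : ℚ)) with hN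
    have hN0 : 0 ≤ N := (abs_nonneg _).trans (ih a 0)
    have hj : (0 : ℚ) < (j : ℚ) + 1 := by positivity
    have hH0 : (0 : ℚ) ≤ H := by positivity
    have hdeg := natDegree_row_le hT hB hP j
    rw [row_succ_apply, coeff_C_mul, abs_mul, abs_of_pos (inv_pos.mpr hj)]
    have h1 : |(T * derivative (row T B P j a)).coeff i| ≤
        (τ + 1) * H * (((D + τ * j : ℕ) : ℚ) * N) :=
      coeff_mul_le hT hTc (fun n => coeff_derivative_le (hdeg a) (ih a) n) i
    have h2 : |(((j : ℚ[X]) * derivative T) * row T B P j a).coeff i| ≤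
        (τ + 1) * (j * (τ * H)) * N := by
      refine coeff_mul_le (τ := τ) ?_ ?_ (ih a) i
      · refine natDegree_mul_le.trans ?_
        have := natDegree_derivative_le T
        rw [natDegree_natCast]
        omega
      · intro n
        rw [← C_eq_natCast, coeff_C_mul, abs_mul]
        have : |((j : ℕ) : ℚ)| = j := abs_of_nonneg (by positivity)
        rw [this]
        exact mul_le_mul_of_nonneg_left (coeff_derivative_le hT hTc n) (by positivity)
    have h3 : |(∑ b, row T B P j b * B b a).coeff i| ≤ R * ((τ + 1) * H * N) := by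
      rw [finsetSum_coeff]
      refine (Finset.abs_sum_le_sum_abs _ _).trans ?_
      refine (Finset.sum_le_card_nsmul _ _ ((τ + 1) * H * N) ?_).trans ?_
      · intro b _
        rw [mul_comm (row T B P j b)]
        exact coeff_mul_le (hB b a) (hBc b a) (ih b) i
      · simp
    have h4 : |(T * derivative (row T B P j a)
      - ((j : ℚ[X]) * derivative T) * row T B P j a + ∑ b, row T B P j b * B b a).coeff i| ≤
        A * (D + j + 1) * N := by
      rw [coeff_add, coeff_sub]
      refine (abs_add_le _ _).trans ?_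
      refine (add_le_add (abs_sub _ _) le_rfl).trans ?_
      refine (add_le_add (add_le_add h1 h2) h3).trans ?_
      have : (τ + 1) * H * (((D + τ * j : ℕ) : ℚ) * N) + (τ + 1) * (j * (τ * H)) * N
          + R * ((τ + 1) * H * N) = (τ + 1) * H * (D + 2 * τ * j + R) * N := by
        push_cast; ring
      rw [this]
      refine mul_le_mul_of_nonneg_right ?_ hN0
      rw [hA]
      push_cast
      have h5 : (D + 2 * τ * j + R : ℚ) ≤ (2 * τ + R + 1) * (D + j + 1) := by
        have : (0 : ℚ) ≤ 2 * τ * D + R * D + R * j + j + 1 + 2 * τ := by positivity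
        nlinarith
      calc ((τ : ℚ) + 1) * H * (D + 2 * τ * j + R)
          ≤ (τ + 1) * H * ((2 * τ + R + 1) * (D + j + 1)) :=
            mul_le_mul_of_nonneg_left h5 (by positivity)
        _ = H * (τ + 1) * (2 * τ + R + 1) * (D + j + 1) := by ring
    have h6 : ((D + (j + 1)).choose (j + 1) : ℚ) = (D + j + 1) / (j + 1) * ((D + j).choose j) := by
      have := Nat.add_one_mul_choose_eq (D + j) j
      have h7 : ((D + j + 1 : ℕ) : ℚ) * ((D + j).choose j : ℚ) =
          ((D + j + 1).choose (j + 1) : ℚ) * ((j + 1 : ℕ) : ℚ) := by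
        exact_mod_cast this
      rw [div_mul_eq_mul_div, eq_div_iff hj.ne']
      push_cast at h7
      rw [← add_assoc]
      linarith
    calc ((j : ℚ) + 1)⁻¹ * |_| ≤ ((j : ℚ) + 1)⁻¹ * (A * (D + j + 1) * N) :=
          mul_le_mul_of_nonneg_left h4 (inv_pos.mpr hj).le
      _ = M * (A ^ (j + 1) * ((D + (j + 1)).choose (j + 1) : ℚ)) := by
          rw [h6, hN, pow_succ]
          field_simp

theorem row_single {ι : Type} [Fintype ι] [DecidableEq ι] (T : ℚ[X]) (B : Matrix ι ι ℚ[X])
    (a : ι) (j : ℕ) (b : ι) :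
    row T B (fun c => if a = c then 1 else 0) j b = beta T B j a b := by
  induction j generalizing b with
  | zero => simp [row, beta, Matrix.one_apply]
  | succ j ih =>
    rw [row_succ_apply]
    simp only [ih]
    simp only [beta, Matrix.smul_apply, Matrix.add_apply, Matrix.sub_apply, smul_eq_mul,
      Matrix.map_apply, Matrix.mul_apply]

theorem intBy_iff {q : ℕ} {p : ℚ[X]} :
    IntBy q p ↔ ∃ z : ℤ[X], C (q : ℚ) * p = z.map (Int.castRingHom ℚ) := by
  constructor
  · intro h
    choose z hz using h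
    refine ⟨∑ n ∈ Finset.range (p.natDegree + 1), monomial n (z n), ?_⟩
    ext n
    rw [coeff_C_mul, coeff_map, finsetSum_coeff]
    simp only [coeff_monomial]
    by_cases hn : n ∈ Finset.range (p.natDegree + 1)
    · rw [Finset.sum_ite_eq' , if_pos hn, hz]
      rfl
    · rw [Finset.sum_ite_eq', if_neg hn, coeff_eq_zero_of_natDegree_lt (by simpa using hn)]
      simp
  · rintro ⟨z, hz⟩ n
    refine ⟨z.coeff n, ?_⟩
    have := congrArg (fun r => coeff r n) hz
    simpa [coeff_C_mul] using this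

end RowSize

open RowSize

theorem size_row (R τ : ℕ) : ∃ C₀ : ℕ, 1 ≤ C₀ ∧ ∀ (H : ℕ), 2 ≤ H → ∀ (T : ℚ[X])
    (B : Matrix (Fin R) (Fin R) ℚ[X]), T.natDegree ≤ τ → (∀ a b, (B a b).natDegree ≤ τ) →
    (∀ i, |T.coeff i| ≤ H) → (∀ a b i, |(B a b).coeff i| ≤ H) →
    ∀ (D : ℕ) (M : ℚ) (P : Fin R → ℚ[X]), (∀ a, (P a).natDegree ≤ D) →
    (∀ a i, |(P a).coeff i| ≤ M) → ∀ j a i,
    |(row T B P j a).coeff i| ≤ M * ((H ^ C₀ : ℕ) : ℚ) ^ (D + j + 1) := by
  refine ⟨2 + (τ + 1) * (2 * τ + R + 1), by omega, ?_⟩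
  intro H hH T B hT hB hTc hBc D M P hP hM j a i
  refine (row_bound hT hB hTc hBc hP hM j a i).trans ?_
  have hM0 : 0 ≤ M := (abs_nonneg _).trans (hM a 0)
  refine mul_le_mul_of_nonneg_left ?_ hM0
  set c : ℕ := (τ + 1) * (2 * τ + R + 1) with hc
  have h1 : H * (τ + 1) * (2 * τ + R + 1) ≤ H ^ (1 + c) := by
    rw [mul_assoc, ← hc, pow_add, pow_one]
    refine Nat.mul_le_mul_left _ ?_
    exact (Nat.lt_pow_self (by omega : 1 < H)).le
  have h2 : (D + j).choose j ≤ H ^ (D + j) :=
    (Nat.choose_le_two_pow _ _).trans (Nat.pow_le_pow_left hH _)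
  have h3 : (H * (τ + 1) * (2 * τ + R + 1)) ^ j * (D + j).choose j ≤
      (H ^ (2 + c)) ^ (D + j + 1) := by
    calc (H * (τ + 1) * (2 * τ + R + 1)) ^ j * (D + j).choose j
        ≤ (H ^ (1 + c)) ^ j * H ^ (D + j) := Nat.mul_le_mul (Nat.pow_le_pow_left h1 _) h2
      _ ≤ (H ^ (1 + c)) ^ (D + j + 1) * H ^ (D + j + 1) := by
          refine Nat.mul_le_mul ?_ ?_
          · exact Nat.pow_le_pow_right (by positivity) (by omega)
          · exact Nat.pow_le_pow_right (by omega) (by omega)
      _ = (H ^ (2 + c)) ^ (D + j + 1) := by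
          rw [← mul_pow]
          congr 1
          ring
  exact_mod_cast h3

/-- Sizes of the iterates: the sum of the absolute values of the coefficients. -/
theorem size_beta (R τ : ℕ) : ∃ C₀ : ℕ, 1 ≤ C₀ ∧ ∀ (H : ℕ), 2 ≤ H → ∀ (T : ℚ[X])
    (B : Matrix (Fin R) (Fin R) ℚ[X]), T.natDegree ≤ τ → (∀ a b, (B a b).natDegree ≤ τ) →
    (∀ i, |T.coeff i| ≤ H) → (∀ a b i, |(B a b).coeff i| ≤ H) →
    ∀ j a b i, |(beta T B j a b).coeff i| ≤ ((H ^ C₀ : ℕ) : ℚ) ^ (j + 1) := by
  obtain ⟨C₀, hC₀, h⟩ := size_row R τ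
  refine ⟨C₀, hC₀, ?_⟩
  intro H hH T B hT hB hTc hBc j a b i
  have := h H hH T B hT hB hTc hBc 0 1 (fun c => if a = c then 1 else 0) ?_ ?_ j b i
  · rw [row_single] at this
    simpa using this
  · intro c
    split_ifs <;> simp
  · intro c i
    split_ifs
    · rw [coeff_one]
      split_ifs <;> simp
    · simp

/-- Denominators of the rows, from the formula for the rows. -/
theorem RowSize.den_row_of {ι : Type} [Fintype ι] [DecidableEq ι] {T : ℤ[X]} {B : Matrix ι ι ℚ[X]}
    {H : ℕ} (hG : Galochkin (T.map (Int.castRingHom ℚ)) B H) (P : ι → ℤ[X]) (J : ℕ)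
    (hrow : ∀ (j : ℕ) (a : ι), row (T.map (Int.castRingHom ℚ)) B
        (fun a => (P a).map (Int.castRingHom ℚ)) j a =
      ∑ i ∈ Finset.range (j + 1), ∑ b, (T.map (Int.castRingHom ℚ)) ^ (j - i) *
        hasseDeriv (j - i) ((P b).map (Int.castRingHom ℚ)) *
          beta (T.map (Int.castRingHom ℚ)) B i b a) :
    ∃ q : ℕ, 0 < q ∧ q ≤ H ^ (J + 1) ∧ ∀ j ≤ J, ∀ a,
      IntBy q (row (T.map (Int.castRingHom ℚ)) B (fun a => (P a).map (Int.castRingHom ℚ)) j a) := by
  obtain ⟨q, hq0, hqH, hq⟩ := hG J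
  refine ⟨q, hq0, hqH, fun j hj a => ?_⟩
  rw [intBy_iff, hrow, Finset.mul_sum]
  have hint : ∀ i ∈ Finset.range (j + 1), ∃ z : ℤ[X], C (q : ℚ) *
      (∑ b, (T.map (Int.castRingHom ℚ)) ^ (j - i) *
        hasseDeriv (j - i) ((P b).map (Int.castRingHom ℚ)) *
          beta (T.map (Int.castRingHom ℚ)) B i b a) = z.map (Int.castRingHom ℚ) := by
    intro i hi
    have hi' : i ≤ J := by
      have := Finset.mem_range.mp hi
      omega
    have h1 : ∀ b, ∃ z : ℤ[X], C (q : ℚ) * beta (T.map (Int.castRingHom ℚ)) B i b a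
        = z.map (Int.castRingHom ℚ) := fun b => intBy_iff.mp (hq i hi' b a)
    choose z hz using h1
    refine ⟨∑ b, T ^ (j - i) * hasseDeriv (j - i) (P b) * z b, ?_⟩
    rw [Polynomial.map_sum, Finset.mul_sum]
    refine Finset.sum_congr rfl fun b _ => ?_
    have h2 : hasseDeriv (j - i) ((P b).map (Int.castRingHom ℚ)) =
        (hasseDeriv (j - i) (P b)).map (Int.castRingHom ℚ) := by
      ext n
      simp [hasseDeriv_coeff]
    rw [Polynomial.map_mul, Polynomial.map_mul, Polynomial.map_pow, ← hz b, h2]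
    ring
  choose! z hz using hint
  refine ⟨∑ i ∈ Finset.range (j + 1), z i, ?_⟩
  rw [Polynomial.map_sum]
  exact Finset.sum_congr rfl hz

/-- Denominators of the rows of an integral vector under Galochkin's condition. -/
theorem den_row {ι : Type} [Fintype ι] [DecidableEq ι] {T : ℤ[X]} {B : Matrix ι ι ℚ[X]}
    {H : ℕ} (hG : Galochkin (T.map (Int.castRingHom ℚ)) B H) (P : ι → ℤ[X]) (J : ℕ) :
    ∃ q : ℕ, 0 < q ∧ q ≤ H ^ (J + 1) ∧ ∀ j ≤ J, ∀ a,
      IntBy q (row (T.map (Int.castRingHom ℚ)) B (fun a => (P a).map (Int.castRingHom ℚ)) j a) :=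
  RowSize.den_row_of hG P J fun j a => row_eq_beta' _ _ _ j a

end Pool.Agent.Helper37.GP
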