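import Pool.Agent.Helper37.GP.LS

/-!
# GP-2a : the iterates, algebra part
-/

open Polynomial

namespace Pool.Agent.Helper37.GP

namespace RowsAux

theorem beta_succ {ι : Type} [Fintype ι] [DecidableEq ι] (T : ℚ[X])
    (B : Matrix ι ι ℚ[X]) (j : ℕ) (a b : ι) :
    ((j : ℚ[X]) + 1) * beta T B (j + 1) a b =
      T * derivative (beta T B j a b) - (j : ℚ[X]) * derivative T * beta T B j a b +
        ∑ c, beta T B j a c * B c b := by
  have h : ((j : ℚ[X]) + 1) * C (((j : ℚ) + 1)⁻¹) = 1 := by
    have h1 : ((j : ℚ[X]) + 1) = C ((j : ℚ) + 1) := by simp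
    rw [h1, ← C_mul, mul_inv_cancel₀ (by positivity), C_1]
  have h2 : beta T B (j + 1) a b = C (((j : ℚ) + 1)⁻¹) *
      (T * derivative (beta T B j a b) - (j : ℚ[X]) * derivative T * beta T B j a b +
        ∑ c, beta T B j a c * B c b) := by
    simp only [beta, Matrix.smul_apply, Matrix.add_apply, Matrix.sub_apply, Matrix.map_apply,
      smul_eq_mul, Matrix.mul_apply]
  rw [h2, ← mul_assoc, h, one_mul]

theorem row_succ {ι : Type} [Fintype ι] [DecidableEq ι] (T : ℚ[X])
    (B : Matrix ι ι ℚ[X]) (P : ι → ℚ[X]) (j : ℕ) (a : ι) :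
    ((j : ℚ[X]) + 1) * row T B P (j + 1) a =
      T * derivative (row T B P j a) - (j : ℚ[X]) * derivative T * row T B P j a +
        ∑ c, row T B P j c * B c a := by
  have h : ((j : ℚ[X]) + 1) * C (((j : ℚ) + 1)⁻¹) = 1 := by
    have h1 : ((j : ℚ[X]) + 1) = C ((j : ℚ) + 1) := by simp
    rw [h1, ← C_mul, mul_inv_cancel₀ (by positivity), C_1]
  have h2 : row T B P (j + 1) a = C (((j : ℚ) + 1)⁻¹) *
      (T * derivative (row T B P j a) - (j : ℚ[X]) * derivative T * row T B P j a +
        ∑ c, row T B P j c * B c a) := by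
    simp only [row, Pi.smul_apply, Pi.add_apply, Pi.sub_apply,
      smul_eq_mul, Matrix.vecMul, dotProduct]
  rw [h2, ← mul_assoc, h, one_mul]

theorem cast_succ_ne (j : ℕ) : ((j : ℚ[X]) + 1) ≠ 0 := by
  have : ((j : ℚ[X]) + 1) = C ((j : ℚ) + 1) := by simp
  rw [this, Ne, C_eq_zero]
  positivity

theorem derivative_hasse (m : ℕ) (p : ℚ[X]) :
    derivative (hasseDeriv m p) = ((m : ℚ[X]) + 1) * hasseDeriv (m + 1) p := by
  have h := hasseDeriv_comp (R := ℚ) 1 m
  have h2 := congrArg (fun f => f p) h
  simp only [LinearMap.comp_apply, hasseDeriv_one] at h2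
  rw [h2]
  rw [add_comm 1 m]
  simp
  ring

theorem T_mul_deriv_pow (T : ℚ[X]) (m : ℕ) :
    T * derivative (T ^ m) = (m : ℚ[X]) * T ^ m * derivative T := by
  rcases m with _ | m
  · simp
  · rw [derivative_pow]
    simp only [Nat.add_sub_cancel, pow_succ, C_eq_natCast]
    ring

end RowsAux

open RowsAux

theorem row_eq_beta {ι : Type} [Fintype ι] [DecidableEq ι] (T : ℚ[X]) (B : Matrix ι ι ℚ[X])
    (P : ι → ℚ[X]) (j : ℕ) (a : ι) :
    row T B P j a = ∑ i ∈ Finset.range (j + 1), ∑ b,
      T ^ (j - i) * hasseDeriv (j - i) (P b) * beta T B i b a := by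
  induction j generalizing a with
  | zero =>
    simp [row, beta, Matrix.one_apply]
  | succ j ih =>
    apply mul_left_cancel₀ (cast_succ_ne j)
    rw [row_succ]
    set U : ℕ → ℚ[X] := fun i => ∑ b, T ^ (j + 1 - i) * hasseDeriv (j + 1 - i) (P b) *
      beta T B i b a with hU
    have hkey : T * derivative (row T B P j a) - (j : ℚ[X]) * derivative T * row T B P j a +
        ∑ c, row T B P j c * B c a =
        ∑ i ∈ Finset.range (j + 1), ((((j + 1 - i : ℕ) : ℚ[X])) * U i +
          ((i + 1 : ℕ) : ℚ[X]) * U (i + 1)) := by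
      simp only [ih]
      rw [derivative_sum, Finset.mul_sum, Finset.mul_sum, ← Finset.sum_sub_distrib]
      have hsw : ∑ c, (∑ i ∈ Finset.range (j + 1), ∑ b,
          T ^ (j - i) * hasseDeriv (j - i) (P b) * beta T B i b c) * B c a =
          ∑ i ∈ Finset.range (j + 1), ∑ b, T ^ (j - i) * hasseDeriv (j - i) (P b) *
            ∑ c, beta T B i b c * B c a := by
        simp only [Finset.sum_mul]
        rw [Finset.sum_comm]
        refine Finset.sum_congr rfl fun i _ => ?_
        rw [Finset.sum_comm]
        refine Finset.sum_congr rfl fun b _ => ?_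
        rw [Finset.mul_sum]
        refine Finset.sum_congr rfl fun c _ => ?_
        ring
      rw [hsw, ← Finset.sum_add_distrib]
      refine Finset.sum_congr rfl fun i hi => ?_
      rw [Finset.mem_range] at hi
      obtain ⟨m, rfl⟩ : ∃ m, j = i + m := ⟨j - i, by omega⟩
      simp only [hU]
      have e1 : i + m - i = m := by omega
      have e2 : i + m + 1 - i = m + 1 := by omega
      have e3 : i + m + 1 - (i + 1) = m := by omega
      rw [e1, e2, e3, derivative_sum, Finset.mul_sum, Finset.mul_sum, Finset.mul_sum,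
        Finset.mul_sum, ← Finset.sum_sub_distrib, ← Finset.sum_add_distrib,
        ← Finset.sum_add_distrib]
      refine Finset.sum_congr rfl fun b _ => ?_
      have hb := beta_succ T B i b a
      have hT := T_mul_deriv_pow T m
      have hd := derivative_hasse m (P b)
      have hlhs : T * derivative (T ^ m * hasseDeriv m (P b) * beta T B i b a) =
          (m : ℚ[X]) * T ^ m * derivative T * hasseDeriv m (P b) * beta T B i b a +
          T ^ (m + 1) * (((m : ℚ[X]) + 1) * hasseDeriv (m + 1) (P b)) * beta T B i b a +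
          T ^ m * hasseDeriv m (P b) * (T * derivative (beta T B i b a)) := by
        rw [derivative_mul, derivative_mul, hd, ← hT]
        ring
      rw [hlhs]
      push_cast
      have hb' : T ^ m * hasseDeriv m (P b) * (((i : ℚ[X]) + 1) * beta T B (i + 1) b a) =
          T ^ m * hasseDeriv m (P b) * (T * derivative (beta T B i b a) -
            (i : ℚ[X]) * derivative T * beta T B i b a + ∑ c, beta T B i b c * B c a) := by
        rw [hb]
      linear_combination -hb'
    rw [hkey, Finset.sum_add_distrib]
    have s1 : ∑ i ∈ Finset.range (j + 2), (((j + 1 - i : ℕ) : ℚ[X])) * U i =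
        ∑ i ∈ Finset.range (j + 1), (((j + 1 - i : ℕ) : ℚ[X])) * U i := by
      rw [Finset.sum_range_succ]
      simp
    have s2 : ∑ i ∈ Finset.range (j + 2), ((i : ℕ) : ℚ[X]) * U i =
        ∑ i ∈ Finset.range (j + 1), ((i + 1 : ℕ) : ℚ[X]) * U (i + 1) := by
      rw [Finset.sum_range_succ']
      simp
    rw [← s1, ← s2, ← Finset.sum_add_distrib, Finset.mul_sum]
    refine Finset.sum_congr rfl fun i hi => ?_
    rw [Finset.mem_range] at hi
    have : ((j + 1 - i : ℕ) : ℚ[X]) + ((i : ℕ) : ℚ[X]) = (j : ℚ[X]) + 1 := by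
      rw [← Nat.cast_add, Nat.sub_add_cancel (by omega)]
      push_cast
      ring
    rw [← add_mul, this]

theorem row_one {ι : Type} [Fintype ι] [DecidableEq ι] (T : ℚ[X]) (B : Matrix ι ι ℚ[X])
    (a : ι) (j : ℕ) : row T B ((1 : Matrix ι ι ℚ[X]) a) j = beta T B j a := by
  induction j with
  | zero => rfl
  | succ j ih =>
    funext b
    apply mul_left_cancel₀ (cast_succ_ne j)
    rw [row_succ, beta_succ, ih]

/-- `j! row_j · e = T^j (d/ds)^j (P · e)` for solutions `e`. -/
theorem row_sol {ι : Type} [Fintype ι] [DecidableEq ι] {T : ℚ[X]} {B : Matrix ι ι ℚ[X]}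
    {e : ι → LaurentSeries ℚ} (he : IsSol T B e) (P : ι → ℚ[X]) (j : ℕ) :
    (j.factorial : LaurentSeries ℚ) * ∑ a, emb (row T B P j a) * e a =
      emb T ^ j * dd^[j] (∑ a, emb (P a) * e a) := by
  induction j with
  | zero => simp [row]
  | succ j ih =>
    set R : ℕ → LaurentSeries ℚ := fun i => ∑ a, emb (row T B P i a) * e a with hR
    set L : LaurentSeries ℚ := ∑ a, emb (P a) * e a with hL
    have step : ((j : LaurentSeries ℚ) + 1) * R (j + 1) =
        emb T * dd (R j) - (j : LaurentSeries ℚ) * emb (derivative T) * R j := by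
      have h1 : ((j : LaurentSeries ℚ) + 1) * R (j + 1) =
          ∑ a, emb (((j : ℚ[X]) + 1) * row T B P (j + 1) a) * e a := by
        simp only [hR, Finset.mul_sum, map_mul, map_add, map_natCast, map_one]
        refine Finset.sum_congr rfl fun a _ => ?_
        ring
      rw [h1]
      simp only [row_succ, hR]
      rw [dd_sum, Finset.mul_sum, Finset.mul_sum, ← Finset.sum_sub_distrib]
      have h2 : ∀ a, emb T * dd (emb (row T B P j a) * e a) =
          emb (row T B P j a) * (∑ b, emb (B a b) * e b) +
            emb T * emb (derivative (row T B P j a)) * e a := by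
        intro a
        rw [dd_mul, dd_emb, ← he a]
        ring
      simp only [h2]
      have h3 : ∑ a, emb (row T B P j a) * (∑ b, emb (B a b) * e b) =
          ∑ a, (∑ c, emb (row T B P j c) * emb (B c a)) * e a := by
        simp only [Finset.mul_sum, Finset.sum_mul]
        rw [Finset.sum_comm]
        refine Finset.sum_congr rfl fun a _ => Finset.sum_congr rfl fun b _ => ?_
        ring
      have h4 : ∀ a, emb (T * derivative (row T B P j a) -
          (j : ℚ[X]) * derivative T * row T B P j a + ∑ c, row T B P j c * B c a) * e a =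
          emb T * emb (derivative (row T B P j a)) * e a -
            (j : LaurentSeries ℚ) * emb (derivative T) * (emb (row T B P j a) * e a) +
            (∑ c, emb (row T B P j c) * emb (B c a)) * e a := by
        intro a
        simp only [map_mul, map_add, map_sub, map_natCast, map_sum]
        ring
      simp only [h4]
      rw [Finset.sum_add_distrib, Finset.sum_sub_distrib, Finset.sum_sub_distrib,
        Finset.sum_add_distrib, h3]
      ring
    have hfac : dd ((j.factorial : LaurentSeries ℚ) * R j) =
        (j.factorial : LaurentSeries ℚ) * dd (R j) := by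
      have : (j.factorial : LaurentSeries ℚ) = emb (j.factorial : ℚ[X]) := by
        rw [map_natCast]
      rw [this, dd_mul, dd_emb]
      simp
    have hpow : emb T * dd (emb T ^ j) = (j : LaurentSeries ℚ) * emb T ^ j *
        emb (derivative T) := by
      rw [← map_pow, dd_emb, ← map_mul, T_mul_deriv_pow]
      simp
    have hiter : dd^[j + 1] L = dd (dd^[j] L) := Function.iterate_succ_apply' dd j L
    calc (((j + 1).factorial : ℕ) : LaurentSeries ℚ) * R (j + 1)
        = (j.factorial : LaurentSeries ℚ) * (((j : LaurentSeries ℚ) + 1) * R (j + 1)) := by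
          rw [Nat.factorial_succ]
          push_cast
          ring
      _ = emb T * dd ((j.factorial : LaurentSeries ℚ) * R j) -
          (j : LaurentSeries ℚ) * emb (derivative T) *
            ((j.factorial : LaurentSeries ℚ) * R j) := by
          rw [step, hfac]
          ring
      _ = emb T * dd (emb T ^ j * dd^[j] L) -
          (j : LaurentSeries ℚ) * emb (derivative T) * (emb T ^ j * dd^[j] L) := by
          rw [ih]
      _ = emb T ^ (j + 1) * dd^[j + 1] L := by
          rw [dd_mul, hiter, pow_succ]
          linear_combination (dd^[j] L) * hpow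

/-- The same for the matrices `β_j`. -/
theorem beta_sol {ι : Type} [Fintype ι] [DecidableEq ι] {T : ℚ[X]} {B : Matrix ι ι ℚ[X]}
    {e : ι → LaurentSeries ℚ} (he : IsSol T B e) (j : ℕ) (a : ι) :
    (j.factorial : LaurentSeries ℚ) * ∑ b, emb (beta T B j a b) * e b =
      emb T ^ j * dd^[j] (e a) := by
  have h := row_sol he ((1 : Matrix ι ι ℚ[X]) a) j
  rw [row_one] at h
  rw [h]
  congr 2
  simp [Matrix.one_apply]

theorem natDegree_step {τ N : ℕ} {T p q : ℚ[X]} (c : ℚ) (j : ℕ) (hT : T.natDegree ≤ τ)
    (hp : p.natDegree ≤ N) (hq : q.natDegree ≤ N + τ) :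
    (C c * (T * derivative p - (j : ℚ[X]) * derivative T * p + q)).natDegree ≤ N + τ := by
  refine (natDegree_C_mul_le _ _).trans ?_
  refine (natDegree_add_le _ _).trans (max_le ?_ hq)
  refine (natDegree_sub_le _ _).trans (max_le ?_ ?_)
  · refine natDegree_mul_le.trans ?_
    have := natDegree_derivative_le p
    omega
  · refine natDegree_mul_le.trans ?_
    have h1 : ((j : ℚ[X]) * derivative T).natDegree ≤ τ := by
      refine natDegree_mul_le.trans ?_
      have := natDegree_derivative_le T
      rw [natDegree_natCast]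
      omega
    omega

theorem natDegree_row {ι : Type} [Fintype ι] [DecidableEq ι] {T : ℚ[X]}
    {B : Matrix ι ι ℚ[X]} {τ D : ℕ} (hT : T.natDegree ≤ τ) (hB : ∀ a b, (B a b).natDegree ≤ τ)
    {P : ι → ℚ[X]} (hP : ∀ a, (P a).natDegree ≤ D) (j : ℕ) (a : ι) :
    (row T B P j a).natDegree ≤ D + τ * j := by
  induction j generalizing a with
  | zero => simpa [row] using hP a
  | succ j ih =>
    have h2 : row T B P (j + 1) a = C (((j : ℚ) + 1)⁻¹) *
        (T * derivative (row T B P j a) - (j : ℚ[X]) * derivative T * row T B P j a +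
          ∑ c, row T B P j c * B c a) := by
      simp only [row, Pi.smul_apply, Pi.add_apply, Pi.sub_apply,
        smul_eq_mul, Matrix.vecMul, dotProduct]
    rw [h2]
    have := natDegree_step (N := D + τ * j) (T := T) (p := row T B P j a)
      (q := ∑ c, row T B P j c * B c a) (((j : ℚ) + 1)⁻¹) j hT (ih a) (by
        refine natDegree_sum_le_of_forall_le _ _ fun c _ => ?_
        refine natDegree_mul_le.trans ?_
        have h3 := ih c
        have h4 := hB c a
        omega)
    calc _ ≤ D + τ * j + τ := this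
      _ = D + τ * (j + 1) := by ring

theorem natDegree_beta {ι : Type} [Fintype ι] [DecidableEq ι] {T : ℚ[X]}
    {B : Matrix ι ι ℚ[X]} {τ : ℕ} (hT : T.natDegree ≤ τ) (hB : ∀ a b, (B a b).natDegree ≤ τ)
    (j : ℕ) (a b : ι) : (beta T B j a b).natDegree ≤ τ * j := by
  have h := natDegree_row hT hB (P := (1 : Matrix ι ι ℚ[X]) a) (D := 0) (by
    intro c
    rw [Matrix.one_apply]
    split_ifs <;> simp) j b
  rw [row_one, zero_add] at h
  exact h

/-- The vectors `row_j` of `v ᵥ* P` for a constant matrix commuting with `B`. -/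
theorem row_vecMul_const {ι : Type} [Fintype ι] [DecidableEq ι] {T : ℚ[X]}
    {B : Matrix ι ι ℚ[X]} {R : Matrix ι ι ℚ} (hR : R.map C * B = B * R.map C) (P : ι → ℚ[X])
    (j : ℕ) : Matrix.vecMul (row T B P j) (R.map C) = row T B (Matrix.vecMul P (R.map C)) j := by
  induction j with
  | zero => rfl
  | succ j ih =>
    have hd : (fun i => derivative (Matrix.vecMul (row T B P j) (R.map C) i)) =
        Matrix.vecMul (fun i => derivative (row T B P j i)) (R.map C) := by
      funext i
      simp only [Matrix.vecMul, dotProduct, Matrix.map_apply, derivative_sum]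
      refine Finset.sum_congr rfl fun b _ => ?_
      rw [derivative_mul, derivative_C, mul_zero, add_zero]
    rw [row, row, ← ih, hd, Matrix.vecMul_vecMul, hR, ← Matrix.vecMul_vecMul,
      Matrix.smul_vecMul, Matrix.add_vecMul, Matrix.sub_vecMul, Matrix.smul_vecMul,
      Matrix.smul_vecMul]

end Pool.Agent.Helper37.GP
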