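import Pool.Agent.Helper37.GP.Defs

/-!
# GP-4 : rows at a point (helper86)
-/

open Polynomial

namespace Pool.Agent.Helper37.GP

namespace SpanAux

/-- Expansion of a polynomial at `s` as a power series. -/
noncomputable def tps (s : ℚ) : ℚ[X] →+* PowerSeries ℚ :=
  (Polynomial.coeToPowerSeries.ringHom (R := ℚ)).comp (Polynomial.compRingHom (X + C s))

theorem tps_apply (s : ℚ) (p : ℚ[X]) : tps s p = ((p.comp (X + C s) : ℚ[X]) : PowerSeries ℚ) := rfl

theorem tps_C (s c : ℚ) : tps s (C c) = PowerSeries.C c := by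
  rw [tps_apply]; simp

theorem derivative_tps (s : ℚ) (p : ℚ[X]) :
    PowerSeries.derivative ℚ (tps s p) = tps s (derivative p) := by
  rw [tps_apply, tps_apply, PowerSeries.derivative_coe, Polynomial.derivative_comp]
  simp

theorem constantCoeff_tps (s : ℚ) (p : ℚ[X]) : PowerSeries.constantCoeff (tps s p) = p.eval s := by
  rw [tps_apply, ← PowerSeries.coeff_zero_eq_constantCoeff_apply, Polynomial.coeff_coe,
    Polynomial.coeff_zero_eq_eval_zero, Polynomial.eval_comp]
  simp

/-- The coefficients of the formal solution of `u' = A u`, `u(0) = c`. -/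
noncomputable def solC {R : ℕ} (A : ℕ → Matrix (Fin R) (Fin R) ℚ) (c : Fin R → ℚ) :
    ℕ → Fin R → ℚ
  | 0 => c
  | (n + 1) => ((n : ℚ) + 1)⁻¹ • ∑ k : Fin (n + 1), (A (n - k)).mulVec (solC A c k)

/-- Existence of a formal solution. -/
theorem exists_formal {R : ℕ} (A : Matrix (Fin R) (Fin R) (PowerSeries ℚ)) (c : Fin R → ℚ) :
    ∃ u : Fin R → PowerSeries ℚ, (∀ a, PowerSeries.constantCoeff (u a) = c a) ∧
      ∀ a, PowerSeries.derivative ℚ (u a) = ∑ b, A a b * u b := by
  set A' : ℕ → Matrix (Fin R) (Fin R) ℚ := fun n => Matrix.of fun a b => PowerSeries.coeff n (A a b)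
    with hA'
  refine ⟨fun a => PowerSeries.mk fun n => solC A' c n a, ?_, ?_⟩
  · intro a
    rw [← PowerSeries.coeff_zero_eq_constantCoeff_apply, PowerSeries.coeff_mk, solC]
  · intro a
    ext n
    rw [PowerSeries.coeff_derivative, PowerSeries.coeff_mk, solC, map_sum]
    rw [Pi.smul_apply, smul_eq_mul, Finset.sum_apply]
    have hn : ((n : ℚ) + 1) ≠ 0 := by positivity
    rw [mul_comm, ← mul_assoc, mul_inv_cancel₀ hn, one_mul]
    rw [Fin.sum_univ_eq_sum_range (fun k => (A' (n - k)).mulVec (solC A' c k) a) (n + 1)]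
    simp_rw [PowerSeries.coeff_mul, Finset.Nat.sum_antidiagonal_eq_sum_range_succ_mk]
    rw [Finset.sum_comm, ← Finset.sum_range_reflect]
    apply Finset.sum_congr rfl
    intro k hk
    have hk' : k ≤ n := Nat.lt_succ_iff.1 (Finset.mem_range.1 hk)
    have h1 : n + 1 - 1 - k = n - k := by omega
    have h2 : n - (n - k) = k := by omega
    rw [h1, h2, Matrix.mulVec, dotProduct]
    apply Finset.sum_congr rfl
    intro b _
    simp [hA']

/-- `j! row_j · u = T^j (d/dy)^j (P · u)` for formal solutions at the point `s`. -/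
theorem row_tps {R : ℕ} {T : ℚ[X]} {B : Matrix (Fin R) (Fin R) ℚ[X]} {s : ℚ}
    {u : Fin R → PowerSeries ℚ}
    (hu : ∀ a, tps s T * PowerSeries.derivative ℚ (u a) = ∑ b, tps s (B a b) * u b)
    (P : Fin R → ℚ[X]) (j : ℕ) :
    (j.factorial : PowerSeries ℚ) * ∑ a, tps s (row T B P j a) * u a =
      tps s T ^ j * (PowerSeries.derivative ℚ)^[j] (∑ a, tps s (P a) * u a) := by
  induction j with
  | zero => simp [row]
  | succ j ih =>
    have hj : ((j : ℚ) + 1) ≠ 0 := by positivity
    have hunit : (tps s (C (((j : ℚ) + 1)⁻¹)) : PowerSeries ℚ) * ((j : PowerSeries ℚ) + 1) = 1 := by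
      rw [tps_C]
      have : ((j : PowerSeries ℚ) + 1) = PowerSeries.C ((j : ℚ) + 1) := by simp
      rw [this, ← map_mul, inv_mul_cancel₀ hj, map_one]
    have key : ((j : PowerSeries ℚ) + 1) * ∑ a, tps s (row T B P (j + 1) a) * u a =
        tps s T * PowerSeries.derivative ℚ (∑ a, tps s (row T B P j a) * u a)
          - (j : PowerSeries ℚ) * tps s (derivative T) * ∑ a, tps s (row T B P j a) * u a := by
      have e1 : ∀ a, ((j : PowerSeries ℚ) + 1) * (tps s (row T B P (j + 1) a) * u a) =
          tps s T * (tps s (derivative (row T B P j a)) * u a)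
          - (j : PowerSeries ℚ) * tps s (derivative T) * (tps s (row T B P j a) * u a)
          + ∑ b, tps s (row T B P j b) * tps s (B b a) * u a := by
        intro a
        have e2 : row T B P (j + 1) a = C (((j : ℚ) + 1)⁻¹) * (T * derivative (row T B P j a)
            - ((j : ℚ[X]) * derivative T) * row T B P j a
            + ∑ b, row T B P j b * B b a) := by
          simp [row, Matrix.vecMul, dotProduct]
        rw [e2]
        simp only [map_mul, map_add, map_sub, map_sum, map_natCast]
        rw [← Finset.sum_mul]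
        linear_combination ((tps s T * tps s (derivative (row T B P j a))
          - (j : PowerSeries ℚ) * tps s (derivative T) * tps s (row T B P j a)
          + ∑ b, tps s (row T B P j b) * tps s (B b a)) * u a) * hunit
      rw [Finset.mul_sum, Finset.sum_congr rfl (fun a _ => e1 a), Finset.sum_add_distrib,
        Finset.sum_sub_distrib, ← Finset.mul_sum, ← Finset.mul_sum]
      have e3 : ∑ a, ∑ b, tps s (row T B P j b) * tps s (B b a) * u a =
          ∑ b, tps s T * (tps s (row T B P j b) * PowerSeries.derivative ℚ (u b)) := by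
        rw [Finset.sum_comm]
        apply Finset.sum_congr rfl
        intro b _
        have := hu b
        calc ∑ a, tps s (row T B P j b) * tps s (B b a) * u a
            = tps s (row T B P j b) * ∑ a, tps s (B b a) * u a := by
              rw [Finset.mul_sum]; apply Finset.sum_congr rfl; intro a _; ring
          _ = _ := by rw [← this]; ring
      rw [e3, map_sum]
      have e4 : ∑ a, PowerSeries.derivative ℚ (tps s (row T B P j a) * u a) =
          ∑ a, tps s (derivative (row T B P j a)) * u a +
          ∑ a, tps s (row T B P j a) * PowerSeries.derivative ℚ (u a) := by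
        rw [← Finset.sum_add_distrib]
        apply Finset.sum_congr rfl
        intro a _
        rw [Derivation.leibniz, derivative_tps, smul_eq_mul, smul_eq_mul]
        ring
      rw [e4, mul_add, ← Finset.mul_sum]
      ring
    set S := ∑ a, tps s (row T B P j a) * u a with hS
    set f := ∑ a, tps s (P a) * u a with hf
    have e5 : ((j + 1).factorial : PowerSeries ℚ) * ∑ a, tps s (row T B P (j + 1) a) * u a =
        tps s T * PowerSeries.derivative ℚ ((j.factorial : PowerSeries ℚ) * S)
          - (j : PowerSeries ℚ) * tps s (derivative T) * ((j.factorial : PowerSeries ℚ) * S) := by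
      have e6 : PowerSeries.derivative ℚ ((j.factorial : PowerSeries ℚ) * S) =
          (j.factorial : PowerSeries ℚ) * PowerSeries.derivative ℚ S := by
        rw [Derivation.leibniz]
        simp
      rw [e6, Nat.factorial_succ]
      push_cast
      linear_combination (j.factorial : PowerSeries ℚ) * key
    rw [e5, ih, Derivation.leibniz, smul_eq_mul, smul_eq_mul, Function.iterate_succ_apply',
      Derivation.leibniz_pow, derivative_tps]
    rcases j with _ | j
    · simp
    · simp only [Nat.add_sub_cancel, nsmul_eq_mul, smul_eq_mul]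
      push_cast
      ring

theorem X_pow_dvd_derivative {m : ℕ} {f : PowerSeries ℚ} (h : PowerSeries.X ^ (m + 1) ∣ f) :
    PowerSeries.X ^ m ∣ PowerSeries.derivative ℚ f := by
  rw [PowerSeries.X_pow_dvd_iff] at h ⊢
  intro k hk
  rw [PowerSeries.coeff_derivative, h (k + 1) (by omega), zero_mul]

theorem X_pow_dvd_iterate {f : PowerSeries ℚ} (j : ℕ) : ∀ {m : ℕ},
    PowerSeries.X ^ (m + j) ∣ f → PowerSeries.X ^ m ∣ (PowerSeries.derivative ℚ)^[j] f := by
  induction j with
  | zero => intro m h; simpa using h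
  | succ j ih =>
    intro m h
    rw [Function.iterate_succ_apply']
    apply X_pow_dvd_derivative
    apply ih
    rw [show m + 1 + j = m + (j + 1) by ring]
    exact h

end SpanAux

open SpanAux

theorem rows_span {R : ℕ} {T : ℚ[X]} {B : Matrix (Fin R) (Fin R) ℚ[X]} {P : Fin R → ℚ[X]}
    (hΔ : Matrix.det (Matrix.of fun (j a : Fin R) => row T B P (j : ℕ) a) ≠ 0) {s : ℚ}
    (hs : T.eval s ≠ 0) (c : Fin R → ℚ) (hc : c ≠ 0) :
    ∃ j < R + (Matrix.det (Matrix.of fun (j a : Fin R) => row T B P (j : ℕ) a)).natDegree,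
      ∑ a, (row T B P j a).eval s * c a ≠ 0 := by
  by_contra hcon
  push_neg at hcon
  set Δ := Matrix.det (Matrix.of fun (j a : Fin R) => row T B P (j : ℕ) a) with hΔdef
  set M := R + Δ.natDegree with hM
  have hT0 : PowerSeries.constantCoeff (tps s T) ≠ 0 := by rwa [constantCoeff_tps]
  obtain ⟨u, hu0, hu1⟩ := exists_formal (Matrix.of fun a b => (tps s T)⁻¹ * tps s (B a b)) c
  have hu : ∀ a, tps s T * PowerSeries.derivative ℚ (u a) = ∑ b, tps s (B a b) * u b := by
    intro a
    rw [hu1, Finset.mul_sum]
    apply Finset.sum_congr rfl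
    intro b _
    rw [Matrix.of_apply, ← mul_assoc, ← mul_assoc, PowerSeries.mul_inv_cancel _ hT0, one_mul]
  set f := ∑ a, tps s (P a) * u a with hf
  have hcoef : ∀ j < M, PowerSeries.coeff j f = 0 := by
    intro j hj
    have h1 := congrArg PowerSeries.constantCoeff (row_tps hu P j)
    rw [map_mul, map_mul, map_pow, map_sum] at h1
    have h2 : ∑ a, PowerSeries.constantCoeff (tps s (row T B P j a) * u a) = 0 := by
      rw [← hcon j hj]
      apply Finset.sum_congr rfl
      intro a _
      rw [map_mul, constantCoeff_tps, hu0]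
    rw [h2, mul_zero] at h1
    have h3 := (mul_eq_zero.1 h1.symm).resolve_left (pow_ne_zero _ hT0)
    rw [PowerSeries.constantCoeff_iterate_derivative] at h3
    rcases mul_eq_zero.1 h3 with h4 | h4
    · exact absurd h4 (by exact_mod_cast Nat.factorial_ne_zero j)
    · exact h4
  have hdvd : PowerSeries.X ^ M ∣ f := PowerSeries.X_pow_dvd_iff.2 hcoef
  -- each `row_j · u` vanishes to order `> deg Δ`
  have hrow : ∀ j : Fin R, PowerSeries.X ^ (Δ.natDegree + 1) ∣
      ∑ a, tps s (row T B P j a) * u a := by
    intro j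
    have h1 := row_tps hu P j
    have h2 : PowerSeries.X ^ (Δ.natDegree + 1) ∣
        ((j : ℕ).factorial : PowerSeries ℚ) * ∑ a, tps s (row T B P j a) * u a := by
      rw [h1]
      apply Dvd.dvd.mul_left
      apply X_pow_dvd_iterate
      refine dvd_trans (pow_dvd_pow _ ?_) hdvd
      have := j.2
      omega
    have h3 : IsUnit ((((j : ℕ).factorial : ℕ) : PowerSeries ℚ)) := by
      have h4 : ((((j : ℕ).factorial : ℕ) : PowerSeries ℚ)) =
          PowerSeries.C (((j : ℕ).factorial : ℕ) : ℚ) := by simp
      rw [h4, PowerSeries.isUnit_iff_constantCoeff, PowerSeries.constantCoeff_C]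
      exact isUnit_iff_ne_zero.2 (by exact_mod_cast Nat.factorial_ne_zero _)
    exact (h3.dvd_mul_left).1 h2
  obtain ⟨a₀, ha₀⟩ : ∃ a, c a ≠ 0 := by
    by_contra hh
    push_neg at hh
    exact hc (funext hh)
  -- Cramer's rule
  have hcr : PowerSeries.X ^ (Δ.natDegree + 1) ∣ tps s Δ * u a₀ := by
    set W : Matrix (Fin R) (Fin R) ℚ[X] := Matrix.of fun (j a : Fin R) => row T B P (j : ℕ) a
      with hW
    have h1 : (W.map (tps s)).adjugate.mulVec ((W.map (tps s)).mulVec u) = (tps s Δ) • u := by
      rw [Matrix.mulVec_mulVec, Matrix.adjugate_mul, Matrix.smul_mulVec, Matrix.one_mulVec]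
      congr 1
      rw [hΔdef, RingHom.map_det]
      rfl
    have h2 := congrFun h1 a₀
    rw [Pi.smul_apply, smul_eq_mul] at h2
    rw [← h2, Matrix.mulVec, dotProduct]
    apply Finset.dvd_sum
    intro j _
    apply Dvd.dvd.mul_left
    exact hrow j
  have hua : IsUnit (u a₀) := by
    rw [PowerSeries.isUnit_iff_constantCoeff, hu0]
    exact isUnit_iff_ne_zero.2 ha₀
  have hfin : PowerSeries.X ^ (Δ.natDegree + 1) ∣ tps s Δ := (hua.dvd_mul_right).1 hcr
  rw [PowerSeries.X_pow_dvd_iff] at hfin
  have h1 := hfin Δ.natDegree (Nat.lt_succ_self _)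
  rw [tps_apply, Polynomial.coeff_coe] at h1
  have h2 : (Δ.comp (X + C s)).natDegree = Δ.natDegree := by
    rw [Polynomial.natDegree_comp]; simp
  rw [← h2, Polynomial.coeff_natDegree, Polynomial.leadingCoeff_comp (by simp)] at h1
  have h3 : Δ.leadingCoeff ≠ 0 := Polynomial.leadingCoeff_ne_zero.2 hΔ
  apply h3
  simpa using h1

end Pool.Agent.Helper37.GP
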