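import Pool.Agent.Helper37.GP.LS
import Pool.Agent.Helper37.GP.Rows

/-!
# The zero estimate (module GP-3)
-/

open Polynomial

namespace Pool.Agent.Helper37.GP

namespace ZE

lemma dd_const (c : ℚ) : dd (algebraMap ℚ (LaurentSeries ℚ) c) = 0 := by
  rw [← emb_C, dd_emb, derivative_C, map_zero]

lemma dd_zero : dd 0 = 0 := by
  have := dd_const 0
  rwa [map_zero] at this

lemma dd_one : dd 1 = 0 := by
  have := dd_const 1
  rwa [map_one] at this

lemma dd_const_mul (c : ℚ) (f : LaurentSeries ℚ) :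
    dd (algebraMap ℚ (LaurentSeries ℚ) c * f) = algebraMap ℚ (LaurentSeries ℚ) c * dd f := by
  rw [dd_mul, dd_const, zero_mul, add_zero]

lemma dd_iter_const_mul (c : ℚ) (f : LaurentSeries ℚ) (j : ℕ) :
    dd^[j] (algebraMap ℚ (LaurentSeries ℚ) c * f) =
      algebraMap ℚ (LaurentSeries ℚ) c * dd^[j] f := by
  induction j generalizing f with
  | zero => rfl
  | succ j ih => rw [Function.iterate_succ_apply, dd_const_mul, ih, Function.iterate_succ_apply]

lemma dd_iter_sum {ι : Type} (s : Finset ι) (f : ι → LaurentSeries ℚ) (j : ℕ) :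
    dd^[j] (∑ i ∈ s, f i) = ∑ i ∈ s, dd^[j] (f i) := by
  induction j generalizing f with
  | zero => rfl
  | succ j ih =>
    rw [Function.iterate_succ_apply, dd_sum, ih]
    rfl

/-- the Wronskian lemma -/
lemma wronskian (n : ℕ) : ∀ f : Fin n → LaurentSeries ℚ,
    (∀ c : Fin n → ℚ, ∑ i, algebraMap ℚ (LaurentSeries ℚ) (c i) * f i = 0 → c = 0) →
    (Matrix.of fun (j i : Fin n) => dd^[(j : ℕ)] (f i)).det ≠ 0 := by
  induction n with
  | zero => intro f _; simp
  | succ n ih =>
    intro f hf hdet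
    have hf' : ∀ c : Fin n → ℚ,
        ∑ i, algebraMap ℚ (LaurentSeries ℚ) (c i) * f i.castSucc = 0 → c = 0 := by
      intro c hc
      have h1 := hf (Fin.snoc c 0) (by
        rw [Fin.sum_univ_castSucc]
        simp only [Fin.snoc_castSucc, Fin.snoc_last, map_zero, zero_mul, add_zero]
        exact hc)
      funext i
      have h2 := congrFun h1 i.castSucc
      simpa using h2
    have hW := ih (fun i => f i.castSucc) hf'
    have hinj : ∀ v : Fin n → LaurentSeries ℚ,
        (∀ j : Fin n, ∑ i, dd^[(j : ℕ)] (f i.castSucc) * v i = 0) → v = 0 := by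
      intro v hv
      refine Matrix.eq_zero_of_mulVec_eq_zero hW ?_
      funext j
      simpa [Matrix.mulVec, dotProduct] using hv j
    obtain ⟨v, hv0, hv⟩ := Matrix.exists_mulVec_eq_zero_iff.2 hdet
    have hv' : ∀ j : ℕ, j ≤ n → ∑ i, dd^[j] (f i) * v i = 0 := by
      intro j hj
      have h1 := congrFun hv ⟨j, by omega⟩
      simpa [Matrix.mulVec, dotProduct] using h1
    by_cases hlast : v (Fin.last n) = 0
    · have h1 : (fun i : Fin n => v i.castSucc) = 0 := by
        refine hinj _ fun j => ?_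
        have h2 := hv' j (by omega)
        rw [Fin.sum_univ_castSucc, hlast, mul_zero, add_zero] at h2
        exact h2
      apply hv0
      funext i
      refine Fin.lastCases hlast (fun i => ?_) i
      exact congrFun h1 i
    · set u : Fin (n + 1) → LaurentSeries ℚ := fun i => v i * (v (Fin.last n))⁻¹ with hu
      have hul : u (Fin.last n) = 1 := mul_inv_cancel₀ hlast
      have hu' : ∀ j : ℕ, j ≤ n → ∑ i, dd^[j] (f i) * u i = 0 := by
        intro j hj
        simp only [hu, ← mul_assoc]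
        rw [← Finset.sum_mul, hv' j hj, zero_mul]
      have h1 : (fun i : Fin n => dd (u i.castSucc)) = 0 := by
        refine hinj _ fun j => ?_
        have h2 := congrArg dd (hu' j (by omega))
        rw [dd_zero, dd_sum] at h2
        simp only [dd_mul] at h2
        rw [Finset.sum_add_distrib] at h2
        have h3 : ∑ i, dd (dd^[(j : ℕ)] (f i)) * u i = 0 := by
          have := hu' (j + 1) (by omega)
          simpa only [Function.iterate_succ_apply'] using this
        rw [h3, add_zero, Fin.sum_univ_castSucc, hul, dd_one, mul_zero, add_zero] at h2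
        exact h2
      have h2 : ∀ i, ∃ c : ℚ, u i = algebraMap ℚ (LaurentSeries ℚ) c := by
        intro i
        refine Fin.lastCases ?_ (fun i => ?_) i
        · exact ⟨1, by rw [hul, map_one]⟩
        · exact dd_eq_zero (congrFun h1 i)
      choose c hc using h2
      have h3 := hf c (by
        have h4 := hu' 0 (Nat.zero_le n)
        rw [← h4]
        refine Finset.sum_congr rfl fun i _ => ?_
        rw [hc i, Function.iterate_zero, id, mul_comm])
      have h5 := hc (Fin.last n)
      rw [hul, h3, Pi.zero_apply, map_zero] at h5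
      exact one_ne_zero h5

/-! ### solutions with a prescribed value at infinity -/

section Sol

variable {R : ℕ} {T : ℚ[X]} {B : Matrix (Fin R) (Fin R) ℚ[X]} {e : Fin R → LaurentSeries ℚ}

/-- the transform of `e` by a constant matrix -/
noncomputable def tr (S : Matrix (Fin R) (Fin R) ℚ) (e : Fin R → LaurentSeries ℚ) :
    Fin R → LaurentSeries ℚ := fun a => ∑ b, algebraMap ℚ (LaurentSeries ℚ) (S a b) * e b

lemma isSol_tr (he : IsSol T B e) {S : Matrix (Fin R) (Fin R) ℚ}
    (hS : S.map C * B = B * S.map C) : IsSol T B (tr S e) := by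
  intro a
  have h1 : ∀ a c, ∑ b, algebraMap ℚ (LaurentSeries ℚ) (S a b) * emb (B b c) =
      ∑ b, emb (B a b) * algebraMap ℚ (LaurentSeries ℚ) (S b c) := by
    intro a c
    have h2 := congrArg emb (congrFun (congrFun hS a) c)
    simp only [Matrix.mul_apply, Matrix.map_apply, map_sum, map_mul, emb_C] at h2
    exact h2
  unfold tr
  rw [dd_sum, Finset.mul_sum]
  have h3 : ∀ b, emb T * dd (algebraMap ℚ (LaurentSeries ℚ) (S a b) * e b) =
      ∑ c, algebraMap ℚ (LaurentSeries ℚ) (S a b) * emb (B b c) * e c := by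
    intro b
    rw [dd_const_mul, mul_left_comm, he b, Finset.mul_sum]
    exact Finset.sum_congr rfl fun c _ => by ring
  rw [Finset.sum_congr rfl fun b _ => h3 b, Finset.sum_comm]
  have h4 : ∀ c, ∑ b, algebraMap ℚ (LaurentSeries ℚ) (S a b) * emb (B b c) * e c =
      ∑ b, emb (B a b) * algebraMap ℚ (LaurentSeries ℚ) (S b c) * e c := by
    intro c
    rw [← Finset.sum_mul, h1 a c, Finset.sum_mul]
  rw [Finset.sum_congr rfl fun c _ => h4 c, Finset.sum_comm]
  refine Finset.sum_congr rfl fun b _ => ?_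
  rw [Finset.mul_sum]
  exact Finset.sum_congr rfl fun c _ => by ring

lemma algebraMap_eq_C (c : ℚ) : algebraMap ℚ (LaurentSeries ℚ) c = HahnSeries.C c :=
  DFunLike.congr_fun
    (Subsingleton.elim (algebraMap ℚ (LaurentSeries ℚ)) (HahnSeries.C (Γ := ℤ))) c

lemma coeff_const_mul (c : ℚ) (f : LaurentSeries ℚ) (i : ℤ) :
    (algebraMap ℚ (LaurentSeries ℚ) c * f).coeff i = c * f.coeff i := by
  rw [algebraMap_eq_C, HahnSeries.C_mul_eq_smul, HahnSeries.coeff_smul, smul_eq_mul]

lemma ordGE_const_mul {N : ℤ} {f : LaurentSeries ℚ} (c : ℚ) (hf : OrdGE N f) :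
    OrdGE N (algebraMap ℚ (LaurentSeries ℚ) c * f) := by
  intro i hi
  rw [coeff_const_mul, hf i hi, mul_zero]

lemma coeff_tr (S : Matrix (Fin R) (Fin R) ℚ) (a : Fin R) (i : ℤ) :
    (tr S e a).coeff i = ∑ b, S a b * (e b).coeff i := by
  unfold tr
  rw [HahnSeries.coeff_sum]
  exact Finset.sum_congr rfl fun b _ => coeff_const_mul _ _ _

end Sol

/-! ### determinants -/

lemma natDegree_det_le {k : ℕ} (M : Matrix (Fin k) (Fin k) ℚ[X]) (d : Fin k → ℕ)
    (h : ∀ i j, (M i j).natDegree ≤ d i) : M.det.natDegree ≤ ∑ i, d i := by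
  rw [Matrix.det_apply]
  refine natDegree_sum_le_of_forall_le _ _ (fun σ _ => ?_)
  have h1 : (∏ i, M (σ i) i).natDegree ≤ ∑ i, d i := by
    refine (natDegree_prod_le _ _).trans ?_
    rw [← Equiv.sum_comp σ d]
    exact Finset.sum_le_sum fun i _ => h _ _
  rcases Int.units_eq_one_or (Equiv.Perm.sign σ) with hs | hs <;> rw [hs] <;> simpa using h1

lemma natDegree_adjugate_le {k : ℕ} (M : Matrix (Fin k) (Fin k) ℚ[X]) (d : ℕ)
    (h : ∀ i j, (M i j).natDegree ≤ d) (i j : Fin k) :
    (M.adjugate i j).natDegree ≤ (k - 1) * d := by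
  rw [Matrix.adjugate_apply]
  refine (natDegree_det_le _ (fun i' => if i' = j then 0 else d) ?_).trans ?_
  · intro i' j'
    by_cases hij : i' = j
    · subst hij
      rw [if_pos rfl, Matrix.updateRow_self]
      by_cases hi : j' = i
      · subst hi; simp
      · rw [Pi.single_eq_of_ne hi]; simp
    · rw [if_neg hij, Matrix.updateRow_ne hij]
      exact h _ _
  · rw [Finset.sum_ite, Finset.sum_const_zero, zero_add, Finset.sum_const, smul_eq_mul]
    refine le_of_eq ?_
    congr 1
    rw [Finset.filter_ne', Finset.card_erase_of_mem (Finset.mem_univ _), Finset.card_univ,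
      Fintype.card_fin]

lemma row_zero {R : ℕ} (T : ℚ[X]) (B : Matrix (Fin R) (Fin R) ℚ[X]) (j : ℕ) :
    row T B 0 j = 0 := by
  induction j with
  | zero => rfl
  | succ j ih =>
    funext a
    simp [row, ih]

lemma ordGE_dd_iter {f : LaurentSeries ℚ} {N : ℤ} (hf : OrdGE N f) (j : ℕ) :
    OrdGE (N + j) (dd^[j] f) := by
  induction j with
  | zero => simpa using hf
  | succ j ih =>
    rw [Function.iterate_succ_apply']
    have := ordGE_dd ih
    push_cast
    rwa [add_assoc] at this

lemma sum_row {R k : ℕ} {T : ℚ[X]} {B : Matrix (Fin R) (Fin R) ℚ[X]} {P : Fin R → ℚ[X]}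
    (w κ : Fin k → Fin R → ℚ)
    (hκ : ∀ j a, row T B P j a = ∑ i, C (κ i a) * ∑ b, row T B P j b * C (w i b))
    (j : ℕ) (X : Fin R → LaurentSeries ℚ) :
    ∑ a, emb (row T B P j a) * X a = ∑ m, emb (∑ b, row T B P j b * C (w m b)) *
      ∑ a, algebraMap ℚ (LaurentSeries ℚ) (κ m a) * X a := by
  have h1 : ∀ a, emb (row T B P j a) * X a = ∑ m, emb (∑ b, row T B P j b * C (w m b)) *
      (algebraMap ℚ (LaurentSeries ℚ) (κ m a) * X a) := by
    intro a
    conv_lhs => rw [hκ j a]
    rw [map_sum, Finset.sum_mul]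
    refine Finset.sum_congr rfl fun m _ => ?_
    rw [map_mul, emb_C]
    ring
  rw [Finset.sum_congr rfl fun a _ => h1 a, Finset.sum_comm]
  exact Finset.sum_congr rfl fun m _ => by rw [Finset.mul_sum]

/-- the determinant of the reduced rows is nonzero -/
lemma det_red {R k : ℕ} {T : ℚ[X]} {B : Matrix (Fin R) (Fin R) ℚ[X]}
    {e : Fin R → LaurentSeries ℚ} (hT0 : emb T ≠ 0)
    (he : IsSol T B e) {P : Fin R → ℚ[X]}
    (Sc : (Fin R → ℚ) → Matrix (Fin R) (Fin R) ℚ)
    (hSc : ∀ c, (Sc c).map C * B = B * (Sc c).map C)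
    (w κ : Fin k → Fin R → ℚ)
    (hκ : ∀ j a, row T B P j a = ∑ i, C (κ i a) * ∑ b, row T B P j b * C (w i b))
    (hw : ∀ c : Fin k → ℚ, ∑ i, algebraMap ℚ (LaurentSeries ℚ) (c i) *
      (∑ a, emb (P a) * tr (Sc (w i)) e a) = 0 → c = 0) :
    Matrix.det (Matrix.of fun (j i : Fin k) => ∑ b, row T B P (j : ℕ) b * C (w i b)) ≠ 0 := by
  intro hdet
  set r : Matrix (Fin k) (Fin k) ℚ[X] :=
    Matrix.of fun (j i : Fin k) => ∑ b, row T B P (j : ℕ) b * C (w i b) with hr
  set W : Matrix (Fin k) (Fin k) (LaurentSeries ℚ) :=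
    Matrix.of fun (j i : Fin k) => dd^[(j : ℕ)] (∑ a, emb (P a) * tr (Sc (w i)) e a) with hWdef
  have hW : W.det ≠ 0 := wronskian k _ hw
  set Y : Matrix (Fin k) (Fin k) (LaurentSeries ℚ) :=
    Matrix.of fun (m i : Fin k) => ∑ a, algebraMap ℚ (LaurentSeries ℚ) (κ m a) *
      tr (Sc (w i)) e a with hY
  have hmat : Matrix.diagonal (fun j : Fin k => emb T ^ (j : ℕ)) * W =
      Matrix.diagonal (fun j : Fin k => ((j : ℕ).factorial : LaurentSeries ℚ)) *
        (emb.mapMatrix r * Y) := by
    ext1 j i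
    rw [Matrix.diagonal_mul, Matrix.diagonal_mul, Matrix.mul_apply]
    simp only [hWdef, hr, hY, Matrix.of_apply, RingHom.mapMatrix_apply, Matrix.map_apply]
    rw [← row_sol (isSol_tr he (hSc (w i))) P j, sum_row w κ hκ]
  have h1 := congrArg Matrix.det hmat
  rw [Matrix.det_mul, Matrix.det_mul, Matrix.det_mul, Matrix.det_diagonal, ← RingHom.map_det,
    hdet, map_zero, zero_mul, mul_zero] at h1
  rcases mul_eq_zero.1 h1 with h2 | h2
  · exact Finset.prod_ne_zero_iff.2 (fun j _ => pow_ne_zero _ hT0) h2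
  · exact hW h2

lemma order_bound {R τ k : ℕ} {T : ℚ[X]} {B : Matrix (Fin R) (Fin R) ℚ[X]}
    {e : Fin R → LaurentSeries ℚ} (hTτ : T.natDegree ≤ τ)
    (hB : ∀ a b, (B a b).natDegree ≤ τ)
    (he : IsSol T B e) (he0 : ∀ a, OrdGE 0 (e a)) {D : ℕ} {P : Fin R → ℚ[X]}
    (hP : ∀ a, (P a).natDegree ≤ D) {N : ℤ} (hN : OrdGE N (∑ a, emb (P a) * e a))
    (w κ : Fin k → Fin R → ℚ)
    (hκ : ∀ j a, row T B P j a = ∑ i, C (κ i a) * ∑ b, row T B P j b * C (w i b))
    (hdet : Matrix.det (Matrix.of fun (j i : Fin k) => ∑ b, row T B P (j : ℕ) b * C (w i b)) ≠ 0)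
    {i₁ : Fin k} (hE : ∑ a, κ i₁ a * (e a).coeff 0 ≠ 0) :
    N - τ * k - ((k - 1 : ℕ) : ℤ) * (D + τ * k) ≤ 0 := by
  set r : Matrix (Fin k) (Fin k) ℚ[X] :=
    Matrix.of fun (j i : Fin k) => ∑ b, row T B P (j : ℕ) b * C (w i b) with hr
  set E : Fin k → LaurentSeries ℚ := fun m => ∑ a, algebraMap ℚ (LaurentSeries ℚ) (κ m a) * e a
    with hEdef
  have hE0 : OrdGE 0 (E i₁) := ordGE_sum _ _ fun a _ => ordGE_const_mul _ (he0 a)
  have hEc : (E i₁).coeff 0 ≠ 0 := by
    simp only [hEdef, HahnSeries.coeff_sum, coeff_const_mul]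
    exact hE
  -- orders of the linear forms
  have hL : ∀ j : Fin k, OrdGE (N - τ * k) (∑ m, emb (r j m) * E m) := by
    intro j
    have h1 : ∑ m, emb (r j m) * E m = ∑ a, emb (row T B P j a) * e a :=
      (sum_row w κ hκ j e).symm
    have h2 := row_sol he P j
    have h3 : ∑ a, emb (row T B P j a) * e a =
        algebraMap ℚ (LaurentSeries ℚ) (((j : ℕ).factorial : ℚ)⁻¹) *
          (emb T ^ (j : ℕ) * dd^[(j : ℕ)] (∑ a, emb (P a) * e a)) := by
      rw [← h2, ← mul_assoc]
      have h4 : ((j : ℕ).factorial : LaurentSeries ℚ) =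
          algebraMap ℚ (LaurentSeries ℚ) ((j : ℕ).factorial : ℚ) := by
        rw [map_natCast]
      rw [h4, ← map_mul, inv_mul_cancel₀ (by exact_mod_cast (Nat.factorial_ne_zero _)), map_one,
        one_mul]
    rw [h1, h3]
    refine ordGE_const_mul _ ?_
    rw [← map_pow]
    have h5 : OrdGE (-((τ * j : ℕ) : ℤ)) (emb (T ^ (j : ℕ))) := by
      refine ordGE_emb ?_
      rw [natDegree_pow, mul_comm]
      exact Nat.mul_le_mul_right _ hTτ
    have h6 := ordGE_mul h5 (ordGE_dd_iter hN j)
    refine ordGE_mono ?_ h6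
    have hj : (j : ℕ) ≤ k := j.2.le
    have hτj : τ * (j : ℕ) ≤ τ * k := Nat.mul_le_mul_left _ hj
    have hτj' : ((τ * (j : ℕ) : ℕ) : ℤ) ≤ τ * k := by exact_mod_cast hτj
    omega
  -- Cramer
  have hC : emb r.det * E i₁ = ∑ j, emb (r.adjugate i₁ j) * ∑ m, emb (r j m) * E m := by
    have h1 : ∀ m, ∑ j, r.adjugate i₁ j * r j m = if i₁ = m then r.det else 0 := by
      intro m
      have h2 := congrFun (congrFun (Matrix.adjugate_mul r) i₁) m
      rw [Matrix.mul_apply] at h2
      rw [h2, Matrix.smul_apply, Matrix.one_apply, smul_eq_mul]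
      split_ifs <;> simp
    simp only [Finset.mul_sum]
    rw [Finset.sum_comm]
    have h3 : ∀ m, ∑ j, emb (r.adjugate i₁ j) * (emb (r j m) * E m) =
        emb (if i₁ = m then r.det else 0) * E m := by
      intro m
      rw [← h1 m, map_sum, Finset.sum_mul]
      exact Finset.sum_congr rfl fun j _ => by rw [map_mul, mul_assoc]
    rw [Finset.sum_congr rfl fun m _ => h3 m, Finset.sum_eq_single i₁]
    · rw [if_pos rfl]
    · intro m _ hm
      rw [if_neg (Ne.symm hm), map_zero, zero_mul]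
    · intro h; exact absurd (Finset.mem_univ _) h
  have hdeg : ∀ j i : Fin k, (r j i).natDegree ≤ D + τ * k := by
    intro j i
    simp only [hr, Matrix.of_apply]
    refine natDegree_sum_le_of_forall_le _ _ (fun b _ => ?_)
    refine (natDegree_mul_C_le _ _).trans ?_
    refine (natDegree_row hTτ hB hP j b).trans ?_
    have : τ * (j : ℕ) ≤ τ * k := Nat.mul_le_mul_left _ j.2.le
    omega
  have hord : OrdGE (N - τ * k - ((k - 1 : ℕ) : ℤ) * (D + τ * k)) (emb r.det * E i₁) := by
    rw [hC]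
    refine ordGE_sum _ _ fun j _ => ?_
    have h1 := ordGE_mul (ordGE_emb (natDegree_adjugate_le r (D + τ * k) hdeg i₁ j)) (hL j)
    refine ordGE_mono (le_of_eq ?_) h1
    push_cast
    ring
  have h2 := le_of_ordGE_emb_mul hdet hE0 hEc hord
  have h3 : -((r.det.natDegree : ℕ) : ℤ) ≤ 0 := by simp
  exact h2.trans h3

lemma exists_complement {R : ℕ} (C0 : Submodule ℚ (Fin R → ℚ)) :
    ∃ (k : ℕ) (w κ : Fin k → Fin R → ℚ), k ≤ R ∧
      (∀ v : Fin R → ℚ, (v - ∑ i, (∑ a, κ i a * v a) • w i) ∈ C0) ∧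
      (∀ c : Fin k → ℚ, ∑ i, c i • w i ∈ C0 → c = 0) := by
  obtain ⟨W, hW⟩ := Submodule.exists_isCompl C0
  set k := Module.finrank ℚ W with hk
  set bW : Module.Basis (Fin k) ℚ W := Module.finBasis ℚ W with hbW
  set pr : (Fin R → ℚ) →ₗ[ℚ] W := Submodule.projectionOnto W C0 hW.symm with hpr
  refine ⟨k, fun i => (bW i : Fin R → ℚ), fun i a => bW.repr (pr (Pi.single a 1)) i, ?_, ?_, ?_⟩
  · have h1 := Submodule.finrank_le W
    simpa using h1
  · intro v
    have h1 : ∀ i, ∑ a, bW.repr (pr (Pi.single a 1)) i * v a = bW.repr (pr v) i := by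
      intro i
      have h2 : v = ∑ a, v a • (Pi.single a (1 : ℚ) : Fin R → ℚ) := pi_eq_sum_univ' v
      conv_rhs => rw [h2]
      simp only [map_sum, map_smul, Finsupp.coe_finsetSum, Finset.sum_apply,
        Finsupp.coe_smul, Pi.smul_apply, smul_eq_mul]
      exact Finset.sum_congr rfl fun a _ => mul_comm _ _
    simp only [h1]
    have h3 : ∑ i, bW.repr (pr v) i • (bW i : Fin R → ℚ) = (pr v : Fin R → ℚ) := by
      conv_rhs => rw [← bW.sum_repr (pr v)]
      simp only [Submodule.coe_sum, Submodule.coe_smul]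
    rw [h3]
    have h4 := Submodule.ker_projectionOnto hW.symm
    rw [← h4, LinearMap.mem_ker, map_sub]
    rw [← hpr]
    have h5 : pr (pr v : Fin R → ℚ) = pr v := Submodule.projectionOnto_apply_left hW.symm (pr v)
    rw [h5, sub_self]
  · intro c hc
    have h1 : (∑ i, c i • (bW i : Fin R → ℚ)) = ((∑ i, c i • bW i : W) : Fin R → ℚ) := by simp
    have h2 : (∑ i, c i • (bW i : Fin R → ℚ)) ∈ C0 ⊓ W := ⟨hc, by rw [h1]; exact Subtype.mem _⟩
    rw [hW.inf_eq_bot, Submodule.mem_bot, h1] at h2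
    have h3 : (∑ i, c i • bW i : W) = 0 := Subtype.ext h2
    have h4 := Fintype.linearIndependent_iff.1 bW.linearIndependent c h3
    exact funext h4

end ZE

open ZE in
theorem zero_estimate (R τ : ℕ) : ∃ C₁ : ℕ, ∀ (T : ℚ[X]) (B : Matrix (Fin R) (Fin R) ℚ[X])
    (e : Fin R → LaurentSeries ℚ), T.natDegree ≤ τ →
    (∀ a b, (B a b).natDegree + 2 ≤ T.natDegree) → IsSol T B e → (∀ a, OrdGE 0 (e a)) →
    -- linear independence over `ℚ(s)`
    (∀ P : Fin R → ℚ[X], ∑ a, emb (P a) * e a = 0 → P = 0) →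
    -- the commutant of `B` acts transitively on `e(∞)`
    (∀ c : Fin R → ℚ, ∃ S : Matrix (Fin R) (Fin R) ℚ, S.map C * B = B * S.map C ∧
      ∀ a, ∑ b, S a b * (e b).coeff 0 = c a) →
    ∀ (D : ℕ) (P : Fin R → ℚ[X]), P ≠ 0 → (∀ a, (P a).natDegree ≤ D) →
    OrdGE (((R : ℤ) - 2) * D + C₁) (∑ a, emb (P a) * e a) →
    Matrix.det (Matrix.of fun (j a : Fin R) => row T B P (j : ℕ) a) ≠ 0 := by
  refine ⟨τ * R * R + 1, ?_⟩
  intro T B e hTτ hBT he he0 hlin htrans D P hP0 hP hord
  obtain ⟨a₀, ha₀⟩ : ∃ a, P a ≠ 0 := by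
    by_contra h
    push Not at h
    exact hP0 (funext h)
  have hBτ : ∀ a b, (B a b).natDegree ≤ τ := fun a b => by
    have := hBT a b; omega
  have hT0 : emb T ≠ 0 := by
    have h1 : T ≠ 0 := by
      rintro rfl
      have := hBT a₀ a₀
      simp at this
    intro h
    apply h1
    apply emb_injective
    rw [h, map_zero]
  choose Sf hSf hSfe using fun a : Fin R => htrans (Pi.single a 1)
  set Sc : (Fin R → ℚ) → Matrix (Fin R) (Fin R) ℚ := fun c => ∑ a', c a' • Sf a' with hSc
  have hScB : ∀ c, (Sc c).map C * B = B * (Sc c).map C := by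
    intro c
    have h1 : (Sc c).map (C : ℚ → ℚ[X]) = ∑ a', (C (c a') : ℚ[X]) • (Sf a').map C := by
      ext1 i j
      simp only [hSc, Matrix.map_apply, Matrix.sum_apply, Matrix.smul_apply, smul_eq_mul, map_sum,
        map_mul]
    rw [h1, Finset.sum_mul, Finset.mul_sum]
    refine Finset.sum_congr rfl fun a' _ => ?_
    rw [Matrix.smul_mul, Matrix.mul_smul, hSf a']
  have hSce : ∀ c a, ∑ b, Sc c a b * (e b).coeff 0 = c a := by
    intro c a
    simp only [hSc, Matrix.sum_apply, Matrix.smul_apply, smul_eq_mul, Finset.sum_mul]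
    rw [Finset.sum_comm]
    have h1 : ∀ a', ∑ b, c a' * Sf a' a b * (e b).coeff 0 = c a' * (Pi.single a' (1 : ℚ) : Fin R → ℚ) a := by
      intro a'
      rw [← hSfe a' a, Finset.mul_sum]
      exact Finset.sum_congr rfl fun b _ => by ring
    rw [Finset.sum_congr rfl fun a' _ => h1 a']
    simp [Pi.single_apply]
  set Λ : (Fin R → ℚ) → LaurentSeries ℚ := fun c => ∑ a, emb (P a) * tr (Sc c) e a with hΛ
  have hΛadd : ∀ c d, Λ (c + d) = Λ c + Λ d := by
    intro c d
    simp only [hΛ, tr, ← Finset.sum_add_distrib, ← mul_add, ← add_mul, hSc, Matrix.sum_apply,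
      Matrix.smul_apply, smul_eq_mul, Pi.add_apply, ← map_add]
  have hΛsmul : ∀ (q : ℚ) c, Λ (q • c) = algebraMap ℚ (LaurentSeries ℚ) q * Λ c := by
    intro q c
    have h1 : ∀ a b, Sc (q • c) a b = q * Sc c a b := by
      intro a b
      simp only [hSc, Matrix.sum_apply, Matrix.smul_apply, smul_eq_mul, Pi.smul_apply,
        Finset.mul_sum, mul_assoc]
    simp only [hΛ, tr, Finset.mul_sum, h1, map_mul]
    refine Finset.sum_congr rfl fun a _ => Finset.sum_congr rfl fun b _ => by ring
  have hΛ0 : Λ 0 = 0 := by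
    have := hΛsmul 0 0
    rwa [zero_smul, map_zero, zero_mul] at this
  have hΛsum : ∀ (k : ℕ) (c : Fin k → ℚ) (w : Fin k → Fin R → ℚ),
      Λ (∑ i, c i • w i) = ∑ i, algebraMap ℚ (LaurentSeries ℚ) (c i) * Λ (w i) := by
    intro k c w
    have h1 : ∀ s : Finset (Fin k), Λ (∑ i ∈ s, c i • w i) =
        ∑ i ∈ s, algebraMap ℚ (LaurentSeries ℚ) (c i) * Λ (w i) := by
      intro s
      induction s using Finset.cons_induction with
      | empty => simpa using hΛ0
      | cons i s hi ih => rw [Finset.sum_cons, Finset.sum_cons, hΛadd, hΛsmul, ih]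
    exact h1 _
  let C0 : Submodule ℚ (Fin R → ℚ) :=
    { carrier := {c | Λ c = 0}
      add_mem' := by
        intro c d hc hd
        show Λ (c + d) = 0
        rw [hΛadd, show Λ c = 0 from hc, show Λ d = 0 from hd, add_zero]
      zero_mem' := hΛ0
      smul_mem' := by
        intro q c hc
        show Λ (q • c) = 0
        rw [hΛsmul, show Λ c = 0 from hc, mul_zero] }
  have hC0 : ∀ c, c ∈ C0 ↔ Λ c = 0 := fun c => Iff.rfl
  -- vanishing of the rows on `C0`
  have hrow0 : ∀ c ∈ C0, ∀ j, ∑ a, row T B P j a * C (c a) = 0 := by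
    intro c hc j
    have h1 : Matrix.vecMul P ((Sc c).map C) = 0 := by
      apply hlin
      rw [← (hC0 c).1 hc]
      simp only [hΛ, tr, Matrix.vecMul, dotProduct, map_sum, map_mul, Matrix.map_apply, emb_C,
        Finset.sum_mul, Finset.mul_sum]
      rw [Finset.sum_comm]
      refine Finset.sum_congr rfl fun a _ => Finset.sum_congr rfl fun b _ => by ring
    have h2 : Matrix.vecMul (row T B P j) ((Sc c).map C) = 0 := by
      rw [row_vecMul_const (hScB c), h1, row_zero]
    have h3 : ∀ b, ∑ a, row T B P j a * C (Sc c a b) = 0 := by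
      intro b
      have := congrFun h2 b
      simpa [Matrix.vecMul, dotProduct] using this
    have h4 : ∀ a, row T B P j a * C (c a) =
        ∑ b, row T B P j a * C (Sc c a b) * C ((e b).coeff 0) := by
      intro a
      rw [← hSce c a, map_sum, Finset.mul_sum]
      exact Finset.sum_congr rfl fun b _ => by rw [map_mul, mul_assoc]
    rw [Finset.sum_congr rfl fun a _ => h4 a, Finset.sum_comm]
    refine Finset.sum_eq_zero fun b _ => ?_
    rw [← Finset.sum_mul, h3 b, zero_mul]
  obtain ⟨k, w, κ, hkR, hκv, hwc⟩ := exists_complement C0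
  have hκ : ∀ j a, row T B P j a = ∑ i, C (κ i a) * ∑ b, row T B P j b * C (w i b) := by
    intro j a
    have h1 := hrow0 _ (hκv (Pi.single a 1)) j
    have h2 : ∀ i, ∑ a', κ i a' * (Pi.single a (1 : ℚ) : Fin R → ℚ) a' = κ i a := by
      intro i
      simp [Pi.single_apply]
    simp only [h2, Pi.sub_apply, Finset.sum_apply, Pi.smul_apply, smul_eq_mul, map_sub, map_sum,
      map_mul, mul_sub, Finset.sum_sub_distrib] at h1
    have h3 : ∑ a', row T B P j a' * C ((Pi.single a (1 : ℚ) : Fin R → ℚ) a') = row T B P j a := by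
      rw [Finset.sum_eq_single a]
      · simp
      · intro b _ hb
        simp [hb]
      · intro h; exact absurd (Finset.mem_univ _) h
    rw [h3, sub_eq_zero] at h1
    rw [h1]
    simp only [Finset.mul_sum]
    rw [Finset.sum_comm]
    exact Finset.sum_congr rfl fun i _ => Finset.sum_congr rfl fun b _ => by ring
  have hw : ∀ c : Fin k → ℚ, ∑ i, algebraMap ℚ (LaurentSeries ℚ) (c i) *
      (∑ a, emb (P a) * tr (Sc (w i)) e a) = 0 → c = 0 := by
    intro c hc
    apply hwc
    rw [hC0, hΛsum]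
    exact hc
  have hdet := det_red hT0 he Sc hScB w κ hκ hw
  rcases hkR.lt_or_eq with hlt | rfl
  · exfalso
    obtain ⟨i₁, hi₁⟩ : ∃ i, ∑ a, κ i a * (e a).coeff 0 ≠ 0 := by
      by_contra h
      push Not at h
      have h1 := hκv (fun a => (e a).coeff 0)
      simp only [h, zero_smul, Finset.sum_const_zero, sub_zero] at h1
      have h2 : Λ (fun a => (e a).coeff 0) = 0 := h1
      have h3 : ∀ a, tr (Sc fun a => (e a).coeff 0) e a - e a = 0 := by
        refine sol_unique hBT (e := fun a => tr (Sc fun a => (e a).coeff 0) e a - e a) ?_ ?_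
        · intro a
          have h4 := isSol_tr he (hScB fun a => (e a).coeff 0) a
          have h5 := he a
          have h6 : dd (tr (Sc fun a => (e a).coeff 0) e a - e a) =
              dd (tr (Sc fun a => (e a).coeff 0) e a) - dd (e a) := by
            have h7 := dd_add (tr (Sc fun a => (e a).coeff 0) e a - e a) (e a)
            rw [sub_add_cancel] at h7
            rw [h7, add_sub_cancel_right]
          rw [h6, mul_sub, h4, h5, ← Finset.sum_sub_distrib]
          exact Finset.sum_congr rfl fun b _ => by ring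
        · intro a i hi
          have h4 : (tr (Sc fun a => (e a).coeff 0) e a - e a).coeff i =
              ∑ b, (Sc fun a => (e a).coeff 0) a b * (e b).coeff i - (e a).coeff i := by
            rw [HahnSeries.coeff_sub, coeff_tr]
          rw [h4]
          rcases (show i < 0 ∨ i = 0 by omega) with hi | rfl
          · rw [he0 a i hi, sub_zero]
            refine Finset.sum_eq_zero fun b _ => ?_
            rw [he0 b i hi, mul_zero]
          · rw [hSce, sub_self]
      have h8 : P = 0 := by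
        apply hlin
        rw [← h2]
        simp only [hΛ]
        exact Finset.sum_congr rfl fun a _ => by rw [sub_eq_zero.1 (h3 a)]
      exact hP0 h8
    have h1 := order_bound hTτ hBτ he he0 hP hord w κ hκ hdet hi₁
    have hk1 : 1 ≤ k := Nat.one_le_iff_ne_zero.2 fun h => by subst h; exact i₁.elim0
    have h2 : (((k - 1 : ℕ) : ℕ) : ℤ) = (k : ℤ) - 1 := by omega
    rw [h2] at h1
    have h3 : (k : ℤ) + 1 ≤ R := by exact_mod_cast hlt
    have h4 : (0 : ℤ) ≤ D := by positivity
    have h5 : (0 : ℤ) ≤ τ := by positivity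
    have h6 : (1 : ℤ) ≤ k := by exact_mod_cast hk1
    push_cast at h1
    have h7 : (τ : ℤ) * (k * k) ≤ τ * (R * R) :=
      mul_le_mul_of_nonneg_left (mul_self_le_mul_self (by omega) (by omega)) h5
    have h8 : (0 : ℤ) ≤ (R - 1 - k) * D := mul_nonneg (by omega) h4
    nlinarith
  · intro h0
    apply hdet
    have h1 : (Matrix.of fun (j i : Fin k) => ∑ b, row T B P (j : ℕ) b * C (w i b)) =
        (Matrix.of fun (j a : Fin k) => row T B P (j : ℕ) a) *
          (Matrix.of fun (b i : Fin k) => C (w i b)) := by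
      ext1 j i
      rw [Matrix.mul_apply]
      rfl
    rw [h1, Matrix.det_mul, h0, zero_mul]

end Pool.Agent.Helper37.GP
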