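import Pool.Agent.Helper37.GP.CoreAux
import Pool.Agent.Helper37.GP.LS
import Pool.Agent.Helper37.GP.Rows
import Pool.Agent.Helper37.GP.RowSize
import Pool.Agent.Helper37.GP.ZeroEst
import Pool.Agent.Helper37.GP.Span
import Pool.Agent.Helper37.GP.AuxForms
import Pool.Agent.Helper37.GP.Eval

/-!
# The core theorem: linear independence of values of G-functions at `s = ∞`
-/

open Polynomial

namespace Pool.Agent.Helper37.GP



/-! ### Orders of the rows -/

theorem ordGE_natCast_mul_cancel {f : LaurentSeries ℚ} {N : ℤ} {m : ℕ} (hm : m ≠ 0)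
    (h : OrdGE N ((m : LaurentSeries ℚ) * f)) : OrdGE N f := by
  have h1 : f = emb (C ((m : ℚ)⁻¹)) * ((m : LaurentSeries ℚ) * f) := by
    rw [← mul_assoc, show (m : LaurentSeries ℚ) = emb (C (m : ℚ)) by simp, ← map_mul, ← C_mul,
      inv_mul_cancel₀ (by exact_mod_cast hm)]
    simp
  rw [h1]
  have h2 := ordGE_mul (ordGE_emb (p := C ((m : ℚ)⁻¹)) (D := 0) (by simp)) h
  simpa using h2

theorem ordGE_iterate {f : LaurentSeries ℚ} {N : ℤ} (h : OrdGE N f) (j : ℕ) :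
    OrdGE (N + j) (dd^[j] f) := by
  induction j with
  | zero => simpa using h
  | succ j ih =>
    rw [Function.iterate_succ_apply']
    have := ordGE_dd ih
    refine ordGE_mono ?_ this
    push_cast; linarith

theorem ordGE_emb_pow {T : ℚ[X]} {τ : ℕ} (hT : T.natDegree ≤ τ) (j : ℕ) :
    OrdGE (-((τ * j : ℕ) : ℤ)) (emb T ^ j) := by
  rw [← map_pow]
  exact ordGE_emb ((natDegree_pow_le).trans (by nlinarith))

/-- The order at infinity of `row_j · e`. -/
theorem ordGE_row {ι : Type} [Fintype ι] [DecidableEq ι] {T : ℚ[X]} {B : Matrix ι ι ℚ[X]}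
    {e : ι → LaurentSeries ℚ} (he : IsSol T B e) {τ : ℕ} (hT : T.natDegree ≤ τ) (P : ι → ℚ[X])
    {N : ℤ} (hN : OrdGE N (∑ a, emb (P a) * e a)) (j : ℕ) :
    OrdGE (N - (τ * j : ℕ)) (∑ a, emb (row T B P j a) * e a) := by
  have h1 := row_sol he P j
  have h2 := ordGE_mul (ordGE_emb_pow hT j) (ordGE_iterate hN j)
  rw [← h1] at h2
  have h3 := ordGE_natCast_mul_cancel (Nat.factorial_ne_zero j) h2
  refine ordGE_mono ?_ h3
  push_cast
  linarith [show (0 : ℤ) ≤ j by positivity]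

/-! ### The degree of the determinant -/

theorem natDegree_adjugate_le {R : ℕ} (M : Matrix (Fin R) (Fin R) ℚ[X]) (b : ℕ)
    (h : ∀ i j, (M i j).natDegree ≤ b) (i j : Fin R) :
    (M.adjugate i j).natDegree ≤ (R - 1) * b := by
  rw [Matrix.adjugate_apply]
  have h1 := natDegree_det_le (M.updateRow j (Pi.single i 1)) (fun k => if k = j then 0 else b) (by
    intro k l
    by_cases hk : k = j
    · subst hk
      rw [Matrix.updateRow_self, if_pos rfl]
      by_cases hl : l = i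
      · subst hl; simp
      · simp [Pi.single_eq_of_ne hl]
    · rw [Matrix.updateRow_ne hk, if_neg hk]; exact h k l)
  refine h1.trans ?_
  rw [Finset.sum_ite, Finset.sum_const_zero, zero_add, Finset.sum_const, smul_eq_mul]
  refine Nat.mul_le_mul_right _ ?_
  rw [Finset.filter_ne' Finset.univ j, Finset.card_erase_of_mem (Finset.mem_univ j)]
  simp

theorem natDegree_det_row {R : ℕ} {T : ℚ[X]} {B : Matrix (Fin R) (Fin R) ℚ[X]}
    {e : Fin R → LaurentSeries ℚ} (he : IsSol T B e) (he0 : ∀ a, OrdGE 0 (e a)) {i₀ : Fin R}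
    (hi₀ : (e i₀).coeff 0 ≠ 0) {τ D : ℕ} (hT : T.natDegree ≤ τ)
    (hB : ∀ a b, (B a b).natDegree ≤ τ) {P : Fin R → ℚ[X]} (hP : ∀ a, (P a).natDegree ≤ D)
    {N : ℤ} (hN : OrdGE N (∑ a, emb (P a) * e a))
    (hΔ : Matrix.det (Matrix.of fun (j a : Fin R) => row T B P (j : ℕ) a) ≠ 0) :
    ((Matrix.det (Matrix.of fun (j a : Fin R) => row T B P (j : ℕ) a)).natDegree : ℤ) ≤
      ((R - 1 : ℕ) : ℤ) * (D + τ * R) + τ * R - N := by
  set M := Matrix.of fun (j a : Fin R) => row T B P (j : ℕ) a with hM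
  have hR : 1 ≤ R := by
    have := i₀.2; omega
  have hdeg : ∀ i j, (M i j).natDegree ≤ D + τ * R := fun i j => by
    have h1 := natDegree_row hT hB hP (i : ℕ) j
    have h2 : τ * (i : ℕ) ≤ τ * R := Nat.mul_le_mul_left _ i.2.le
    simp only [hM, Matrix.of_apply]
    omega
  have h1 := cramer_row (M.map emb) e i₀
  have h2 : (M.map emb).det = emb M.det := by
    rw [RingHom.map_det]; rfl
  have h3 : OrdGE (-(((R - 1) * (D + τ * R) : ℕ) : ℤ) + (N - (τ * R : ℕ)))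
      ((M.map emb).det * e i₀) := by
    rw [h1]
    refine ordGE_sum _ _ fun j _ => ?_
    refine ordGE_mul ?_ ?_
    · have : (M.map emb).adjugate i₀ j = emb (M.adjugate i₀ j) := by
        rw [← RingHom.mapMatrix_apply, ← RingHom.map_adjugate]; rfl
      rw [this]
      exact ordGE_emb (natDegree_adjugate_le M _ hdeg i₀ j)
    · have h4 := ordGE_row he hT P hN (j : ℕ)
      refine ordGE_mono ?_ h4
      have : τ * (j : ℕ) ≤ τ * R := Nat.mul_le_mul_left _ j.2.le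
      have : ((τ * (j : ℕ) : ℕ) : ℤ) ≤ ((τ * R : ℕ) : ℤ) := by exact_mod_cast this
      linarith
  rw [h2] at h3
  have h5 := le_of_ordGE_emb_mul hΔ (he0 i₀) hi₀ h3
  push_cast at h5 ⊢
  linarith


/-! ### Numerical estimates -/

theorem abs_eval_le {Q : ℚ[X]} {D : ℕ} (hQ : Q.natDegree ≤ D) {M : ℝ} (hM0 : 0 ≤ M)
    (hM : ∀ i, |((Q.coeff i : ℚ) : ℝ)| ≤ M) {s : ℝ} (hs : 1 ≤ s) :
    |(Q.map (algebraMap ℚ ℝ)).eval s| ≤ (D + 1) * M * s ^ D := by
  have hd : (Q.map (algebraMap ℚ ℝ)).natDegree < D + 1 :=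
    Nat.lt_succ_of_le (natDegree_map_le.trans hQ)
  rw [Polynomial.eval_eq_sum_range' hd]
  refine (Finset.abs_sum_le_sum_abs _ _).trans ?_
  have : ∀ i ∈ Finset.range (D + 1),
      |(Q.map (algebraMap ℚ ℝ)).coeff i * s ^ i| ≤ M * s ^ D := by
    intro i hi
    rw [abs_mul, abs_of_nonneg (by positivity : (0 : ℝ) ≤ s ^ i), Polynomial.coeff_map]
    refine mul_le_mul (hM i) (pow_le_pow_right₀ hs ?_) (by positivity) hM0
    exact Nat.lt_succ_iff.mp (Finset.mem_range.mp hi)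
  refine (Finset.sum_le_sum this).trans ?_
  rw [Finset.sum_const, Finset.card_range, nsmul_eq_mul]
  push_cast
  rw [mul_assoc]

theorem numeric_step {R τ m : ℕ} (hR : 2 ≤ R) (hm : m = (R - 1) * τ + τ + 4) (C₀ : ℕ) :
    ∃ C₂ : ℕ, ∀ (H s a0 n₀ : ℕ), 2 ≤ H → H ^ C₂ ≤ s → ∃ n ≥ n₀, ∀ J q : ℕ,
      J ≤ n + (R + τ * R ^ 2) → q ≤ H ^ (J + 1) →
      ∃ N : ℕ, N + τ * J + n + m * n = R * (m * n) ∧
      4 * R ^ 2 * R.factorial * a0 * q ^ R * (m * n + τ * J + 1) ^ (R - 1) *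
        (((R * (m * n + 1) * H ^ (2 * (R * (m * n) - n) + 2)) ^ (R * m)) *
          (H ^ C₀) ^ (m * n + J + 1)) ^ (R - 1) * H ^ (m * n + τ * J + N + 1) *
        s ^ ((R - 2) * (m * n + τ * J)) < s ^ N := by
  set c₅ := R + τ * R ^ 2 with hc₅
  set c := 4 * R ^ 2 * R.factorial with hc
  set c₆ := R + (m + τ) * R + ((m + 2 * (R * m)) * (R * m) + C₀ * (m + 1)) * R + (m + τ) + R * m
    with hc₆
  set c₇ := c + (c₅ + 1) * R + (τ * c₅ + 1) * R + ((R + 3) * (R * m) + C₀ * (c₅ + 1)) * R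
    + τ * c₅ + 1 with hc₇
  set c₈ := (R - 1) * τ * c₅ with hc₈
  refine ⟨c₆ + 1, fun H s a0 n₀ hH hs => ?_⟩
  refine ⟨n₀ + c₈ + a0 + c₇ + 1 + τ * c₅, by omega, fun J q hJ hq => ?_⟩
  set n := n₀ + c₈ + a0 + c₇ + 1 + τ * c₅ with hn
  have hH1 : 1 ≤ H := by omega
  have hsH : H ≤ s := le_trans (by
    calc H = H ^ 1 := (pow_one H).symm
      _ ≤ H ^ (c₆ + 1) := Nat.pow_le_pow_right hH1 (by omega)) hs
  have hs2 : 2 ≤ s := hH.trans hsH
  have hτJ : τ * J ≤ τ * n + τ * c₅ := by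
    calc τ * J ≤ τ * (n + c₅) := Nat.mul_le_mul_left _ hJ
      _ = τ * n + τ * c₅ := by ring
  have hmn : m * n = (R - 1) * τ * n + τ * n + 4 * n := by rw [hm]; ring
  obtain ⟨r, rfl⟩ : ∃ r, R = r + 2 := ⟨R - 2, by omega⟩
  have hRD : (r + 2) * (m * n) = (r + 1) * (m * n) + m * n := by ring
  have hRD1 : m * n ≤ (r + 1) * (m * n) := by nlinarith [Nat.zero_le (r * (m * n))]
  have hN0 : τ * J + n ≤ (r + 1) * (m * n) := by
    have h1 : τ * J + n ≤ m * n := by
      have : 0 ≤ (r + 2 - 1) * τ * n := Nat.zero_le _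
      omega
    exact h1.trans hRD1
  refine ⟨(r + 1) * (m * n) - n - τ * J, by omega, ?_⟩
  set N := (r + 1) * (m * n) - n - τ * J with hN
  -- the exponents of `s`
  have hexp : (r + 2 - 2) * (m * n + τ * J) + 3 * n ≤ N + c₈ := by
    have h1 : (r + 2 - 2) * (m * n + τ * J) = r * (m * n) + r * (τ * J) := by
      rw [show r + 2 - 2 = r by omega]; ring
    have h2 : (r + 1) * (m * n) = r * (m * n) + m * n := by ring
    have h3 : r * (τ * J) + τ * J ≤ (r + 1) * τ * n + (r + 1) * τ * c₅ := by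
      calc r * (τ * J) + τ * J = (r + 1) * (τ * J) := by ring
        _ ≤ (r + 1) * (τ * n + τ * c₅) := Nat.mul_le_mul_left _ hτJ
        _ = _ := by ring
    have h4 : r + 2 - 1 = r + 1 := by omega
    rw [h4] at hmn hc₈
    rw [h1]
    omega
  -- the exponent of `H`
  have key : 4 * (r + 2) ^ 2 * (r + 2).factorial * a0 * q ^ (r + 2) *
      (m * n + τ * J + 1) ^ (r + 2 - 1) *
        ((((r + 2) * (m * n + 1) * H ^ (2 * ((r + 2) * (m * n) - n) + 2)) ^ ((r + 2) * m)) *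
          (H ^ C₀) ^ (m * n + J + 1)) ^ (r + 2 - 1) * H ^ (m * n + τ * J + N + 1) ≤
      a0 * H ^ (c₆ * n + c₇) := by
    have two : ∀ x : ℕ, x ≤ H ^ x := fun x =>
      (Nat.lt_two_pow_self).le.trans (Nat.pow_le_pow_left hH x)
    have e1 : 4 * (r + 2) ^ 2 * (r + 2).factorial ≤ H ^ c := two _
    have e2 : q ^ (r + 2) ≤ H ^ ((J + 1) * (r + 2)) := by
      rw [pow_mul]; exact Nat.pow_le_pow_left hq _
    have e3 : (m * n + τ * J + 1) ^ (r + 2 - 1) ≤ H ^ ((m * n + τ * J + 1) * (r + 2)) := by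
      calc (m * n + τ * J + 1) ^ (r + 2 - 1) ≤ (m * n + τ * J + 1) ^ (r + 2) :=
            Nat.pow_le_pow_right (by omega) (by omega)
        _ ≤ (H ^ (m * n + τ * J + 1)) ^ (r + 2) := Nat.pow_le_pow_left (two _) _
        _ = _ := by rw [← pow_mul]
    have e4 : (((r + 2) * (m * n + 1) * H ^ (2 * ((r + 2) * (m * n) - n) + 2)) ^ ((r + 2) * m)) *
          (H ^ C₀) ^ (m * n + J + 1) ≤
        H ^ (((r + 2) + (m * n + 1) + (2 * ((r + 2) * (m * n)) + 2)) * ((r + 2) * m)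
          + C₀ * (m * n + J + 1)) := by
      calc (((r + 2) * (m * n + 1) * H ^ (2 * ((r + 2) * (m * n) - n) + 2)) ^ ((r + 2) * m)) *
            (H ^ C₀) ^ (m * n + J + 1)
          ≤ (H ^ (r + 2) * H ^ (m * n + 1) * H ^ (2 * ((r + 2) * (m * n)) + 2)) ^ ((r + 2) * m) *
            (H ^ C₀) ^ (m * n + J + 1) := by
            refine Nat.mul_le_mul_right _ (Nat.pow_le_pow_left ?_ _)
            refine Nat.mul_le_mul (Nat.mul_le_mul (two _) (two _)) ?_
            exact Nat.pow_le_pow_right hH1 (by omega)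
        _ = _ := by
            rw [← pow_add, ← pow_add, ← pow_mul, ← pow_mul, ← pow_add]
    have e4' : ((((r + 2) * (m * n + 1) * H ^ (2 * ((r + 2) * (m * n) - n) + 2)) ^ ((r + 2) * m)) *
          (H ^ C₀) ^ (m * n + J + 1)) ^ (r + 2 - 1) ≤
        H ^ ((((r + 2) + (m * n + 1) + (2 * ((r + 2) * (m * n)) + 2)) * ((r + 2) * m)
          + C₀ * (m * n + J + 1)) * (r + 2)) := by
      calc _ ≤ (H ^ (((r + 2) + (m * n + 1) + (2 * ((r + 2) * (m * n)) + 2)) * ((r + 2) * m)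
          + C₀ * (m * n + J + 1))) ^ (r + 2 - 1) := Nat.pow_le_pow_left e4 _
        _ ≤ (H ^ (((r + 2) + (m * n + 1) + (2 * ((r + 2) * (m * n)) + 2)) * ((r + 2) * m)
          + C₀ * (m * n + J + 1))) ^ (r + 2) :=
            Nat.pow_le_pow_right (Nat.pos_of_ne_zero (by positivity)) (by omega)
        _ = _ := by rw [← pow_mul]
    have hfin : c + (J + 1) * (r + 2) + (m * n + τ * J + 1) * (r + 2) +
        ((((r + 2) + (m * n + 1) + (2 * ((r + 2) * (m * n)) + 2)) * ((r + 2) * m)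
          + C₀ * (m * n + J + 1)) * (r + 2)) + (m * n + τ * J + N + 1) ≤ c₆ * n + c₇ := by
      have hNle : N ≤ (r + 2) * m * n - (τ * J) := by
        have : (r + 2) * m * n = (r + 2) * (m * n) := by ring
        omega
      have f1 : (J + 1) * (r + 2) ≤ (n + c₅ + 1) * (r + 2) := Nat.mul_le_mul_right _ (by omega)
      have f2 : (m * n + τ * J + 1) * (r + 2) ≤ (m * n + (τ * n + τ * c₅) + 1) * (r + 2) :=
        Nat.mul_le_mul_right _ (by omega)
      have f3 : (((r + 2) + (m * n + 1) + (2 * ((r + 2) * (m * n)) + 2)) * ((r + 2) * m)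
          + C₀ * (m * n + J + 1)) * (r + 2) ≤
          (((r + 2) + (m * n + 1) + (2 * ((r + 2) * (m * n)) + 2)) * ((r + 2) * m)
          + C₀ * (m * n + (n + c₅) + 1)) * (r + 2) := by
        refine Nat.mul_le_mul_right _ (Nat.add_le_add_left (Nat.mul_le_mul_left _ (by omega)) _)
      have f4 : m * n + τ * J + N + 1 ≤ m * n + (τ * n + τ * c₅) + (r + 2) * m * n + 1 := by
        omega
      calc _ ≤ c + (n + c₅ + 1) * (r + 2) + (m * n + (τ * n + τ * c₅) + 1) * (r + 2) +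
          (((r + 2) + (m * n + 1) + (2 * ((r + 2) * (m * n)) + 2)) * ((r + 2) * m)
          + C₀ * (m * n + (n + c₅) + 1)) * (r + 2) +
          (m * n + (τ * n + τ * c₅) + (r + 2) * m * n + 1) := by omega
        _ = c₆ * n + c₇ := by rw [hc₆, hc₇]; ring
    calc _ = a0 * ((4 * (r + 2) ^ 2 * (r + 2).factorial) * q ^ (r + 2) *
          (m * n + τ * J + 1) ^ (r + 2 - 1) *
        ((((r + 2) * (m * n + 1) * H ^ (2 * ((r + 2) * (m * n) - n) + 2)) ^ ((r + 2) * m)) *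
          (H ^ C₀) ^ (m * n + J + 1)) ^ (r + 2 - 1) * H ^ (m * n + τ * J + N + 1)) := by ring
      _ ≤ a0 * (H ^ c * H ^ ((J + 1) * (r + 2)) * H ^ ((m * n + τ * J + 1) * (r + 2)) *
          H ^ ((((r + 2) + (m * n + 1) + (2 * ((r + 2) * (m * n)) + 2)) * ((r + 2) * m)
          + C₀ * (m * n + J + 1)) * (r + 2)) * H ^ (m * n + τ * J + N + 1)) := by
          gcongr
      _ = a0 * H ^ (c + (J + 1) * (r + 2) + (m * n + τ * J + 1) * (r + 2) +
        ((((r + 2) + (m * n + 1) + (2 * ((r + 2) * (m * n)) + 2)) * ((r + 2) * m)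
          + C₀ * (m * n + J + 1)) * (r + 2)) + (m * n + τ * J + N + 1)) := by
          rw [← pow_add, ← pow_add, ← pow_add, ← pow_add]
      _ ≤ a0 * H ^ (c₆ * n + c₇) := Nat.mul_le_mul_left _ (Nat.pow_le_pow_right hH1 hfin)
  -- conclusion
  have h1 : H ^ (c₆ * n) ≤ s ^ n := by
    rw [pow_mul]
    exact Nat.pow_le_pow_left (le_trans (Nat.pow_le_pow_right hH1 (by omega)) hs) _
  have h2 : a0 * H ^ c₇ < s ^ (a0 + c₇ + 1) := by
    have h0 : a0 < s ^ a0 := (Nat.lt_two_pow_self).trans_le (Nat.pow_le_pow_left hs2 _)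
    calc a0 * H ^ c₇ ≤ a0 * s ^ c₇ := Nat.mul_le_mul_left _ (Nat.pow_le_pow_left hsH _)
      _ ≤ a0 * (s ^ c₇ * s ^ 1) := Nat.mul_le_mul_left _ (Nat.le_mul_of_pos_right _ (by positivity))
      _ < s ^ a0 * (s ^ c₇ * s ^ 1) := Nat.mul_lt_mul_of_pos_right h0 (by positivity)
      _ = s ^ (a0 + c₇ + 1) := by ring
  have h3 : a0 * H ^ (c₆ * n + c₇) * s ^ c₈ < s ^ (3 * n) := by
    have e : s ^ (3 * n) = s ^ n * (s ^ n * s ^ n) := by ring
    rw [e, pow_add]
    have h4 : s ^ (a0 + c₇ + 1) ≤ s ^ n := Nat.pow_le_pow_right (by omega) (by omega)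
    have h5 : s ^ c₈ ≤ s ^ n := Nat.pow_le_pow_right (by omega) (by omega)
    calc a0 * (H ^ (c₆ * n) * H ^ c₇) * s ^ c₈ = H ^ (c₆ * n) * ((a0 * H ^ c₇) * s ^ c₈) := by ring
      _ ≤ s ^ n * ((a0 * H ^ c₇) * s ^ c₈) := Nat.mul_le_mul_right _ h1
      _ < s ^ n * (s ^ n * s ^ n) := by
          refine Nat.mul_lt_mul_of_pos_left ?_ (by positivity)
          exact Nat.mul_lt_mul_of_lt_of_le (h2.trans_le h4) h5 (by positivity)
  have h6 : (4 * (r + 2) ^ 2 * (r + 2).factorial * a0 * q ^ (r + 2) *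
      (m * n + τ * J + 1) ^ (r + 2 - 1) *
        ((((r + 2) * (m * n + 1) * H ^ (2 * ((r + 2) * (m * n) - n) + 2)) ^ ((r + 2) * m)) *
          (H ^ C₀) ^ (m * n + J + 1)) ^ (r + 2 - 1) * H ^ (m * n + τ * J + N + 1) *
        s ^ ((r + 2 - 2) * (m * n + τ * J))) * s ^ c₈ < s ^ N * s ^ c₈ := by
    calc _ ≤ (a0 * H ^ (c₆ * n + c₇)) * s ^ ((r + 2 - 2) * (m * n + τ * J)) * s ^ c₈ :=
          Nat.mul_le_mul_right _ (Nat.mul_le_mul_right _ key)
      _ = (a0 * H ^ (c₆ * n + c₇) * s ^ c₈) * s ^ ((r + 2 - 2) * (m * n + τ * J)) := by ring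
      _ < s ^ (3 * n) * s ^ ((r + 2 - 2) * (m * n + τ * J)) :=
          Nat.mul_lt_mul_of_pos_right h3 (by positivity)
      _ = s ^ ((r + 2 - 2) * (m * n + τ * J) + 3 * n) := by rw [← pow_add, add_comm]
      _ ≤ s ^ (N + c₈) := Nat.pow_le_pow_right (by omega) hexp
      _ = s ^ N * s ^ c₈ := pow_add _ _ _
  exact lt_of_mul_lt_mul_right h6 (Nat.zero_le _)

theorem det_updateRow_le {R : ℕ} (V : Matrix (Fin R) (Fin R) ℝ) {i₀ i₁ j : Fin R} (hj : j ≠ i₁)
    {a0 M : ℝ} (ha0 : ∀ a, |V i₁ a| ≤ a0) (hM : ∀ i ≠ i₁, ∀ a, |V i a| ≤ M) :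
    |V.adjugate i₀ j| ≤ R.factorial * (a0 * M ^ (R - 2)) := by
  classical
  rw [Matrix.adjugate_apply]
  have h1 := abs_det_le (V.updateRow j (Pi.single i₀ 1))
    (fun k => if k = j then 1 else if k = i₁ then a0 else M) (by
    intro k l
    by_cases hk : k = j
    · subst hk
      rw [Matrix.updateRow_self, if_pos rfl]
      by_cases hl : l = i₀
      · subst hl; simp
      · simp [Pi.single_eq_of_ne hl]
    · rw [Matrix.updateRow_ne hk, if_neg hk]
      by_cases hk1 : k = i₁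
      · subst hk1; rw [if_pos rfl]; exact ha0 l
      · rw [if_neg hk1]; exact hM k hk1 l)
  refine h1.trans (le_of_eq ?_)
  congr 1
  rw [← Finset.mul_prod_erase Finset.univ _ (Finset.mem_univ j), if_pos rfl, one_mul]
  have hmem : i₁ ∈ Finset.univ.erase j := Finset.mem_erase.mpr ⟨hj.symm, Finset.mem_univ _⟩
  rw [← Finset.mul_prod_erase _ _ hmem, if_neg hj.symm, if_pos rfl]
  congr 1
  have hall : ∀ k ∈ (Finset.univ.erase j).erase i₁,
      (if k = j then (1 : ℝ) else if k = i₁ then a0 else M) = M := by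
    intro k hk
    rw [Finset.mem_erase, Finset.mem_erase] at hk
    rw [if_neg hk.2.1, if_neg hk.1]
  rw [Finset.prod_congr rfl hall, Finset.prod_const, Finset.card_erase_of_mem hmem,
    Finset.card_erase_of_mem (Finset.mem_univ j), Finset.card_univ, Fintype.card_fin]
  congr 1

/-- A nonzero determinant of a matrix with denominator `q`: `1 ≤ q^R |det V|`. -/
theorem one_le_det {R : ℕ} (V : Matrix (Fin R) (Fin R) ℚ) (hV : V.det ≠ 0) {q : ℕ} (hq0 : 0 < q)
    (hq : ∀ i a, ∃ z : ℤ, (q : ℚ) * V i a = z) : 1 ≤ (q : ℝ) ^ R * |((V.det : ℚ) : ℝ)| := by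
  choose z hz using hq
  have h1 : (((Matrix.of z).det : ℤ) : ℚ) = (q : ℚ) ^ R * V.det := by
    have : (Matrix.of z).map (Int.castRingHom ℚ) = (q : ℚ) • V := by
      ext i a
      simp [hz]
    rw [show (((Matrix.of z).det : ℤ) : ℚ) = Int.castRingHom ℚ (Matrix.of z).det by simp,
      RingHom.map_det, RingHom.mapMatrix_apply, this, Matrix.det_smul, Fintype.card_fin]
  have h2 : (Matrix.of z).det ≠ 0 := by
    intro h0
    rw [h0] at h1
    have : (q : ℚ) ^ R * V.det ≠ 0 := mul_ne_zero (by positivity) hV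
    exact this (by rw [← h1]; simp)
  have h3 : (1 : ℝ) ≤ |(((Matrix.of z).det : ℤ) : ℝ)| := by
    exact_mod_cast Int.one_le_abs h2
  have h4 : (((Matrix.of z).det : ℤ) : ℝ) = (q : ℝ) ^ R * ((V.det : ℚ) : ℝ) := by
    calc (((Matrix.of z).det : ℤ) : ℝ) = ((((Matrix.of z).det : ℤ) : ℚ) : ℝ) :=
          (Rat.cast_intCast _).symm
      _ = (((q : ℚ) ^ R * V.det : ℚ) : ℝ) := by rw [h1]
      _ = _ := by rw [Rat.cast_mul, Rat.cast_pow, Rat.cast_natCast]
  rw [h4, abs_mul, abs_of_nonneg (by positivity : (0 : ℝ) ≤ (q : ℝ) ^ R)] at h3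
  exact h3

theorem gcore (R τ : ℕ) : ∃ C₂ : ℕ, ∀ (H : ℕ), 2 ≤ H → ∀ (T : ℤ[X])
    (B : Matrix (Fin R) (Fin R) ℚ[X]) (e : Fin R → PowerSeries ℚ) (i₀ : Fin R),
    T.natDegree ≤ τ → (∀ a b, (B a b).natDegree + 2 ≤ T.natDegree) →
    (∀ i, |T.coeff i| ≤ H) → (∀ a b i, |(B a b).coeff i| ≤ H) →
    Galochkin (T.map (Int.castRingHom ℚ)) B H →
    IsSol (T.map (Int.castRingHom ℚ)) B (fun a => ps (e a)) →
    (∀ a, GBound H (e a)) → GDen H e → PowerSeries.constantCoeff (e i₀) = 1 →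
    (∀ P : Fin R → ℚ[X], ∑ a, emb (P a) * ps (e a) = 0 → P = 0) →
    (∀ c : Fin R → ℚ, ∃ S : Matrix (Fin R) (Fin R) ℚ, S.map C * B = B * S.map C ∧
      ∀ a, ∑ b, S a b * PowerSeries.constantCoeff (e b) = c a) →
    ∀ s : ℕ, H ^ C₂ ≤ s → ∀ A : Fin R → ℤ, ∑ a, (A a : ℝ) * pev (e a) s = 0 → A = 0 := by
  classical
  obtain ⟨C₁, hC₁⟩ := zero_estimate R τ
  obtain ⟨C₀, hC₀1, hC₀⟩ := size_row R τ
  set m := (R - 1) * τ + τ + 4 with hm
  by_cases hR2 : 2 ≤ R
  swap
  · -- `R ≤ 1`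
    refine ⟨4, fun H hH T B e i₀ _ _ _ _ _ _ hb _ h1 _ _ s hs A hA => ?_⟩
    have hR : R = 1 := by have := i₀.2; omega
    subst hR
    have hs4 : (4 : ℝ) * H ^ 2 ≤ (s : ℝ) := by
      have : 4 * H ^ 2 ≤ H ^ 4 := by nlinarith [Nat.pow_le_pow_left hH 2]
      exact_mod_cast this.trans hs
    have h2 := pev_ge_half hH (hb i₀) h1 hs4
    have hi : ∀ a : Fin 1, a = i₀ := fun a => Subsingleton.elim _ _
    rw [Fintype.sum_eq_single i₀ (fun a ha => absurd (hi a) ha)] at hA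
    have h3 : (A i₀ : ℝ) = 0 := by
      rcases mul_eq_zero.mp hA with h | h
      · exact h
      · rw [h] at h2; norm_num at h2
    funext a
    rw [hi a]
    exact_mod_cast h3
  obtain ⟨C₂, hC₂⟩ := numeric_step (τ := τ) hR2 hm C₀
  refine ⟨C₂ + 4, fun H hH T B e i₀ hT hB hTH hBH hG hsol hb hd h1 hind hcomm s hs A hA => ?_⟩
  by_contra hA0
  have hH1 : 1 ≤ H := by omega
  have hsC : H ^ C₂ ≤ s := (Nat.pow_le_pow_right hH1 (by omega)).trans hs
  have hs4' : H ^ 4 ≤ s := (Nat.pow_le_pow_right hH1 (by omega)).trans hs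
  have hs4 : (4 : ℝ) * H ^ 2 ≤ (s : ℝ) := by
    have : 4 * H ^ 2 ≤ H ^ 4 := by nlinarith [Nat.pow_le_pow_left hH 2]
    exact_mod_cast this.trans hs4'
  have hH2 : (2 : ℝ) ≤ H := by exact_mod_cast hH
  have hs2 : (2 : ℝ) * H ≤ (s : ℝ) := by nlinarith
  have hs1 : (1 : ℝ) ≤ (s : ℝ) := by linarith
  have hT2 : 2 ≤ T.natDegree := by
    have := hB i₀ i₀; omega
  have hT0 : T ≠ 0 := by rintro rfl; simp at hT2
  set T' := T.map (Int.castRingHom ℚ) with hT'
  have hTdeg : T'.natDegree = T.natDegree :=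
    natDegree_map_eq_of_injective (RingHom.injective_int _) _
  have hT'τ : T'.natDegree ≤ τ := by rw [hTdeg]; exact hT
  have hB' : ∀ a b, (B a b).natDegree + 2 ≤ T'.natDegree := by rw [hTdeg]; exact hB
  have hBτ : ∀ a b, (B a b).natDegree ≤ τ := fun a b => by have := hB' a b; omega
  have hT's : T'.eval (s : ℚ) ≠ 0 := by
    refine eval_ne_zero hT0 hTH ?_
    have : H + 2 ≤ H ^ 4 := by nlinarith [Nat.pow_le_pow_left hH 2, Nat.pow_le_pow_left hH 3]
    omega
  -- the size of `A`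
  set a0 : ℕ := ∑ a, (A a).natAbs with ha0
  have hAa : ∀ a, |(A a : ℝ)| ≤ a0 := by
    intro a
    have h2 : (A a).natAbs ≤ a0 :=
      Finset.single_le_sum (f := fun a => (A a).natAbs) (fun _ _ => Nat.zero_le _)
        (Finset.mem_univ a)
    have h3 : |(A a : ℝ)| = ((A a).natAbs : ℝ) := by
      rw [Nat.cast_natAbs, Int.cast_abs]
    rw [h3]; exact_mod_cast h2
  -- choose `n`
  obtain ⟨n, hn, hnum⟩ := hC₂ H s a0 (C₁ + 1) hH hsC
  set D := m * n with hD
  have hDn : D = (R - 1) * τ * n + τ * n + 4 * n := by rw [hD, hm]; ring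
  have hRD : n ≤ R * D := by
    have : n ≤ D := by rw [hDn]; omega
    nlinarith
  have hE : R * D - n < R * (D + 1) := by
    have : R * (D + 1) = R * D + R := by ring
    omega
  have hκ : R * D - n ≤ (R * m) * (R * (D + 1) - (R * D - n)) := by
    have h2 : R * (D + 1) - (R * D - n) = R + n := by
      have : R * (D + 1) = R * D + R := by ring
      omega
    rw [h2]
    have : R * D = R * m * n := by rw [hD]; ring
    have : (R * m) * (R + n) = R * m * R + R * m * n := by ring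
    omega
  obtain ⟨p, hp0, hpD, hpH, hpO⟩ := aux_forms hH hE hκ e hb hd
  set P : Fin R → ℚ[X] := fun a => (p a).map (Int.castRingHom ℚ) with hP
  have hP0 : P ≠ 0 := by
    intro h0
    apply hp0
    funext a
    have := congrFun h0 a
    exact Polynomial.map_injective _ (RingHom.injective_int (Int.castRingHom ℚ)) (by simpa [hP] using this)
  have hPD : ∀ a, (P a).natDegree ≤ D := fun a => natDegree_map_le.trans (hpD a)
  have he0 : ∀ a, OrdGE 0 (ps (e a)) := fun a => ordGE_ps _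
  have hcoe : ∀ a, (ps (e a)).coeff 0 = PowerSeries.constantCoeff (e a) := by
    intro a
    have := HahnSeries.ofPowerSeries_apply_coeff (Γ := ℤ) (e a) 0
    simpa [ps] using this
  -- the zero estimate
  have hmn4 : 4 * n ≤ D := by rw [hDn]; omega
  have hΔ := hC₁ T' B (fun a => ps (e a)) hT'τ hB' hsol he0 hind (by
    intro c
    obtain ⟨S, hS1, hS2⟩ := hcomm c
    refine ⟨S, hS1, fun a => ?_⟩
    rw [← hS2 a]
    exact Finset.sum_congr rfl fun b _ => by rw [hcoe]) D P hP0 hPD (by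
    refine ordGE_mono ?_ hpO
    have h2 : ((R * D - n : ℕ) : ℤ) = (R : ℤ) * D - n := by
      push_cast [Nat.cast_sub hRD]; ring
    rw [h2]
    have h3 : (C₁ : ℤ) + 1 ≤ n := by exact_mod_cast hn
    have h4 : (4 : ℤ) * n ≤ D := by exact_mod_cast hmn4
    linarith)
  set Δ := Matrix.det (Matrix.of fun (j a : Fin R) => row T' B P (j : ℕ) a) with hΔdef
  have hdegΔ : Δ.natDegree ≤ n + τ * R ^ 2 := by
    have h2 := natDegree_det_row hsol he0 (i₀ := i₀) (by rw [hcoe, h1]; exact one_ne_zero) hT'τ hBτ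
      hPD hpO hΔ
    have h3 : ((R * D - n : ℕ) : ℤ) = (R : ℤ) * D - n := by
      push_cast [Nat.cast_sub hRD]; ring
    have h4 : ((R - 1 : ℕ) : ℤ) = (R : ℤ) - 1 := by
      push_cast [Nat.cast_sub (by omega : 1 ≤ R)]; ring
    rw [h3, h4] at h2
    have h5 : (Δ.natDegree : ℤ) ≤ n + τ * R ^ 2 := by nlinarith
    exact_mod_cast h5
  -- the rows at `s` span
  set J := R + Δ.natDegree with hJ
  have hJle : J ≤ n + (R + τ * R ^ 2) := by omega
  obtain ⟨V, i₁, hV0, hVi, hVj⟩ := exists_completion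
    (fun (j : Fin J) a => (row T' B P (j : ℕ) a).eval (s : ℚ)) (fun a => (A a : ℚ))
    (by
      intro h0; apply hA0; funext a
      have h2 : ((A a : ℤ) : ℚ) = 0 := congrFun h0 a
      show A a = 0
      exact_mod_cast h2)
    (by
      intro c hc
      obtain ⟨j, hj, hj2⟩ := rows_span hΔ hT's c hc
      exact ⟨⟨j, hj⟩, hj2⟩)
  obtain ⟨q, hq0, hqH, hqr⟩ := den_row hG p J
  obtain ⟨N, hN, hfin⟩ := hnum J q hJle hqH
  -- sizes
  set DD := D + τ * J with hDD
  set Bd : ℕ := ((R * (D + 1) * H ^ (2 * (R * D - n) + 2)) ^ (R * m)) * (H ^ C₀) ^ (D + J + 1)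
    with hBd
  have hrowdeg : ∀ j ≤ J, ∀ a, (row T' B P j a).natDegree ≤ DD := by
    intro j hj a
    refine (natDegree_row hT'τ hBτ hPD j a).trans ?_
    have : τ * j ≤ τ * J := Nat.mul_le_mul_left _ hj
    omega
  have hrowsize : ∀ j ≤ J, ∀ a i, |(row T' B P j a).coeff i| ≤ (Bd : ℚ) := by
    intro j hj a i
    have h2 := hC₀ H hH T' B hT'τ hBτ (by
      intro i
      rw [hT', Polynomial.coeff_map]
      have := hTH i
      simpa using (by exact_mod_cast this : |((T.coeff i : ℤ) : ℚ)| ≤ H)) hBH D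
      (((R * (D + 1) * H ^ (2 * (R * D - n) + 2)) ^ (R * m) : ℕ) : ℚ) P hPD (by
      intro a i
      rw [hP]
      simp only [Polynomial.coeff_map]
      have := hpH a i
      have h5 : (|((p a).coeff i : ℤ)| : ℚ) ≤
          (((R * (D + 1) * H ^ (2 * (R * D - n) + 2)) ^ (R * m) : ℕ) : ℚ) := by
        exact_mod_cast this
      simpa using h5) j a i
    refine h2.trans ?_
    rw [hBd, Nat.cast_mul]
    refine mul_le_mul_of_nonneg_left ?_ (Nat.cast_nonneg _)
    rw [← Nat.cast_pow]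
    exact_mod_cast Nat.pow_le_pow_right (pow_pos (by omega : 0 < H) C₀) (by omega)
  -- entries of `V`
  have hVent : ∀ i ≠ i₁, ∀ a, |((V i a : ℚ) : ℝ)| ≤ (DD + 1) * Bd * (s : ℝ) ^ DD := by
    intro i hi a
    obtain ⟨j, hj⟩ := hVj i hi
    rw [hj]
    have h2 := abs_eval_le (hrowdeg j j.2.le a) (M := (Bd : ℝ)) (Nat.cast_nonneg _) (by
      intro k
      have := hrowsize j j.2.le a k
      exact_mod_cast this) hs1
    have h3 : ((((row T' B P (j : ℕ) a).eval (s : ℚ)) : ℚ) : ℝ) =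
        ((row T' B P (j : ℕ) a).map (algebraMap ℚ ℝ)).eval (s : ℝ) := by
      rw [Polynomial.eval_map, Polynomial.eval₂_at_natCast]
      simp
    rw [h3]
    exact h2
  -- small forms
  have hsmall : ∀ i ≠ i₁, |∑ a, ((V i a : ℚ) : ℝ) * pev (e a) s| ≤
      2 * R * (DD + 1) * Bd * (H : ℝ) ^ (DD + N + 1) / (s : ℝ) ^ N := by
    intro i hi
    obtain ⟨j, hj⟩ := hVj i hi
    have hO := ordGE_row hsol hT'τ P hpO (j : ℕ)
    have hO' : OrdGE (N : ℤ) (∑ a, emb (row T' B P (j : ℕ) a) * ps (e a)) := by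
      refine ordGE_mono ?_ hO
      have h2 : ((R * D - n : ℕ) : ℤ) = (R : ℤ) * D - n := by
        push_cast [Nat.cast_sub hRD]; ring
      rw [h2]
      have h3 : ((N + τ * J + n + D : ℕ) : ℤ) = ((R * D : ℕ) : ℤ) := by exact_mod_cast hN
      have h4 : ((τ * (j : ℕ) : ℕ) : ℤ) ≤ ((τ * J : ℕ) : ℤ) := by
        exact_mod_cast Nat.mul_le_mul_left _ j.2.le
      push_cast at h3 h4 ⊢
      linarith
    have h2 := form_small hH (fun a => row T' B P (j : ℕ) a) (hrowdeg j j.2.le)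
      (M := (Bd : ℚ)) (hrowsize j j.2.le) e hb hO' hs2
    have h3 : ∑ a, ((V i a : ℚ) : ℝ) * pev (e a) s =
        ∑ a, ((row T' B P (j : ℕ) a).map (algebraMap ℚ ℝ)).eval (s : ℝ) * pev (e a) s := by
      refine Finset.sum_congr rfl fun a _ => ?_
      rw [hj, Polynomial.eval_map, Polynomial.eval₂_at_natCast]
      simp
    rw [h3]
    refine h2.trans (le_of_eq ?_)
    push_cast
    ring
  -- integrality
  have hint : ∀ i a, ∃ z : ℤ, (q : ℚ) * V i a = z := by
    intro i a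
    by_cases hi : i = i₁
    · subst hi
      rw [hVi]
      exact ⟨q * A a, by push_cast; ring⟩
    · obtain ⟨j, hj⟩ := hVj i hi
      rw [hj]
      have h2 := hqr j j.2.le a
      choose z hz using h2
      refine ⟨∑ k ∈ Finset.range ((row T' B P (j : ℕ) a).natDegree + 1), z k * (s : ℤ) ^ k, ?_⟩
      show (q : ℚ) * (row T' B P (j : ℕ) a).eval (s : ℚ) = _
      rw [Polynomial.eval_eq_sum_range, Finset.mul_sum]
      push_cast
      refine Finset.sum_congr rfl fun k _ => ?_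
      rw [← mul_assoc, hz]
  have hone := one_le_det V hV0 hq0 hint
  -- Cramer
  have hcr := cramer_row (V.map (algebraMap ℚ ℝ)) (fun a => pev (e a) s) i₀
  have hdetmap : (V.map (algebraMap ℚ ℝ)).det = ((V.det : ℚ) : ℝ) := by
    rw [← RingHom.mapMatrix_apply, ← RingHom.map_det]; rfl
  rw [hdetmap] at hcr
  have hbound : |((V.det : ℚ) : ℝ) * pev (e i₀) s| ≤
      R * ((R.factorial * (a0 * ((DD + 1) * Bd * (s : ℝ) ^ DD) ^ (R - 2))) *
        (2 * R * (DD + 1) * Bd * (H : ℝ) ^ (DD + N + 1) / (s : ℝ) ^ N)) := by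
    rw [hcr]
    refine (Finset.abs_sum_le_sum_abs _ _).trans ?_
    have h2 : ∀ j ∈ (Finset.univ : Finset (Fin R)),
        |(V.map (algebraMap ℚ ℝ)).adjugate i₀ j *
          ∑ a, (V.map (algebraMap ℚ ℝ)) j a * pev (e a) s| ≤
        (R.factorial * (a0 * ((DD + 1) * Bd * (s : ℝ) ^ DD) ^ (R - 2))) *
        (2 * R * (DD + 1) * Bd * (H : ℝ) ^ (DD + N + 1) / (s : ℝ) ^ N) := by
      intro j _
      by_cases hj : j = i₁
      · subst hj
        have h3 : ∑ a, (V.map (algebraMap ℚ ℝ)) j a * pev (e a) s = 0 := by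
          rw [← hA]
          refine Finset.sum_congr rfl fun a _ => ?_
          rw [Matrix.map_apply, hVi]
          simp
        rw [h3, mul_zero, abs_zero]
        positivity
      · rw [abs_mul]
        refine mul_le_mul ?_ ?_ (abs_nonneg _) (by positivity)
        · refine det_updateRow_le _ hj (fun a => ?_) (fun i hi a => ?_)
          · rw [Matrix.map_apply, hVi]
            simpa using hAa a
          · rw [Matrix.map_apply]
            exact hVent i hi a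
        · exact hsmall j hj
    refine (Finset.sum_le_sum h2).trans (le_of_eq ?_)
    rw [Finset.sum_const, Finset.card_univ, Fintype.card_fin, nsmul_eq_mul]
  have hhalf := pev_ge_half hH (hb i₀) h1 hs4
  rw [abs_mul] at hbound
  have hsN : (0 : ℝ) < (s : ℝ) ^ N := by positivity
  have h5 : (s : ℝ) ^ N ≤ 4 * (R : ℝ) ^ 2 * R.factorial * a0 * (q : ℝ) ^ R * (DD + 1 : ℝ) ^ (R - 1) *
      (Bd : ℝ) ^ (R - 1) * (H : ℝ) ^ (DD + N + 1) * (s : ℝ) ^ ((R - 2) * DD) := by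
    have hpe : |pev (e i₀) s| ≥ 1 / 2 := hhalf.trans (le_abs_self _)
    have h6 : 1 / 2 ≤ (q : ℝ) ^ R * (|((V.det : ℚ) : ℝ)| * |pev (e i₀) s|) := by
      calc (1 : ℝ) / 2 = 1 * (1 / 2) := by ring
        _ ≤ ((q : ℝ) ^ R * |((V.det : ℚ) : ℝ)|) * |pev (e i₀) s| :=
            mul_le_mul hone hpe (by norm_num) (by positivity)
        _ = _ := by ring
    have h7 : 1 / 2 ≤ (q : ℝ) ^ R * (R * ((R.factorial * (a0 * ((DD + 1) * Bd * (s : ℝ) ^ DD) ^ (R - 2))) *
        (2 * R * (DD + 1) * Bd * (H : ℝ) ^ (DD + N + 1) / (s : ℝ) ^ N))) :=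
      h6.trans (mul_le_mul_of_nonneg_left hbound (by positivity))
    have h8 : (q : ℝ) ^ R * (R * ((R.factorial * (a0 * ((DD + 1) * Bd * (s : ℝ) ^ DD) ^ (R - 2))) *
        (2 * R * (DD + 1) * Bd * (H : ℝ) ^ (DD + N + 1) / (s : ℝ) ^ N))) =
        (2 * (R : ℝ) ^ 2 * R.factorial * a0 * (q : ℝ) ^ R * (DD + 1 : ℝ) ^ (R - 1) *
      (Bd : ℝ) ^ (R - 1) * (H : ℝ) ^ (DD + N + 1) * (s : ℝ) ^ ((R - 2) * DD)) / (s : ℝ) ^ N := by
      obtain ⟨r, hr⟩ : ∃ r, R = r + 2 := ⟨R - 2, by omega⟩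
      have e1 : R - 1 = r + 1 := by omega
      have e2 : R - 2 = r := by omega
      rw [e1, e2, mul_pow, mul_pow, ← pow_mul, mul_comm DD r]
      field_simp
      ring
    rw [h8, le_div_iff₀ hsN] at h7
    linarith
  have h9 : ((4 * R ^ 2 * R.factorial * a0 * q ^ R * (D + τ * J + 1) ^ (R - 1) *
        (((R * (D + 1) * H ^ (2 * (R * D - n) + 2)) ^ (R * m)) *
          (H ^ C₀) ^ (D + J + 1)) ^ (R - 1) * H ^ (D + τ * J + N + 1) *
        s ^ ((R - 2) * (D + τ * J)) : ℕ) : ℝ) < ((s ^ N : ℕ) : ℝ) := by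
    exact_mod_cast hfin
  push_cast at h9
  rw [hBd] at h5
  push_cast at h5
  rw [hDD] at h5
  push_cast at h5
  exact absurd h5 (not_le.mpr h9)

end Pool.Agent.Helper37.GP
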