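import Pool.Agent.Helper37.GP.Defs

/-!
# Auxiliary lemmas for the core theorem
-/

open Polynomial

namespace Pool.Agent.Helper37.GP

theorem natDegree_det_le {R : ℕ} (M : Matrix (Fin R) (Fin R) ℚ[X]) (b : Fin R → ℕ)
    (h : ∀ i j, (M i j).natDegree ≤ b i) : M.det.natDegree ≤ ∑ i, b i := by
  rw [← Matrix.det_transpose, Matrix.det_apply]
  refine natDegree_sum_le_of_forall_le _ _ fun σ _ => ?_
  refine (natDegree_smul_le _ _).trans ?_
  refine (natDegree_prod_le _ _).trans ?_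
  refine (Finset.sum_le_sum fun i _ => ?_)
  exact h i (σ i)

theorem abs_det_le {R : ℕ} (V : Matrix (Fin R) (Fin R) ℝ) (b : Fin R → ℝ)
    (h : ∀ i j, |V i j| ≤ b i) : |V.det| ≤ R.factorial * ∏ i, b i := by
  rw [← Matrix.det_transpose, Matrix.det_apply]
  refine (Finset.abs_sum_le_sum_abs _ _).trans ?_
  have : ∀ σ ∈ (Finset.univ : Finset (Equiv.Perm (Fin R))),
      |Equiv.Perm.sign σ • ∏ i, V.transpose (σ i) i| ≤ ∏ i, b i := by
    intro σ _
    have h1 : |Equiv.Perm.sign σ • ∏ i, V.transpose (σ i) i| = ∏ i, |V i (σ i)| := by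
      rcases Int.units_eq_one_or (Equiv.Perm.sign σ) with h | h <;> rw [h] <;>
        simp [Finset.abs_prod, Matrix.transpose_apply]
    rw [h1]
    exact Finset.prod_le_prod (fun i _ => abs_nonneg _) fun i _ => h i (σ i)
  refine (Finset.sum_le_sum this).trans ?_
  rw [Finset.sum_const, Finset.card_univ, Fintype.card_perm, Fintype.card_fin, nsmul_eq_mul]

/-- Cramer's rule: `det V * x_i = ∑ adj_ij (V x)_j`. -/
theorem cramer_row {R : ℕ} {K : Type} [CommRing K] (V : Matrix (Fin R) (Fin R) K)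
    (x : Fin R → K) (i : Fin R) :
    V.det * x i = ∑ j, V.adjugate i j * ∑ a, V j a * x a := by
  have h := congrFun (congrArg (fun M => Matrix.mulVec M x) (Matrix.adjugate_mul V)) i
  simp only [← Matrix.mulVec_mulVec] at h
  rw [Matrix.smul_mulVec, Matrix.one_mulVec, Pi.smul_apply, smul_eq_mul] at h
  rw [← h]
  rfl

/-- An integer polynomial with coefficients bounded by `H` does not vanish at `s > H + 1`. -/
theorem eval_ne_zero {T : ℤ[X]} (hT : T ≠ 0) {H : ℕ} (hH : ∀ i, |T.coeff i| ≤ H) {s : ℕ}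
    (hs : H + 2 ≤ s) : (T.map (Int.castRingHom ℚ)).eval (s : ℚ) ≠ 0 := by
  intro h0
  have h1 : T.eval (s : ℤ) = 0 := by
    have : (T.map (Int.castRingHom ℚ)).eval (s : ℚ) = ((T.eval (s : ℤ) : ℤ) : ℚ) := by
      rw [show (s : ℚ) = (Int.castRingHom ℚ) (s : ℤ) by simp, Polynomial.eval_map_apply]
      simp
    rw [this] at h0
    exact_mod_cast h0
  set t := T.natDegree
  have hlead : T.coeff t ≠ 0 := by
    rw [Polynomial.coeff_natDegree]; exact leadingCoeff_ne_zero.mpr hT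
  rw [Polynomial.eval_eq_sum_range, Finset.sum_range_succ] at h1
  have h2 : T.coeff t * (s : ℤ) ^ t = - ∑ i ∈ Finset.range t, T.coeff i * (s : ℤ) ^ i := by
    linarith
  have h3 : (s : ℤ) ^ t ≤ |T.coeff t * (s : ℤ) ^ t| := by
    rw [abs_mul]
    have : 1 ≤ |T.coeff t| := Int.one_le_abs hlead
    have hp : |(s : ℤ) ^ t| = (s : ℤ) ^ t := abs_of_nonneg (by positivity)
    rw [hp]
    nlinarith [show (0 : ℤ) ≤ (s : ℤ) ^ t by positivity]
  have h4 : |∑ i ∈ Finset.range t, T.coeff i * (s : ℤ) ^ i| ≤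
      H * ∑ i ∈ Finset.range t, (s : ℤ) ^ i := by
    refine (Finset.abs_sum_le_sum_abs _ _).trans ?_
    rw [Finset.mul_sum]
    refine Finset.sum_le_sum fun i _ => ?_
    rw [abs_mul]
    have hp : |(s : ℤ) ^ i| = (s : ℤ) ^ i := abs_of_nonneg (by positivity)
    rw [hp]
    exact mul_le_mul_of_nonneg_right (hH i) (by positivity)
  have h5 : (∑ i ∈ Finset.range t, (s : ℤ) ^ i) * ((s : ℤ) - 1) = (s : ℤ) ^ t - 1 :=
    geom_sum_mul _ _
  have h6 : 0 ≤ ∑ i ∈ Finset.range t, (s : ℤ) ^ i := Finset.sum_nonneg fun i _ => by positivity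
  rw [h2, abs_neg] at h3
  have h7 : (H : ℤ) + 1 ≤ (s : ℤ) - 1 := by push_cast [← Int.ofNat_le] at hs ⊢; omega
  nlinarith

/-- A vector can be completed to a basis using elements of a spanning family. -/
theorem exists_completion {R : ℕ} {α : Type} (v : α → Fin R → ℚ) (A : Fin R → ℚ) (hA : A ≠ 0)
    (h : ∀ c : Fin R → ℚ, c ≠ 0 → ∃ j, ∑ a, v j a * c a ≠ 0) :
    ∃ (V : Matrix (Fin R) (Fin R) ℚ) (i₁ : Fin R), V.det ≠ 0 ∧ V i₁ = A ∧
      ∀ i ≠ i₁, ∃ j, V i = v j := by
  classical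
  have hspan : Submodule.span ℚ (Set.range v) = ⊤ := by
    by_contra hne
    obtain ⟨f, hf0, hf⟩ := Submodule.exists_dual_map_eq_bot_of_lt_top
      (lt_top_iff_ne_top.mpr hne) inferInstance
    have hfc : ∀ x, f x = ∑ a, x a * f (Pi.single a 1) := by
      intro x
      conv_lhs => rw [← Finset.univ_sum_single x, map_sum]
      refine Finset.sum_congr rfl fun a _ => ?_
      rw [show (Pi.single a (x a) : Fin R → ℚ) = x a • Pi.single a 1 by
        rw [← Pi.single_smul]; simp, map_smul, smul_eq_mul]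
    have hc : (fun a => f (Pi.single a 1)) ≠ 0 := by
      intro h0
      apply hf0
      ext x
      simpa using congrFun h0 x
    obtain ⟨j, hj⟩ := h _ hc
    apply hj
    rw [← hfc]
    have : f (v j) ∈ (Submodule.span ℚ (Set.range v)).map f :=
      Submodule.mem_map_of_mem (Submodule.subset_span (Set.mem_range_self j))
    rw [hf, Submodule.mem_bot] at this
    exact this
  have hs : LinearIndepOn ℚ id ({A} : Set (Fin R → ℚ)) := by
    rw [linearIndepOn_singleton_iff]; exact hA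
  obtain ⟨b, hbt, hsb, htb, hb⟩ := exists_linearIndepOn_id_extension hs
    (Set.singleton_subset_iff.mpr (Set.mem_insert A (Set.range v)))
  have hb_span : Submodule.span ℚ b = ⊤ := by
    rw [eq_top_iff, ← hspan]
    exact Submodule.span_le.mpr ((Set.subset_insert _ _).trans htb)
  let B : Module.Basis b ℚ (Fin R → ℚ) := Module.Basis.mk (v := fun x : b => (x : Fin R → ℚ)) hb (by
    rw [Subtype.range_coe_subtype, Set.ofPred_mem_eq, hb_span])
  have : Finite b := Module.Finite.finite_basis B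
  let _ := Fintype.ofFinite b
  have hcard : Fintype.card b = R := by
    rw [← Module.finrank_eq_card_basis B]; simp
  let e : Fin R ≃ b := (Fintype.equivFinOfCardEq hcard).symm
  have hAb : A ∈ b := hsb rfl
  refine ⟨Matrix.of fun i => (e i : Fin R → ℚ), e.symm ⟨A, hAb⟩, ?_, ?_, ?_⟩
  · have hli : LinearIndependent ℚ (fun i : Fin R => ((e i : b) : Fin R → ℚ)) :=
      hb.comp (fun i => e i) e.injective
    have : LinearIndependent ℚ (Matrix.row (Matrix.of fun i => (e i : Fin R → ℚ))) := hli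
    rw [Matrix.linearIndependent_rows_iff_isUnit, Matrix.isUnit_iff_isUnit_det] at this
    exact this.ne_zero
  · ext a
    simp
  · intro i hi
    have hmem : (e i : Fin R → ℚ) ∈ insert A (Set.range v) := hbt (e i).2
    rcases hmem with h1 | ⟨j, hj⟩
    · exfalso
      apply hi
      rw [← e.symm_apply_apply i]
      congr 1
      exact Subtype.ext h1
    · exact ⟨j, by ext a; simp [← hj]⟩

theorem pev_summable {H : ℕ} (hH : 2 ≤ H) {f : PowerSeries ℚ} (hf : GBound H f) {s : ℝ}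
    (hs : (2 : ℝ) * H ≤ s) :
    Summable fun n : ℕ => ((PowerSeries.coeff n f : ℚ) : ℝ) * (1 / s) ^ n := by
  have hH0 : (0 : ℝ) < H := by positivity
  have hs0 : 0 < s := by linarith
  refine Summable.of_norm_bounded (g := fun n => (H : ℝ) * (H / s) ^ n) ?_ fun n => ?_
  · refine (summable_geometric_of_lt_one (by positivity) ?_).mul_left _
    rw [div_lt_one hs0]; linarith
  · rw [Real.norm_eq_abs, abs_mul, abs_of_nonneg (by positivity : (0 : ℝ) ≤ (1 / s) ^ n)]
    have h1 : |((PowerSeries.coeff n f : ℚ) : ℝ)| ≤ (H : ℝ) ^ (n + 1) := by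
      exact_mod_cast hf n
    calc |((PowerSeries.coeff n f : ℚ) : ℝ)| * (1 / s) ^ n ≤ (H : ℝ) ^ (n + 1) * (1 / s) ^ n :=
          mul_le_mul_of_nonneg_right h1 (by positivity)
      _ = H * (H / s) ^ n := by rw [div_pow, div_pow, one_pow]; ring

theorem pev_ge_half {H : ℕ} (hH : 2 ≤ H) {f : PowerSeries ℚ} (hf : GBound H f)
    (h0 : PowerSeries.constantCoeff f = 1) {s : ℝ} (hs : (4 : ℝ) * H ^ 2 ≤ s) :
    1 / 2 ≤ pev f s := by
  have hH2 : (2 : ℝ) ≤ H := by exact_mod_cast hH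
  have hH0 : (0 : ℝ) < H := by linarith
  have hs2 : (2 : ℝ) * H ≤ s := by nlinarith
  have hs0 : 0 < s := by linarith
  have hsum := pev_summable hH hf hs2
  have hr : (H : ℝ) / s ≤ 1 / 8 := by
    rw [div_le_iff₀ hs0]; nlinarith
  unfold pev
  rw [hsum.tsum_eq_zero_add]
  have h1 : ((PowerSeries.coeff 0 f : ℚ) : ℝ) * (1 / s) ^ 0 = 1 := by
    simp [h0]
  rw [h1]
  have h2 : |∑' n : ℕ, ((PowerSeries.coeff (n + 1) f : ℚ) : ℝ) * (1 / s) ^ (n + 1)| ≤
      (H : ℝ) * (H / s) * (1 - H / s)⁻¹ := by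
    have hg : HasSum (fun n : ℕ => (H : ℝ) * (H / s) * (H / s) ^ n)
        ((H : ℝ) * (H / s) * (1 - H / s)⁻¹) :=
      (hasSum_geometric_of_lt_one (by positivity) (by linarith)).mul_left _
    rw [← Real.norm_eq_abs]
    refine tsum_of_norm_bounded hg fun n => ?_
    rw [Real.norm_eq_abs, abs_mul, abs_of_nonneg (by positivity : (0 : ℝ) ≤ (1 / s) ^ (n + 1))]
    have h1 : |((PowerSeries.coeff (n + 1) f : ℚ) : ℝ)| ≤ (H : ℝ) ^ (n + 1 + 1) := by
      exact_mod_cast hf (n + 1)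
    calc |((PowerSeries.coeff (n + 1) f : ℚ) : ℝ)| * (1 / s) ^ (n + 1)
        ≤ (H : ℝ) ^ (n + 1 + 1) * (1 / s) ^ (n + 1) :=
          mul_le_mul_of_nonneg_right h1 (by positivity)
      _ = (H : ℝ) * (H / s) * (H / s) ^ n := by
          rw [div_pow, div_pow, one_pow]; field_simp; ring
  have h3 : (H : ℝ) * (H / s) * (1 - H / s)⁻¹ ≤ 1 / 2 := by
    have h4 : (H : ℝ) * (H / s) ≤ 1 / 4 := by
      rw [mul_div_assoc', div_le_iff₀ hs0]; nlinarith
    have h5 : (1 - H / s)⁻¹ ≤ 2 := by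
      rw [inv_le_comm₀ (by linarith) (by norm_num)]; linarith
    have h6 : (0 : ℝ) ≤ (1 - H / s)⁻¹ := by
      rw [inv_nonneg]; linarith
    calc (H : ℝ) * (H / s) * (1 - H / s)⁻¹ ≤ 1 / 4 * 2 :=
          mul_le_mul h4 h5 h6 (by norm_num)
      _ = 1 / 2 := by norm_num
  have h7 := (abs_le.mp (h2.trans h3)).1
  linarith

end Pool.Agent.Helper37.GP
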