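import Pool.Agent.Helper37.GP.Defs

/-!
# GP-23: counting
-/

namespace Pool.Agent.Helper37.GP

namespace Count

/-- a finite set of naturals with more than `N` elements contains a strictly increasing
sequence of `N + 1` elements -/
lemma exists_strictMono {S : Finset ℕ} {N : ℕ} (h : N < S.card) :
    ∃ k : Fin (N + 1) → ℕ, StrictMono k ∧ ∀ j, k j ∈ S := by
  obtain ⟨S', hS', hc⟩ := Finset.exists_subset_card_eq (show N + 1 ≤ S.card from h)
  exact ⟨S'.orderEmbOfFin hc, (S'.orderEmbOfFin hc).strictMono,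
    fun j => hS' (S'.orderEmbOfFin_mem hc j)⟩

/-- the double counting -/
lemma count_main {E : Set ℕ} {N C₁ C₂ : ℕ}
    (h : ∀ (K a s : ℕ) (k : Fin (N + 1) → ℕ), 1 ≤ K → StrictMono k →
      (∀ j, K ≤ k j ∧ k j < 2 * K) → C₁ * K ≤ a → a ≤ (C₁ + 2) * K → (K + 1) ^ C₂ ≤ s →
      ∃ j, a + k j * s ∉ E) (K T : ℕ) (hK : 1 ≤ K) :
    Set.ncard {n : ℕ | 1 ≤ n ∧ n ≤ T ∧ n ∈ E} ≤
      ((C₁ + 2) * K + 2 * K * (K + 1) ^ C₂) + 2 * N * (T / K + 1) := by
  classical
  set n₀ := (C₁ + 2) * K + 2 * K * (K + 1) ^ C₂ with hn₀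
  set S₂ : Finset ℕ := (Finset.Icc n₀ T).filter (fun n => n ∈ E) with hS₂
  have h1 : {n : ℕ | 1 ≤ n ∧ n ≤ T ∧ n ∈ E} ⊆ ((Finset.range n₀ ∪ S₂ : Finset ℕ) : Set ℕ) := by
    rintro n ⟨-, hn2, hn3⟩
    rcases lt_or_ge n n₀ with h2 | h2
    · simp [h2]
    · simp [hS₂, h2, hn2, hn3]
  refine (Set.ncard_le_ncard h1 (Finset.finite_toSet _)).trans ?_
  rw [Set.ncard_coe_finset]
  refine (Finset.card_union_le _ _).trans ?_
  rw [Finset.card_range]
  apply Nat.add_le_add_left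
  -- the double count
  set P : Finset (ℕ × ℕ) := S₂ ×ˢ Finset.Ico K (2 * K) with hP
  set Q : Finset (ℕ × ℕ) := Finset.range (2 * K) ×ˢ Finset.range (T / K + 1) with hQ
  set f : ℕ × ℕ → ℕ × ℕ := fun p => ((p.1 - C₁ * K) % p.2, (p.1 - C₁ * K) / p.2) with hf
  have hmap : ∀ p ∈ P, f p ∈ Q := by
    rintro ⟨n, k⟩ hp
    simp only [hP, hS₂, Finset.mem_product, Finset.mem_filter, Finset.mem_Icc,
      Finset.mem_Ico] at hp
    obtain ⟨⟨⟨h2, h3⟩, -⟩, h4, h5⟩ := hp
    simp only [hf, hQ, Finset.mem_product, Finset.mem_range]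
    refine ⟨(Nat.mod_lt _ (by omega)).trans h5, ?_⟩
    rw [Nat.lt_succ_iff]
    calc (n - C₁ * K) / k ≤ T / k := Nat.div_le_div_right (by omega)
      _ ≤ T / K := Nat.div_le_div_left h4 (by omega)
  have hfib : ∀ q ∈ Q, (P.filter fun p => f p = q).card ≤ N := by
    rintro ⟨r, s⟩ -
    by_contra hcon
    push Not at hcon
    -- the elements of the fibre
    have key : ∀ p ∈ P.filter (fun p => f p = (r, s)), p.1 = C₁ * K + r + p.2 * s ∧
        K ≤ p.2 ∧ p.2 < 2 * K ∧ p.1 ∈ E ∧ r < 2 * K ∧ (K + 1) ^ C₂ ≤ s := by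
      rintro ⟨n, k⟩ hp
      simp only [hP, hS₂, Finset.mem_product, Finset.mem_filter, Finset.mem_Icc,
        Finset.mem_Ico, hf, Prod.mk.injEq] at hp
      obtain ⟨⟨⟨⟨h2, h3⟩, h4⟩, h5, h6⟩, h7, h8⟩ := hp
      have h9 : n - C₁ * K = k * s + r := by
        rw [← h7, ← h8]
        exact (Nat.div_add_mod _ _).symm
      have h10 : C₁ * K ≤ n := by
        refine le_trans ?_ h2
        rw [hn₀]
        exact (Nat.mul_le_mul_right K (Nat.le_add_right C₁ 2)).trans (Nat.le_add_right _ _)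
      have h11 : n = C₁ * K + r + k * s := by omega
      have h12 : r < 2 * K := by
        rw [← h7]
        exact (Nat.mod_lt _ (by omega)).trans h6
      refine ⟨h11, h5, h6, h4, h12, ?_⟩
      by_contra h13
      push Not at h13
      have h14 : k * s ≤ 2 * K * s := Nat.mul_le_mul_right _ h6.le
      have h15 : 2 * K * s ≤ 2 * K * (K + 1) ^ C₂ := Nat.mul_le_mul_left _ h13.le
      have h16 : 2 * K * s + 2 * K ≤ 2 * K * (K + 1) ^ C₂ := by
        calc 2 * K * s + 2 * K = 2 * K * (s + 1) := by ring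
          _ ≤ 2 * K * (K + 1) ^ C₂ := Nat.mul_le_mul_left _ h13
      have h17 : (C₁ + 2) * K + 2 * K * (K + 1) ^ C₂ ≤ C₁ * K + r + k * s := by
        rw [← h11]
        exact h2
      nlinarith
    have hinj : Set.InjOn (fun p : ℕ × ℕ => p.2) (P.filter fun p => f p = (r, s) : Finset (ℕ × ℕ)) := by
      intro p hp q hq hpq
      have h2 := (key p hp).1
      have h3 := (key q hq).1
      simp only at hpq
      ext
      · rw [h2, h3, hpq]
      · exact hpq
    have h2 : N < ((P.filter fun p => f p = (r, s)).image fun p => p.2).card := by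
      rw [Finset.card_image_of_injOn hinj]
      exact hcon
    obtain ⟨k, hk1, hk2⟩ := exists_strictMono h2
    have hk3 : ∀ j, K ≤ k j ∧ k j < 2 * K ∧ C₁ * K + r + k j * s ∈ E ∧ r < 2 * K ∧
        (K + 1) ^ C₂ ≤ s := by
      intro j
      obtain ⟨p, hp, hp2⟩ := Finset.mem_image.1 (hk2 j)
      obtain ⟨h4, h5, h6, h7, h8, h9⟩ := key p hp
      rw [← hp2]
      exact ⟨h5, h6, h4 ▸ h7, h8, h9⟩
    obtain ⟨j, hj⟩ := h K (C₁ * K + r) s k hK hk1 (fun j => ⟨(hk3 j).1, (hk3 j).2.1⟩)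
      (Nat.le_add_right _ _) (by nlinarith [(hk3 0).2.2.2.1]) (hk3 0).2.2.2.2
    exact hj (hk3 j).2.2.1
  have h2 := Finset.card_le_mul_card_image_of_maps_to hmap N hfib
  have h3 : P.card = S₂.card * K := by
    rw [hP, Finset.card_product, Nat.card_Ico]
    congr 1
    omega
  have h4 : Q.card = 2 * K * (T / K + 1) := by
    rw [hQ, Finset.card_product, Finset.card_range, Finset.card_range]
  rw [h3, h4] at h2
  have h5 : S₂.card * K ≤ (2 * N * (T / K + 1)) * K := by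
    calc S₂.card * K ≤ N * (2 * K * (T / K + 1)) := h2
      _ = (2 * N * (T / K + 1)) * K := by ring
  exact Nat.le_of_mul_le_mul_right h5 hK

end Count

open Pool.Agent.Helper37.GP.Count

theorem counting {E : Set ℕ} {N C₁ C₂ : ℕ}
    (h : ∀ (K a s : ℕ) (k : Fin (N + 1) → ℕ), 1 ≤ K → StrictMono k →
      (∀ j, K ≤ k j ∧ k j < 2 * K) → C₁ * K ≤ a → a ≤ (C₁ + 2) * K → (K + 1) ^ C₂ ≤ s →
      ∃ j, a + k j * s ∉ E) :
    ∃ (κ : ℝ) (C : ℝ), 0 < κ ∧ ∀ T : ℕ, 1 ≤ T →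
      (Set.ncard {n : ℕ | 1 ≤ n ∧ n ≤ T ∧ n ∈ E} : ℝ) ≤ C * (T : ℝ) ^ (1 - κ) := by
  set θ : ℝ := 1 / (2 * ((C₂ : ℝ) + 2)) with hθ
  have hθ0 : 0 < θ := by rw [hθ]; positivity
  have hθ1 : θ ≤ 1 / 4 := by
    rw [hθ]
    apply one_div_le_one_div_of_le (by norm_num)
    have : (0 : ℝ) ≤ C₂ := Nat.cast_nonneg _
    linarith
  refine ⟨θ, ((C₁ : ℝ) + 4) * 2 ^ (C₂ + 1) + 2 * N * (2 + 1), hθ0, fun T hT => ?_⟩
  have hT1 : (1 : ℝ) ≤ T := by exact_mod_cast hT
  have hT0 : (0 : ℝ) < T := by linarith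
  set x : ℝ := (T : ℝ) ^ θ with hx
  have hx1 : 1 ≤ x := Real.one_le_rpow hT1 hθ0.le
  set K : ℕ := ⌊x⌋₊ with hK
  have hK1 : 1 ≤ K := by
    rw [hK, Nat.one_le_floor_iff]
    exact hx1
  have hKx : (K : ℝ) ≤ x := Nat.floor_le (by linarith)
  have hKx2 : x < (K : ℝ) + 1 := Nat.lt_floor_add_one x
  have hK1' : (1 : ℝ) ≤ K := by exact_mod_cast hK1
  have hKx3 : x ≤ 2 * K := by linarith
  have h1 := count_main h K T hK1
  have h2 : (Set.ncard {n : ℕ | 1 ≤ n ∧ n ≤ T ∧ n ∈ E} : ℝ) ≤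
      (((C₁ : ℝ) + 2) * K + 2 * K * ((K : ℝ) + 1) ^ C₂) + 2 * N * ((T / K : ℕ) + 1) := by
    exact_mod_cast h1
  have h3 : ((T / K : ℕ) : ℝ) ≤ (T : ℝ) / K := Nat.cast_div_le
  have hpow : (1 : ℝ) ≤ (T : ℝ) ^ (1 - θ) := Real.one_le_rpow hT1 (by linarith)
  -- `T / K ≤ 2 T ^ (1 - θ)`
  have h4 : (T : ℝ) / K ≤ 2 * (T : ℝ) ^ (1 - θ) := by
    rw [div_le_iff₀ (by linarith), Real.rpow_sub hT0, Real.rpow_one, ← hx]
    have hx0 : 0 < x := by linarith
    rw [mul_assoc, div_mul_eq_mul_div, mul_div_assoc', le_div_iff₀ hx0]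
    nlinarith
  -- `n₀` is small
  have h5 : ((C₁ : ℝ) + 2) * K + 2 * K * ((K : ℝ) + 1) ^ C₂ ≤
      ((C₁ : ℝ) + 4) * 2 ^ (C₂ + 1) * (T : ℝ) ^ (1 - θ) := by
    have h6 : (K : ℝ) + 1 ≤ 2 * x := by linarith
    have h7 : ((K : ℝ) + 1) ^ (C₂ + 1) ≤ 2 ^ (C₂ + 1) * (T : ℝ) ^ (1 - θ) := by
      calc ((K : ℝ) + 1) ^ (C₂ + 1) ≤ (2 * x) ^ (C₂ + 1) := by gcongr
        _ = 2 ^ (C₂ + 1) * x ^ (C₂ + 1) := by rw [mul_pow]
        _ ≤ 2 ^ (C₂ + 1) * (T : ℝ) ^ (1 - θ) := by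
            gcongr
            rw [hx, ← Real.rpow_natCast, ← Real.rpow_mul hT0.le]
            apply Real.rpow_le_rpow_of_exponent_le hT1
            push_cast
            have h8 : θ * ((C₂ : ℝ) + 1) ≤ 1 / 2 := by
              have h9 : θ * (2 * ((C₂ : ℝ) + 2)) = 1 := by
                rw [hθ]
                have : (2 * ((C₂ : ℝ) + 2)) ≠ 0 := by positivity
                field_simp
              nlinarith
            linarith
    have h8 : (K : ℝ) ≤ ((K : ℝ) + 1) ^ (C₂ + 1) := by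
      calc (K : ℝ) ≤ (K : ℝ) + 1 := by linarith
        _ = ((K : ℝ) + 1) ^ 1 := by rw [pow_one]
        _ ≤ ((K : ℝ) + 1) ^ (C₂ + 1) := pow_le_pow_right₀ (by linarith) (by omega)
    have h9 : 2 * (K : ℝ) * ((K : ℝ) + 1) ^ C₂ ≤ 2 * ((K : ℝ) + 1) ^ (C₂ + 1) := by
      rw [pow_succ]
      have h10 : (0 : ℝ) ≤ ((K : ℝ) + 1) ^ C₂ := by positivity
      nlinarith
    have hC1 : (0 : ℝ) ≤ C₁ := Nat.cast_nonneg _
    calc ((C₁ : ℝ) + 2) * K + 2 * K * ((K : ℝ) + 1) ^ C₂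
        ≤ ((C₁ : ℝ) + 2) * ((K : ℝ) + 1) ^ (C₂ + 1) + 2 * ((K : ℝ) + 1) ^ (C₂ + 1) := by
          apply add_le_add _ h9
          exact mul_le_mul_of_nonneg_left h8 (by linarith)
      _ = ((C₁ : ℝ) + 4) * ((K : ℝ) + 1) ^ (C₂ + 1) := by ring
      _ ≤ ((C₁ : ℝ) + 4) * (2 ^ (C₂ + 1) * (T : ℝ) ^ (1 - θ)) :=
          mul_le_mul_of_nonneg_left h7 (by linarith)
      _ = _ := by ring
  have h10 : (2 : ℝ) * N * ((T / K : ℕ) + 1) ≤ 2 * N * ((2 + 1) * (T : ℝ) ^ (1 - θ)) := by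
    apply mul_le_mul_of_nonneg_left _ (by positivity)
    linarith
  calc (Set.ncard {n : ℕ | 1 ≤ n ∧ n ≤ T ∧ n ∈ E} : ℝ) ≤ _ := h2
    _ ≤ ((C₁ : ℝ) + 4) * 2 ^ (C₂ + 1) * (T : ℝ) ^ (1 - θ) +
        2 * N * ((2 + 1) * (T : ℝ) ^ (1 - θ)) := add_le_add h5 h10
    _ = _ := by ring

theorem counting_geom {E : Set ℕ} {N C₂ : ℕ}
    (h : ∀ (K s : ℕ) (k : Fin (N + 1) → ℕ), 1 ≤ K → StrictMono k →
      (∀ j, 1 ≤ k j ∧ k j ≤ K) → (K + 1) ^ C₂ ≤ s → ∃ j, k j * s ∉ E) :
    ∀ b : ℕ, 2 ≤ b → ∃ C : ℝ, ∀ T : ℕ, 2 ≤ T →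
      (Set.ncard {l : ℕ | l ≤ T ∧ b ^ l ∈ E} : ℝ) ≤ C * Real.log T := by
  classical
  intro b hb
  -- windows
  have hwin : ∀ L₀ w : ℕ, (w + 1) * C₂ ≤ L₀ →
      ((Finset.Icc L₀ (L₀ + w)).filter fun l => b ^ l ∈ E).card ≤ N := by
    intro L₀ w hw
    by_contra hcon
    push Not at hcon
    obtain ⟨l, hl1, hl2⟩ := exists_strictMono hcon
    have hl3 : ∀ j, L₀ ≤ l j ∧ l j ≤ L₀ + w ∧ b ^ l j ∈ E := by
      intro j
      have := hl2 j
      simp only [Finset.mem_filter, Finset.mem_Icc] at this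
      exact ⟨this.1.1, this.1.2, this.2⟩
    have hl0 : ∀ j, l 0 ≤ l j := fun j => hl1.monotone (Fin.zero_le j)
    have hm : StrictMono fun j => b ^ (l j - l 0) := by
      intro i j hij
      apply Nat.pow_lt_pow_right (by omega)
      have h1 := hl1 hij
      have h2 := hl0 i
      omega
    have hr : ∀ j, 1 ≤ b ^ (l j - l 0) ∧ b ^ (l j - l 0) ≤ b ^ w := by
      intro j
      refine ⟨Nat.one_le_pow _ _ (by omega), Nat.pow_le_pow_right (by omega) ?_⟩
      have h1 := hl3 j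
      have h2 := hl3 0
      omega
    have hs : (b ^ w + 1) ^ C₂ ≤ b ^ l 0 := by
      calc (b ^ w + 1) ^ C₂ ≤ (b ^ (w + 1)) ^ C₂ := by
            apply Nat.pow_le_pow_left
            have h1 : 1 ≤ b ^ w := Nat.one_le_pow _ _ (by omega)
            rw [pow_succ]
            nlinarith
        _ = b ^ ((w + 1) * C₂) := by rw [pow_mul]
        _ ≤ b ^ l 0 := Nat.pow_le_pow_right (by omega) (hw.trans (hl3 0).1)
    obtain ⟨j, hj⟩ := h (b ^ w) (b ^ l 0) (fun j => b ^ (l j - l 0))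
      (Nat.one_le_pow _ _ (by omega)) hm hr hs
    apply hj
    rw [← pow_add, Nat.sub_add_cancel (hl0 j)]
    exact (hl3 j).2.2
  set f : ℕ → ℕ := fun T => ((Finset.Icc 0 T).filter fun l => b ^ l ∈ E).card with hf
  set D : ℕ := 2 * C₂ + 2 with hD
  have hDpos : (0 : ℝ) < D := by rw [hD]; positivity
  have hrec : ∀ T : ℕ, D < T → f T ≤ N + f (T - T / D - 1) := by
    intro T hT
    set w := T / D with hw
    have hw1 : w * D ≤ T := Nat.div_mul_le_self T D
    have hw2 : 2 * w ≤ T := by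
      rw [hD] at hw1
      nlinarith
    have h1 := hwin (T - w) w (by
      rw [hD] at hw1 hT
      have h2 : (w + 1) * C₂ + w ≤ T := by nlinarith
      omega)
    have h2 : T - w + w = T := by omega
    rw [h2] at h1
    have h3 : ((Finset.Icc 0 T).filter fun l => b ^ l ∈ E) ⊆
        ((Finset.Icc (T - w) T).filter fun l => b ^ l ∈ E) ∪
        ((Finset.Icc 0 (T - w - 1)).filter fun l => b ^ l ∈ E) := by
      intro l hl
      simp only [Finset.mem_filter, Finset.mem_Icc, Finset.mem_union] at hl ⊢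
      rcases le_or_gt (T - w) l with h4 | h4
      · exact Or.inl ⟨⟨h4, hl.1.2⟩, hl.2⟩
      · exact Or.inr ⟨⟨hl.1.1, by omega⟩, hl.2⟩
    calc f T ≤ _ := Finset.card_le_card h3
      _ ≤ _ := Finset.card_union_le _ _
      _ ≤ N + f (T - w - 1) := Nat.add_le_add_right h1 _
  have hmain : ∀ T : ℕ, 1 ≤ T → (f T : ℝ) ≤ (N : ℝ) * D * Real.log T + (D + 1) := by
    intro T
    induction T using Nat.strong_induction_on with
    | _ T ih =>
      intro hT
      have hT1 : (1 : ℝ) ≤ T := by exact_mod_cast hT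
      rcases le_or_gt T D with h1 | h1
      · have h2 : f T ≤ T + 1 := by
          refine (Finset.card_filter_le _ _).trans ?_
          simp
        have h3 : (f T : ℝ) ≤ (T : ℝ) + 1 := by exact_mod_cast h2
        have h4 : (T : ℝ) ≤ D := by exact_mod_cast h1
        have h5 : 0 ≤ Real.log T := Real.log_nonneg hT1
        have h6 : 0 ≤ (N : ℝ) * D * Real.log T := by positivity
        linarith
      · set w := T / D with hw
        have hw1 : w * D ≤ T := Nat.div_mul_le_self T D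
        have hw2 : T < (w + 1) * D := by
          exact Nat.lt_mul_of_div_lt (Nat.lt_succ_self _) (by omega)
        have hw3 : 2 * w ≤ T := by
          rw [hD] at hw1
          nlinarith
        have hT3 : 3 ≤ T := by omega
        have h2 := hrec T h1
        have h3 := ih (T - w - 1) (by omega) (by omega)
        have h4 : (f T : ℝ) ≤ (N : ℝ) + f (T - w - 1) := by exact_mod_cast h2
        have h5 : ((T - w - 1 : ℕ) : ℝ) ≤ (T : ℝ) * (1 - 1 / D) := by
          have h6 : T - w - 1 = T - (w + 1) := by omega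
          rw [h6, Nat.cast_sub (by omega)]
          have h7 : (T : ℝ) < ((w : ℝ) + 1) * D := by exact_mod_cast hw2
          have h8 : (T : ℝ) / D < (w : ℝ) + 1 := by
            rw [div_lt_iff₀ hDpos]
            exact h7
          push_cast
          have h9 : (T : ℝ) * (1 - 1 / D) = T - T / D := by ring
          rw [h9]
          linarith
        have hpos : (0 : ℝ) < ((T - w - 1 : ℕ) : ℝ) := by
          have : 1 ≤ T - w - 1 := by omega
          exact_mod_cast this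
        have hD2 : (2 : ℝ) ≤ D := by
          rw [hD]
          push_cast
          linarith [(Nat.cast_nonneg C₂ : (0 : ℝ) ≤ C₂)]
        have hD3 : (0 : ℝ) < 1 - 1 / D := by
          have : (1 : ℝ) / D ≤ 1 / 2 := one_div_le_one_div_of_le (by norm_num) hD2
          linarith
        have h6 : Real.log ((T - w - 1 : ℕ) : ℝ) ≤ Real.log T - 1 / D := by
          calc Real.log ((T - w - 1 : ℕ) : ℝ) ≤ Real.log ((T : ℝ) * (1 - 1 / D)) :=
                Real.log_le_log hpos h5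
            _ = Real.log T + Real.log (1 - 1 / D) :=
                Real.log_mul (by linarith) hD3.ne'
            _ ≤ Real.log T - 1 / D := by
                have := Real.log_le_sub_one_of_pos hD3
                linarith
        have h7 : (N : ℝ) * D * Real.log ((T - w - 1 : ℕ) : ℝ) ≤
            (N : ℝ) * D * (Real.log T - 1 / D) :=
          mul_le_mul_of_nonneg_left h6 (by positivity)
        have h8 : (N : ℝ) * D * (Real.log T - 1 / D) = (N : ℝ) * D * Real.log T - N := by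
          field_simp
        linarith
  refine ⟨(N : ℝ) * D + (D + 1) / Real.log 2, fun T hT => ?_⟩
  have h1 : {l : ℕ | l ≤ T ∧ b ^ l ∈ E} = ((Finset.Icc 0 T).filter fun l => b ^ l ∈ E : Finset ℕ) := by
    ext l
    simp
  rw [h1, Set.ncard_coe_finset]
  have h2 := hmain T (by omega)
  refine h2.trans ?_
  have hlog2 : 0 < Real.log 2 := Real.log_pos (by norm_num)
  have h3 : Real.log 2 ≤ Real.log T := Real.log_le_log (by norm_num) (by exact_mod_cast hT)
  have h4 : ((D : ℝ) + 1) ≤ (D + 1) / Real.log 2 * Real.log T := by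
    rw [div_mul_eq_mul_div, le_div_iff₀ hlog2]
    exact mul_le_mul_of_nonneg_left h3 (by positivity)
  linarith

end Pool.Agent.Helper37.GP
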