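import Mathlib

/-!
# Definitions for the several-point G-function method (MP_290158_ag)

Everything is written at `s = ∞`: Laurent series in `x = 1/s`, polynomials in `s`.
-/

open Polynomial

namespace Pool.Agent.Helper37.GP

/-! ### Laurent series in `x = 1/s` -/

/-- The embedding of polynomials in `s` into Laurent series in `x = 1/s`. -/
noncomputable def emb : ℚ[X] →+* LaurentSeries ℚ :=
  Polynomial.eval₂RingHom (algebraMap ℚ (LaurentSeries ℚ)) (HahnSeries.single (-1 : ℤ) (1 : ℚ))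

/-- `d/ds = - x^2 d/dx` on Laurent series in `x = 1/s`. -/
noncomputable def dd (f : LaurentSeries ℚ) : LaurentSeries ℚ :=
  -(HahnSeries.single (2 : ℤ) (1 : ℚ) * LaurentSeries.derivative ℚ f)

/-- The order at infinity is at least `N`. -/
def OrdGE (N : ℤ) (f : LaurentSeries ℚ) : Prop := ∀ i : ℤ, i < N → f.coeff i = 0

/-- Power series in `x = 1/s` as Laurent series. -/
noncomputable def ps (f : PowerSeries ℚ) : LaurentSeries ℚ := HahnSeries.ofPowerSeries ℤ ℚ f

/-! ### Linear differential systems `T e' = B e` over `ℚ[s]` -/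

/-- The divided iterates: `T^j e^(j) / j! = β_j e` for every solution of `T e' = B e`. -/
noncomputable def beta {ι : Type} [Fintype ι] [DecidableEq ι] (T : ℚ[X])
    (B : Matrix ι ι ℚ[X]) : ℕ → Matrix ι ι ℚ[X]
  | 0 => 1
  | (j + 1) => (C (((j : ℚ) + 1)⁻¹) : ℚ[X]) • (T • (beta T B j).map derivative
      - ((j : ℚ[X]) * derivative T) • beta T B j + beta T B j * B)

/-- The divided iterates of a row vector `P`: `T^j (P·e)^(j) / j! = row_j · e`. -/
noncomputable def row {ι : Type} [Fintype ι] [DecidableEq ι] (T : ℚ[X])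
    (B : Matrix ι ι ℚ[X]) (P : ι → ℚ[X]) : ℕ → ι → ℚ[X]
  | 0 => P
  | (j + 1) => (C (((j : ℚ) + 1)⁻¹) : ℚ[X]) • (T • (fun i => derivative (row T B P j i))
      - ((j : ℚ[X]) * derivative T) • row T B P j + Matrix.vecMul (row T B P j) B)

/-- `e` is a solution (at `s = ∞`) of `T e' = B e`. -/
def IsSol {ι : Type} [Fintype ι] (T : ℚ[X]) (B : Matrix ι ι ℚ[X])
    (e : ι → LaurentSeries ℚ) : Prop :=
  ∀ a, emb T * dd (e a) = ∑ b, emb (B a b) * e b

/-- All coefficients of `q p` are integers. -/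
def IntBy (q : ℕ) (p : ℚ[X]) : Prop := ∀ n, ∃ z : ℤ, (q : ℚ) * p.coeff n = z

/-- Galochkin's condition with constant `H`: the iterates `β_0, …, β_j` have a common
denominator `≤ H^(j+1)`. -/
def Galochkin {ι : Type} [Fintype ι] [DecidableEq ι] (T : ℚ[X]) (B : Matrix ι ι ℚ[X])
    (H : ℕ) : Prop :=
  ∀ j, ∃ q : ℕ, 0 < q ∧ q ≤ H ^ (j + 1) ∧ ∀ i ≤ j, ∀ a b, IntBy q (beta T B i a b)

/-- Geometric bounds for coefficients and denominators of a power series. -/
def GBound (H : ℕ) (f : PowerSeries ℚ) : Prop :=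
  (∀ n, |PowerSeries.coeff n f| ≤ (H : ℚ) ^ (n + 1))

/-- A common geometric denominator for a family of power series. -/
def GDen {ι : Type} (H : ℕ) (f : ι → PowerSeries ℚ) : Prop :=
  ∀ n, ∃ d : ℕ, 0 < d ∧ d ≤ H ^ (n + 1) ∧
    ∀ m ≤ n, ∀ a, ∃ z : ℤ, (d : ℚ) * PowerSeries.coeff m (f a) = z

/-- The value at `s` (large) of a power series in `1/s`. -/
noncomputable def pev (f : PowerSeries ℚ) (s : ℝ) : ℝ :=
  ∑' n : ℕ, ((PowerSeries.coeff n f : ℚ) : ℝ) * (1 / s) ^ n

end Pool.Agent.Helper37.GP
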