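import Pool.Agent.Helper37.GP.Defs
import Pool.Agent.Helper64.Per.Defs

/-!
# Definitions for the Legendre family (MP_290158_ag)
-/

open Polynomial

namespace Pool.Agent.Helper37.GP

/-! ### The Legendre system in `λ` : `2 λ (1-λ) P' = A₀ P` -/

/-- `T₀ = 2 λ (1 - λ)`. -/
noncomputable def T0 : ℚ[X] := 2 * X * (1 - X)

/-- `A₀ = ((λ, -1), (λ, -λ))`. -/
noncomputable def A0 : Matrix (Fin 2) (Fin 2) ℚ[X] := !![X, -1; X, -X]

/-! ### The Legendre system in `t`, where `λ = (al t + be) / (ga t)` -/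

/-- `T = 2 t (al t + be) ((ga - al) t - be)`. -/
noncomputable def Tt (al be ga : ℤ) : ℤ[X] :=
  2 * X * (C al * X + C be) * (C (ga - al) * X - C be)

/-- `A = - be ((al t + be, - ga t), (al t + be, - (al t + be)))`. -/
noncomputable def At (al be ga : ℤ) : Matrix (Fin 2) (Fin 2) ℚ[X] :=
  (C (-(be : ℚ)) : ℚ[X]) • !![C (al : ℚ) * X + C (be : ℚ), -(C (ga : ℚ) * X);
    C (al : ℚ) * X + C (be : ℚ), -(C (al : ℚ) * X + C (be : ℚ))]

/-- The Taylor coefficients in `x = 1/t` of the solution with value `1` at `t = ∞`: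
`y_n = (c / T₀(s₀))^n β_n(s₀)`, `s₀ = al/ga`, `c = be/ga`. -/
noncomputable def yc (al be ga : ℤ) (n : ℕ) : Matrix (Fin 2) (Fin 2) ℚ :=
  (((be : ℚ) / ga) / T0.eval ((al : ℚ) / ga)) ^ n •
    (beta T0 A0 n).map (fun p => p.eval ((al : ℚ) / ga))

/-- The solution at infinity as a matrix of power series in `1/t`. -/
noncomputable def Yt (al be ga : ℤ) (a b : Fin 2) : PowerSeries ℚ :=
  PowerSeries.mk fun n => yc al be ga n a b

/-- The series `x / (k + a x)`, i.e. `1/t` for `t = a + k s`, `x = 1/s`. -/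
noncomputable def gx (k a : ℕ) : PowerSeries ℚ :=
  PowerSeries.X * (PowerSeries.C (k : ℚ) + PowerSeries.C (a : ℚ) * PowerSeries.X)⁻¹

/-- Variables: the entries of `d` matrices of size `2`. -/
abbrev Var (d : ℕ) : Type := Fin d × Fin 2 × Fin 2

/-- A tuple of matrices as a point. -/
def pt {K : Type} {d : ℕ} (Z : Fin d → Matrix (Fin 2) (Fin 2) K) : Var d → K :=
  fun v => Z v.1 v.2.1 v.2.2

/-- The monomial exponent `m` has degree at most `δ` in each block. -/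
def BDe {d : ℕ} (δ : ℕ) (m : Var d →₀ ℕ) : Prop :=
  ∀ j : Fin d, ∑ a : Fin 2, ∑ b : Fin 2, m (j, a, b) ≤ δ

/-- All monomials have degree at most `δ` in each block. -/
def BD {K : Type} [CommSemiring K] {d : ℕ} (δ : ℕ) (F : MvPolynomial (Var d) K) : Prop :=
  ∀ m ∈ F.support, BDe δ m

/-- `F` vanishes on `SL₂(ℚ)^d`. -/
def VanQ {d : ℕ} (F : MvPolynomial (Var d) ℚ) : Prop :=
  ∀ Z : Fin d → Matrix (Fin 2) (Fin 2) ℚ, (∀ j, (Z j).det = 1) → MvPolynomial.eval (pt Z) F = 0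

/-! ### Elliptic integrals and periods -/

/-- Complete elliptic integral of the first kind, as a function of the parameter. -/
noncomputable def EK (z : ℂ) : ℂ :=
  ∫ θ in (0 : ℝ)..(Real.pi / 2), (1 - z * ((Real.sin θ : ℝ) : ℂ) ^ 2) ^ (-(1 / 2) : ℂ)

/-- Complete elliptic integral of the second kind. -/
noncomputable def EE (z : ℂ) : ℂ :=
  ∫ θ in (0 : ℝ)..(Real.pi / 2), (1 - z * ((Real.sin θ : ℝ) : ℂ) ^ 2) ^ ((1 / 2) : ℂ)

/-- The plane slit along `(-∞, 0]` and `[1, ∞)`. -/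
def UU : Set ℂ := {t | t.im ≠ 0 ∨ (0 < t.re ∧ t.re < 1)}

/-- The normalised period matrix. -/
noncomputable def PR (t : ℂ) : Matrix (Fin 2) (Fin 2) ℂ :=
  !![EK t, EK (1 - t); EK t - EE t, EE (1 - t)]

end Pool.Agent.Helper37.GP
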