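import Pool.Agent.Helper37.GP.Defs2

/-!
# The Legendre family and its period matrix (MP_290158_ag)

`E_t : y² = x (x - 1) (x - t)`; basis `dx/y, x dx/y` of `H¹_dR`; cycles over the segments
`[0, t]` and `[t, 1]`.
-/

namespace Pool.Agent.Helper37.GP

open Pool.Agent.Helper64.Per

/-- The period matrix of the Legendre curve `y² = x (x - 1) (x - t)` for `t` in the plane slit
along `(-∞, 0]` and `[1, ∞)`: row `i` is the form `x^i dx / y`; the first column is twice the
integral over the segment `[0, t]` (`x = t u`), the second one twice the integral over the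
segment `[t, 1]` (`x = 1 - (1 - t) u`), where `y = i √(x (1-x) (x-t))`. -/
noncomputable def PP (t : ℂ) : Matrix (Fin 2) (Fin 2) ℂ :=
  Matrix.of fun i j =>
    if j = 0 then
      2 * ∫ u in (0 : ℝ)..1, (t * u) ^ (i : ℕ) *
        (1 - t * u) ^ (-(1 / 2) : ℂ) / ((Real.sqrt (u * (1 - u)) : ℝ) : ℂ)
    else
      -(2 * Complex.I) * ∫ u in (0 : ℝ)..1, (1 - (1 - t) * u) ^ (i : ℕ) *
        (1 - (1 - t) * u) ^ (-(1 / 2) : ℂ) / ((Real.sqrt (u * (1 - u)) : ℝ) : ℂ)

/-- `s` carries a relation of degree at most `δ` over some number field of degree at most `m`. -/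
def Exceptional (m δ : ℕ) (s : ℂ) : Prop :=
  ∃ κ : IntermediateField ℚ Qbar, FiniteDimensional ℚ κ ∧ Module.finrank ℚ κ ≤ m ∧
    HasRelation UU PP s κ δ

end Pool.Agent.Helper37.GP
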