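import Pool.Agent.Helper37.GP.Defs3

/-!
# The exceptional integers (MP_290158_ag)
-/

namespace Pool.Agent.Helper37.GP

/-- The exceptional integers for the points `s₀ + c / n`: `n ≥ 1`, `s₀ + c / n ∈ (0, 1)` and at
the point `s₀ + c / n` the Legendre family has a relation of degree at most `δ` over some number
field of degree at most `m`. -/
def Exc (s₀ c : ℚ) (m δ : ℕ) : Set ℕ :=
  {n | 1 ≤ n ∧ (0 < s₀ + c / n ∧ s₀ + c / n < 1) ∧ Exceptional m δ ((s₀ + c / n : ℚ) : ℂ)}

end Pool.Agent.Helper37.GP
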