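import Pool.Agent.Helper37.GP.Defs3

/-!
# Elimination of the transcendental initial periods
-/

open Polynomial

namespace Pool.Agent.Helper37.GP

namespace Elim

/-- indices of the entries of a `2 × 2` matrix -/
abbrev V : Type := Fin 2 × Fin 2

/-! ### maximal minors -/

theorem exists_minor {K : Type} [Field K] {d : ℕ} {I : Type} [Fintype I]
    (v : Fin d → I → K) (hv : LinearIndependent K v) :
    ∃ σ : Fin d → I, (Matrix.of fun j i => v j (σ i)).det ≠ 0 := by
  classical
  set M : Matrix (Fin d) I K := Matrix.of v with hM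
  have hr : M.rank = d := by
    have h := LinearIndependent.rank_matrix (M := M) (by exact hv)
    simpa using h
  have hspan : Submodule.span K (Set.range M.col) = ⊤ := by
    apply Submodule.eq_top_of_finrank_eq
    rw [← Matrix.rank_eq_finrank_span_cols, hr]
    simp
  obtain ⟨f, hf1, hf2, hf3⟩ := Submodule.exists_fun_fin_finrank_span_eq K (Set.range M.col)
  have hfd : Module.finrank K (Submodule.span K (Set.range M.col)) = d := by
    rw [← Matrix.rank_eq_finrank_span_cols, hr]
  choose τ hτ using hf1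
  refine ⟨fun i => τ (Fin.cast hfd.symm i), ?_⟩
  have hli : LinearIndependent K (fun i : Fin d => f (Fin.cast hfd.symm i)) :=
    hf3.comp _ (Fin.cast_injective _)
  have hcols : LinearIndependent K
      (Matrix.of fun j i => v j (τ (Fin.cast hfd.symm i))).col := by
    have e : (Matrix.of fun j i => v j (τ (Fin.cast hfd.symm i))).col
        = fun i : Fin d => f (Fin.cast hfd.symm i) := by
      funext i
      rw [← hτ]
      rfl
    rw [e]; exact hli
  exact ((Matrix.isUnit_iff_isUnit_det _).1
    (Matrix.linearIndependent_cols_iff_isUnit.1 hcols)).ne_zero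

/-! ### counting monomials -/

/-- the monomials of degree at most `δ` -/
noncomputable def mons (δ : ℕ) : Finset (V →₀ ℕ) :=
  (Finset.range (δ + 1)).biUnion fun n => Finset.finsuppAntidiag Finset.univ n

lemma mem_mons {δ : ℕ} {m : V →₀ ℕ} : m ∈ mons δ ↔ m.degree ≤ δ := by
  simp only [mons, Finset.mem_biUnion, Finset.mem_range, Finset.mem_finsuppAntidiag]
  have e : m.degree = Finset.univ.sum m := by
    rw [Finsupp.degree_eq_sum]
  constructor
  · rintro ⟨n, hn, h1, _⟩
    rw [e, h1]; omega
  · intro h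
    exact ⟨m.degree, by omega, e.symm, Finset.subset_univ _⟩

lemma card_mons (δ : ℕ) : (mons δ).card ≤ (δ + 4).choose 4 := by
  refine Finset.card_biUnion_le.trans ?_
  simp only [Finset.card_finsuppAntidiag_nat_eq_choose]
  have hc : (Finset.univ : Finset V).card = 4 := by simp
  rw [hc]
  induction δ with
  | zero => simp
  | succ δ ih =>
    rw [Finset.sum_range_succ]
    have e : (4 + (δ + 1) - 1).choose (δ + 1) = (δ + 4).choose 3 := by
      have : 4 + (δ + 1) - 1 = δ + 4 := by omega
      rw [this]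
      rw [← Nat.choose_symm (show 3 ≤ δ + 4 by omega)]
      congr 1
    rw [e]
    have h2 : (δ + 1 + 4).choose 4 = (δ + 4).choose 3 + (δ + 4).choose 4 := by
      have : δ + 1 + 4 = (δ + 4) + 1 := by ring
      rw [this, Nat.choose_succ_succ' (δ + 4) 3]
    rw [h2]
    omega

/-! ### substitution of `g x` -/

variable {L : Type} [Field L]

/-- all coefficients (polynomials in `g`) have degree at most `n`, and the degree in `x` is at most
`n` -/
def Good (n : ℕ) (Q : MvPolynomial V (MvPolynomial V L)) : Prop :=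
  ∀ m, MvPolynomial.coeff m Q ≠ 0 → m.degree ≤ n ∧ (MvPolynomial.coeff m Q).totalDegree ≤ n

lemma Good.totalDegree {n : ℕ} {Q : MvPolynomial V (MvPolynomial V L)} (h : Good n Q)
    (m : V →₀ ℕ) : (MvPolynomial.coeff m Q).totalDegree ≤ n := by
  by_cases hm : MvPolynomial.coeff m Q = 0
  · rw [hm]; simp
  · exact (h m hm).2

lemma Good.mono {n n' : ℕ} (hn : n ≤ n') {Q : MvPolynomial V (MvPolynomial V L)} (h : Good n Q) :
    Good n' Q := fun m hm => ⟨(h m hm).1.trans hn, (h m hm).2.trans hn⟩

lemma good_sum {κ : Type} (s : Finset κ) {n : ℕ} (Q : κ → MvPolynomial V (MvPolynomial V L))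
    (h : ∀ i ∈ s, Good n (Q i)) : Good n (∑ i ∈ s, Q i) := by
  classical
  intro m hm
  rw [MvPolynomial.coeff_sum] at hm ⊢
  obtain ⟨i, hi, hne⟩ := Finset.exists_ne_zero_of_sum_ne_zero hm
  refine ⟨(h i hi m hne).1, ?_⟩
  exact MvPolynomial.totalDegree_finsetSum_le fun i hi => (h i hi).totalDegree m

lemma good_mul {n n' : ℕ} {Q Q' : MvPolynomial V (MvPolynomial V L)} (h : Good n Q)
    (h' : Good n' Q') : Good (n + n') (Q * Q') := by
  classical
  intro m hm
  rw [MvPolynomial.coeff_mul] at hm ⊢
  obtain ⟨p, hp, hne⟩ := Finset.exists_ne_zero_of_sum_ne_zero hm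
  have h1 := left_ne_zero_of_mul hne
  have h2 := right_ne_zero_of_mul hne
  constructor
  · rw [← (Finset.HasAntidiagonal.mem_antidiagonal.1 hp), map_add]
    exact add_le_add (h _ h1).1 (h' _ h2).1
  · refine MvPolynomial.totalDegree_finsetSum_le fun p _ => ?_
    exact (MvPolynomial.totalDegree_mul _ _).trans
      (add_le_add (h.totalDegree _) (h'.totalDegree _))

lemma good_C_C (c : L) : Good 0 (MvPolynomial.C (MvPolynomial.C c) :
    MvPolynomial V (MvPolynomial V L)) := by
  classical
  intro m hm
  rw [MvPolynomial.coeff_C] at hm ⊢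
  split_ifs at hm ⊢ with h
  · subst h; simp
  · exact absurd rfl hm

lemma good_one : Good 0 (1 : MvPolynomial V (MvPolynomial V L)) := by
  have := good_C_C (1 : L)
  simpa using this

lemma good_pow {n : ℕ} {Q : MvPolynomial V (MvPolynomial V L)} (h : Good n Q) (k : ℕ) :
    Good (k * n) (Q ^ k) := by
  induction k with
  | zero => simpa using good_one
  | succ k ih =>
    rw [pow_succ, Nat.succ_mul]
    exact good_mul ih h

lemma good_prod {κ : Type} (s : Finset κ) (n : κ → ℕ)
    (Q : κ → MvPolynomial V (MvPolynomial V L)) (h : ∀ i ∈ s, Good (n i) (Q i)) :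
    Good (∑ i ∈ s, n i) (∏ i ∈ s, Q i) := by
  classical
  induction s using Finset.induction_on with
  | empty => simpa using good_one
  | insert i s hi ih =>
    rw [Finset.prod_insert hi, Finset.sum_insert hi]
    exact good_mul (h i (Finset.mem_insert_self i s))
      (ih fun j hj => h j (Finset.mem_insert_of_mem hj))

/-- the linear forms `(g x)_{a b}` -/
noncomputable def lform (v : V) : MvPolynomial V (MvPolynomial V L) :=
  ∑ k : Fin 2, MvPolynomial.C (MvPolynomial.X (v.1, k)) * MvPolynomial.X (k, v.2)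

lemma good_lform (v : V) : Good 1 (lform (L := L) v) := by
  classical
  refine good_sum _ _ fun k _ => ?_
  intro m hm
  rw [MvPolynomial.coeff_C_mul, MvPolynomial.coeff_X] at hm ⊢
  split_ifs at hm ⊢ with h
  · subst h
    simp [Finsupp.degree_single]
  · simp at hm

/-- substitution of `g x` in a polynomial -/
noncomputable def phi : MvPolynomial V L →ₐ[L] MvPolynomial V (MvPolynomial V L) :=
  MvPolynomial.aeval (lform (L := L))

lemma good_phi {δ : ℕ} (q : MvPolynomial V L) (hq : q.totalDegree ≤ δ) : Good δ (phi q) := by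
  classical
  unfold phi
  rw [MvPolynomial.aeval_def, MvPolynomial.eval₂_eq]
  refine good_sum _ _ fun m hm => ?_
  have h1 : Good (∑ i ∈ m.support, m i * 1) (∏ i ∈ m.support, lform (L := L) i ^ m i) :=
    good_prod _ _ _ fun i _ => good_pow (good_lform i) (m i)
  have h2 : ∑ i ∈ m.support, m i * 1 ≤ δ := by
    simp only [mul_one]
    exact (MvPolynomial.le_totalDegree hm).trans hq
  have h3 := good_mul (good_C_C (MvPolynomial.coeff m q)) (h1.mono h2)
  rw [zero_add] at h3
  exact h3

section Eval

variable [Algebra L ℂ]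

/-- the row of coefficients of `x ↦ q (g x)` -/
noncomputable def rowc (q : MvPolynomial V L) (δ : ℕ) (g : Matrix (Fin 2) (Fin 2) ℂ) :
    mons δ → ℂ :=
  fun m => MvPolynomial.aeval (fun v : V => g v.1 v.2) (MvPolynomial.coeff m.1 (phi q))

/-- evaluation of `x ↦ q (g x)` from the row of coefficients -/
lemma sum_rowc {δ : ℕ} (q : MvPolynomial V L) (hq : q.totalDegree ≤ δ)
    (g x : Matrix (Fin 2) (Fin 2) ℂ) :
    ∑ m : mons δ, rowc q δ g m * ∏ v : V, x v.1 v.2 ^ (m.1 v)
      = MvPolynomial.aeval (fun v : V => (g * x) v.1 v.2) q := by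
  classical
  let ψ : MvPolynomial V (MvPolynomial V L) →+* ℂ :=
    MvPolynomial.eval₂Hom
      ((MvPolynomial.aeval (fun v : V => g v.1 v.2) : MvPolynomial V L →ₐ[L] ℂ) :
        MvPolynomial V L →+* ℂ) (fun v : V => x v.1 v.2)
  have h1 : ∀ q : MvPolynomial V L, ψ (phi q) = MvPolynomial.aeval (fun v : V => (g * x) v.1 v.2) q := by
    intro q
    have h2 : ψ.comp (phi (L := L) : MvPolynomial V L →+* MvPolynomial V (MvPolynomial V L))
        = ((MvPolynomial.aeval (fun v : V => (g * x) v.1 v.2) : MvPolynomial V L →ₐ[L] ℂ) :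
          MvPolynomial V L →+* ℂ) := by
      apply MvPolynomial.ringHom_ext
      · intro c
        simp only [RingHom.comp_apply, RingHom.coe_coe, ψ]
        have h3 : phi (MvPolynomial.C c : MvPolynomial V L)
            = MvPolynomial.C (MvPolynomial.C c) := by
          have := (phi (L := L)).commutes c
          exact this
        rw [h3]
        simp
      · intro v
        simp only [RingHom.comp_apply, RingHom.coe_coe, ψ]
        have h3 : phi (MvPolynomial.X v : MvPolynomial V L) = lform v := by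
          simp [phi]
        rw [h3]
        simp [lform, Matrix.mul_apply]
    have := congrArg (fun f : MvPolynomial V L →+* ℂ => f q) h2
    simpa using this
  rw [← h1]
  have h4 : ψ (phi q) = ∑ m ∈ (phi q).support,
      MvPolynomial.aeval (fun v : V => g v.1 v.2) (MvPolynomial.coeff m (phi q))
        * ∏ v : V, x v.1 v.2 ^ (m v) := by
    show MvPolynomial.eval₂ _ _ (phi q) = _
    rw [MvPolynomial.eval₂_eq']
    rfl
  rw [h4]
  have hsub : (phi q).support ⊆ mons δ := by
    intro m hm
    rw [mem_mons]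
    exact (good_phi q hq m (MvPolynomial.mem_support_iff.1 hm)).1
  rw [Finset.sum_subset hsub]
  · rw [← Finset.sum_coe_sort (mons δ)]
    rfl
  · intro m _ hm
    rw [MvPolynomial.notMem_support_iff.1 hm]
    simp

end Eval

/-! ### block degrees -/

/-- degree in the `j`-th block -/
def bw {d : ℕ} (j : Fin d) (m : Var d →₀ ℕ) : ℕ := ∑ a : Fin 2, ∑ b : Fin 2, m (j, a, b)

lemma bw_add {d : ℕ} (j : Fin d) (m m' : Var d →₀ ℕ) : bw j (m + m') = bw j m + bw j m' := by
  simp only [bw, Finsupp.add_apply, Finset.sum_add_distrib]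

/-- all monomials have degree at most `n` in the `j`-th block -/
def BW {d : ℕ} (j : Fin d) (n : ℕ) (F : MvPolynomial (Var d) L) : Prop :=
  ∀ m, MvPolynomial.coeff m F ≠ 0 → bw j m ≤ n

lemma BW_mul {d : ℕ} {j : Fin d} {n n' : ℕ} {F F' : MvPolynomial (Var d) L} (h : BW j n F)
    (h' : BW j n' F') : BW j (n + n') (F * F') := by
  classical
  intro m hm
  rw [MvPolynomial.coeff_mul] at hm
  obtain ⟨p, hp, hne⟩ := Finset.exists_ne_zero_of_sum_ne_zero hm
  rw [← (Finset.HasAntidiagonal.mem_antidiagonal.1 hp), bw_add]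
  exact add_le_add (h _ (left_ne_zero_of_mul hne)) (h' _ (right_ne_zero_of_mul hne))

lemma BW_one {d : ℕ} (j : Fin d) : BW j 0 (1 : MvPolynomial (Var d) L) := by
  classical
  intro m hm
  rw [MvPolynomial.coeff_one] at hm
  split_ifs at hm with h
  · subst h; simp [bw]
  · exact absurd rfl hm

lemma BW_prod {d : ℕ} {j : Fin d} {κ : Type} (s : Finset κ) (n : κ → ℕ)
    (F : κ → MvPolynomial (Var d) L) (h : ∀ i ∈ s, BW j (n i) (F i)) :
    BW j (∑ i ∈ s, n i) (∏ i ∈ s, F i) := by
  classical
  induction s using Finset.induction_on with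
  | empty => simpa using BW_one j
  | insert i s hi ih =>
    rw [Finset.prod_insert hi, Finset.sum_insert hi]
    exact BW_mul (h i (Finset.mem_insert_self i s))
      (ih fun j hj => h j (Finset.mem_insert_of_mem hj))

lemma BW_sum {d : ℕ} {j : Fin d} {κ : Type} (s : Finset κ) (n : ℕ)
    (F : κ → MvPolynomial (Var d) L) (h : ∀ i ∈ s, BW j n (F i)) :
    BW j n (∑ i ∈ s, F i) := by
  classical
  intro m hm
  rw [MvPolynomial.coeff_sum] at hm
  obtain ⟨i, hi, hne⟩ := Finset.exists_ne_zero_of_sum_ne_zero hm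
  exact h i hi m hne

lemma BW_smul {d : ℕ} {j : Fin d} {n : ℕ} (c : ℤ) {F : MvPolynomial (Var d) L} (h : BW j n F) :
    BW j n (c • F) := by
  intro m hm
  refine h m ?_
  intro h0
  apply hm
  rw [MvPolynomial.coeff_smul, h0, smul_zero]

lemma BW_rename {d : ℕ} (i j : Fin d) {n : ℕ} (p : MvPolynomial V L) (hp : p.totalDegree ≤ n) :
    BW j (if i = j then n else 0) (MvPolynomial.rename (fun v : V => ((i, v) : Var d)) p) := by
  classical
  intro m hm
  obtain ⟨u, hu, hne⟩ := MvPolynomial.coeff_rename_ne_zero _ _ _ hm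
  have hinj : Function.Injective (fun v : V => ((i, v) : Var d)) := by
    intro v v' h
    simpa using h
  subst hu
  split_ifs with hij
  · subst hij
    have h1 : ∀ v : V, Finsupp.mapDomain (fun v : V => ((i, v) : Var d)) u (i, v) = u v := by
      intro v
      exact Finsupp.mapDomain_apply hinj u v
    have h2 : bw i (Finsupp.mapDomain (fun v : V => ((i, v) : Var d)) u) = u.degree := by
      unfold bw
      rw [Finsupp.degree_eq_sum, Fintype.sum_prod_type]
      refine Finset.sum_congr rfl fun a _ => Finset.sum_congr rfl fun b _ => ?_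
      exact h1 (a, b)
    rw [h2]
    have h3 := MvPolynomial.le_totalDegree (MvPolynomial.mem_support_iff.2 hne)
    exact (le_of_eq (by rw [Finsupp.degree_eq_sum, Finsupp.sum_fintype _ _ (fun _ => rfl)])).trans
      (h3.trans hp)
  · have h1 : ∀ v : V, Finsupp.mapDomain (fun v : V => ((i, v) : Var d)) u (j, v) = 0 := by
      intro v
      apply Finsupp.mapDomain_of_notMem_range
      rintro ⟨v', hv'⟩
      exact hij (Prod.ext_iff.1 hv').1
    apply le_of_eq
    unfold bw
    refine Finset.sum_eq_zero fun a _ => Finset.sum_eq_zero fun b _ => ?_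
    exact h1 (a, b)

end Elim

open Elim

/-- If `N + 1` polynomials of degree `≤ δ` in four variables, `N = C(δ+4, 4)`, vanish at
`Y_j P₀` with `det Y_j = 1`, and none of them vanishes on `SL₂(ℂ) P₀`, then the `Y_j` satisfy a
relation. -/
theorem elimination {L : Type} [Field L] [Algebra L ℂ] {δ N : ℕ} (hN : (δ + 4).choose 4 ≤ N)
    (q : Fin (N + 1) → MvPolynomial (Fin 2 × Fin 2) L) (hq : ∀ j, (q j).totalDegree ≤ δ)
    (P₀ : Matrix (Fin 2) (Fin 2) ℂ) (Y : Fin (N + 1) → Matrix (Fin 2) (Fin 2) ℂ)
    (hY : ∀ j, (Y j).det = 1)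
    (h1 : ∀ j, MvPolynomial.aeval (fun v : Fin 2 × Fin 2 => (Y j * P₀) v.1 v.2) (q j) = 0)
    (h2 : ∀ j, ∃ g : Matrix (Fin 2) (Fin 2) ℂ, g.det = 1 ∧
      MvPolynomial.aeval (fun v : Fin 2 × Fin 2 => (g * P₀) v.1 v.2) (q j) ≠ 0) :
    ∃ (d : ℕ) (hd : d ≤ N + 1) (F : MvPolynomial (Var d) L), BD δ F ∧
      MvPolynomial.aeval (pt fun j : Fin d => Y (Fin.castLE hd j)) F = 0 ∧
      ∃ g : Fin d → Matrix (Fin 2) (Fin 2) ℂ, (∀ j, (g j).det = 1) ∧
        MvPolynomial.aeval (pt g) F ≠ 0 := by
  classical
  let P : ℕ → Prop := fun d => ∃ (hd : d ≤ N + 1) (g : Fin d → Matrix (Fin 2) (Fin 2) ℂ),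
    (∀ j, (g j).det = 1) ∧
      LinearIndependent ℂ (fun j : Fin d => rowc (q (Fin.castLE hd j)) δ (g j))
  have hP0 : P 0 := ⟨by omega, Fin.elim0, fun j => j.elim0, linearIndependent_empty_type⟩
  have hPN : ∀ d, P d → d ≤ N := by
    rintro d ⟨hd, g, hg, hli⟩
    have h3 := hli.fintype_card_le_finrank
    rw [Fintype.card_fin, Module.finrank_fintype_fun_eq_card, Fintype.card_coe] at h3
    exact h3.trans ((card_mons δ).trans hN)
  obtain ⟨d, hPd, hPd1⟩ : ∃ d, P d ∧ ¬ P (d + 1) := by
    by_contra hcon
    push Not at hcon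
    have : ∀ d, P d := by
      intro d
      induction d with
      | zero => exact hP0
      | succ d ih => exact hcon d ih
    have := hPN _ (this (N + 1))
    omega
  have hdN := hPN d hPd
  obtain ⟨hd, g, hg, hli⟩ := hPd
  obtain ⟨σ, hσ⟩ := exists_minor _ hli
  let M : Matrix (Fin d) (Fin d) (MvPolynomial (Var d) L) := Matrix.of fun j i =>
    MvPolynomial.rename (fun v : V => ((j, v) : Var d))
      (MvPolynomial.coeff (σ i).1 (phi (q (Fin.castLE hd j))))
  have hev : ∀ Z : Fin d → Matrix (Fin 2) (Fin 2) ℂ, MvPolynomial.aeval (pt Z) M.det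
      = (Matrix.of fun j i => rowc (q (Fin.castLE hd j)) δ (Z j) (σ i)).det := by
    intro Z
    rw [AlgHom.map_det]
    congr 1
    ext j i
    simp only [AlgHom.mapMatrix_apply, Matrix.map_apply, M, Matrix.of_apply]
    rw [MvPolynomial.aeval_rename]
    rfl
  refine ⟨d, hd, M.det, ?_, ?_, g, hg, ?_⟩
  · -- block degrees
    intro m hm j
    have hBW : BW j δ M.det := by
      rw [Matrix.det_apply]
      refine BW_sum _ _ _ fun π _ => ?_
      have h3 : BW j (∑ i : Fin d, if π i = j then δ else 0) (∏ i, M (π i) i) :=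
        BW_prod _ _ _ fun i _ => BW_rename (π i) j _
          ((good_phi _ (hq _)).totalDegree _)
      have h4 : (∑ i : Fin d, if π i = j then δ else 0) = δ := by
        rw [Finset.sum_eq_single (π.symm j)]
        · simp
        · intro i _ hi
          rw [if_neg]
          intro h; apply hi; rw [← h]; simp
        · intro h; exact absurd (Finset.mem_univ _) h
      rw [h4] at h3
      exact BW_smul (Equiv.Perm.sign π : ℤ) h3
    exact hBW m (MvPolynomial.mem_support_iff.1 hm)
  · -- vanishing at `Y`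
    by_contra hne
    rw [hev] at hne
    have hrow := Matrix.linearIndependent_rows_of_det_ne_zero hne
    have hli' : LinearIndependent ℂ
        (fun j : Fin d => rowc (q (Fin.castLE hd j)) δ (Y (Fin.castLE hd j))) := by
      refine LinearIndependent.of_comp (LinearMap.funLeft ℂ ℂ σ) ?_
      exact hrow
    -- the next row lies in the span
    have hlast : d < N + 1 := by omega
    have hspan : ∀ h : Matrix (Fin 2) (Fin 2) ℂ, h.det = 1 →
        rowc (q ⟨d, hlast⟩) δ h ∈ Submodule.span ℂ
          (Set.range (fun j : Fin d => rowc (q (Fin.castLE hd j)) δ (Y (Fin.castLE hd j)))) := by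
      intro h hdet
      by_contra hnot
      apply hPd1
      refine ⟨by omega, Fin.snoc (fun j : Fin d => Y (Fin.castLE hd j)) h, ?_, ?_⟩
      · intro j
        refine Fin.lastCases ?_ (fun i => ?_) j
        · simpa using hdet
        · simpa using hY _
      · have h5 := hli'.finSnoc hnot
        have e : (fun j : Fin (d + 1) => rowc (q (Fin.castLE (by omega) j)) δ
            ((Fin.snoc (fun j : Fin d => Y (Fin.castLE hd j)) h :
              Fin (d + 1) → Matrix (Fin 2) (Fin 2) ℂ) j))
            = Fin.snoc (fun j : Fin d => rowc (q (Fin.castLE hd j)) δ (Y (Fin.castLE hd j)))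
              (rowc (q ⟨d, hlast⟩) δ h) := by
          funext j
          refine Fin.lastCases ?_ (fun i => ?_) j
          · simp only [Fin.snoc_last]
            rfl
          · simp only [Fin.snoc_castSucc]
            rfl
        rw [e]
        exact h5
    obtain ⟨h, hdet, hh⟩ := h2 ⟨d, hlast⟩
    apply hh
    -- evaluation at `P₀`
    let ev : (mons δ → ℂ) →ₗ[ℂ] ℂ :=
      ∑ m : mons δ, (∏ v : V, P₀ v.1 v.2 ^ (m.1 v)) • LinearMap.proj m
    have hevr : ∀ (j : Fin (N + 1)) (h : Matrix (Fin 2) (Fin 2) ℂ), ev (rowc (q j) δ h)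
        = MvPolynomial.aeval (fun v : V => (h * P₀) v.1 v.2) (q j) := by
      intro j h
      rw [← sum_rowc (q j) (hq j) h P₀]
      simp only [ev, LinearMap.sum_apply, LinearMap.smul_apply, LinearMap.proj_apply, smul_eq_mul]
      exact Finset.sum_congr rfl fun m _ => mul_comm _ _
    rw [← hevr]
    have hker : Submodule.span ℂ
        (Set.range (fun j : Fin d => rowc (q (Fin.castLE hd j)) δ (Y (Fin.castLE hd j))))
        ≤ LinearMap.ker ev := by
      rw [Submodule.span_le]
      rintro _ ⟨j, rfl⟩
      show ev _ = 0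
      rw [hevr]
      exact h1 _
    exact hker (hspan h hdet)
  · rw [hev]
    exact hσ

end Pool.Agent.Helper37.GP
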