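import Pool.Agent.Helper37.GP.Defs2

/-!
# GP-16 : Legendre's periods (helper76)
-/

open Polynomial

namespace Pool.Agent.Helper37.GP

open MeasureTheory intervalIntegral Topology

namespace EllAux

/-- the good domain -/
def VV : Set ℂ := {z | z.im ≠ 0 ∨ z.re < 1}

lemma VV_open : IsOpen VV := by
  have h1 : IsOpen {z : ℂ | z.im ≠ 0} := isOpen_ne_fun Complex.continuous_im continuous_const
  have h2 : IsOpen {z : ℂ | z.re < 1} := isOpen_lt Complex.continuous_re continuous_const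
  exact h1.union h2

/-- `1 - z sin² θ` -/
noncomputable def uf (z : ℂ) (θ : ℝ) : ℂ := 1 - z * ((Real.sin θ : ℝ) : ℂ) ^ 2

lemma uf_mem {z : ℂ} (hz : z ∈ VV) (θ : ℝ) : uf z θ ∈ Complex.slitPlane := by
  have e : uf z θ = 1 - z * ((Real.sin θ ^ 2 : ℝ) : ℂ) := by
    unfold uf
    push_cast
    rfl
  have hs0 : 0 ≤ Real.sin θ ^ 2 := sq_nonneg _
  have hs1 : Real.sin θ ^ 2 ≤ 1 := Real.sin_sq_le_one θ
  rw [Complex.mem_slitPlane_iff, e]
  have hre : (1 - z * ((Real.sin θ ^ 2 : ℝ) : ℂ)).re = 1 - z.re * Real.sin θ ^ 2 := by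
    simp only [Complex.sub_re, Complex.one_re, Complex.re_mul_ofReal]
  have him : (1 - z * ((Real.sin θ ^ 2 : ℝ) : ℂ)).im = -(z.im * Real.sin θ ^ 2) := by
    simp only [Complex.sub_im, Complex.one_im, Complex.im_mul_ofReal, zero_sub]
  rw [hre, him]
  rcases eq_or_lt_of_le hs0 with h | h
  · left
    rw [← h]
    norm_num
  · rcases hz with hz | hz
    · right
      have := h.ne'
      simp only [ne_eq, neg_eq_zero, mul_eq_zero, not_or]
      exact ⟨hz, this⟩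
    · left
      rcases le_or_gt z.re 0 with h0 | h0
      · nlinarith
      · nlinarith

lemma continuous_uf : Continuous fun p : ℂ × ℝ => uf p.1 p.2 := by
  unfold uf
  fun_prop

lemma continuous_uf_right (z : ℂ) : Continuous (uf z) :=
  continuous_uf.comp (continuous_const.prodMk continuous_id)

lemma cont_pow (a : ℂ) {z : ℂ} (hz : z ∈ VV) : Continuous fun θ => uf z θ ^ a :=
  (continuous_uf_right z).cpow continuous_const fun θ => uf_mem hz θ

/-- the integral of a power -/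
noncomputable def JJ (a z : ℂ) : ℂ := ∫ θ in (0 : ℝ)..(Real.pi / 2), uf z θ ^ a

lemma hasDeriv_uf (z : ℂ) (θ : ℝ) :
    HasDerivAt (fun x => uf x θ) (-((Real.sin θ : ℝ) : ℂ) ^ 2) z := by
  unfold uf
  have := ((hasDerivAt_id z).mul_const (((Real.sin θ : ℝ) : ℂ) ^ 2)).const_sub 1
  simpa using this

lemma JJ_hasDeriv (a : ℂ) {z : ℂ} (hz : z ∈ VV) :
    HasDerivAt (JJ a) (∫ θ in (0 : ℝ)..(Real.pi / 2),
      a * uf z θ ^ (a - 1) * (-((Real.sin θ : ℝ) : ℂ) ^ 2)) z := by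
  obtain ⟨ε, hε, hball⟩ := Metric.isOpen_iff.1 VV_open z hz
  have hsub : Metric.closedBall z (ε / 2) ⊆ VV :=
    (Metric.closedBall_subset_ball (by linarith)).trans hball
  have hK : IsCompact (Metric.closedBall z (ε / 2) ×ˢ Set.Icc (0 : ℝ) (Real.pi / 2)) :=
    (isCompact_closedBall z (ε / 2)).prod isCompact_Icc
  have hcont : ContinuousOn (fun p : ℂ × ℝ =>
      a * uf p.1 p.2 ^ (a - 1) * (-((Real.sin p.2 : ℝ) : ℂ) ^ 2))
      (Metric.closedBall z (ε / 2) ×ˢ Set.Icc (0 : ℝ) (Real.pi / 2)) := by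
    refine ContinuousOn.mul (ContinuousOn.mul continuousOn_const ?_) ?_
    · exact continuous_uf.continuousOn.cpow continuousOn_const
        fun p hp => uf_mem (hsub hp.1) p.2
    · have : Continuous fun p : ℂ × ℝ => -((Real.sin p.2 : ℝ) : ℂ) ^ 2 := by fun_prop
      exact this.continuousOn
  obtain ⟨C, hC⟩ := hK.exists_bound_of_continuousOn hcont
  have hpi : (0 : ℝ) ≤ Real.pi / 2 := by positivity
  have h := intervalIntegral.hasDerivAt_integral_of_dominated_loc_of_deriv_le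
    (μ := volume) (a := 0) (b := Real.pi / 2) (F := fun x θ => uf x θ ^ a)
    (F' := fun x θ => a * uf x θ ^ (a - 1) * (-((Real.sin θ : ℝ) : ℂ) ^ 2))
    (x₀ := z) (s := Metric.closedBall z (ε / 2)) (bound := fun _ => C)
    (Metric.closedBall_mem_nhds z (by positivity)) ?_ ?_ ?_ ?_ ?_ ?_
  · exact h.2
  · filter_upwards [VV_open.mem_nhds hz] with x hx
    exact (cont_pow a hx).aestronglyMeasurable
  · exact (cont_pow a hz).intervalIntegrable _ _
  · have : Continuous fun θ : ℝ => a * uf z θ ^ (a - 1) * (-((Real.sin θ : ℝ) : ℂ) ^ 2) := by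
      refine (continuous_const.mul (cont_pow (a - 1) hz)).mul ?_
      fun_prop
    exact this.aestronglyMeasurable
  · refine Filter.Eventually.of_forall fun θ hθ x hx => ?_
    rw [Set.uIoc_of_le hpi] at hθ
    exact hC (x, θ) ⟨hx, hθ.1.le, hθ.2⟩
  · exact intervalIntegrable_const
  · refine Filter.Eventually.of_forall fun θ hθ x hx => ?_
    exact (hasDeriv_uf x θ).cpow_const (uf_mem (hsub hx) θ)

lemma uf_ne {z : ℂ} (hz : z ∈ VV) (θ : ℝ) : uf z θ ≠ 0 :=
  Complex.slitPlane_ne_zero (uf_mem hz θ)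

/-- `z J_a' = a (J_a - J_(a-1))` -/
lemma JJ_deriv (a : ℂ) {z : ℂ} (hz : z ∈ VV) :
    z * deriv (JJ a) z = a * (JJ a z - JJ (a - 1) z) := by
  rw [(JJ_hasDeriv a hz).deriv, ← intervalIntegral.integral_const_mul]
  unfold JJ
  rw [← intervalIntegral.integral_sub ((cont_pow a hz).intervalIntegrable _ _)
    ((cont_pow (a - 1) hz).intervalIntegrable _ _), ← intervalIntegral.integral_const_mul]
  refine intervalIntegral.integral_congr fun θ _ => ?_
  have h0 := uf_ne hz θ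
  have h1 : uf z θ ^ a = uf z θ ^ (a - 1) * uf z θ := by
    rw [Complex.cpow_sub _ _ h0, Complex.cpow_one]
    field_simp
  rw [h1]
  have h2 : z * ((Real.sin θ : ℝ) : ℂ) ^ 2 = 1 - uf z θ := by
    unfold uf; ring
  linear_combination (-a * uf z θ ^ (a - 1)) * h2

/-- `(1 - z) J_(-3/2) = J_(1/2)` -/
lemma JJ_rel {z : ℂ} (hz : z ∈ VV) :
    (1 - z) * JJ (-(3 / 2)) z = JJ (1 / 2) z := by
  have hd : ∀ θ : ℝ, HasDerivAt (fun θ : ℝ => z * (((Real.sin θ : ℝ) : ℂ) *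
      ((Real.cos θ : ℝ) : ℂ) * uf z θ ^ (-(1 / 2) : ℂ)))
      (uf z θ ^ (1 / 2 : ℂ) - (1 - z) * uf z θ ^ (-(3 / 2) : ℂ)) θ := by
    intro θ
    have hs : HasDerivAt (fun θ : ℝ => ((Real.sin θ : ℝ) : ℂ)) ((Real.cos θ : ℝ) : ℂ) θ :=
      (Real.hasDerivAt_sin θ).ofReal_comp
    have hc : HasDerivAt (fun θ : ℝ => ((Real.cos θ : ℝ) : ℂ)) ((-Real.sin θ : ℝ) : ℂ) θ :=
      (Real.hasDerivAt_cos θ).ofReal_comp
    have hu : HasDerivAt (fun θ : ℝ => uf z θ)
        (-(z * (2 * ((Real.sin θ : ℝ) : ℂ) * ((Real.cos θ : ℝ) : ℂ)))) θ := by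
      unfold uf
      have := ((hs.pow 2).const_mul z).const_sub 1
      refine this.congr_deriv ?_
      norm_num
    have hp : HasDerivAt (fun θ : ℝ => uf z θ ^ (-(1 / 2) : ℂ))
        ((-(1 / 2) : ℂ) * uf z θ ^ (-(1 / 2) - 1 : ℂ) *
          (-(z * (2 * ((Real.sin θ : ℝ) : ℂ) * ((Real.cos θ : ℝ) : ℂ))))) θ := by
      have h1 := (hasDerivAt_id (uf z θ)).cpow_const (c := (-(1 / 2) : ℂ)) (uf_mem hz θ)
      have h2 := HasDerivAt.comp (𝕜 := ℝ) (𝕜' := ℂ) θ h1 hu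
      refine h2.congr_deriv ?_
      simp
    have hall := (((hs.mul hc).mul hp)).const_mul z
    refine hall.congr_deriv ?_
    have h0 := uf_ne hz θ
    have e1 : uf z θ ^ (1 / 2 : ℂ) = uf z θ ^ (-(3 / 2) : ℂ) * uf z θ ^ 2 := by
      rw [← Complex.cpow_natCast, ← Complex.cpow_add _ _ h0]
      norm_num
    have e2 : uf z θ ^ (-(1 / 2) : ℂ) = uf z θ ^ (-(3 / 2) : ℂ) * uf z θ := by
      have : uf z θ ^ (-(1 / 2) : ℂ) = uf z θ ^ (-(3 / 2) + 1 : ℂ) := by
        congr 1; norm_num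
      rw [this, Complex.cpow_add _ _ h0, Complex.cpow_one]
    have e3 : uf z θ ^ (-(1 / 2) - 1 : ℂ) = uf z θ ^ (-(3 / 2) : ℂ) := by
      congr 1; norm_num
    simp only [Pi.mul_apply]
    rw [e3, e1, e2]
    have hsc : ((Real.sin θ : ℝ) : ℂ) ^ 2 + ((Real.cos θ : ℝ) : ℂ) ^ 2 = 1 := by
      rw [← Complex.ofReal_pow, ← Complex.ofReal_pow, ← Complex.ofReal_add,
        Real.sin_sq_add_cos_sq, Complex.ofReal_one]
    push_cast
    set S := Complex.sin (θ : ℂ) with hS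
    set Co := Complex.cos (θ : ℂ) with hCo
    have hsc' : Co ^ 2 = 1 - S ^ 2 := by
      rw [Complex.ofReal_sin, Complex.ofReal_cos] at hsc
      linear_combination hsc
    have hu' : uf z θ = 1 - z * S ^ 2 := by
      unfold uf
      rw [Complex.ofReal_sin]
    rw [hu']
    generalize (1 - z * S ^ 2) ^ (-(3 / 2) : ℂ) = W
    linear_combination (z * W * (1 - z * S ^ 2) + z ^ 2 * W * S ^ 2) * hsc'
  have hint : ∫ θ in (0 : ℝ)..(Real.pi / 2),
      (uf z θ ^ (1 / 2 : ℂ) - (1 - z) * uf z θ ^ (-(3 / 2) : ℂ)) = 0 := by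
    have hcont : Continuous fun θ : ℝ =>
        (uf z θ ^ (1 / 2 : ℂ) - (1 - z) * uf z θ ^ (-(3 / 2) : ℂ)) :=
      (cont_pow _ hz).sub (continuous_const.mul (cont_pow _ hz))
    rw [intervalIntegral.integral_eq_sub_of_hasDerivAt (fun θ _ => hd θ)
      (hcont.intervalIntegrable _ _)]
    simp
  rw [intervalIntegral.integral_sub ((cont_pow _ hz).intervalIntegrable _ _)
    (((cont_pow _ hz).intervalIntegrable _ _).const_mul _),
    intervalIntegral.integral_const_mul] at hint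
  unfold JJ
  linear_combination -hint

lemma EK_eq : EK = JJ (-(1 / 2)) := rfl
lemma EE_eq : EE = JJ (1 / 2) := rfl

end EllAux

open EllAux

theorem EK_differentiable {z : ℂ} (hz : z.im ≠ 0 ∨ z.re < 1) : DifferentiableAt ℂ EK z := by
  rw [EK_eq]
  exact (JJ_hasDeriv _ hz).differentiableAt

theorem EE_differentiable {z : ℂ} (hz : z.im ≠ 0 ∨ z.re < 1) : DifferentiableAt ℂ EE z := by
  rw [EE_eq]
  exact (JJ_hasDeriv _ hz).differentiableAt

theorem EK_deriv {z : ℂ} (hz : z.im ≠ 0 ∨ z.re < 1) :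
    2 * z * (1 - z) * deriv EK z = EE z - (1 - z) * EK z := by
  have h1 := JJ_deriv (-(1 / 2)) hz
  have h2 := JJ_rel hz
  rw [show (-(1 / 2) - 1 : ℂ) = -(3 / 2) by norm_num] at h1
  rw [EK_eq, EE_eq]
  linear_combination 2 * (1 - z) * h1 + h2

theorem EE_deriv {z : ℂ} (hz : z.im ≠ 0 ∨ z.re < 1) :
    2 * z * deriv EE z = EE z - EK z := by
  have h1 := JJ_deriv (1 / 2) hz
  rw [show (1 / 2 - 1 : ℂ) = -(1 / 2) by norm_num] at h1
  rw [EK_eq, EE_eq]
  linear_combination 2 * h1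

theorem EK_zero : EK 0 = Real.pi / 2 := by
  unfold EK
  simp

theorem EE_zero : EE 0 = Real.pi / 2 := by
  unfold EE
  simp

theorem det_half : (PR (1 / 2)).det ≠ 0 := by
  have hu : ∀ θ : ℝ, (1 / 2 : ℝ) ≤ 1 - 1 / 2 * Real.sin θ ^ 2 := by
    intro θ
    have := Real.sin_sq_le_one θ
    linarith
  have hK : EK (1 / 2) = ((∫ θ in (0 : ℝ)..(Real.pi / 2),
      (1 - 1 / 2 * Real.sin θ ^ 2) ^ (-(1 / 2) : ℝ) : ℝ) : ℂ) := by
    unfold EK
    rw [← intervalIntegral.integral_ofReal]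
    refine intervalIntegral.integral_congr fun θ _ => ?_
    rw [Complex.ofReal_cpow (by linarith [hu θ])]
    push_cast
    rfl
  have hE : EE (1 / 2) = ((∫ θ in (0 : ℝ)..(Real.pi / 2),
      (1 - 1 / 2 * Real.sin θ ^ 2) ^ ((1 / 2) : ℝ) : ℝ) : ℂ) := by
    unfold EE
    rw [← intervalIntegral.integral_ofReal]
    refine intervalIntegral.integral_congr fun θ _ => ?_
    rw [Complex.ofReal_cpow (by linarith [hu θ])]
    push_cast
    rfl
  have hcont : ∀ a : ℝ, Continuous fun θ : ℝ => (1 - 1 / 2 * Real.sin θ ^ 2) ^ a := by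
    intro a
    refine Continuous.rpow_const (by fun_prop) fun θ => ?_
    left
    have := hu θ
    linarith
  have hpi : (0 : ℝ) < Real.pi / 2 := by positivity
  set K := ∫ θ in (0 : ℝ)..(Real.pi / 2), (1 - 1 / 2 * Real.sin θ ^ 2) ^ (-(1 / 2) : ℝ) with hKd
  set E := ∫ θ in (0 : ℝ)..(Real.pi / 2), (1 - 1 / 2 * Real.sin θ ^ 2) ^ ((1 / 2) : ℝ) with hEd
  have hKpos : 0 < K := by
    refine intervalIntegral.intervalIntegral_pos_of_pos ((hcont _).intervalIntegrable _ _)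
      (fun θ => ?_) hpi
    have := hu θ
    positivity
  have hD : 0 < 2 * E - K := by
    have e : 2 * E - K = ∫ θ in (0 : ℝ)..(Real.pi / 2), (2 * (1 - 1 / 2 * Real.sin θ ^ 2) ^
        ((1 / 2) : ℝ) - (1 - 1 / 2 * Real.sin θ ^ 2) ^ (-(1 / 2) : ℝ)) := by
      rw [intervalIntegral.integral_sub (((hcont _).intervalIntegrable _ _).const_mul 2)
        ((hcont _).intervalIntegrable _ _), intervalIntegral.integral_const_mul]
    rw [e]
    refine intervalIntegral.intervalIntegral_pos_of_pos_on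
      ((((hcont _).intervalIntegrable _ _).const_mul 2).sub ((hcont _).intervalIntegrable _ _))
      (fun θ hθ => ?_) hpi
    have h1 : Real.sin θ ^ 2 < 1 := by
      have h2 : 0 < Real.cos θ := Real.cos_pos_of_mem_Ioo ⟨by linarith [hθ.1], hθ.2⟩
      nlinarith [Real.sin_sq_add_cos_sq θ]
    have h3 : 0 < 1 - 1 / 2 * Real.sin θ ^ 2 := by linarith [hu θ]
    have h4 : (1 - 1 / 2 * Real.sin θ ^ 2) ^ ((1 / 2) : ℝ) =
        (1 - 1 / 2 * Real.sin θ ^ 2) ^ (-(1 / 2) : ℝ) * (1 - 1 / 2 * Real.sin θ ^ 2) := by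
      rw [← Real.rpow_add_one h3.ne']
      norm_num
    rw [h4]
    have h5 : 0 < (1 - 1 / 2 * Real.sin θ ^ 2) ^ (-(1 / 2) : ℝ) := by positivity
    nlinarith
  have hdet : (PR (1 / 2)).det = ((K * (2 * E - K) : ℝ) : ℂ) := by
    unfold PR
    rw [Matrix.det_fin_two_of, show (1 - 1 / 2 : ℂ) = 1 / 2 by norm_num, hK, hE]
    push_cast
    ring
  rw [hdet]
  exact_mod_cast (mul_pos hKpos hD).ne'

end Pool.Agent.Helper37.GP
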