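import Pool.Agent.Helper37.GP.Defs2

/-!
# GP-18: functional independence of the period matrices
-/

open Polynomial

namespace Pool.Agent.Helper37.GP

/-! ### generation of `SL₂` -/

theorem fi_sl2_induction (good : Matrix (Fin 2) (Fin 2) ℂ → Prop) (h1 : good 1)
    (h12 : ∀ (x : ℂ) g, good g → good (!![1, x; 0, 1] * g))
    (h21 : ∀ (x : ℂ) g, good g → good (!![1, 0; x, 1] * g))
    (g : Matrix (Fin 2) (Fin 2) ℂ) (hg : g.det = 1) : good g := by
  have key : ∀ M : Matrix (Fin 2) (Fin 2) ℂ, M.det = 1 → M 1 0 ≠ 0 → good M := by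
    intro M hM hc
    have e : M = !![1, (M 0 0 - 1) / M 1 0; 0, 1] * (!![1, 0; M 1 0, 1] *
        (!![1, (M 1 1 - 1) / M 1 0; 0, 1] * 1)) := by
      rw [Matrix.det_fin_two] at hM
      have h01 : M 0 1 = (M 0 0 * M 1 1 - 1) / M 1 0 := by
        field_simp
        linear_combination -hM
      ext i j
      fin_cases i <;> fin_cases j <;>
        simp [Matrix.mul_apply, Fin.sum_univ_two, h01] <;> field_simp <;> ring
    rw [e]
    exact h12 _ _ (h21 _ _ (h12 _ _ h1))
  by_cases hc : g 1 0 = 0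
  · have h00 : g 0 0 ≠ 0 := by
      intro h
      rw [Matrix.det_fin_two, hc, h] at hg
      simp at hg
    have h2 : good (!![1, 0; 1, 1] * g) := by
      apply key
      · rw [Matrix.det_mul, hg]; simp [Matrix.det_fin_two]
      · simp [Matrix.mul_apply, Fin.sum_univ_two, hc, h00]
    have h3 := h21 (-1) _ h2
    have e : (!![1, 0; -1, 1] : Matrix (Fin 2) (Fin 2) ℂ) * (!![1, 0; 1, 1] * g) = g := by
      rw [← Matrix.mul_assoc]
      have : (!![1, 0; -1, 1] : Matrix (Fin 2) (Fin 2) ℂ) * !![1, 0; 1, 1] = 1 := by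
        ext i j
        fin_cases i <;> fin_cases j <;> simp [Matrix.mul_apply, Fin.sum_univ_two]
      rw [this, Matrix.one_mul]
    rwa [e] at h3
  · exact key g hg hc

/-! ### analytic evaluation -/

theorem fi_analyticAt_eval {ι : Type} [Fintype ι] (p : MvPolynomial ι ℂ[X]) {z₀ : ℂ}
    {σ : ℂ → ℂ} (hσ : AnalyticAt ℂ σ z₀) {w : ℂ → ι → ℂ}
    (hw : ∀ i, AnalyticAt ℂ (fun z => w z i) z₀) :
    AnalyticAt ℂ (fun z => MvPolynomial.eval₂ (evalRingHom (σ z)) (w z) p) z₀ := by
  simp_rw [MvPolynomial.eval₂_eq']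
  refine Finset.analyticAt_fun_sum _ fun m _ => ?_
  refine AnalyticAt.mul ?_ (Finset.analyticAt_fun_prod _ fun i _ => (hw i).pow _)
  simp_rw [coe_evalRingHom]
  exact ((p.coeff m).differentiable.analyticAt (σ z₀)).comp hσ

/-- the ring of functions analytic on a ball -/
def fiRing (r : ℝ) : Subring (ℂ → ℂ) where
  carrier := {f | AnalyticOnNhd ℂ f (Metric.ball 0 r)}
  mul_mem' := fun ha hb => AnalyticOnNhd.mul ha hb
  one_mem' := analyticOnNhd_const
  add_mem' := fun ha hb => AnalyticOnNhd.add ha hb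
  zero_mem' := analyticOnNhd_const
  neg_mem' := fun ha => AnalyticOnNhd.neg ha

theorem fi_exists_coeffs {ι : Type} (p : MvPolynomial ι ℂ[X]) (r : ℝ) {σ : ℂ → ℂ}
    (hσ : AnalyticOnNhd ℂ σ (Metric.ball 0 r)) {A B : ι → ℂ → ℂ}
    (hA : ∀ i, AnalyticOnNhd ℂ (A i) (Metric.ball 0 r))
    (hB : ∀ i, AnalyticOnNhd ℂ (B i) (Metric.ball 0 r)) :
    ∃ (m : ℕ) (c : ℕ → ℂ → ℂ), (∀ k, AnalyticOnNhd ℂ (c k) (Metric.ball 0 r)) ∧
      ∀ t y : ℂ, MvPolynomial.eval₂ (evalRingHom (σ t)) (fun i => A i t + y * B i t) p =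
        ∑ k ∈ Finset.range (m + 1), c k t * y ^ k := by
  classical
  let ψ : ℂ[X] →+* fiRing r :=
    { toFun := fun q => ⟨fun t => q.eval (σ t), fun t ht =>
        (q.differentiable.analyticAt (σ t)).comp (hσ t ht)⟩
      map_one' := by ext t; simp
      map_mul' := fun a b => by ext t; simp
      map_zero' := by ext t; simp
      map_add' := fun a b => by ext t; simp }
  let P : (fiRing r)[X] := MvPolynomial.eval₂ (Polynomial.C.comp ψ)
    (fun i => Polynomial.C ⟨A i, hA i⟩ + X * Polynomial.C ⟨B i, hB i⟩) p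
  refine ⟨P.natDegree, fun k => (P.coeff k).1, fun k => (P.coeff k).2, fun t y => ?_⟩
  let ev : fiRing r →+* ℂ := (Pi.evalRingHom (fun _ : ℂ => ℂ) t).comp (fiRing r).subtype
  have h1 : P.eval₂ ev y = ∑ k ∈ Finset.range (P.natDegree + 1), (P.coeff k).1 t * y ^ k := by
    rw [Polynomial.eval₂_eq_sum_range]
    rfl
  rw [← h1]
  have h2 : P.eval₂ ev y = Polynomial.eval₂RingHom ev y P := rfl
  rw [h2, MvPolynomial.hom_eval₂]
  have h3 : (Polynomial.eval₂RingHom ev y).comp (Polynomial.C.comp ψ) = evalRingHom (σ t) := by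
    ext a <;> simp [ψ, ev]
  have h4 : (⇑(Polynomial.eval₂RingHom ev y) ∘
      fun i => (Polynomial.C ⟨A i, hA i⟩ + X * Polynomial.C ⟨B i, hB i⟩ : (fiRing r)[X])) =
      fun i => A i t + y * B i t := by
    funext i
    show Polynomial.eval₂ ev y
      (Polynomial.C ⟨A i, hA i⟩ + X * Polynomial.C ⟨B i, hB i⟩ : (fiRing r)[X]) = _
    rw [Polynomial.eval₂_add, Polynomial.eval₂_mul, Polynomial.eval₂_X, Polynomial.eval₂_C,
      Polynomial.eval₂_C]
    rfl
  rw [h3]
  congr 1
  exact h4.symm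

/-! ### the argument -/

/-- The half plane of `s` for which all `λ_j` are in the upper half plane. -/
def fiH (c : ℝ) : Set ℂ := {s | c * s.im < 0}

theorem fiH_open (c : ℝ) : IsOpen (fiH c) :=
  isOpen_lt (continuous_const.mul Complex.continuous_im) continuous_const

theorem fiH_convex (c : ℝ) : Convex ℝ (fiH c) := by
  intro x hx y hy a b ha hb hab
  simp only [fiH, Set.mem_ofPred_eq] at hx hy ⊢
  have e : (a • x + b • y).im = a * x.im + b * y.im := by simp
  rw [e]
  rcases ha.eq_or_lt with rfl | ha'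
  · have hb1 : b = 1 := by linarith
    subst hb1
    simpa using hy
  · nlinarith

/-- `λ(s) = s₀ + c / (a + k s)` -/
noncomputable def fiL (s₀ c a : ℝ) (k : ℕ) (s : ℂ) : ℂ := s₀ + c / (a + k * s)

theorem fi_den_ne {c a : ℝ} (_hc : c ≠ 0) {k : ℕ} (hk : 1 ≤ k) {s : ℂ} (hs : s ∈ fiH c) :
    ((a : ℂ) + k * s) ≠ 0 := by
  intro h
  have h1 := congrArg Complex.im h
  simp at h1
  rcases h1 with h1 | h1
  · omega
  · simp [fiH, h1] at hs

theorem fiL_im {s₀ c a : ℝ} {k : ℕ} (hk : 1 ≤ k) {s : ℂ} (hc : c ≠ 0) (hs : s ∈ fiH c) :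
    0 < (fiL s₀ c a k s).im := by
  have hne := fi_den_ne (a := a) hc hk hs
  unfold fiL
  rw [Complex.add_im, Complex.ofReal_im, zero_add, Complex.div_im]
  simp only [Complex.ofReal_im, zero_mul, zero_div, Complex.ofReal_re, zero_sub, Complex.add_im,
    Complex.mul_im, Complex.natCast_re, Complex.natCast_im, zero_add, add_zero]
  have hk' : (0 : ℝ) < k := by exact_mod_cast hk
  have hs' : c * s.im < 0 := hs
  have hpos : 0 < Complex.normSq ((a : ℂ) + k * s) := Complex.normSq_pos.mpr hne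
  rw [← neg_div]
  apply div_pos _ hpos
  nlinarith

theorem fi_mem_UU {s₀ c a : ℝ} {k : ℕ} (hk : 1 ≤ k) {s : ℂ} (hc : c ≠ 0) (hs : s ∈ fiH c) :
    fiL s₀ c a k s ∈ UU := Or.inl (fiL_im hk hc hs).ne'

theorem fiL_analyticAt {s₀ c a : ℝ} {k : ℕ} {s : ℂ} (h : ((a : ℂ) + k * s) ≠ 0) :
    AnalyticAt ℂ (fiL s₀ c a k) s := by
  unfold fiL
  fun_prop (disch := assumption)

theorem fi_UU_open : IsOpen UU := by
  have h1 : IsOpen {t : ℂ | t.im ≠ 0} :=
    isOpen_ne_fun Complex.continuous_im continuous_const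
  have h2 : IsOpen {t : ℂ | 0 < t.re ∧ t.re < 1} :=
    (isOpen_lt continuous_const Complex.continuous_re).inter
      (isOpen_lt Complex.continuous_re continuous_const)
  exact h1.union h2

section

variable (hPA : ∀ a b : Fin 2, AnalyticOnNhd ℂ (fun t => PR t a b) UU)
variable (hlog : ∀ {m : ℕ} {r : ℝ} (_ : 0 < r) (c : ℕ → ℂ → ℂ)
    (_ : ∀ k, AnalyticOnNhd ℂ (c k) (Metric.ball 0 r))
    (_ : ∀ t : ℂ, t ∈ Metric.ball (0 : ℂ) r → 0 < t.im →
      ∑ k ∈ Finset.range (m + 1), c k t * Complex.log t ^ k = 0),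
    ∀ k ≤ m, ∀ t ∈ Metric.ball (0 : ℂ) r, c k t = 0)

include hPA in
theorem fi_PR_analytic {σ : ℂ → ℂ} {z : ℂ} (hσ : AnalyticAt ℂ σ z) (hz : σ z ∈ UU) (a b : Fin 2) :
    AnalyticAt ℂ (fun s => PR (σ s) a b) z :=
  (hPA a b (σ z) hz).comp hσ

theorem fi_mul_analytic {F G : ℂ → Matrix (Fin 2) (Fin 2) ℂ} {z : ℂ}
    (hF : ∀ a b, AnalyticAt ℂ (fun t => F t a b) z) (hG : ∀ a b, AnalyticAt ℂ (fun t => G t a b) z)
    (a b : Fin 2) : AnalyticAt ℂ (fun t => (F t * G t) a b) z := by
  simp only [Matrix.mul_apply, Fin.sum_univ_two]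
  exact ((hF a 0).mul (hG 0 b)).add ((hF a 1).mul (hG 1 b))

include hPA hlog in
/-- One monodromy step. -/
theorem fi_step {d : ℕ} {s₀ c a : ℝ} (hc : c ≠ 0) {k : Fin d → ℕ} (hk : ∀ j, 1 ≤ k j)
    (p : MvPolynomial (Var d) ℂ[X]) (i : Fin d) (Z : Fin d → Matrix (Fin 2) (Fin 2) ℂ)
    (Q : Matrix (Fin 2) (Fin 2) ℂ)
    -- local data at `l₀`
    (l₀ : ℝ) (hl₀ : l₀ ≠ s₀) (N : Matrix (Fin 2) (Fin 2) ℂ) (hN : N * N = 0)
    {r₀ : ℝ} (hr₀ : 0 < r₀) {β : ℂ} (hβ : β ≠ 0) (G : ℂ → Matrix (Fin 2) (Fin 2) ℂ)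
    (hG : ∀ a b, AnalyticOnNhd ℂ (fun t => G t a b) (Metric.ball 0 r₀))
    (hPG : ∀ t ∈ Metric.ball (0 : ℂ) r₀, 0 < t.im →
      PR (l₀ + t) = G t * (1 + (β * Complex.log t) • N))
    -- separation
    (hsep : ∀ j : Fin d, i < j → a + (k j / k i : ℝ) * (c / (l₀ - s₀) - a) ≠ 0 ∧
      0 < s₀ + c / (a + (k j / k i : ℝ) * (c / (l₀ - s₀) - a)) ∧
      s₀ + c / (a + (k j / k i : ℝ) * (c / (l₀ - s₀) - a)) < 1)
    (x : ℂ) (g : Matrix (Fin 2) (Fin 2) ℂ)
    (hg : ∀ s ∈ fiH c, MvPolynomial.eval₂ (evalRingHom s)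
      (pt fun j => if j < i then Z j else if j = i then PR (fiL s₀ c a (k j) s) * g * Q
        else PR (fiL s₀ c a (k j) s) * Q) p = 0) :
    ∀ s ∈ fiH c, MvPolynomial.eval₂ (evalRingHom s)
      (pt fun j => if j < i then Z j else if j = i then
          PR (fiL s₀ c a (k j) s) * ((1 + x • N) * g) * Q
        else PR (fiL s₀ c a (k j) s) * Q) p = 0 := by
  classical
  have hki : (k i : ℂ) ≠ 0 := by
    have := hk i
    exact_mod_cast (show (k i : ℕ) ≠ 0 by omega)
  have hki' : (0 : ℝ) < (k i : ℝ) := by exact_mod_cast hk i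
  have hcC : (c : ℂ) ≠ 0 := by exact_mod_cast hc
  have hls : (l₀ : ℂ) - s₀ ≠ 0 := by
    rw [sub_ne_zero]; exact_mod_cast hl₀
  -- the local parameter
  set σ : ℂ → ℂ := fun t => (c / (l₀ + t - s₀) - a) / k i with hσdef
  have hσan : ∀ t : ℂ, (l₀ : ℂ) + t - s₀ ≠ 0 → AnalyticAt ℂ σ t := by
    intro t ht
    rw [hσdef]
    fun_prop (disch := assumption)
  have hne0 : (l₀ : ℂ) + 0 - s₀ ≠ 0 := by rwa [add_zero]
  -- values at `t = 0`
  have hval : ∀ j : Fin d, (a : ℂ) + k j * σ 0 =
      ((a + (k j / k i : ℝ) * (c / (l₀ - s₀) - a) : ℝ) : ℂ) := by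
    intro j
    rw [hσdef]
    push_cast
    simp only [add_zero]
    field_simp
  have hden : ∀ j : Fin d, i < j → (a : ℂ) + k j * σ 0 ≠ 0 := by
    intro j hj
    rw [hval j]
    exact_mod_cast (hsep j hj).1
  have hmem : ∀ j : Fin d, i < j → fiL s₀ c a (k j) (σ 0) ∈ UU := by
    intro j hj
    unfold fiL
    rw [hval j]
    right
    have e : (s₀ : ℂ) + c / ((a + (k j / k i : ℝ) * (c / (l₀ - s₀) - a) : ℝ) : ℂ) =
        ((s₀ + c / (a + (k j / k i : ℝ) * (c / (l₀ - s₀) - a)) : ℝ) : ℂ) := by push_cast; ring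
    rw [e, Complex.ofReal_re]
    exact ⟨(hsep j hj).2.1, (hsep j hj).2.2⟩
  -- a small radius
  have hev : ∀ᶠ t in nhds (0 : ℂ), (l₀ : ℂ) + t - s₀ ≠ 0 ∧ t ∈ Metric.ball (0 : ℂ) r₀ ∧
      ∀ j : Fin d, i < j → ((a : ℂ) + k j * σ t ≠ 0 ∧ fiL s₀ c a (k j) (σ t) ∈ UU) := by
    have e1 : ∀ᶠ t in nhds (0 : ℂ), (l₀ : ℂ) + t - s₀ ≠ 0 := by
      have : ContinuousAt (fun t : ℂ => (l₀ : ℂ) + t - s₀) 0 := by fun_prop
      exact this.eventually_ne hne0
    have e2 : ∀ᶠ t in nhds (0 : ℂ), t ∈ Metric.ball (0 : ℂ) r₀ := Metric.ball_mem_nhds _ hr₀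
    have e3 : ∀ j : Fin d, ∀ᶠ t in nhds (0 : ℂ), i < j →
        ((a : ℂ) + k j * σ t ≠ 0 ∧ fiL s₀ c a (k j) (σ t) ∈ UU) := by
      intro j
      by_cases hj : i < j
      · have c1 : ContinuousAt (fun t : ℂ => (a : ℂ) + k j * σ t) 0 :=
          continuousAt_const.add (continuousAt_const.mul (hσan 0 hne0).continuousAt)
        have c2 : ContinuousAt (fun t : ℂ => fiL s₀ c a (k j) (σ t)) 0 :=
          (fiL_analyticAt (s₀ := s₀) (c := c) (hden j hj)).continuousAt.comp (hσan 0 hne0).continuousAt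
        filter_upwards [c1.eventually_ne (hden j hj),
          c2.preimage_mem_nhds (fi_UU_open.mem_nhds (hmem j hj))] with t h1 h2 _
        exact ⟨h1, h2⟩
      · exact Filter.Eventually.of_forall fun t h => absurd h hj
    filter_upwards [e1, e2, Filter.eventually_all.mpr e3] with t h1 h2 h3
    exact ⟨h1, h2, h3⟩
  obtain ⟨r, hr, hball⟩ := Metric.eventually_nhds_iff_ball.mp hev
  -- the coefficient functions
  set A : Var d → ℂ → ℂ := fun v t => (if v.1 < i then Z v.1 else if v.1 = i then G t * g * Q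
    else PR (fiL s₀ c a (k v.1) (σ t)) * Q) v.2.1 v.2.2 with hA
  set B : Var d → ℂ → ℂ := fun v t => (if v.1 = i then G t * (N * g) * Q else 0) v.2.1 v.2.2 with hB
  have hGan : ∀ t ∈ Metric.ball (0 : ℂ) r, ∀ a b, AnalyticAt ℂ (fun t => G t a b) t :=
    fun t ht a b => hG a b t (hball t ht).2.1
  have hconst : ∀ (M : Matrix (Fin 2) (Fin 2) ℂ) (t : ℂ) (a b : Fin 2),
      AnalyticAt ℂ (fun _ : ℂ => M a b) t := fun M t a b => analyticAt_const
  have hAan : ∀ v, AnalyticOnNhd ℂ (A v) (Metric.ball 0 r) := by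
    intro v t ht
    rw [hA]
    by_cases h1 : v.1 < i
    · simp only [h1, if_true]
      exact analyticAt_const
    · by_cases h2 : v.1 = i
      · simp only [h2, if_true, if_false, lt_irrefl]
        exact fi_mul_analytic (fun a b => fi_mul_analytic (hGan t ht) (hconst g t) a b)
          (hconst Q t) _ _
      · have h3 : i < v.1 := lt_of_le_of_ne (not_lt.mp h1) (Ne.symm h2)
        simp only [h1, h2, if_false]
        refine fi_mul_analytic (fun a b => ?_) (hconst Q t) _ _
        have h4 := (hball t ht).2.2 v.1 h3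
        exact fi_PR_analytic hPA (AnalyticAt.comp (fiL_analyticAt h4.1) (hσan t (hball t ht).1))
          h4.2 a b
  have hBan : ∀ v, AnalyticOnNhd ℂ (B v) (Metric.ball 0 r) := by
    intro v t ht
    rw [hB]
    by_cases h2 : v.1 = i
    · simp only [h2, if_true]
      exact fi_mul_analytic (fun a b => fi_mul_analytic (hGan t ht) (hconst (N * g) t) a b)
        (hconst Q t) _ _
    · simp only [h2, if_false]
      exact analyticAt_const
  obtain ⟨m, cc, hcan, hcc⟩ := fi_exists_coeffs p r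
    (fun t ht => hσan t (hball t ht).1) hAan hBan
  -- geometry of the parameter
  have hlam : ∀ t : ℂ, (l₀ : ℂ) + t - s₀ ≠ 0 → fiL s₀ c a (k i) (σ t) = l₀ + t := by
    intro t ht
    have e1 : (a : ℂ) + k i * σ t = c / (l₀ + t - s₀) := by
      rw [hσdef]
      field_simp
      ring
    unfold fiL
    rw [e1, div_div_cancel₀ hcC]
    ring
  have hHmem : ∀ t : ℂ, (l₀ : ℂ) + t - s₀ ≠ 0 → 0 < t.im → σ t ∈ fiH c := by
    intro t ht him
    have hpos : 0 < Complex.normSq ((l₀ : ℂ) + t - s₀) := Complex.normSq_pos.mpr ht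
    have e : (σ t).im = -(c * t.im / Complex.normSq ((l₀ : ℂ) + t - s₀)) / k i := by
      have : σ t = (((1 / (k i : ℝ) : ℝ)) : ℂ) * (c / (l₀ + t - s₀) - a) := by
        rw [hσdef]; push_cast; field_simp
      rw [this, Complex.im_ofReal_mul, Complex.sub_im, Complex.div_im]
      simp
      ring
    show c * (σ t).im < 0
    rw [e]
    have h5 : 0 < c * c * t.im / Complex.normSq ((l₀ : ℂ) + t - s₀) / k i := by
      have := mul_self_pos.mpr hc
      positivity
    have e2 : c * (-(c * t.im / Complex.normSq ((l₀ : ℂ) + t - s₀)) / k i) =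
        -(c * c * t.im / Complex.normSq ((l₀ : ℂ) + t - s₀) / k i) := by ring
    rw [e2]
    linarith
  -- the value of the relation
  have hrel : ∀ t ∈ Metric.ball (0 : ℂ) r, 0 < t.im → ∀ y : ℂ,
      MvPolynomial.eval₂ (evalRingHom (σ t))
      (pt fun j => if j < i then Z j else if j = i then
          PR (fiL s₀ c a (k j) (σ t)) * ((1 + y • N) * g) * Q
        else PR (fiL s₀ c a (k j) (σ t)) * Q) p =
      ∑ k ∈ Finset.range (m + 1), cc k t * (β * Complex.log t + y) ^ k := by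
    intro t ht him y
    rw [← hcc t]
    congr 1
    funext v
    have hb := hball t ht
    simp only [pt, hA, hB]
    by_cases h1 : v.1 < i
    · have h2 : v.1 ≠ i := h1.ne
      simp [h1, h2]
    · by_cases h2 : v.1 = i
      · simp only [h2, if_true, if_false, lt_irrefl]
        rw [hlam t hb.1, hPG t hb.2.1 him]
        have e : G t * (1 + (β * Complex.log t) • N) * ((1 + y • N) * g) * Q =
            G t * g * Q + (β * Complex.log t + y) • (G t * (N * g) * Q) := by
          have e1 : (1 + (β * Complex.log t) • N) * (1 + y • N) =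
              1 + (β * Complex.log t + y) • N := by
            simp only [Matrix.mul_add, Matrix.add_mul, Matrix.mul_one, Matrix.one_mul,
              Matrix.smul_mul, Matrix.mul_smul, hN, smul_zero, add_zero, add_smul]
            abel
          rw [Matrix.mul_assoc (G t), ← Matrix.mul_assoc (1 + (β * Complex.log t) • N), e1,
            Matrix.add_mul, Matrix.mul_add, Matrix.add_mul, Matrix.one_mul, Matrix.smul_mul,
            Matrix.mul_smul, Matrix.smul_mul]
        rw [e]
        simp [Matrix.add_apply, Matrix.smul_apply]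
      · simp [h1, h2]
  -- the coefficients vanish
  have hzero : ∀ k ≤ m, ∀ t ∈ Metric.ball (0 : ℂ) r, cc k t = 0 := by
    have h1 := hlog hr (m := m) (fun k t => cc k t * β ^ k)
      (fun k => (hcan k).mul analyticOnNhd_const) (by
        intro t ht him
        have h2 := hrel t ht him 0
        have h3 := hg (σ t) (hHmem t (hball t ht).1 him)
        rw [zero_smul, add_zero, Matrix.one_mul, h3, add_zero] at h2
        rw [h2]
        refine Finset.sum_congr rfl fun k _ => ?_
        rw [mul_pow]; ring)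
    intro k hkm t ht
    exact (mul_eq_zero.mp (h1 k hkm t ht)).resolve_right (pow_ne_zero _ hβ)
  have hnew : ∀ t ∈ Metric.ball (0 : ℂ) r, 0 < t.im →
      MvPolynomial.eval₂ (evalRingHom (σ t))
      (pt fun j => if j < i then Z j else if j = i then
          PR (fiL s₀ c a (k j) (σ t)) * ((1 + x • N) * g) * Q
        else PR (fiL s₀ c a (k j) (σ t)) * Q) p = 0 := by
    intro t ht him
    rw [hrel t ht him x]
    refine Finset.sum_eq_zero fun k hk' => ?_
    rw [hzero k (Nat.lt_succ_iff.mp (Finset.mem_range.mp hk')) t ht, zero_mul]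
  -- identity theorem
  have hmain : AnalyticOnNhd ℂ (fun s => MvPolynomial.eval₂ (evalRingHom s)
      (pt fun j => if j < i then Z j else if j = i then
          PR (fiL s₀ c a (k j) s) * ((1 + x • N) * g) * Q
        else PR (fiL s₀ c a (k j) s) * Q) p) (fiH c) := by
    intro s hs
    refine fi_analyticAt_eval p analyticAt_id fun v => ?_
    simp only [pt]
    have hPRan : ∀ a' b', AnalyticAt ℂ (fun s => PR (fiL s₀ c a (k v.1) s) a' b') s :=
      fun a' b' => fi_PR_analytic hPA (fiL_analyticAt (fi_den_ne hc (hk v.1) hs))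
        (fi_mem_UU (hk v.1) hc hs) a' b'
    by_cases h1 : v.1 < i
    · simp only [h1, if_true]
      exact analyticAt_const
    · by_cases h2 : v.1 = i
      · simp only [h2, if_true, if_false, lt_irrefl]
        rw [h2] at hPRan
        exact fi_mul_analytic (fun a b => fi_mul_analytic hPRan
          (hconst ((1 + x • N) * g) s) a b) (hconst Q s) _ _
      · simp only [h1, h2, if_false]
        exact fi_mul_analytic hPRan (hconst Q s) _ _
  -- a base point
  set t₁ : ℂ := ((r / 2 : ℝ) : ℂ) * Complex.I with ht₁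
  have ht₁im : 0 < t₁.im := by rw [ht₁]; simp; linarith
  have ht₁ball : t₁ ∈ Metric.ball (0 : ℂ) r := by
    rw [mem_ball_zero_iff, ht₁, norm_mul, Complex.norm_I, Complex.norm_real, mul_one,
      Real.norm_eq_abs, abs_of_pos (by linarith)]
    linarith
  have hs₁ : σ t₁ ∈ fiH c := hHmem t₁ (hball t₁ ht₁ball).1 ht₁im
  have hinv : ∀ s ∈ fiH c, σ (fiL s₀ c a (k i) s - l₀) = s := by
    intro s hs
    have hne := fi_den_ne (a := a) hc (hk i) hs
    rw [hσdef]
    unfold fiL
    have e1 : (l₀ : ℂ) + (s₀ + c / (a + k i * s) - l₀) - s₀ = c / (a + k i * s) := by ring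
    simp only
    rw [e1]
    field_simp
    ring
  have hevent : ∀ᶠ s in nhds (σ t₁), (fun s => MvPolynomial.eval₂ (evalRingHom s)
      (pt fun j => if j < i then Z j else if j = i then
          PR (fiL s₀ c a (k j) s) * ((1 + x • N) * g) * Q
        else PR (fiL s₀ c a (k j) s) * Q) p) s = 0 := by
    have hcont : ContinuousAt (fun s => fiL s₀ c a (k i) s - l₀) (σ t₁) :=
      (fiL_analyticAt (fi_den_ne hc (hk i) hs₁)).continuousAt.sub continuousAt_const
    have hval1 : fiL s₀ c a (k i) (σ t₁) - l₀ = t₁ := by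
      rw [hlam t₁ (hball t₁ ht₁ball).1]; ring
    have hopen : IsOpen (Metric.ball (0 : ℂ) r ∩ {t : ℂ | 0 < t.im}) :=
      Metric.isOpen_ball.inter (isOpen_lt continuous_const Complex.continuous_im)
    have hmemn : (Metric.ball (0 : ℂ) r ∩ {t : ℂ | 0 < t.im}) ∈
        nhds (fiL s₀ c a (k i) (σ t₁) - l₀) := by
      rw [hval1]
      exact hopen.mem_nhds ⟨ht₁ball, ht₁im⟩
    filter_upwards [hcont.preimage_mem_nhds hmemn, (fiH_open c).mem_nhds hs₁] with s h1 h2
    have h3 := hnew _ h1.1 h1.2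
    rw [hinv s h2] at h3
    exact h3
  intro s hs
  exact hmain.eqOn_zero_of_preconnected_of_eventuallyEq_zero (fiH_convex c).isPreconnected hs₁
    hevent hs

include hPA in
/-- The relation on the half plane. -/
theorem fi_base {d : ℕ} {s₀ c : ℝ} (h0 : 0 < s₀) (h1 : s₀ < 1) (hc : c ≠ 0) {a : ℝ}
    (ha : 0 ≤ a) {k : Fin d → ℕ} (hk : ∀ j, 1 ≤ k j)
    (p : MvPolynomial (Var d) ℂ[X]) {s₁ : ℝ} (Q : Matrix (Fin 2) (Fin 2) ℂ)
    (h : ∀ s : ℝ, s₁ ≤ s → MvPolynomial.eval₂ (evalRingHom (s : ℂ))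
      (pt fun j => PR (fiL s₀ c a (k j) s) * Q) p = 0) :
    ∀ s ∈ fiH c, MvPolynomial.eval₂ (evalRingHom s)
      (pt fun j => PR (fiL s₀ c a (k j) s) * Q) p = 0 := by
  set μ : ℝ := min s₀ (1 - s₀) with hμ
  have hμ0 : 0 < μ := lt_min h0 (by linarith)
  set s₂ : ℝ := max s₁ 0 + 3 + |c| / μ with hs₂
  have hcμ : 0 ≤ |c| / μ := by positivity
  have hs₂pos : 3 ≤ s₂ := by
    have := le_max_right s₁ 0
    rw [hs₂]; linarith
  have hs₂s₁ : s₁ ≤ s₂ := by
    have := le_max_left s₁ 0
    rw [hs₂]; linarith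
  -- the ball around `s₂`
  have hballre : ∀ s ∈ Metric.ball (s₂ : ℂ) 1, s₂ - 1 < s.re := by
    intro s hs
    rw [mem_ball_iff_norm] at hs
    have h2 := Complex.abs_re_le_norm (s - s₂)
    rw [Complex.sub_re, Complex.ofReal_re] at h2
    have h3 := (abs_le.mp h2).1
    linarith
  have hgood : ∀ s ∈ Metric.ball (s₂ : ℂ) 1, ∀ j : Fin d,
      ((a : ℂ) + k j * s) ≠ 0 ∧ fiL s₀ c a (k j) s ∈ UU := by
    intro s hs j
    have hre := hballre s hs
    have hkj : (1 : ℝ) ≤ (k j : ℝ) := by exact_mod_cast hk j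
    have hden : s₂ - 1 < ((a : ℂ) + k j * s).re := by
      have e : ((a : ℂ) + k j * s).re = a + k j * s.re := by simp
      rw [e]
      nlinarith
    have hnorm : s₂ - 1 < ‖(a : ℂ) + k j * s‖ :=
      hden.trans_le ((le_abs_self _).trans (Complex.abs_re_le_norm _))
    have hne : (a : ℂ) + k j * s ≠ 0 := by
      intro h2
      rw [h2, norm_zero] at hnorm
      linarith
    refine ⟨hne, ?_⟩
    have hsmall : ‖(c : ℂ) / (a + k j * s)‖ < μ := by
      rw [norm_div, Complex.norm_real, Real.norm_eq_abs, div_lt_iff₀ (by linarith)]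
      have h3 : |c| / μ < s₂ - 1 := by
        have := le_max_right s₁ 0
        rw [hs₂]; linarith
      rw [div_lt_iff₀ hμ0] at h3
      calc |c| < (s₂ - 1) * μ := h3
        _ = μ * (s₂ - 1) := mul_comm _ _
        _ ≤ μ * ‖(a : ℂ) + k j * s‖ := by
            exact mul_le_mul_of_nonneg_left hnorm.le hμ0.le
    right
    unfold fiL
    rw [Complex.add_re, Complex.ofReal_re]
    have h4 := (Complex.abs_re_le_norm ((c : ℂ) / (a + k j * s))).trans_lt hsmall
    rw [abs_lt] at h4
    have h5 : μ ≤ s₀ := min_le_left _ _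
    have h6 : μ ≤ 1 - s₀ := min_le_right _ _
    constructor <;> linarith [h4.1, h4.2]
  set W : Set ℂ := fiH c ∪ Metric.ball (s₂ : ℂ) 1 with hW
  have hWpre : IsPreconnected W := by
    obtain ⟨x, hx1, hx2⟩ : ∃ x, x ∈ fiH c ∧ x ∈ Metric.ball (s₂ : ℂ) 1 := by
      have hcabs : 0 < |c| := abs_pos.mpr hc
      refine ⟨s₂ + ((-(c / |c|) / 2 : ℝ) : ℂ) * Complex.I, ?_, ?_⟩
      · have e : (((s₂ : ℂ) + ((-(c / |c|) / 2 : ℝ) : ℂ) * Complex.I)).im = -(c / |c|) / 2 := by
          simp
        show c * _ < 0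
        rw [e]
        have h2 : c * (-(c / |c|) / 2) = -(c * c / |c| / 2) := by ring
        rw [h2]
        have h3 := mul_self_pos.mpr hc
        have : 0 < c * c / |c| / 2 := by positivity
        linarith
      · rw [mem_ball_iff_norm, add_sub_cancel_left, norm_mul, Complex.norm_I, mul_one,
          Complex.norm_real, Real.norm_eq_abs, abs_div, abs_neg, abs_div, abs_abs,
          div_self hcabs.ne']
        norm_num
    exact IsPreconnected.union x hx1 hx2 (fiH_convex c).isPreconnected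
      (convex_ball _ _).isPreconnected
  have hWgood : ∀ s ∈ W, ∀ j : Fin d, ((a : ℂ) + k j * s) ≠ 0 ∧ fiL s₀ c a (k j) s ∈ UU := by
    intro s hs j
    rcases hs with hs | hs
    · exact ⟨fi_den_ne hc (hk j) hs, fi_mem_UU (hk j) hc hs⟩
    · exact hgood s hs j
  have hFan : AnalyticOnNhd ℂ (fun s => MvPolynomial.eval₂ (evalRingHom s)
      (pt fun j => PR (fiL s₀ c a (k j) s) * Q) p) W := by
    intro s hs
    refine fi_analyticAt_eval p analyticAt_id fun v => ?_
    simp only [pt]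
    refine fi_mul_analytic (F := fun z => PR (fiL s₀ c a (k v.1) z)) (G := fun _ => Q)
      (fun a' b' => ?_) (fun a' b' => analyticAt_const) _ _
    exact fi_PR_analytic hPA (fiL_analyticAt (hWgood s hs v.1).1) (hWgood s hs v.1).2 a' b'
  have hs₂W : (s₂ : ℂ) ∈ W := Or.inr (Metric.mem_ball_self one_pos)
  have hfreq : ∃ᶠ z in nhdsWithin (s₂ : ℂ) {(s₂ : ℂ)}ᶜ, (fun s => MvPolynomial.eval₂
      (evalRingHom s) (pt fun j => PR (fiL s₀ c a (k j) s) * Q) p) z = 0 := by
    have ht : Filter.Tendsto (fun n : ℕ => (((s₂ + 1 / ((n : ℝ) + 1) : ℝ)) : ℂ)) Filter.atTop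
        (nhdsWithin (s₂ : ℂ) {(s₂ : ℂ)}ᶜ) := by
      rw [tendsto_nhdsWithin_iff]
      constructor
      · have h2 : Filter.Tendsto (fun n : ℕ => s₂ + 1 / ((n : ℝ) + 1)) Filter.atTop
            (nhds (s₂ + 0)) :=
          tendsto_const_nhds.add tendsto_one_div_add_atTop_nhds_zero_nat
        rw [add_zero] at h2
        exact (Complex.continuous_ofReal.tendsto s₂).comp h2
      · refine Filter.Eventually.of_forall fun n => ?_
        rw [Set.mem_compl_iff, Set.mem_singleton_iff]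
        intro h3
        have h4 : s₂ + 1 / ((n : ℝ) + 1) = s₂ := by exact_mod_cast h3
        have h5 : (0 : ℝ) < 1 / ((n : ℝ) + 1) := by positivity
        linarith
    refine ht.frequently (Filter.Frequently.of_forall fun n => ?_)
    have h5 : (0 : ℝ) < 1 / ((n : ℝ) + 1) := by positivity
    exact h _ (by linarith)
  intro s hs
  exact hFan.eqOn_zero_of_preconnected_of_frequently_eq_zero hWpre hs₂W hfreq (Or.inl hs)

end

/-- Separation of the singular points: at the points `s` where `λ_i = 0` or `λ_i = 1` the later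
`λ_j` lie in `(0, 1)`. Here `λ_j = s₀ + c / (a + k_j s)`. -/
def Sep {d : ℕ} (s₀ c a : ℝ) (k : Fin d → ℕ) : Prop :=
  ∀ i j : Fin d, i < j → ∀ u : ℝ, (u = -(c / s₀) ∨ u = c / (1 - s₀)) →
    a + (k j / k i) * (u - a) ≠ 0 ∧ 0 < s₀ + c / (a + (k j / k i) * (u - a)) ∧
      s₀ + c / (a + (k j / k i) * (u - a)) < 1

/-- Functional independence, with the statements of the other modules as hypotheses. -/
theorem functional_indep_of
    (hPA : ∀ a b : Fin 2, AnalyticOnNhd ℂ (fun t => PR t a b) UU)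
    (hlog : ∀ {m : ℕ} {r : ℝ} (_ : 0 < r) (c : ℕ → ℂ → ℂ)
      (_ : ∀ k, AnalyticOnNhd ℂ (c k) (Metric.ball 0 r))
      (_ : ∀ t : ℂ, t ∈ Metric.ball (0 : ℂ) r → 0 < t.im →
        ∑ k ∈ Finset.range (m + 1), c k t * Complex.log t ^ k = 0),
      ∀ k ≤ m, ∀ t ∈ Metric.ball (0 : ℂ) r, c k t = 0)
    (hdet : ∀ {t : ℂ} (_ : t ∈ UU), (PR t).det = (PR (1 / 2)).det)
    (hhalf : (PR (1 / 2)).det ≠ 0)
    (hzero : ∃ (r : ℝ) (β : ℂ) (G : ℂ → Matrix (Fin 2) (Fin 2) ℂ), 0 < r ∧ β ≠ 0 ∧
      (∀ a b, AnalyticOnNhd ℂ (fun t => G t a b) (Metric.ball 0 r)) ∧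
      ∀ t ∈ Metric.ball (0 : ℂ) r, 0 < t.im → PR t = G t * !![1, β * Complex.log t; 0, 1])
    (hone : ∃ (r : ℝ) (β : ℂ) (G : ℂ → Matrix (Fin 2) (Fin 2) ℂ), 0 < r ∧ β ≠ 0 ∧
      (∀ a b, AnalyticOnNhd ℂ (fun t => G t a b) (Metric.ball 0 r)) ∧
      ∀ t ∈ Metric.ball (0 : ℂ) r, 0 < t.im →
        PR (1 + t) = G t * !![1, 0; β * Complex.log t, 1])
    {d : ℕ} {s₀ c : ℝ} (h0 : 0 < s₀) (h1 : s₀ < 1) (hc : c ≠ 0) {a : ℝ}
    (ha : 0 ≤ a) {k : Fin d → ℕ} (hk : ∀ j, 1 ≤ k j)
    (hS : Sep s₀ c a k)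
    (p : MvPolynomial (Var d) ℂ[X]) {s₁ : ℝ}
    (h : ∀ s : ℝ, s₁ ≤ s → MvPolynomial.eval₂ (evalRingHom (s : ℂ))
      (pt fun j => PR (s₀ + c / (a + k j * s)) * (PR s₀)⁻¹) p = 0)
    (Z : Fin d → Matrix (Fin 2) (Fin 2) ℂ) (hZ : ∀ j, (Z j).det = 1) (s : ℂ) :
    MvPolynomial.eval₂ (evalRingHom s) (pt Z) p = 0 := by
  classical
  set Q : Matrix (Fin 2) (Fin 2) ℂ := (PR s₀)⁻¹ with hQ
  have hs₀U : (s₀ : ℂ) ∈ UU := Or.inr (by simpa using ⟨h0, h1⟩)
  have hs₀det : (PR s₀).det ≠ 0 := by rw [hdet hs₀U]; exact hhalf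
  have hbase := fi_base hPA h0 h1 hc ha hk p Q h
  -- induction on the number of free blocks
  have hind : ∀ n : ℕ, n ≤ d → ∀ Z : Fin d → Matrix (Fin 2) (Fin 2) ℂ, (∀ j, (Z j).det = 1) →
      ∀ s ∈ fiH c, MvPolynomial.eval₂ (evalRingHom s)
        (pt fun j => if (j : ℕ) < n then Z j else PR (fiL s₀ c a (k j) s) * Q) p = 0 := by
    intro n
    induction n with
    | zero =>
      intro _ Z _ s hs
      simpa using hbase s hs
    | succ n ih =>
      intro hn Z hZ s hs
      set i : Fin d := ⟨n, by omega⟩ with hi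
      have hstep : ∀ g : Matrix (Fin 2) (Fin 2) ℂ, g.det = 1 →
          ∀ s ∈ fiH c, MvPolynomial.eval₂ (evalRingHom s)
          (pt fun j => if j < i then Z j else if j = i then PR (fiL s₀ c a (k j) s) * g * Q
            else PR (fiL s₀ c a (k j) s) * Q) p = 0 := by
        intro g hg
        refine fi_sl2_induction (fun g => ∀ s ∈ fiH c, MvPolynomial.eval₂ (evalRingHom s)
          (pt fun j => if j < i then Z j else if j = i then PR (fiL s₀ c a (k j) s) * g * Q
            else PR (fiL s₀ c a (k j) s) * Q) p = 0) ?_ ?_ ?_ g hg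
        · intro s hs
          have h2 := ih (by omega) Z hZ s hs
          convert h2 using 3
          funext j
          by_cases hj : j < i
          · have hj' : (j : ℕ) < n := hj
            simp [hj, hj']
          · have hj' : ¬ (j : ℕ) < n := hj
            simp only [hj, hj', if_false, Matrix.mul_one, ite_self]
        · intro x g hg
          obtain ⟨r, β, G, hr, hβ, hGan, hG⟩ := hzero
          have hN : (!![0, 1; 0, 0] : Matrix (Fin 2) (Fin 2) ℂ) * !![0, 1; 0, 0] = 0 := by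
            ext i j
            fin_cases i <;> fin_cases j <;> simp [Matrix.mul_apply, Fin.sum_univ_two]
          have h2 := fi_step hPA hlog hc hk p i Z Q 0 h0.ne (!![0, 1; 0, 0]) hN hr hβ G hGan
            (by
              intro t ht him
              rw [Complex.ofReal_zero, zero_add, hG t ht him]
              congr 1
              ext i j
              fin_cases i <;> fin_cases j <;> simp)
            (by
              intro j hj
              have e : c / (0 - s₀) = -(c / s₀) := by rw [zero_sub, div_neg]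
              rw [e]
              exact hS i j hj _ (Or.inl rfl)) x g hg
          have e : (1 + x • (!![0, 1; 0, 0] : Matrix (Fin 2) (Fin 2) ℂ)) = !![1, x; 0, 1] := by
            ext i j
            fin_cases i <;> fin_cases j <;> simp
          rwa [e] at h2
        · intro x g hg
          obtain ⟨r, β, G, hr, hβ, hGan, hG⟩ := hone
          have hN : (!![0, 0; 1, 0] : Matrix (Fin 2) (Fin 2) ℂ) * !![0, 0; 1, 0] = 0 := by
            ext i j
            fin_cases i <;> fin_cases j <;> simp [Matrix.mul_apply, Fin.sum_univ_two]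
          have h2 := fi_step hPA hlog hc hk p i Z Q 1 h1.ne' (!![0, 0; 1, 0]) hN hr hβ G hGan
            (by
              intro t ht him
              rw [Complex.ofReal_one, hG t ht him]
              congr 1
              ext i j
              fin_cases i <;> fin_cases j <;> simp)
            (by
              intro j hj
              exact hS i j hj _ (Or.inr rfl)) x g hg
          have e : (1 + x • (!![0, 0; 1, 0] : Matrix (Fin 2) (Fin 2) ℂ)) = !![1, 0; x, 1] := by
            ext i j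
            fin_cases i <;> fin_cases j <;> simp
          rwa [e] at h2
      -- choose `g`
      have hlU : fiL s₀ c a (k i) s ∈ UU := fi_mem_UU (hk i) hc hs
      have hldet : (PR (fiL s₀ c a (k i) s)).det ≠ 0 := by rw [hdet hlU]; exact hhalf
      have hg1 : ((PR (fiL s₀ c a (k i) s))⁻¹ * Z i * PR s₀).det = 1 := by
        rw [Matrix.det_mul, Matrix.det_mul, hZ i, mul_one, Matrix.det_nonsing_inv,
          Ring.inverse_eq_inv', hdet hlU, hdet hs₀U, inv_mul_cancel₀ hhalf]
      have h2 := hstep _ hg1 s hs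
      convert h2 using 3
      funext j
      by_cases hj : j < i
      · have hj' : (j : ℕ) < n + 1 := Nat.lt_succ_of_lt hj
        simp [hj, hj']
      · by_cases hji : j = i
        · subst hji
          have hj' : ((i : Fin d) : ℕ) < n + 1 := by simp [hi]
          simp only [hj', if_true, lt_irrefl, if_false]
          have u1 : IsUnit (PR (fiL s₀ c a (k i) s)).det := isUnit_iff_ne_zero.mpr hldet
          have u2 : IsUnit (PR (s₀ : ℂ)).det := isUnit_iff_ne_zero.mpr hs₀det
          rw [Matrix.mul_assoc _ (Z i), ← Matrix.mul_assoc (PR (fiL s₀ c a (k i) s)),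
            Matrix.mul_nonsing_inv _ u1, Matrix.one_mul, hQ, Matrix.mul_assoc,
            Matrix.mul_nonsing_inv _ u2, Matrix.mul_one]
        · have hj' : ¬ (j : ℕ) < n + 1 := by
            intro h3
            apply hji
            have h4 : ¬ (j : ℕ) < n := hj
            apply Fin.ext
            show (j : ℕ) = n
            omega
          simp only [hj, hj', hji, if_false]
  -- all `s`
  have hall := hind d le_rfl Z hZ
  set q : ℂ[X] := MvPolynomial.eval₂ (RingHom.id ℂ[X]) (fun v => C (pt Z v)) p with hq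
  have hqe : ∀ s : ℂ, q.eval s = MvPolynomial.eval₂ (evalRingHom s) (pt Z) p := by
    intro s
    have h2 : q.eval s = evalRingHom s q := rfl
    rw [h2, hq, MvPolynomial.hom_eval₂, RingHom.comp_id]
    congr 1
    funext v
    simp
  have hinf : Set.Infinite {s : ℂ | q.IsRoot s} := by
    have hsub : fiH c ⊆ {s : ℂ | q.IsRoot s} := by
      intro s hs
      show q.eval s = 0
      rw [hqe]
      have h2 := hall s hs
      convert h2 using 3
      funext j
      simp [j.2]
    refine Set.Infinite.mono hsub ?_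
    have h3 : Function.Injective fun n : ℕ => ((-c * ((n : ℝ) + 1) : ℝ) : ℂ) * Complex.I := by
      intro m n hmn
      simp only at hmn
      have h4 := mul_right_cancel₀ Complex.I_ne_zero hmn
      have h5 : -c * ((m : ℝ) + 1) = -c * ((n : ℝ) + 1) := by exact_mod_cast h4
      have h6 := mul_left_cancel₀ (neg_ne_zero.mpr hc) h5
      exact_mod_cast (add_right_cancel h6)
    refine Set.infinite_of_injective_forall_mem h3 fun n => ?_
    show c * _ < 0
    have e : ((((-c * ((n : ℝ) + 1) : ℝ) : ℂ) * Complex.I)).im = -c * ((n : ℝ) + 1) := by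
      simp
    rw [e]
    have h4 := mul_self_pos.mpr hc
    have h5 : (0 : ℝ) < (n : ℝ) + 1 := by positivity
    nlinarith
  have hq0 : q = 0 := Polynomial.eq_zero_of_infinite_isRoot q hinf
  rw [← hqe, hq0, Polynomial.eval_zero]

end Pool.Agent.Helper37.GP
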