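import Pool.Agent.Helper37.GP.Local
import Pool.Agent.Helper37.GP.Defs5
import Pool.Agent.Helper37.GP.Count
import Pool.Agent.Helper95.GP.SepLem

/-!
# Power saving for the exceptional points of the Legendre family (MP_290158_ag)
-/

open Polynomial

namespace Pool.Agent.Helper37.GP

open Pool.Agent.Helper64.Per

theorem cast_left (s₀ c : ℚ) :
    (s₀ : ℝ) = ((s₀.num * c.den : ℤ) : ℝ) / ((s₀.den * c.den : ℤ) : ℝ) := by
  have hd2 : (c.den : ℝ) ≠ 0 := by exact_mod_cast c.den_nz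
  push_cast
  rw [mul_div_mul_right _ _ hd2]
  exact Rat.cast_def s₀

theorem cast_right (s₀ c : ℚ) :
    (c : ℝ) = ((c.num * s₀.den : ℤ) : ℝ) / ((s₀.den * c.den : ℤ) : ℝ) := by
  rw [cast_left c s₀, mul_comm (c.den : ℤ)]

theorem exc_eq (s₀ c : ℚ) (m δ : ℕ) : Exc s₀ c m δ =
    EE' (s₀.num * c.den) (c.num * s₀.den) (s₀.den * c.den) m δ := by
  ext n
  have e3 : ((s₀ + c / n : ℚ) : ℝ) = ((s₀.num * c.den : ℤ) : ℝ) / ((s₀.den * c.den : ℤ) : ℝ) +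
      (((c.num * s₀.den : ℤ) : ℝ) / ((s₀.den * c.den : ℤ) : ℝ)) / n := by
    rw [← cast_left, ← cast_right]
    push_cast
    rfl
  have e4 : ((s₀ + c / n : ℚ) : ℂ) = (((s₀ + c / n : ℚ) : ℝ) : ℂ) := by
    rw [Complex.ofReal_ratCast]
  simp only [Exc, EE', Set.mem_ofPred_eq]
  rw [e4, ← e3]
  constructor
  · rintro ⟨h1, ⟨h2, h3⟩, h4⟩
    exact ⟨h1, ⟨by exact_mod_cast h2, by exact_mod_cast h3⟩, h4⟩
  · rintro ⟨h1, ⟨h2, h3⟩, h4⟩
    exact ⟨h1, ⟨by exact_mod_cast h2, by exact_mod_cast h3⟩, h4⟩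

/-- Local sparsity, for rational `s₀`, `c`. -/
theorem exc_sparse {s₀ c : ℚ} (h0 : 0 < s₀) (h1 : s₀ < 1) (hc : c ≠ 0) (m δ : ℕ) :
    ∃ C₂ : ℕ, ∀ (K a s : ℕ) (k : Fin ((δ + 4).choose 4 + 1) → ℕ), 1 ≤ K → a ≤ K →
      (∀ j, 1 ≤ k j ∧ k j ≤ K) → Sep (s₀ : ℝ) (c : ℝ) a k → (K + 1) ^ C₂ ≤ s →
      ∃ j, a + k j * s ∉ Exc s₀ c m δ := by
  rw [exc_eq]
  have p1 : 0 < s₀.den := s₀.den_pos
  have p2 : 0 < c.den := c.den_pos
  have p3 : 0 < s₀.num := Rat.num_pos.mpr h0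
  have h2 : s₀.num < s₀.den := by
    have h3 := (div_lt_one (by exact_mod_cast p1 : (0 : ℚ) < s₀.den)).mp
      (by rw [Rat.num_div_den]; exact h1)
    exact_mod_cast h3
  have hal : 0 < s₀.num * c.den := by positivity
  have hag : s₀.num * c.den < s₀.den * c.den := by
    have : (0 : ℤ) < c.den := by exact_mod_cast p2
    nlinarith
  have hbe : c.num * s₀.den ≠ 0 := by
    refine mul_ne_zero (Rat.num_ne_zero.mpr hc) ?_
    exact_mod_cast s₀.den_nz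
  obtain ⟨C₂, hC₂⟩ := local_sparse hal hag hbe m δ ((δ + 4).choose 4) le_rfl
  refine ⟨C₂, fun K a s k hK ha hk hS hs => hC₂ K a s k hK ha hk ?_ hs⟩
  rw [← cast_left, ← cast_right]
  exact hS

theorem power_saving {s₀ c : ℚ} (h0 : 0 < s₀) (h1 : s₀ < 1) (hc : c ≠ 0) (m δ : ℕ) :
    -- (1) a power saving for the points `s₀ + c / n`
    (∃ κ C : ℝ, 0 < κ ∧ ∀ T : ℕ, 1 ≤ T →
      (Set.ncard {n : ℕ | n ≤ T ∧ n ∈ Exc s₀ c m δ} : ℝ) ≤ C * (T : ℝ) ^ (1 - κ)) ∧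
    -- (2) a logarithmic bound along the powers of an integer
    (∀ b : ℕ, 2 ≤ b → ∃ C : ℝ, ∀ T : ℕ, 2 ≤ T →
      (Set.ncard {l : ℕ | l ≤ T ∧ b ^ l ∈ Exc s₀ c m δ} : ℝ) ≤ C * Real.log T) ∧
    -- (3) a bound depending only on `δ` for the first multiples of an integer
    (∃ C : ℕ, ∀ K s : ℕ, 1 ≤ K → (K + 1) ^ C ≤ s →
      Set.ncard {k : ℕ | 1 ≤ k ∧ k ≤ K ∧ k * s ∈ Exc s₀ c m δ} ≤ (δ + 4).choose 4) := by
  have r0 : (0 : ℝ) < (s₀ : ℝ) := by exact_mod_cast h0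
  have r1 : (s₀ : ℝ) < 1 := by exact_mod_cast h1
  have rc : (c : ℝ) ≠ 0 := by exact_mod_cast hc
  obtain ⟨C₂, hC₂⟩ := exc_sparse h0 h1 hc m δ
  have hzero : ∀ (K s : ℕ) (k : Fin ((δ + 4).choose 4 + 1) → ℕ), 1 ≤ K → StrictMono k →
      (∀ j, 1 ≤ k j ∧ k j ≤ K) → (K + 1) ^ C₂ ≤ s → ∃ j, k j * s ∉ Exc s₀ c m δ := by
    intro K s k hK hmono hk hs
    obtain ⟨j, hj⟩ := hC₂ K 0 s k hK (Nat.zero_le _) hk (by
      intro i j hij u hu
      have := sep_zero r0 r1 rc hmono (fun j => (hk j).1) i j hij u hu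
      push_cast
      exact this) hs
    exact ⟨j, by rwa [zero_add] at hj⟩
  refine ⟨?_, ?_, C₂, ?_⟩
  · obtain ⟨C₁, hC₁⟩ := sep_large r0 r1 rc
    obtain ⟨κ, C, hκ, hC⟩ := counting (E := Exc s₀ c m δ) (N := (δ + 4).choose 4) (C₁ := C₁)
      (C₂ := (C₁ + 3) * C₂) (by
        intro K a s k hK hmono hk ha1 ha2 hs
        refine hC₂ ((C₁ + 2) * K) a s k (by nlinarith) ha2 (fun j => ⟨?_, ?_⟩) ?_ ?_
        · have := (hk j).1; omega
        · have := (hk j).2; nlinarith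
        · exact hC₁ _ K a k hK hmono hk ha1
        · refine le_trans ?_ hs
          rw [pow_mul]
          refine Nat.pow_le_pow_left ?_ _
          calc (C₁ + 2) * K + 1 ≤ (C₁ + 2) * (K + 1) := by nlinarith
            _ ≤ (K + 1) ^ (C₁ + 2) * (K + 1) := Nat.mul_le_mul_right _ (natle_pow hK _)
            _ = (K + 1) ^ (C₁ + 3) := by rw [← pow_succ])
    refine ⟨κ, C, hκ, fun T hT => ?_⟩
    have e : {n : ℕ | n ≤ T ∧ n ∈ Exc s₀ c m δ} = {n : ℕ | 1 ≤ n ∧ n ≤ T ∧ n ∈ Exc s₀ c m δ} := by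
      ext n
      constructor
      · rintro ⟨h2, h3⟩
        exact ⟨h3.1, h2, h3⟩
      · rintro ⟨_, h2, h3⟩
        exact ⟨h2, h3⟩
    rw [e]
    exact hC T hT
  · exact counting_geom hzero
  · intro K s hK hs
    by_contra hcon
    push Not at hcon
    have hfin : {k : ℕ | 1 ≤ k ∧ k ≤ K ∧ k * s ∈ Exc s₀ c m δ}.Finite :=
      (Set.finite_Icc 1 K).subset fun k hk => ⟨hk.1, hk.2.1⟩
    set S := hfin.toFinset with hSdef
    have hcard : (δ + 4).choose 4 < S.card := by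
      rwa [Set.ncard_eq_toFinset_card _ hfin] at hcon
    obtain ⟨k, hk1, hk2⟩ := Count.exists_strictMono hcard
    obtain ⟨j, hj⟩ := hzero K s k hK hk1 (fun j => by
      have := hk2 j
      rw [hSdef, Set.Finite.mem_toFinset] at this
      exact ⟨this.1, this.2.1⟩) hs
    apply hj
    have := hk2 j
    rw [hSdef, Set.Finite.mem_toFinset] at this
    exact this.2.2

end Pool.Agent.Helper37.GP
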