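import Pool.Agent.Helper37.GP.Locals
import Pool.Agent.Helper37.GP.Final

/-!
# Exceptional points of the Legendre family in short intervals (MP_290158_ag)
-/

open Polynomial

namespace Pool.Agent.Helper37.GP

open Pool.Agent.Helper64.Per

/-- Local sparsity, for rational `s₀`, `c` and parameters `a_j + k_j s`. -/
theorem exc_sparses {s₀ c : ℚ} (h0 : 0 < s₀) (h1 : s₀ < 1) (hc : c ≠ 0) (m δ : ℕ) :
    ∃ C₂ : ℕ, ∀ (K s : ℕ) (a k : Fin ((δ + 4).choose 4 + 1) → ℕ), 1 ≤ K → (∀ j, a j ≤ K) →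
      (∀ j, 1 ≤ k j ∧ k j ≤ K) → Seps (s₀ : ℝ) (c : ℝ) (fun j => (a j : ℝ)) k →
      (K + 1) ^ C₂ ≤ s → ∃ j, a j + k j * s ∉ Exc s₀ c m δ := by
  rw [exc_eq]
  have p1 : 0 < s₀.den := s₀.den_pos
  have p2 : 0 < c.den := c.den_pos
  have p3 : 0 < s₀.num := Rat.num_pos.mpr h0
  have h2 : s₀.num < s₀.den := by
    have h3 := (div_lt_one (by exact_mod_cast p1 : (0 : ℚ) < s₀.den)).mp
      (by rw [Rat.num_div_den]; exact h1)
    exact_mod_cast h3
  have hal : 0 < s₀.num * c.den := by positivity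
  have hag : s₀.num * c.den < s₀.den * c.den := by
    have : (0 : ℤ) < c.den := by exact_mod_cast p2
    nlinarith
  have hbe : c.num * s₀.den ≠ 0 := by
    refine mul_ne_zero (Rat.num_ne_zero.mpr hc) ?_
    exact_mod_cast s₀.den_nz
  obtain ⟨C₂, hC₂⟩ := local_sparses hal hag hbe m δ ((δ + 4).choose 4) le_rfl
  refine ⟨C₂, fun K s a k hK ha hk hS hs => hC₂ K s a k hK ha hk ?_ hs⟩
  rw [← cast_left, ← cast_right]
  exact hS

/-- The separation condition for well spaced integers. -/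
theorem seps_shift {s₀ c : ℝ} (h0 : 0 < s₀) (h1 : s₀ < 1) :
    ∃ C₁ : ℕ, 2 ≤ C₁ ∧ ∀ (d : ℕ) (a : Fin d → ℕ), (∀ i j, i < j → a i + C₁ ≤ a j) →
      Seps s₀ c (fun j => (a j : ℝ)) (fun _ => 1) := by
  set μ : ℝ := min s₀ (1 - s₀) with hμ
  have hμ0 : 0 < μ := lt_min h0 (by linarith)
  have hμ1 : μ ≤ s₀ := min_le_left _ _
  have hμ2 : μ ≤ 1 - s₀ := min_le_right _ _
  obtain ⟨C, hC⟩ := exists_nat_gt (2 * (|c| / μ))
  refine ⟨C + 2, by omega, ?_⟩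
  intro d a hsp i j hij u hu
  have hu' : |u| ≤ |c| / μ := by
    rcases hu with hu | hu
    · rw [hu, abs_neg, abs_div, abs_of_pos h0]
      exact div_le_div_of_nonneg_left (abs_nonneg c) hμ0 hμ1
    · rw [hu, abs_div, abs_of_pos (by linarith : 0 < 1 - s₀)]
      exact div_le_div_of_nonneg_left (abs_nonneg c) hμ0 hμ2
  have hgap : (C : ℝ) + 2 ≤ (a j : ℝ) - a i := by
    have := hsp i j hij
    have h2 : ((a i + (C + 2) : ℕ) : ℝ) ≤ (a j : ℝ) := by exact_mod_cast this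
    push_cast at h2
    linarith
  have hab := abs_le.mp hu'
  have hden : |c| / μ < (a j : ℝ) + ((1 : ℕ) / (1 : ℕ) : ℝ) * (u - a i) := by
    have : (a j : ℝ) + ((1 : ℕ) / (1 : ℕ) : ℝ) * (u - a i) = (a j - a i) + u := by
      push_cast; ring
    rw [this]
    linarith [hab.1]
  have hc0 : 0 ≤ |c| / μ := by positivity
  have hpos : 0 < (a j : ℝ) + ((1 : ℕ) / (1 : ℕ) : ℝ) * (u - a i) := lt_of_le_of_lt hc0 hden
  have hsmall : |c / ((a j : ℝ) + ((1 : ℕ) / (1 : ℕ) : ℝ) * (u - a i))| < μ := by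
    rw [abs_div, abs_of_pos hpos, div_lt_iff₀ hpos]
    rw [div_lt_iff₀ hμ0] at hden
    linarith
  have h3 := abs_lt.mp hsmall
  exact ⟨hpos.ne', by linarith [h3.1], by linarith [h3.2]⟩

theorem strictMono_gap {n : ℕ} {k : Fin n → ℕ} (hk : StrictMono k) :
    ∀ (t x y : ℕ) (hx : x < n) (hy : y < n), x + t = y → k ⟨x, hx⟩ + t ≤ k ⟨y, hy⟩ := by
  intro t
  induction t with
  | zero =>
    intro x y hx hy h
    subst h
    simp
  | succ t ih =>
    intro x y hx hy h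
    have h1 := ih x (x + t) hx (by omega) rfl
    have h2 : k ⟨x + t, by omega⟩ < k ⟨y, hy⟩ := hk (by
      show x + t < y
      omega)
    omega

/-- At most `binom(δ + 4, 4) C₁` exceptional integers in short intervals. -/
theorem short_discrete {s₀ c : ℚ} (h0 : 0 < s₀) (h1 : s₀ < 1) (hc : c ≠ 0) :
    ∃ C₁ : ℕ, 2 ≤ C₁ ∧ ∀ m δ : ℕ, ∃ C₂ : ℕ, ∀ K n : ℕ, 1 ≤ K → (K + 1) ^ C₂ ≤ n →
      Set.ncard {i : ℕ | n ≤ i ∧ i ≤ n + K ∧ i ∈ Exc s₀ c m δ} ≤ (δ + 4).choose 4 * C₁ := by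
  have r0 : (0 : ℝ) < (s₀ : ℝ) := by exact_mod_cast h0
  have r1 : (s₀ : ℝ) < 1 := by exact_mod_cast h1
  obtain ⟨C₁, hC1, hC₁⟩ := seps_shift (c := (c : ℝ)) r0 r1
  refine ⟨C₁, hC1, fun m δ => ?_⟩
  obtain ⟨C₂, hC₂⟩ := exc_sparses h0 h1 hc m δ
  refine ⟨C₂, fun K n hK hn => ?_⟩
  by_contra hcon
  push Not at hcon
  set N := (δ + 4).choose 4 with hN
  have hfin : {i : ℕ | n ≤ i ∧ i ≤ n + K ∧ i ∈ Exc s₀ c m δ}.Finite :=
    (Set.finite_Icc n (n + K)).subset fun i hi => ⟨hi.1, hi.2.1⟩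
  set S := hfin.toFinset with hS
  have hcard : N * C₁ < S.card := by
    rwa [Set.ncard_eq_toFinset_card _ hfin] at hcon
  obtain ⟨g, hg1, hg2⟩ := Count.exists_strictMono hcard
  have hlt : ∀ j : Fin (N + 1), (j : ℕ) * C₁ < N * C₁ + 1 := by
    intro j
    have := Nat.mul_le_mul_right C₁ (Nat.lt_succ_iff.mp j.2)
    omega
  have hmem : ∀ x, n ≤ g x ∧ g x ≤ n + K ∧ g x ∈ Exc s₀ c m δ := by
    intro x
    have := hg2 x
    rwa [hS, Set.Finite.mem_toFinset] at this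
  obtain ⟨j, hj⟩ := hC₂ K n (fun j => g ⟨j * C₁, hlt j⟩ - n) (fun _ => 1) hK
    (fun j => by have := hmem ⟨j * C₁, hlt j⟩; omega) (fun _ => ⟨le_rfl, hK⟩)
    (hC₁ _ _ (by
      intro i j hij
      have hij' : (i : ℕ) < j := hij
      obtain ⟨t, ht⟩ : ∃ t, (j : ℕ) = i + 1 + t := ⟨j - i - 1, by omega⟩
      have h2 := strictMono_gap hg1 ((1 + t) * C₁) (i * C₁) (j * C₁) (hlt i) (hlt j) (by
        rw [ht]; ring)
      have h3 : C₁ ≤ (1 + t) * C₁ := Nat.le_mul_of_pos_left _ (by omega)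
      have h4 := hmem ⟨i * C₁, hlt i⟩
      omega)) hn
  apply hj
  have := hmem ⟨j * C₁, hlt j⟩
  have e : g ⟨j * C₁, hlt j⟩ - n + 1 * n = g ⟨j * C₁, hlt j⟩ := by omega
  rw [e]
  exact this.2.2

/-- Counting by blocks. -/
theorem block_count {E : Set ℕ} {M K n₁ T : ℕ}
    (h : ∀ n, n₁ ≤ n → Set.ncard {i : ℕ | n ≤ i ∧ i ≤ n + K ∧ i ∈ E} ≤ M) :
    Set.ncard {i : ℕ | i ≤ T ∧ i ∈ E} ≤ (n₁ + K + 1) + M * (T / (K + 1) + 1) := by
  classical
  have hfin : {i : ℕ | i ≤ T ∧ i ∈ E}.Finite :=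
    (Set.finite_Iic T).subset fun i hi => hi.1
  set S := hfin.toFinset with hS
  rw [Set.ncard_eq_toFinset_card _ hfin]
  have hmem : ∀ i, i ∈ S ↔ i ≤ T ∧ i ∈ E := fun i => by
    rw [hS, Set.Finite.mem_toFinset]; rfl
  set S1 := S.filter (fun i => i < n₁ + K + 1) with hS1
  set S2 := S.filter (fun i => ¬ i < n₁ + K + 1) with hS2
  have e1 : S1.card ≤ n₁ + K + 1 := by
    have : S1 ⊆ Finset.range (n₁ + K + 1) := by
      intro i hi
      rw [hS1, Finset.mem_filter] at hi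
      exact Finset.mem_range.mpr hi.2
    simpa using Finset.card_le_card this
  have e2 : S2.card ≤ M * (T / (K + 1) + 1) := by
    have hmaps : ∀ i ∈ S2, i / (K + 1) ∈ Finset.range (T / (K + 1) + 1) := by
      intro i hi
      rw [hS2, Finset.mem_filter, hmem] at hi
      exact Finset.mem_range.mpr (Nat.lt_succ_of_le (Nat.div_le_div_right hi.1.1))
    have h2 := Finset.card_le_mul_card_image_of_maps_to (f := fun i => i / (K + 1)) hmaps M (by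
      intro q hq
      by_cases hne : (S2.filter (fun i => i / (K + 1) = q)).Nonempty
      · obtain ⟨i₀, hi₀⟩ := hne
        rw [Finset.mem_filter, hS2, Finset.mem_filter, hmem] at hi₀
        have hdm := Nat.div_add_mod i₀ (K + 1)
        have hml := Nat.mod_lt i₀ (Nat.succ_pos K)
        have hq1 : n₁ ≤ (K + 1) * q := by
          rw [hi₀.2] at hdm
          have h3 := hi₀.1.2
          have h4 : i₀ % (K + 1) < K + 1 := hml
          omega
        refine le_trans ?_ (h ((K + 1) * q) hq1)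
        have hfin2 : {i : ℕ | (K + 1) * q ≤ i ∧ i ≤ (K + 1) * q + K ∧ i ∈ E}.Finite :=
          (Set.finite_Icc ((K + 1) * q) ((K + 1) * q + K)).subset fun i hi => ⟨hi.1, hi.2.1⟩
        rw [Set.ncard_eq_toFinset_card _ hfin2]
        refine Finset.card_le_card fun i hi => ?_
        rw [Finset.mem_filter, hS2, Finset.mem_filter, hmem] at hi
        rw [Set.Finite.mem_toFinset]
        have hdm2 := Nat.div_add_mod i (K + 1)
        have hml2 : i % (K + 1) < K + 1 := Nat.mod_lt i (Nat.succ_pos K)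
        rw [hi.2] at hdm2
        exact ⟨by omega, by omega, hi.1.1.2⟩
      · rw [Finset.not_nonempty_iff_eq_empty] at hne
        rw [hne]
        simp)
    rw [Finset.card_range] at h2
    exact h2
  have e3 : S.card = S1.card + S2.card := by
    rw [hS1, hS2]
    exact (Finset.card_filter_add_card_filter_not _).symm
  rw [e3]
  exact add_le_add e1 e2

theorem short_intervals {s₀ c : ℚ} (h0 : 0 < s₀) (h1 : s₀ < 1) (hc : c ≠ 0) :
    ∃ C₁ : ℕ, ∀ m δ : ℕ, ∃ θ C : ℝ, 0 < θ ∧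
      (∀ n : ℕ, 1 ≤ n → Set.ncard {i : ℕ | n ≤ i ∧ (i : ℝ) ≤ n + (n : ℝ) ^ θ ∧
        i ∈ Exc s₀ c m δ} ≤ (δ + 4).choose 4 * C₁) ∧
      ∀ T : ℕ, 1 ≤ T →
        (Set.ncard {n : ℕ | n ≤ T ∧ n ∈ Exc s₀ c m δ} : ℝ) ≤ C * (T : ℝ) ^ (1 - θ) := by
  obtain ⟨C₁, hC1, hC₁⟩ := short_discrete h0 h1 hc
  refine ⟨C₁, fun m δ => ?_⟩
  obtain ⟨C₂, hC₂⟩ := hC₁ m δ
  set N := (δ + 4).choose 4 with hN
  have hNpos : 1 ≤ N := Nat.choose_pos (by omega)
  set M := N * C₁ with hM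
  have hM2 : 2 ≤ M := by
    calc 2 ≤ C₁ := hC1
      _ = 1 * C₁ := (one_mul _).symm
      _ ≤ N * C₁ := Nat.mul_le_mul_right _ hNpos
  set θ₀ : ℝ := 1 / (2 * ((C₂ : ℝ) + 1)) with hθ₀
  have hθ₀0 : 0 < θ₀ := by positivity
  have hθ₀C : θ₀ * C₂ ≤ 1 / 2 := by
    rw [hθ₀, div_mul_eq_mul_div, one_mul, div_le_div_iff₀ (by positivity) (by norm_num)]
    nlinarith
  have hθ₀h : θ₀ ≤ 1 / 2 := by
    rw [hθ₀, div_le_div_iff₀ (by positivity) (by norm_num)]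
    have : (0 : ℝ) ≤ C₂ := by positivity
    nlinarith
  -- intervals of length `n ^ θ₀`
  have key : ∀ n : ℕ, 1 ≤ n → ∀ L : ℕ, (L : ℝ) ≤ (n : ℝ) ^ θ₀ →
      Set.ncard {i : ℕ | n ≤ i ∧ i ≤ n + L ∧ i ∈ Exc s₀ c m δ} ≤ M := by
    intro n hn L hL
    have hn' : (1 : ℝ) ≤ n := by exact_mod_cast hn
    rcases Nat.lt_or_ge L 2 with hL2 | hL2
    · -- at most two elements
      have hsub : {i : ℕ | n ≤ i ∧ i ≤ n + L ∧ i ∈ Exc s₀ c m δ} ⊆ ({n, n + 1} : Set ℕ) := by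
        intro i hi
        obtain ⟨h2, h3, -⟩ := hi
        rw [Set.mem_insert_iff, Set.mem_singleton_iff]
        omega
      refine (Set.ncard_le_ncard hsub (by simp)).trans (le_trans ?_ hM2)
      exact (Set.ncard_insert_le _ _).trans (by rw [Set.ncard_singleton])
    · refine hC₂ L n (by omega) ?_
      -- `(L + 1)^C₂ ≤ n`
      have hLr : (2 : ℝ) ≤ L := by exact_mod_cast hL2
      have hnθ : (2 : ℝ) ≤ (n : ℝ) ^ θ₀ := hLr.trans hL
      have h3 : ((L : ℝ) + 1) ≤ ((n : ℝ) ^ θ₀) ^ 2 := by nlinarith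
      have h4 : ((L : ℝ) + 1) ^ C₂ ≤ n := by
        calc ((L : ℝ) + 1) ^ C₂ ≤ (((n : ℝ) ^ θ₀) ^ 2) ^ C₂ :=
              pow_le_pow_left₀ (by positivity) h3 _
          _ = (n : ℝ) ^ (θ₀ * (2 * C₂)) := by
              rw [← pow_mul, ← Real.rpow_natCast, ← Real.rpow_mul (by positivity)]
              push_cast
              rfl
          _ ≤ (n : ℝ) ^ (1 : ℝ) := by
              apply Real.rpow_le_rpow_of_exponent_le hn'
              linarith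
          _ = n := Real.rpow_one _
      exact_mod_cast h4
  refine ⟨θ₀ / 2, (4 + 2 * M : ℝ), by positivity, ?_, ?_⟩
  · intro n hn
    have hn' : (1 : ℝ) ≤ n := by exact_mod_cast hn
    set L := ⌊(n : ℝ) ^ (θ₀ / 2)⌋₊ with hL
    have hL1 : (L : ℝ) ≤ (n : ℝ) ^ θ₀ := by
      refine (Nat.floor_le (by positivity)).trans ?_
      exact Real.rpow_le_rpow_of_exponent_le hn' (by linarith)
    refine le_trans (Set.ncard_le_ncard ?_ ?_) (key n hn L hL1)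
    · intro i hi
      obtain ⟨h2, h3, h4⟩ := hi
      refine ⟨h2, ?_, h4⟩
      have h5 : ((i - n : ℕ) : ℝ) ≤ (n : ℝ) ^ (θ₀ / 2) := by
        rw [Nat.cast_sub h2]; linarith
      have h6 : i - n ≤ L := Nat.le_floor h5
      omega
    · exact (Set.finite_Icc n (n + L)).subset fun i hi => ⟨hi.1, hi.2.1⟩
  · intro T hT
    have hT' : (1 : ℝ) ≤ T := by exact_mod_cast hT
    set K := ⌊(T : ℝ) ^ (θ₀ / 2)⌋₊ with hK
    set n₁ := ⌈(T : ℝ) ^ (1 / 2 : ℝ)⌉₊ with hn₁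
    have hn₁1 : (T : ℝ) ^ (1 / 2 : ℝ) ≤ n₁ := Nat.le_ceil _
    have hTh : (1 : ℝ) ≤ (T : ℝ) ^ (1 / 2 : ℝ) := Real.one_le_rpow hT' (by norm_num)
    have hb := block_count (E := Exc s₀ c m δ) (M := M) (K := K) (n₁ := n₁) (T := T) (by
      intro n hn
      have hnn : (n₁ : ℝ) ≤ n := by exact_mod_cast hn
      have h1n : 1 ≤ n := by
        have : (1 : ℝ) ≤ n := hTh.trans (hn₁1.trans hnn)
        exact_mod_cast this
      refine key n h1n K ?_
      calc (K : ℝ) ≤ (T : ℝ) ^ (θ₀ / 2) := Nat.floor_le (by positivity)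
        _ = ((T : ℝ) ^ (1 / 2 : ℝ)) ^ θ₀ := by
            rw [← Real.rpow_mul (by positivity)]; congr 1; ring
        _ ≤ (n : ℝ) ^ θ₀ := Real.rpow_le_rpow (by positivity) (hn₁1.trans hnn) hθ₀0.le)
    have hbr : (Set.ncard {n : ℕ | n ≤ T ∧ n ∈ Exc s₀ c m δ} : ℝ) ≤
        ((n₁ : ℝ) + K + 1) + M * ((T / (K + 1) : ℕ) + 1) := by exact_mod_cast hb
    refine hbr.trans ?_
    have q0 : (0 : ℝ) ≤ M := by positivity
    have hp : (1 : ℝ) ≤ (T : ℝ) ^ (1 - θ₀ / 2) := Real.one_le_rpow hT' (by linarith)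
    have q1 : (n₁ : ℝ) ≤ 2 * (T : ℝ) ^ (1 - θ₀ / 2) := by
      have h2 : (n₁ : ℝ) < (T : ℝ) ^ (1 / 2 : ℝ) + 1 := Nat.ceil_lt_add_one (by positivity)
      have h3 : (T : ℝ) ^ (1 / 2 : ℝ) ≤ (T : ℝ) ^ (1 - θ₀ / 2) :=
        Real.rpow_le_rpow_of_exponent_le hT' (by linarith)
      linarith
    have q2 : (K : ℝ) ≤ (T : ℝ) ^ (1 - θ₀ / 2) :=
      (Nat.floor_le (by positivity)).trans
        (Real.rpow_le_rpow_of_exponent_le hT' (by linarith))
    have q3 : ((T / (K + 1) : ℕ) : ℝ) ≤ (T : ℝ) ^ (1 - θ₀ / 2) := by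
      have h2 : ((T / (K + 1) : ℕ) : ℝ) ≤ (T : ℝ) / ((K : ℝ) + 1) := by
        have := @Nat.cast_div_le ℝ _ _ _ T (K + 1)
        push_cast at this
        exact this
      have h3 : (T : ℝ) ^ (θ₀ / 2) ≤ (K : ℝ) + 1 := (Nat.lt_floor_add_one _).le
      have h4 : 0 < (T : ℝ) ^ (θ₀ / 2) := by positivity
      calc ((T / (K + 1) : ℕ) : ℝ) ≤ (T : ℝ) / ((K : ℝ) + 1) := h2
        _ ≤ (T : ℝ) / (T : ℝ) ^ (θ₀ / 2) := div_le_div_of_nonneg_left (by positivity) h4 h3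
        _ = (T : ℝ) ^ (1 - θ₀ / 2) := by
            rw [Real.rpow_sub (by positivity), Real.rpow_one]
    nlinarith

end Pool.Agent.Helper37.GP
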