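import Pool.Agent.Helper37.GP.Moebius
import Pool.Agent.Helper37.GP.Eval
import Pool.Agent.Helper39.GP.Subst
import Pool.Agent.Helper37.GP.Defs4

/-!
# Elementary lemmas for the G-theorem on `SL₂^d`
-/

open Polynomial

namespace Pool.Agent.Helper37.GP

/-! ### monotonicity -/

theorem GBound.mono {H H' : ℕ} {f : PowerSeries ℚ} (h : GBound H f) (hH : H ≤ H') :
    GBound H' f := fun n => (h n).trans (by gcongr)

theorem GDen.mono {ι : Type} {H H' : ℕ} {f : ι → PowerSeries ℚ} (h : GDen H f) (hH : H ≤ H') :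
    GDen H' f := fun n => by
  obtain ⟨d, h0, h1, h2⟩ := h n
  exact ⟨d, h0, h1.trans (by gcongr), h2⟩

theorem Galochkin.mono {ι : Type} [Fintype ι] [DecidableEq ι] {T : ℚ[X]} {B : Matrix ι ι ℚ[X]}
    {H H' : ℕ} (h : Galochkin T B H) (hH : H ≤ H') : Galochkin T B H' := fun n => by
  obtain ⟨d, h0, h1, h2⟩ := h n
  exact ⟨d, h0, h1.trans (by gcongr), h2⟩

/-- A common denominator for a family indexed by blocks. -/
theorem gden_blocks {d H : ℕ} {ι : Type} {f : Fin d → ι → PowerSeries ℚ}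
    (h : ∀ j, GDen H (f j)) : GDen (H ^ d) (fun v : Fin d × ι => f v.1 v.2) := by
  intro n
  choose q hq0 hq1 hq2 using fun j => h j n
  refine ⟨∏ j, q j, Finset.prod_pos fun j _ => hq0 j, ?_, ?_⟩
  · calc ∏ j, q j ≤ ∏ _j : Fin d, H ^ (n + 1) := Finset.prod_le_prod' fun j _ => hq1 j
      _ = (H ^ d) ^ (n + 1) := by
        rw [Finset.prod_const, Finset.card_univ, Fintype.card_fin, ← pow_mul, ← pow_mul, mul_comm]
  · rintro m hm ⟨j, a⟩
    obtain ⟨z, hz⟩ := hq2 j m hm a
    refine ⟨(∏ i ∈ Finset.univ.erase j, (q i : ℤ)) * z, ?_⟩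
    rw [← Finset.mul_prod_erase Finset.univ q (Finset.mem_univ j)]
    push_cast
    rw [← hz]
    ring

/-! ### affine substitution in the system -/

theorem beta_comp {ι : Type} [Fintype ι] [DecidableEq ι] (T : ℚ[X]) (B : Matrix ι ι ℚ[X])
    (k a : ℚ) (n : ℕ) :
    beta (T.comp (C a + C k * X)) ((C k : ℚ[X]) • B.map (fun p => p.comp (C a + C k * X))) n =
      (C (k ^ n) : ℚ[X]) • (beta T B n).map (fun p => p.comp (C a + C k * X)) := by
  set l : ℚ[X] := C a + C k * X with hl
  have hdl : derivative l = C k := by simp [hl]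
  induction n with
  | zero =>
    ext1 x y
    rw [beta, beta]
    by_cases hxy : x = y
    · subst hxy; simp
    · simp [hxy]
  | succ n ih =>
    ext1 x y
    have h1 : ((n : ℚ[X]) + 1) ≠ 0 := by
      have : ((n : ℚ[X]) + 1) = C ((n : ℚ) + 1) := by simp
      rw [this, Ne, C_eq_zero]; positivity
    apply mul_left_cancel₀ h1
    rw [Moeb.beta_succ_apply, ih]
    simp only [Matrix.smul_apply, Matrix.map_apply, smul_eq_mul]
    have h2 := congrArg (fun p : ℚ[X] => p.comp l) (Moeb.beta_succ_apply T B n x y)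
    simp only [mul_comp, add_comp, sub_comp, natCast_comp, one_comp] at h2
    have h3 : ∀ p : ℚ[X], derivative (p.comp l) = C k * (derivative p).comp l := by
      intro p
      rw [derivative_comp, hdl, mul_comm]
    have h4 : ((∑ i, beta T B n x i * B i y).comp l) =
        ∑ i, (beta T B n x i).comp l * (B i y).comp l := by
      rw [← Polynomial.coe_compRingHom_apply, map_sum]
      simp [mul_comp]
    rw [h4] at h2
    have h5 : ((n : ℚ[X]) + 1) * (C (k ^ (n + 1)) * (beta T B (n + 1) x y).comp l) =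
        C (k ^ (n + 1)) * (((n : ℚ[X]) + 1) * (beta T B (n + 1) x y).comp l) := by ring
    rw [h5, h2, derivative_mul, derivative_C, zero_mul, zero_add, h3, h3]
    have h6 : ∑ i, C (k ^ n) * (beta T B n x i).comp l * (C k * (B i y).comp l) =
        C (k ^ (n + 1)) * ∑ i, (beta T B n x i).comp l * (B i y).comp l := by
      rw [Finset.mul_sum]
      refine Finset.sum_congr rfl fun i _ => ?_
      rw [pow_succ, C_mul]; ring
    rw [h6, pow_succ, C_mul]
    ring

theorem intBy_comp {q : ℕ} {p : ℚ[X]} (h : IntBy q p) (k a : ℕ) (n : ℕ) :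
    IntBy q (C ((k : ℚ) ^ n) * p.comp (C (a : ℚ) + C (k : ℚ) * X)) := by
  rw [Moeb.intBy_iff] at h ⊢
  obtain ⟨P, hP⟩ := h
  refine ⟨C ((k : ℤ) ^ n) * P.comp (C (a : ℤ) + C (k : ℤ) * X), ?_⟩
  rw [coe_mapRingHom] at hP ⊢
  rw [Polynomial.map_mul, Polynomial.map_comp, hP]
  simp only [mul_comp, C_comp, Polynomial.map_add, Polynomial.map_mul, Polynomial.map_C,
    Polynomial.map_X]
  simp
  ring

/-! ### additivity of `pev` -/

theorem pev_add {H : ℕ} {f g : PowerSeries ℚ} (hf : GBound H f) (hg : GBound H g)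
    {s : ℝ} (hs : (H : ℝ) < s) : pev (f + g) s = pev f s + pev g s := by
  rw [EvalAux.pev_eq, EvalAux.pev_eq, EvalAux.pev_eq,
    ← (EvalAux.summable_tm hf hs).of_norm.tsum_add (EvalAux.summable_tm hg hs).of_norm]
  congr 1
  funext n
  simp only [EvalAux.tm, map_add, Rat.cast_add]
  ring

theorem pev_one (s : ℝ) : pev 1 s = 1 := by
  unfold pev
  rw [tsum_eq_single 0]
  · simp
  · intro n hn
    rw [PowerSeries.coeff_one, if_neg hn]; simp

theorem gbound_one {H : ℕ} (hH : 1 ≤ H) : GBound H 1 := by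
  intro n
  rw [PowerSeries.coeff_one]
  split_ifs with h
  · subst h; simp; exact_mod_cast hH
  · simp

/-! ### polynomials with polynomially bounded coefficients -/

/-- degree at most `D`, coefficients at most `(K+1)^c`. -/
def PB (D c K : ℕ) (p : ℚ[X]) : Prop :=
  p.natDegree ≤ D ∧ ∀ i, |p.coeff i| ≤ ((K : ℚ) + 1) ^ c

theorem PB.mono {D D' c c' K : ℕ} {p : ℚ[X]} (h : PB D c K p) (hD : D ≤ D') (hc : c ≤ c') :
    PB D' c' K p := by
  refine ⟨h.1.trans hD, fun i => (h.2 i).trans ?_⟩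
  exact pow_le_pow_right₀ (by have : (0 : ℚ) ≤ K := K.cast_nonneg; linarith) hc

theorem two_le_K {K : ℕ} (hK : 1 ≤ K) : (2 : ℚ) ≤ (K : ℚ) + 1 := by
  have : (1 : ℚ) ≤ K := by exact_mod_cast hK
  linarith

theorem PB.add {D c K : ℕ} (hK : 1 ≤ K) {p q : ℚ[X]} (h : PB D c K p) (h' : PB D c K q) :
    PB D (c + 1) K (p + q) := by
  refine ⟨(natDegree_add_le _ _).trans (max_le h.1 h'.1), fun i => ?_⟩
  rw [coeff_add]
  refine (abs_add_le _ _).trans ((add_le_add (h.2 i) (h'.2 i)).trans ?_)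
  rw [pow_succ, ← mul_two]
  exact mul_le_mul_of_nonneg_left (two_le_K hK) (by positivity)

theorem PB.sum {D c K : ℕ} (hK : 1 ≤ K) {ι : Type} (s : Finset ι) {p : ι → ℚ[X]}
    (h : ∀ i ∈ s, PB D c K (p i)) : PB D (c + s.card) K (∑ i ∈ s, p i) := by
  classical
  induction s using Finset.induction_on with
  | empty => exact ⟨by simp, fun i => by simp; positivity⟩
  | insert a s ha ih =>
    rw [Finset.sum_insert ha, Finset.card_insert_of_notMem ha, ← add_assoc]
    refine PB.add hK ((h a (Finset.mem_insert_self _ _)).mono le_rfl (by omega)) ?_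
    exact ih fun i hi => h i (Finset.mem_insert_of_mem hi)

theorem PB.mul {D D' c c' K : ℕ} (hK : 1 ≤ K) {p q : ℚ[X]} (h : PB D c K p)
    (h' : PB D' c' K q) : PB (D + D') (c + c' + D + 1) K (p * q) := by
  refine ⟨natDegree_mul_le.trans (add_le_add h.1 h'.1), fun i => ?_⟩
  rw [coeff_mul]
  have hK0 : (0 : ℚ) ≤ (K : ℚ) + 1 := by positivity
  have h1 : ∀ x ∈ Finset.HasAntidiagonal.antidiagonal i, |p.coeff x.1 * q.coeff x.2| ≤
      if x.1 ≤ D then ((K : ℚ) + 1) ^ (c + c') else 0 := by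
    intro x _
    split_ifs with hx
    · rw [abs_mul, pow_add]
      exact mul_le_mul (h.2 _) (h'.2 _) (abs_nonneg _) (by positivity)
    · rw [coeff_eq_zero_of_natDegree_lt (by have := h.1; omega)]; simp
  refine (Finset.abs_sum_le_sum_abs _ _).trans ((Finset.sum_le_sum h1).trans ?_)
  rw [← Finset.sum_filter, Finset.sum_const, nsmul_eq_mul]
  have h2 : ((Finset.HasAntidiagonal.antidiagonal i).filter (fun x => x.1 ≤ D)).card ≤ D + 1 := by
    have : ((Finset.HasAntidiagonal.antidiagonal i).filter (fun x => x.1 ≤ D)).card ≤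
        (Finset.range (D + 1)).card := by
      refine Finset.card_le_card_of_injOn (fun x => x.1) ?_ ?_
      · intro x hx
        simp only [Finset.coe_filter, Set.mem_ofPred_eq, Finset.coe_range, Set.mem_Iio] at hx ⊢
        omega
      · intro x hx y hy hxy
        simp only [Finset.coe_filter, Finset.HasAntidiagonal.mem_antidiagonal, Set.mem_ofPred_eq] at hx hy hxy
        ext
        · exact hxy
        · omega
    simpa using this
  have h3 : ((D : ℚ) + 1) ≤ ((K : ℚ) + 1) ^ (D + 1) := by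
    have : ((D + 1 : ℕ) : ℚ) ≤ (2 : ℚ) ^ (D + 1) := by
      exact_mod_cast (Nat.lt_pow_self (n := D + 1) (a := 2) (by norm_num)).le
    calc ((D : ℚ) + 1) ≤ (2 : ℚ) ^ (D + 1) := by push_cast at this; exact this
      _ ≤ _ := pow_le_pow_left₀ (by norm_num) (two_le_K hK) _
  calc ((((Finset.HasAntidiagonal.antidiagonal i).filter (fun x => x.1 ≤ D)).card : ℕ) : ℚ) *
        ((K : ℚ) + 1) ^ (c + c')
      ≤ ((K : ℚ) + 1) ^ (D + 1) * ((K : ℚ) + 1) ^ (c + c') := by
        refine mul_le_mul_of_nonneg_right ?_ (by positivity)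
        refine le_trans ?_ h3
        exact_mod_cast h2
    _ = ((K : ℚ) + 1) ^ (c + c' + D + 1) := by rw [← pow_add]; congr 1; ring

/-- Products of at most `N` factors. -/
theorem PB.prod {D c K : ℕ} (hK : 1 ≤ K) {ι : Type} (s : Finset ι) {p : ι → ℚ[X]}
    (h : ∀ i ∈ s, PB D c K (p i)) :
    PB (s.card * D) (s.card * (c + D + 1)) K (∏ i ∈ s, p i) := by
  classical
  induction s using Finset.induction_on with
  | empty =>
    refine ⟨by simp, fun i => ?_⟩
    simp only [Finset.prod_empty, Finset.card_empty, zero_mul, pow_zero, coeff_one]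
    split_ifs <;> simp
  | insert a s ha ih =>
    rw [Finset.prod_insert ha, Finset.card_insert_of_notMem ha]
    have h1 := (h a (Finset.mem_insert_self _ _)).mul hK
      (ih fun i hi => h i (Finset.mem_insert_of_mem hi))
    refine h1.mono (by nlinarith) (by nlinarith)

theorem PB.C_mul {D c K n : ℕ} {p : ℚ[X]} (h : PB D c K p) {x : ℚ}
    (hx : |x| ≤ ((K : ℚ) + 1) ^ n) : PB D (c + n) K (C x * p) := by
  refine ⟨(natDegree_C_mul_le _ _).trans h.1, fun i => ?_⟩
  rw [coeff_C_mul, abs_mul, pow_add, mul_comm]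
  exact mul_le_mul (h.2 i) hx (abs_nonneg _) (by positivity)

end Pool.Agent.Helper37.GP
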