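import Mathlib

/-!
# GP-8 : a common denominator of `1, 1/2, …, 1/n` (helper86)
-/

namespace Pool.Agent.Helper37.GP

theorem exists_den (n : ℕ) : ∃ q : ℕ, 0 < q ∧ q ≤ 4 ^ (4 * n) ∧
    ∀ k, 1 ≤ k → k ≤ n → k ∣ q := by
  refine ⟨Nat.lcmUpto n, Nat.lcmUpto_pos n, ?_, ?_⟩
  · have h1 : Real.log (Nat.lcmUpto n) ≤ (Real.log 4 + 4) * n := by
      rw [← Chebyshev.psi_eq_log_lcmUpto]
      exact Chebyshev.psi_le_const_mul_self (Nat.cast_nonneg n)
    have h2 : (4 : ℝ) ≤ 3 * Real.log 4 := by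
      have h3 : Real.log 4 = 2 * Real.log 2 := by
        rw [show (4 : ℝ) = 2 ^ 2 by norm_num, Real.log_pow]
        norm_num
      have := Real.log_two_gt_d9
      rw [h3]
      linarith
    have h4 : Real.log (Nat.lcmUpto n) ≤ Real.log ((4 : ℝ) ^ (4 * n)) := by
      rw [Real.log_pow]
      push_cast
      have : (Real.log 4 + 4) * n ≤ (4 * Real.log 4) * n := by
        apply mul_le_mul_of_nonneg_right _ (Nat.cast_nonneg n)
        linarith
      linarith
    have h5 : ((Nat.lcmUpto n : ℕ) : ℝ) ≤ (4 : ℝ) ^ (4 * n) := by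
      have hpos : (0 : ℝ) < (Nat.lcmUpto n : ℕ) := by exact_mod_cast Nat.lcmUpto_pos n
      exact (Real.log_le_log_iff hpos (by positivity)).1 h4
    exact_mod_cast h5
  · intro k h1 h2
    exact Finset.dvd_lcm (f := id) (Finset.mem_Icc.2 ⟨h1, h2⟩)

end Pool.Agent.Helper37.GP
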