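import Pool.Agent.Helper37.GP.Defs2
import Pool.Agent.Helper37.GP.Lcm

/-!
# GP-9 : Galochkin's condition for the Legendre system
-/

set_option linter.unusedSimpArgs false

open Polynomial

namespace Pool.Agent.Helper37.GP

namespace LegGal

/-! ### the recursion in entries -/

lemma beta_rec {ι : Type} [Fintype ι] [DecidableEq ι] (T : ℚ[X]) (B : Matrix ι ι ℚ[X]) (j : ℕ)
    (a b : ι) : ((j : ℚ[X]) + 1) * beta T B (j + 1) a b =
      T * derivative (beta T B j a b) - (j : ℚ[X]) * derivative T * beta T B j a b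
        + ∑ c, beta T B j a c * B c b := by
  have h1 : ((j : ℚ[X]) + 1) * C (((j : ℚ) + 1)⁻¹) = 1 := by
    rw [show ((j : ℚ[X]) + 1) = C ((j : ℚ) + 1) by simp, ← C_mul,
      mul_inv_cancel₀ (by positivity), C_1]
  rw [beta]
  simp only [Matrix.add_apply, Matrix.sub_apply, Matrix.smul_apply, Matrix.map_apply,
    Matrix.mul_apply, smul_eq_mul]
  rw [← mul_assoc, h1, one_mul]

lemma sum2 (f : Fin 2 → ℚ[X]) : ∑ c, f c = f 0 + f 1 := Fin.sum_univ_two f

@[simp] lemma A0_00 : A0 0 0 = X := rfl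
@[simp] lemma A0_01 : A0 0 1 = -1 := rfl
@[simp] lemma A0_10 : A0 1 0 = X := rfl
@[simp] lemma A0_11 : A0 1 1 = -X := rfl

lemma dT0 : derivative T0 = 2 - 4 * X := by
  unfold T0
  simp only [derivative_mul, derivative_sub, derivative_one, derivative_X, derivative_ofNat]
  ring

lemma rec0 (j : ℕ) (a : Fin 2) : ((j : ℚ[X]) + 1) * beta T0 A0 (j + 1) a 0 =
      2 * X * (1 - X) * derivative (beta T0 A0 j a 0)
        - (j : ℚ[X]) * (2 - 4 * X) * beta T0 A0 j a 0
        + X * beta T0 A0 j a 0 + X * beta T0 A0 j a 1 := by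
  rw [beta_rec, dT0, sum2, A0_00, A0_10]
  unfold T0
  ring

lemma rec1 (j : ℕ) (a : Fin 2) : ((j : ℚ[X]) + 1) * beta T0 A0 (j + 1) a 1 =
      2 * X * (1 - X) * derivative (beta T0 A0 j a 1)
        - (j : ℚ[X]) * (2 - 4 * X) * beta T0 A0 j a 1
        - beta T0 A0 j a 0 - X * beta T0 A0 j a 1 := by
  rw [beta_rec, dT0, sum2, A0_01, A0_11]
  unfold T0
  ring

/-! ### degrees -/

lemma natDegree_X_mul_derivative (p : ℚ[X]) : (X * derivative p).natDegree ≤ p.natDegree := by
  rw [natDegree_le_iff_coeff_eq_zero]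
  intro N hN
  cases N with
  | zero => omega
  | succ N =>
    rw [coeff_X_mul, coeff_derivative, coeff_eq_zero_of_natDegree_lt hN, zero_mul]

theorem natDegree_beta0' (n : ℕ) (a : Fin 2) : (beta T0 A0 n a 0).natDegree ≤ n ∧
    (beta T0 A0 n a 1).natDegree ≤ n := by
  induction n with
  | zero =>
    have h : ∀ c d : Fin 2, ((1 : Matrix (Fin 2) (Fin 2) ℚ[X]) c d).natDegree ≤ 0 := by
      intro c d
      rw [Matrix.one_apply]
      split_ifs <;> simp
    exact ⟨h a 0, h a 1⟩
  | succ n ih =>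
    obtain ⟨h0, h1⟩ := ih
    have hc : ((n : ℚ[X]) + 1) = C ((n : ℚ) + 1) := by simp
    have hne : ((n : ℚ) + 1) ≠ 0 := by positivity
    have hX : (X : ℚ[X]).natDegree ≤ 1 := natDegree_X_le
    have h2 : ∀ p : ℚ[X], p.natDegree ≤ n →
        (2 * X * (1 - X) * derivative p).natDegree ≤ n + 1 := by
      intro p hp
      have e : (2 * X * (1 - X) * derivative p : ℚ[X]) =
          (C 2 * (1 - X)) * (X * derivative p) := by
        rw [show (C 2 : ℚ[X]) = 2 from rfl]; ring
      rw [e]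
      refine natDegree_mul_le.trans ?_
      have h3 := (natDegree_X_mul_derivative p).trans hp
      have h4 : (C 2 * (1 - X) : ℚ[X]).natDegree ≤ 1 := by
        refine natDegree_C_mul_le _ _ |>.trans ?_
        refine (natDegree_sub_le _ _).trans ?_
        simp
      omega
    have h5 : ∀ p : ℚ[X], p.natDegree ≤ n →
        ((n : ℚ[X]) * (2 - 4 * X) * p).natDegree ≤ n + 1 := by
      intro p hp
      refine natDegree_mul_le.trans ?_
      have h6 : ((n : ℚ[X]) * (2 - 4 * X)).natDegree ≤ 1 := by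
        rw [show ((n : ℚ[X]) * (2 - 4 * X)) = C ((n : ℚ)) * (C 2 - C 4 * X) by
          simp only [map_natCast]; rfl]
        refine natDegree_C_mul_le _ _ |>.trans ?_
        refine (natDegree_sub_le _ _).trans ?_
        simp only [natDegree_C, zero_le, sup_of_le_right]
        exact natDegree_C_mul_le _ _ |>.trans hX
      omega
    have h7 : ∀ p : ℚ[X], p.natDegree ≤ n → (X * p).natDegree ≤ n + 1 := by
      intro p hp
      refine natDegree_mul_le.trans ?_
      omega
    constructor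
    · have := rec0 n a
      rw [hc] at this
      rw [← natDegree_C_mul hne (p := beta T0 A0 (n + 1) a 0), this]
      refine (natDegree_add_le _ _).trans (max_le ((natDegree_add_le _ _).trans (max_le
        ((natDegree_sub_le _ _).trans (max_le (h2 _ h0) (h5 _ h0))) (h7 _ h0))) (h7 _ h1))
    · have := rec1 n a
      rw [hc] at this
      rw [← natDegree_C_mul hne (p := beta T0 A0 (n + 1) a 1), this]
      refine (natDegree_sub_le _ _).trans (max_le ((natDegree_sub_le _ _).trans (max_le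
        ((natDegree_sub_le _ _).trans (max_le (h2 _ h1) (h5 _ h1))) (by omega))) (h7 _ h1))

end LegGal

open LegGal

theorem natDegree_beta0 (n : ℕ) (a b : Fin 2) : (beta T0 A0 n a b).natDegree ≤ n := by
  fin_cases b
  · exact (natDegree_beta0' n a).1
  · exact (natDegree_beta0' n a).2

namespace LegGal

/-- the left recursion in entries -/
lemma left_entries (n : ℕ) : ∀ b : Fin 2,
    (((n : ℚ[X]) + 2) * beta T0 A0 (n + 2) 0 b + ((n : ℚ[X]) + 1) * (2 - 4 * X) *
      beta T0 A0 (n + 1) 0 b - 2 * (n : ℚ[X]) * (2 * X * (1 - X)) * beta T0 A0 n 0 b =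
      X * beta T0 A0 (n + 1) 0 b - beta T0 A0 (n + 1) 1 b +
        2 * X * (1 - X) * beta T0 A0 n 0 b) ∧
    (((n : ℚ[X]) + 2) * beta T0 A0 (n + 2) 1 b + ((n : ℚ[X]) + 1) * (2 - 4 * X) *
      beta T0 A0 (n + 1) 1 b - 2 * (n : ℚ[X]) * (2 * X * (1 - X)) * beta T0 A0 n 1 b =
      X * beta T0 A0 (n + 1) 0 b - X * beta T0 A0 (n + 1) 1 b +
        2 * X * (1 - X) * (beta T0 A0 n 0 b - beta T0 A0 n 1 b)) := by
  induction n with
  | zero =>
    have b000 : beta T0 A0 0 0 0 = 1 := by simp [beta]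
    have b001 : beta T0 A0 0 0 1 = 0 := by simp [beta]
    have b010 : beta T0 A0 0 1 0 = 0 := by simp [beta]
    have b011 : beta T0 A0 0 1 1 = 1 := by simp [beta]
    have b100 : beta T0 A0 1 0 0 = X := by
      have := rec0 0 0
      rw [b000, b001] at this
      simpa using this
    have b101 : beta T0 A0 1 0 1 = -1 := by
      have := rec1 0 0
      rw [b000, b001] at this
      simpa using this
    have b110 : beta T0 A0 1 1 0 = X := by
      have := rec0 0 1
      rw [b010, b011] at this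
      simpa using this
    have b111 : beta T0 A0 1 1 1 = -X := by
      have := rec1 0 1
      rw [b010, b011] at this
      simpa using this
    have r00 := rec0 1 0
    have r01 := rec1 1 0
    have r10 := rec0 1 1
    have r11 := rec1 1 1
    simp only [b100, b101, b110, b111, derivative_X, derivative_neg, derivative_one,
      Nat.cast_one] at r00 r01 r10 r11
    intro b
    fin_cases b
    · simp only [Fin.zero_eta, zero_add, Nat.cast_zero, b000, b001, b010, b011, b100, b101, b110,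
        b111]
      exact ⟨by linear_combination r00, by linear_combination r10⟩
    · simp only [Fin.mk_one, zero_add, Nat.cast_zero, b000, b001, b010, b011, b100, b101, b110,
        b111]
      exact ⟨by linear_combination r01, by linear_combination r11⟩
  | succ n ih =>
    have hne : ((n : ℚ[X]) + 2) ≠ 0 := by
      have h : ((n : ℚ[X]) + 2) = C ((n : ℚ) + 2) := by
        simp only [map_add, map_natCast]; rfl
      rw [h, Ne, C_eq_zero]
      positivity
    have h00 := (ih 0).1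
    have h01 := (ih 1).1
    have h10 := (ih 0).2
    have h11 := (ih 1).2
    have d00 := congrArg derivative h00
    have d01 := congrArg derivative h01
    have d10 := congrArg derivative h10
    have d11 := congrArg derivative h11
    simp only [derivative_add, derivative_sub, derivative_mul, derivative_natCast,
      derivative_ofNat, derivative_one, derivative_X] at d00 d01 d10 d11
    have p00 := rec0 (n + 2) 0
    have p01 := rec1 (n + 2) 0
    have p10 := rec0 (n + 2) 1
    have p11 := rec1 (n + 2) 1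
    have q00 := rec0 (n + 1) 0
    have q01 := rec1 (n + 1) 0
    have q10 := rec0 (n + 1) 1
    have q11 := rec1 (n + 1) 1
    have s00 := rec0 n 0
    have s01 := rec1 n 0
    have s10 := rec0 n 1
    have s11 := rec1 n 1
    push_cast at p00 p01 p10 p11 q00 q01 q10 q11 s00 s01 s10 s11 ⊢
    intro b
    fin_cases b
    · simp only [Fin.zero_eta]
      constructor
      · apply mul_left_cancel₀ hne
        linear_combination (2 * X * (1 - X)) * d00 + (X * h00 + X * h01)
          - ((n : ℚ[X]) + 1) * (2 - 4 * X) * h00 + ((n : ℚ[X]) + 2) * p00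
          + ((n : ℚ[X]) + 1) * (2 - 4 * X) * q00 - 2 * (n : ℚ[X]) * (2 * X * (1 - X)) * s00
          - X * q00 + q10 - 2 * X * (1 - X) * s00
      · apply mul_left_cancel₀ hne
        linear_combination (2 * X * (1 - X)) * d10 + (X * h10 + X * h11)
          - ((n : ℚ[X]) + 1) * (2 - 4 * X) * h10 + ((n : ℚ[X]) + 2) * p10
          + ((n : ℚ[X]) + 1) * (2 - 4 * X) * q10 - 2 * (n : ℚ[X]) * (2 * X * (1 - X)) * s10
          - X * q00 + X * q10 - 2 * X * (1 - X) * (s00 - s10)
    · simp only [Fin.mk_one]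
      constructor
      · apply mul_left_cancel₀ hne
        linear_combination (2 * X * (1 - X)) * d01 + (- h00 - X * h01)
          - ((n : ℚ[X]) + 1) * (2 - 4 * X) * h01 + ((n : ℚ[X]) + 2) * p01
          + ((n : ℚ[X]) + 1) * (2 - 4 * X) * q01 - 2 * (n : ℚ[X]) * (2 * X * (1 - X)) * s01
          - X * q01 + q11 - 2 * X * (1 - X) * s01
      · apply mul_left_cancel₀ hne
        linear_combination (2 * X * (1 - X)) * d11 + (- h10 - X * h11)
          - ((n : ℚ[X]) + 1) * (2 - 4 * X) * h11 + ((n : ℚ[X]) + 2) * p11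
          + ((n : ℚ[X]) + 1) * (2 - 4 * X) * q11 - 2 * (n : ℚ[X]) * (2 * X * (1 - X)) * s11
          - X * q01 + X * q11 - 2 * X * (1 - X) * (s01 - s11)

end LegGal

/-- `β_n` also satisfies the recursion coming from differentiating `T₀ Y' = A₀ Y` `n` times. -/
theorem beta0_left (n : ℕ) :
    ((n : ℚ[X]) + 2) • beta T0 A0 (n + 2) + (((n : ℚ[X]) + 1) * derivative T0) • beta T0 A0 (n + 1)
      - (2 * (n : ℚ[X]) * T0) • beta T0 A0 n =
      A0 * beta T0 A0 (n + 1) + T0 • ((A0.map derivative) * beta T0 A0 n) := by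
  have h := left_entries n
  refine Matrix.ext fun a b => ?_
  simp only [Matrix.add_apply, Matrix.sub_apply, Matrix.smul_apply, Matrix.map_apply,
    Matrix.mul_apply, smul_eq_mul, sum2, dT0]
  generalize beta T0 A0 (n + 2) = M2 at *
  generalize beta T0 A0 (n + 1) = M1 at *
  generalize beta T0 A0 n = M0 at *
  fin_cases a
  · have := (h b).1
    simp only [Fin.mk_zero, Fin.zero_eta, Fin.isValue, A0_00, A0_01, derivative_X, derivative_neg,
      derivative_one]
    rw [show T0 = 2 * X * (1 - X) from rfl]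
    linear_combination this
  · have := (h b).2
    simp only [Fin.mk_one, Fin.isValue, A0_10, A0_11, derivative_X, derivative_neg,
      derivative_one]
    rw [show T0 = 2 * X * (1 - X) from rfl]
    linear_combination this

namespace LegGal

/-! ### power series -/


/-- the variable -/
noncomputable abbrev x : (PowerSeries ℚ) := PowerSeries.X

/-- the derivative -/
noncomputable abbrev D (f : (PowerSeries ℚ)) : (PowerSeries ℚ) := PowerSeries.derivative ℚ f

/-- Taylor coefficients of `₂F₁(1/2,1/2;1)` -/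
noncomputable def cc (m : ℕ) : ℚ := (Nat.centralBinom m : ℚ) ^ 2 / 16 ^ m

/-- harmonic factors of the logarithmic solution -/
noncomputable def hh (m : ℕ) : ℚ :=
  4 * ∑ k ∈ Finset.range m, (1 / (2 * (k : ℚ) + 1) - 1 / (2 * (k : ℚ) + 2))

lemma cc_succ (m : ℕ) : 4 * ((m : ℚ) + 1) ^ 2 * cc (m + 1) = (2 * m + 1) ^ 2 * cc m := by
  have h : ((m : ℚ) + 1) * (Nat.centralBinom (m + 1) : ℚ) =
      2 * (2 * m + 1) * (Nat.centralBinom m : ℚ) := by
    exact_mod_cast Nat.succ_mul_centralBinom_succ m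
  unfold cc
  rw [pow_succ]
  have h2 : (((m : ℚ) + 1) * (Nat.centralBinom (m + 1) : ℚ)) ^ 2 =
      (2 * (2 * m + 1) * (Nat.centralBinom m : ℚ)) ^ 2 := by rw [h]
  linear_combination (1 / (4 * 16 ^ m)) * h2

lemma hh_succ (m : ℕ) : hh (m + 1) = hh m + 4 * (1 / (2 * (m : ℚ) + 1) - 1 / (2 * (m : ℚ) + 2)) := by
  unfold hh
  rw [Finset.sum_range_succ]
  ring

/-- the holomorphic solution -/
noncomputable def FF : (PowerSeries ℚ) := PowerSeries.mk cc

/-- the series part of the logarithmic solution -/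
noncomputable def GG : (PowerSeries ℚ) := PowerSeries.mk fun m => cc m * hh m

noncomputable def tau : (PowerSeries ℚ) := 2 * (1 - x)

noncomputable def F2 : (PowerSeries ℚ) := x * FF - tau * (x * D FF)

noncomputable def G2 : (PowerSeries ℚ) := x * GG - tau * FF - tau * (x * D GG)

lemma C_four : (PowerSeries.C (4 : ℚ) : (PowerSeries ℚ)) = 4 := map_ofNat _ 4
lemma C_eight : (PowerSeries.C (8 : ℚ) : (PowerSeries ℚ)) = 8 := map_ofNat _ 8

lemma H1 : 4 * x * (1 - x) * D (D FF) + 4 * (1 - 2 * x) * D FF = FF := by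
  have e : 4 * x * (1 - x) * D (D FF) + 4 * (1 - 2 * x) * D FF =
      PowerSeries.C 4 * (x * D (D FF)) - PowerSeries.C 4 * (x * (x * D (D FF))) +
        PowerSeries.C 4 * D FF - PowerSeries.C 8 * (x * D FF) := by
    rw [C_four, C_eight]; ring
  rw [e]
  ext n
  simp only [map_add, map_sub, PowerSeries.coeff_C_mul]
  rcases n with _ | _ | n
  · simp only [PowerSeries.coeff_zero_X_mul, PowerSeries.coeff_derivative, FF,
      PowerSeries.coeff_mk]
    have := cc_succ 0
    push_cast at this ⊢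
    linear_combination this
  · simp only [PowerSeries.coeff_succ_X_mul, PowerSeries.coeff_zero_X_mul,
      PowerSeries.coeff_derivative, FF, PowerSeries.coeff_mk]
    have := cc_succ 1
    push_cast at this ⊢
    linear_combination this
  · simp only [PowerSeries.coeff_succ_X_mul,
      PowerSeries.coeff_derivative, FF, PowerSeries.coeff_mk]
    have := cc_succ (n + 2)
    push_cast at this ⊢
    linear_combination this

lemma gg_succ (m : ℕ) : 4 * ((m : ℚ) + 1) ^ 2 * (cc (m + 1) * hh (m + 1)) =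
    (2 * m + 1) ^ 2 * (cc m * hh m) + 4 * (2 * m + 1) * cc m - 8 * (m + 1) * cc (m + 1) := by
  have h := cc_succ m
  have e1 : (2 * (m : ℚ) + 1) ≠ 0 := by positivity
  have e2 : (2 * (m : ℚ) + 2) ≠ 0 := by positivity
  rw [hh_succ]
  have e3 : 4 * ((m : ℚ) + 1) ^ 2 * (cc (m + 1) * (hh m + 4 * (1 / (2 * (m : ℚ) + 1) -
      1 / (2 * (m : ℚ) + 2)))) = 4 * ((m : ℚ) + 1) ^ 2 * cc (m + 1) * hh m +
      4 * ((m : ℚ) + 1) ^ 2 * cc (m + 1) * (4 / (2 * (m : ℚ) + 1)) -
      8 * (m + 1) * cc (m + 1) := by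
    field_simp
    ring
  rw [e3, h]
  field_simp

lemma H2 : 4 * x * (1 - x) * D (D GG) + 4 * (1 - 2 * x) * D GG + 8 * (1 - x) * D FF =
    GG + 4 * FF := by
  have e : 4 * x * (1 - x) * D (D GG) + 4 * (1 - 2 * x) * D GG + 8 * (1 - x) * D FF =
      PowerSeries.C 4 * (x * D (D GG)) - PowerSeries.C 4 * (x * (x * D (D GG))) +
        PowerSeries.C 4 * D GG - PowerSeries.C 8 * (x * D GG) + PowerSeries.C 8 * D FF -
        PowerSeries.C 8 * (x * D FF) := by
    rw [C_four, C_eight]; ring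
  have e' : GG + 4 * FF = GG + PowerSeries.C 4 * FF := by rw [C_four]
  rw [e, e']
  ext n
  simp only [map_add, map_sub, PowerSeries.coeff_C_mul]
  rcases n with _ | _ | n
  · simp only [PowerSeries.coeff_zero_X_mul, PowerSeries.coeff_derivative, FF, GG,
      PowerSeries.coeff_mk]
    have := gg_succ 0
    push_cast at this ⊢
    linear_combination this
  · simp only [PowerSeries.coeff_succ_X_mul, PowerSeries.coeff_zero_X_mul,
      PowerSeries.coeff_derivative, FF, GG, PowerSeries.coeff_mk]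
    have := gg_succ 1
    push_cast at this ⊢
    linear_combination this
  · simp only [PowerSeries.coeff_succ_X_mul,
      PowerSeries.coeff_derivative, FF, GG, PowerSeries.coeff_mk]
    have := gg_succ (n + 2)
    push_cast at this ⊢
    linear_combination this

lemma D_mul (f g : (PowerSeries ℚ)) : D (f * g) = f * D g + g * D f := by
  simp only [D, Derivation.leibniz, smul_eq_mul]

lemma D_X : D x = 1 := PowerSeries.derivative_X

lemma D_sub (f g : (PowerSeries ℚ)) : D (f - g) = D f - D g := map_sub _ _ _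

lemma D_add (f g : (PowerSeries ℚ)) : D (f + g) = D f + D g := map_add _ _ _

lemma D_two : D (2 : (PowerSeries ℚ)) = 0 := by
  have h := PowerSeries.derivative_C (R := ℚ) (r := 2)
  have e : (PowerSeries.C (2 : ℚ) : (PowerSeries ℚ)) = 2 := map_ofNat _ 2
  rw [e] at h
  exact h

lemma D_tau : D tau = -2 := by
  have h2 : D (2 : (PowerSeries ℚ)) = 0 := D_two
  have h1 : D (1 : (PowerSeries ℚ)) = 0 := PowerSeries.derivative_one
  rw [tau, D_mul, D_sub, h1, h2, D_X]
  ring

lemma E1 : tau * D F2 = FF - F2 := by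
  have h := H1
  have e : D F2 = FF + x * D FF - (tau * (x * D (D FF) + D FF) + x * D FF * (-2)) := by
    rw [F2, D_sub, D_mul, D_mul tau, D_mul x (D FF), D_X, D_tau]
    ring
  rw [e, F2, tau]
  linear_combination (-(1 - x)) * h

lemma E2 : x * tau * D G2 + tau * F2 = x * GG - x * G2 := by
  have h := H2
  have e : D G2 = GG + x * D GG - (tau * D FF + FF * (-2)) -
      (tau * (x * D (D GG) + D GG) + x * D GG * (-2)) := by
    rw [G2, D_sub, D_sub, D_mul, D_mul tau, D_mul tau, D_mul x (D GG), D_X, D_tau]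
    ring
  rw [e, F2, G2, tau]
  linear_combination (-(x * (1 - x))) * h

lemma tau_ne : tau ≠ 0 := by
  intro h
  have := congrArg PowerSeries.constantCoeff h
  have h1 : PowerSeries.constantCoeff x = 0 := PowerSeries.constantCoeff_X
  rw [tau, map_mul, map_sub, h1, map_ofNat, map_one, map_zero] at this
  norm_num at this

lemma constCoeff_FF : PowerSeries.constantCoeff FF = 1 := by
  rw [← PowerSeries.coeff_zero_eq_constantCoeff_apply, FF, PowerSeries.coeff_mk]
  simp [cc]

lemma constCoeff_GG : PowerSeries.constantCoeff GG = 0 := by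
  rw [← PowerSeries.coeff_zero_eq_constantCoeff_apply, GG, PowerSeries.coeff_mk]
  simp [hh]

lemma detP : FF * G2 - GG * F2 = -2 := by
  have h2 : D (2 : (PowerSeries ℚ)) = 0 := D_two
  apply PowerSeries.derivative.ext
  · show D (FF * G2 - GG * F2) = D (-2)
    have h3 : D (-2 : (PowerSeries ℚ)) = 0 := by
      rw [show (-2 : (PowerSeries ℚ)) = 0 - 2 by ring, D_sub, h2]
      simp [D]
    rw [h3]
    have h4 : (x * tau) * D (FF * G2 - GG * F2) = 0 := by
      have e1 := E1
      have e2 := E2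
      have f1 : x * tau * D FF = x * FF - F2 := by rw [F2]; ring
      have f2 : x * tau * D GG = x * GG - G2 - tau * FF := by rw [G2]; ring
      rw [D_sub, D_mul, D_mul]
      linear_combination FF * e2 + G2 * f1 - GG * x * e1 - F2 * f2
    have h5 : (x * tau) ≠ 0 := mul_ne_zero PowerSeries.X_ne_zero tau_ne
    exact (mul_eq_zero.1 h4).resolve_left h5
  · simp only [map_sub, map_mul, map_neg, map_ofNat]
    have h1 : PowerSeries.constantCoeff x = 0 := PowerSeries.constantCoeff_X
    simp only [F2, G2, tau, map_sub, map_mul, h1, constCoeff_FF, constCoeff_GG, map_ofNat, map_one]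
    norm_num

/-! ### binomial operators -/

/-- derivative of `binom(x, j)` at `m` -/
noncomputable def dj : ℕ → ℕ → ℚ
  | 0, _ => 0
  | j + 1, m => ∑ p ∈ Finset.HasAntidiagonal.antidiagonal j, (-1) ^ p.1 / ((p.1 : ℚ) + 1) * (m.choose p.2 : ℚ)

lemma choose_rec (m l : ℕ) : ((l : ℚ) + 1) * (m.choose (l + 1) : ℚ) =
    ((m : ℚ) - l) * (m.choose l : ℚ) := by
  rcases le_or_gt l m with h | h
  · have h1 := Nat.choose_succ_right_eq m l
    have h2 : ((m.choose (l + 1) * (l + 1) : ℕ) : ℚ) = ((m.choose l * (m - l) : ℕ) : ℚ) := by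
      rw [h1]
    push_cast [Nat.cast_sub h] at h2
    linear_combination h2
  · rw [Nat.choose_eq_zero_of_lt h, Nat.choose_eq_zero_of_lt (by omega)]
    simp

lemma dj_rec (j m : ℕ) : ((j : ℚ) + 1) * dj (j + 1) m =
    ((m : ℚ) - j) * dj j m + (m.choose j : ℚ) := by
  cases j with
  | zero => simp [dj]
  | succ i =>
    have s1 : ∑ p ∈ Finset.HasAntidiagonal.antidiagonal (i + 1), (-1 : ℚ) ^ p.1 * (m.choose p.2 : ℚ) =
        (m.choose (i + 1) : ℚ) -
          ∑ p ∈ Finset.HasAntidiagonal.antidiagonal i, (-1 : ℚ) ^ p.1 * (m.choose p.2 : ℚ) := by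
      rw [Finset.Nat.sum_antidiagonal_succ]
      simp only [pow_zero, one_mul, pow_succ]
      rw [sub_eq_add_neg, ← Finset.sum_neg_distrib]
      congr 1
      exact Finset.sum_congr rfl fun p _ => by ring
    have s2 : ∑ p ∈ Finset.HasAntidiagonal.antidiagonal (i + 1),
        (-1 : ℚ) ^ p.1 / ((p.1 : ℚ) + 1) * ((p.2 : ℚ) * (m.choose p.2 : ℚ)) =
        ((m : ℚ) - (i + 1)) * dj (i + 1) m +
          ∑ p ∈ Finset.HasAntidiagonal.antidiagonal i, (-1 : ℚ) ^ p.1 * (m.choose p.2 : ℚ) := by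
      rw [Finset.Nat.sum_antidiagonal_succ']
      simp only [Nat.cast_zero, zero_mul, mul_zero, zero_add, dj]
      rw [Finset.mul_sum, ← Finset.sum_add_distrib]
      refine Finset.sum_congr rfl fun p hp => ?_
      have hp' : (p.1 : ℚ) + p.2 = i := by exact_mod_cast Finset.HasAntidiagonal.mem_antidiagonal.1 hp
      have h1 := choose_rec m p.2
      have h2 : ((p.1 : ℚ) + 1) ≠ 0 := by positivity
      push_cast
      rw [h1, ← hp']
      field_simp
      ring
    have s3 : (((i + 1 : ℕ) : ℚ) + 1) * dj (i + 2) m =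
        ∑ p ∈ Finset.HasAntidiagonal.antidiagonal (i + 1), (-1 : ℚ) ^ p.1 * (m.choose p.2 : ℚ) +
        ∑ p ∈ Finset.HasAntidiagonal.antidiagonal (i + 1),
          (-1 : ℚ) ^ p.1 / ((p.1 : ℚ) + 1) * ((p.2 : ℚ) * (m.choose p.2 : ℚ)) := by
      simp only [dj]
      rw [Finset.mul_sum, ← Finset.sum_add_distrib]
      refine Finset.sum_congr rfl fun p hp => ?_
      have hp' : (p.1 : ℚ) + p.2 = (i : ℚ) + 1 := by exact_mod_cast Finset.HasAntidiagonal.mem_antidiagonal.1 hp
      have h2 : ((p.1 : ℚ) + 1) ≠ 0 := by positivity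
      push_cast
      rw [← hp']
      field_simp
      ring
    rw [s3, s1, s2]
    push_cast
    ring

noncomputable def bs (j : ℕ) (f : (PowerSeries ℚ)) : (PowerSeries ℚ) :=
  PowerSeries.mk fun m => (m.choose j : ℚ) * PowerSeries.coeff m f

noncomputable def ds (j : ℕ) (f : (PowerSeries ℚ)) : (PowerSeries ℚ) :=
  PowerSeries.mk fun m => dj j m * PowerSeries.coeff m f

lemma coeff_X_D (f : (PowerSeries ℚ)) (m : ℕ) : PowerSeries.coeff m (x * D f) = (m : ℚ) * PowerSeries.coeff m f := by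
  cases m with
  | zero => simp [PowerSeries.coeff_zero_X_mul]
  | succ m =>
    rw [PowerSeries.coeff_succ_X_mul, PowerSeries.coeff_derivative]
    push_cast
    ring

lemma bs_rec (j : ℕ) (f : (PowerSeries ℚ)) : ((j : (PowerSeries ℚ)) + 1) * bs (j + 1) f =
    x * D (bs j f) - (j : (PowerSeries ℚ)) * bs j f := by
  have e1 : ((j : (PowerSeries ℚ)) + 1) = PowerSeries.C ((j : ℚ) + 1) := by simp
  have e2 : (j : (PowerSeries ℚ)) = PowerSeries.C (j : ℚ) := by simp
  rw [e1, e2]
  ext m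
  rw [PowerSeries.coeff_C_mul, map_sub, coeff_X_D, PowerSeries.coeff_C_mul]
  simp only [bs, PowerSeries.coeff_mk]
  have := choose_rec m j
  linear_combination (PowerSeries.coeff m f) * this

lemma ds_rec (j : ℕ) (f : (PowerSeries ℚ)) : ((j : (PowerSeries ℚ)) + 1) * ds (j + 1) f =
    x * D (ds j f) - (j : (PowerSeries ℚ)) * ds j f + bs j f := by
  have e1 : ((j : (PowerSeries ℚ)) + 1) = PowerSeries.C ((j : ℚ) + 1) := by simp
  have e2 : (j : (PowerSeries ℚ)) = PowerSeries.C (j : ℚ) := by simp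
  rw [e1, e2]
  ext m
  rw [PowerSeries.coeff_C_mul, map_add, map_sub, coeff_X_D, PowerSeries.coeff_C_mul]
  simp only [bs, ds, PowerSeries.coeff_mk]
  have := dj_rec j m
  linear_combination (PowerSeries.coeff m f) * this

/-! ### the iterates in terms of the solutions -/

/-- polynomials as power series -/
noncomputable def ph (p : ℚ[X]) : (PowerSeries ℚ) := Polynomial.coeToPowerSeries.ringHom p

lemma ph_derivative (p : ℚ[X]) : ph (derivative p) = D (ph p) := by
  unfold ph
  simp only [Polynomial.coeToPowerSeries.ringHom_apply]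
  exact (PowerSeries.derivative_coe p).symm

noncomputable def PP (a : Fin 2) : (PowerSeries ℚ) := if a = 0 then FF else F2
noncomputable def QQ (a : Fin 2) : (PowerSeries ℚ) := if a = 0 then GG else G2

lemma ph_rec0 (j : ℕ) (a : Fin 2) : ((j : (PowerSeries ℚ)) + 1) * ph (beta T0 A0 (j + 1) a 0) =
      x * tau * D (ph (beta T0 A0 j a 0))
        - (j : (PowerSeries ℚ)) * (2 - 4 * x) * ph (beta T0 A0 j a 0)
        + x * ph (beta T0 A0 j a 0) + x * ph (beta T0 A0 j a 1) := by
  have h := congrArg ph (rec0 j a)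
  rw [← ph_derivative]
  have hX : ph X = x := by simp [ph, Polynomial.coeToPowerSeries.ringHom_apply]
  unfold ph at h hX ⊢
  simp only [map_add, map_mul, map_sub, map_natCast, map_one, map_ofNat, hX] at h
  rw [tau]
  linear_combination h

lemma ph_rec1 (j : ℕ) (a : Fin 2) : ((j : (PowerSeries ℚ)) + 1) * ph (beta T0 A0 (j + 1) a 1) =
      x * tau * D (ph (beta T0 A0 j a 1))
        - (j : (PowerSeries ℚ)) * (2 - 4 * x) * ph (beta T0 A0 j a 1)
        - ph (beta T0 A0 j a 0) - x * ph (beta T0 A0 j a 1) := by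
  have h := congrArg ph (rec1 j a)
  rw [← ph_derivative]
  have hX : ph X = x := by simp [ph, Polynomial.coeToPowerSeries.ringHom_apply]
  unfold ph at h hX ⊢
  simp only [map_add, map_mul, map_sub, map_natCast, map_one, map_ofNat, hX] at h
  rw [tau]
  linear_combination h

lemma D_pow_tau (j : ℕ) : tau * D (tau ^ j) = (j : (PowerSeries ℚ)) * (-2) * tau ^ j := by
  have := PowerSeries.derivative_pow (R := ℚ) tau j
  have h2 : D (tau ^ j) = (j : (PowerSeries ℚ)) * tau ^ (j - 1) * D tau := this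
  rw [h2, D_tau]
  cases j with
  | zero => simp
  | succ j => simp only [Nat.add_sub_cancel]; ring

lemma key (j : ℕ) (a : Fin 2) :
    ph (beta T0 A0 j a 0) * FF + ph (beta T0 A0 j a 1) * F2 = tau ^ j * bs j (PP a) ∧
    ph (beta T0 A0 j a 0) * GG + ph (beta T0 A0 j a 1) * G2 =
      tau ^ j * (bs j (QQ a) + ds j (PP a)) := by
  induction j with
  | zero =>
    have hb : ∀ f : (PowerSeries ℚ), bs 0 f = f := by intro f; ext m; simp [bs]
    have hd : ∀ f : (PowerSeries ℚ), ds 0 f = 0 := by intro f; ext m; simp [ds, dj]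
    rw [hb, hb, hd]
    have b0 : ∀ c d : Fin 2, ph (beta T0 A0 0 c d) = if c = d then 1 else 0 := by
      intro c d
      simp only [beta, Matrix.one_apply, ph]
      split_ifs <;> simp
    rw [b0, b0]
    fin_cases a
    · simp [PP, QQ]
    · simp [PP, QQ]
  | succ j ih =>
    obtain ⟨h1, h2⟩ := ih
    have hne : ((j : (PowerSeries ℚ)) + 1) ≠ 0 := by
      rw [show ((j : (PowerSeries ℚ)) + 1) = PowerSeries.C ((j : ℚ) + 1) by simp]
      intro h
      have := congrArg PowerSeries.constantCoeff h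
      simp at this
      have h3 : (0 : ℚ) < (j : ℚ) + 1 := by positivity
      linarith
    have d1 := congrArg D h1
    have d2 := congrArg D h2
    rw [D_add, D_mul, D_mul, D_mul] at d1 d2
    rw [D_add] at d2
    have r0 := ph_rec0 j a
    have r1 := ph_rec1 j a
    have e1 := E1
    have e2 := E2
    have f1 : x * tau * D FF = x * FF - F2 := by rw [F2]; ring
    have f2 : x * tau * D GG = x * GG - G2 - tau * FF := by rw [G2]; ring
    have t1 := D_pow_tau j
    have b1 := bs_rec j (PP a)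
    have b2 := bs_rec j (QQ a)
    have b3 := ds_rec j (PP a)
    have ht : tau = 2 - 2 * x := by rw [tau]; ring
    rw [pow_succ]
    constructor
    · apply mul_left_cancel₀ hne
      linear_combination FF * r0 + F2 * r1 + x * tau * d1 - ph (beta T0 A0 j a 0) * f1
        - ph (beta T0 A0 j a 1) * x * e1 + x * bs j (PP a) * t1
        - (j : (PowerSeries ℚ)) * (2 - 4 * x) * h1 - tau ^ j * tau * b1
        + (j : (PowerSeries ℚ)) * tau ^ j * bs j (PP a) * ht
    · apply mul_left_cancel₀ hne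
      linear_combination GG * r0 + G2 * r1 + x * tau * d2 - ph (beta T0 A0 j a 0) * f2
        - ph (beta T0 A0 j a 1) * e2 + x * (bs j (QQ a) + ds j (PP a)) * t1
        - (j : (PowerSeries ℚ)) * (2 - 4 * x) * h2 + tau * h1 - tau ^ j * tau * (b2 + b3)
        + (j : (PowerSeries ℚ)) * tau ^ j * (bs j (QQ a) + ds j (PP a)) * ht

/-! ### denominators -/

/-- `M 16^n` clears the `n`-th coefficient, for `n ≤ j` -/
def DI (M j : ℕ) (f : (PowerSeries ℚ)) : Prop :=
  ∀ n ≤ j, ∃ z : ℤ, (M : ℚ) * 16 ^ n * PowerSeries.coeff n f = z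

lemma DI.mul {M M' j : ℕ} {f g : (PowerSeries ℚ)} (hf : DI M j f) (hg : DI M' j g) : DI (M * M') j (f * g) := by
  intro n hn
  rw [PowerSeries.coeff_mul, Finset.mul_sum]
  have h : ∀ p ∈ Finset.HasAntidiagonal.antidiagonal n, ∃ z : ℤ,
      ((M * M' : ℕ) : ℚ) * 16 ^ n * (PowerSeries.coeff p.1 f * PowerSeries.coeff p.2 g) = z := by
    intro p hp
    have hp' : p.1 + p.2 = n := Finset.HasAntidiagonal.mem_antidiagonal.1 hp
    obtain ⟨z1, h1⟩ := hf p.1 (by omega)
    obtain ⟨z2, h2⟩ := hg p.2 (by omega)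
    refine ⟨z1 * z2, ?_⟩
    push_cast
    rw [← h1, ← h2, ← hp', pow_add]
    ring
  choose! z hz using h
  refine ⟨∑ p ∈ Finset.HasAntidiagonal.antidiagonal n, z p, ?_⟩
  push_cast
  exact Finset.sum_congr rfl fun p hp => by
    have := hz p hp
    push_cast at this
    exact this

lemma DI.sub {M j : ℕ} {f g : (PowerSeries ℚ)} (hf : DI M j f) (hg : DI M j g) : DI M j (f - g) := by
  intro n hn
  obtain ⟨z1, h1⟩ := hf n hn
  obtain ⟨z2, h2⟩ := hg n hn
  exact ⟨z1 - z2, by rw [map_sub]; push_cast; rw [← h1, ← h2]; ring⟩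

lemma DI.add {M j : ℕ} {f g : (PowerSeries ℚ)} (hf : DI M j f) (hg : DI M j g) : DI M j (f + g) := by
  intro n hn
  obtain ⟨z1, h1⟩ := hf n hn
  obtain ⟨z2, h2⟩ := hg n hn
  exact ⟨z1 + z2, by rw [map_add]; push_cast; rw [← h1, ← h2]; ring⟩

lemma DI.mono {M M' j : ℕ} {f : (PowerSeries ℚ)} (h : M ∣ M') (hf : DI M j f) : DI M' j f := by
  obtain ⟨k, rfl⟩ := h
  intro n hn
  obtain ⟨z1, h1⟩ := hf n hn
  exact ⟨k * z1, by push_cast; rw [← h1]; ring⟩

lemma DI.anti {M j i : ℕ} {f : (PowerSeries ℚ)} (h : i ≤ j) (hf : DI M j f) : DI M i f :=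
  fun n hn => hf n (hn.trans h)

lemma DI_theta {M j : ℕ} {f : (PowerSeries ℚ)} (hf : DI M j f) : DI M j (x * D f) := by
  intro n hn
  obtain ⟨z1, h1⟩ := hf n hn
  exact ⟨n * z1, by rw [coeff_X_D]; push_cast; rw [← h1]; ring⟩

lemma DI_int {j : ℕ} {f : (PowerSeries ℚ)} (hf : ∀ n, ∃ z : ℤ, PowerSeries.coeff n f = z) : DI 1 j f := by
  intro n _
  obtain ⟨z, h⟩ := hf n
  exact ⟨16 ^ n * z, by rw [h]; push_cast; ring⟩

lemma DI_x (j : ℕ) : DI 1 j x := by
  apply DI_int
  intro n
  rw [PowerSeries.coeff_X]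
  split_ifs
  · exact ⟨1, by simp⟩
  · exact ⟨0, by simp⟩

lemma DI_one (j : ℕ) : DI 1 j 1 := by
  apply DI_int
  intro n
  rw [PowerSeries.coeff_one]
  split_ifs
  · exact ⟨1, by simp⟩
  · exact ⟨0, by simp⟩

lemma DI_tau (j : ℕ) : DI 1 j tau := by
  have e : tau = (1 + 1) * (1 - x) := by rw [tau]; ring
  rw [e]
  exact ((DI_one j).add (DI_one j)).mul ((DI_one j).sub (DI_x j))

lemma DI_tau_pow (j i : ℕ) : DI 1 j (tau ^ i) := by
  induction i with
  | zero => simpa using DI_one j
  | succ i ih => rw [pow_succ]; exact ih.mul (DI_tau j)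

lemma DI_FF (j : ℕ) : DI 1 j FF := by
  intro n _
  refine ⟨(Nat.centralBinom n : ℤ) ^ 2, ?_⟩
  rw [FF, PowerSeries.coeff_mk, cc]
  push_cast
  field_simp

lemma hh_int {q j : ℕ} (hq : ∀ k, 1 ≤ k → k ≤ 2 * j → k ∣ q) {n : ℕ} (hn : n ≤ j) :
    ∃ z : ℤ, (q : ℚ) * hh n = z := by
  unfold hh
  have h : ∀ k ∈ Finset.range n, ∃ z : ℤ,
      (q : ℚ) * (1 / (2 * (k : ℚ) + 1) - 1 / (2 * (k : ℚ) + 2)) = z := by
    intro k hk
    have hk' := Finset.mem_range.1 hk
    obtain ⟨a, ha⟩ := hq (2 * k + 1) (by omega) (by omega)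
    obtain ⟨b, hb⟩ := hq (2 * k + 2) (by omega) (by omega)
    refine ⟨(a : ℤ) - b, ?_⟩
    have h1 : (q : ℚ) = (2 * (k : ℚ) + 1) * a := by rw [ha]; push_cast; ring
    have h2 : (q : ℚ) = (2 * (k : ℚ) + 2) * b := by rw [hb]; push_cast; ring
    have e1 : (2 * (k : ℚ) + 1) ≠ 0 := by positivity
    have e2 : (2 * (k : ℚ) + 2) ≠ 0 := by positivity
    have h3 : (q : ℚ) * (1 / (2 * (k : ℚ) + 1)) = a := by rw [h1]; field_simp
    have h4 : (q : ℚ) * (1 / (2 * (k : ℚ) + 2)) = b := by rw [h2]; field_simp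
    rw [mul_sub, h3, h4]
    push_cast
    ring
  choose! z hz using h
  refine ⟨4 * ∑ k ∈ Finset.range n, z k, ?_⟩
  push_cast
  rw [← Finset.sum_congr rfl hz, ← Finset.mul_sum]
  ring

lemma DI_GG {q j : ℕ} (hq : ∀ k, 1 ≤ k → k ≤ 2 * j → k ∣ q) : DI q j GG := by
  intro n hn
  obtain ⟨z, hz⟩ := hh_int hq hn
  refine ⟨(Nat.centralBinom n : ℤ) ^ 2 * z, ?_⟩
  rw [GG, PowerSeries.coeff_mk, cc]
  push_cast
  rw [← hz]
  field_simp

lemma DI_F2 (j : ℕ) : DI 1 j F2 :=
  ((DI_x j).mul (DI_FF j)).sub ((DI_tau j).mul (DI_theta (DI_FF j)))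

lemma DI_G2 {q j : ℕ} (hq : ∀ k, 1 ≤ k → k ≤ 2 * j → k ∣ q) : DI q j G2 := by
  have h1 : DI q j (x * GG) := by simpa using (DI_x j).mul (DI_GG hq)
  have h2 : DI q j (tau * FF) := ((DI_tau j).mul (DI_FF j)).mono (by simp)
  have h3 : DI q j (tau * (x * D GG)) := by simpa using (DI_tau j).mul (DI_theta (DI_GG hq))
  exact (h1.sub h2).sub h3

lemma DI_bs {M j : ℕ} {f : (PowerSeries ℚ)} (hf : DI M j f) (i : ℕ) : DI M j (bs i f) := by
  intro n hn
  obtain ⟨z1, h1⟩ := hf n hn
  refine ⟨(n.choose i : ℤ) * z1, ?_⟩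
  rw [bs, PowerSeries.coeff_mk]
  push_cast
  rw [← h1]
  ring

lemma dj_int {q j : ℕ} (hq : ∀ k, 1 ≤ k → k ≤ 2 * j → k ∣ q) {i : ℕ} (hi : i ≤ j) (m : ℕ) :
    ∃ z : ℤ, (q : ℚ) * dj i m = z := by
  cases i with
  | zero => exact ⟨0, by simp [dj]⟩
  | succ i =>
    have h : ∀ p ∈ Finset.HasAntidiagonal.antidiagonal i, ∃ z : ℤ,
        (q : ℚ) * ((-1) ^ p.1 / ((p.1 : ℚ) + 1) * (m.choose p.2 : ℚ)) = z := by
      intro p hp
      have hp' : p.1 + p.2 = i := Finset.HasAntidiagonal.mem_antidiagonal.1 hp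
      obtain ⟨a, ha⟩ := hq (p.1 + 1) (by omega) (by omega)
      refine ⟨(-1) ^ p.1 * a * (m.choose p.2 : ℤ), ?_⟩
      have h1 : (q : ℚ) = ((p.1 : ℚ) + 1) * a := by rw [ha]; push_cast; ring
      have e1 : ((p.1 : ℚ) + 1) ≠ 0 := by positivity
      rw [h1]
      push_cast
      field_simp
    choose! z hz using h
    refine ⟨∑ p ∈ Finset.HasAntidiagonal.antidiagonal i, z p, ?_⟩
    push_cast
    rw [← Finset.sum_congr rfl hz, ← Finset.mul_sum]
    rfl

lemma DI_ds {q j : ℕ} (hq : ∀ k, 1 ≤ k → k ≤ 2 * j → k ∣ q) {i : ℕ} (hi : i ≤ j) {f : (PowerSeries ℚ)}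
    (hf : DI 1 j f) : DI q j (ds i f) := by
  intro n hn
  obtain ⟨z1, h1⟩ := hf n hn
  obtain ⟨z2, h2⟩ := dj_int hq hi n
  refine ⟨z2 * z1, ?_⟩
  rw [ds, PowerSeries.coeff_mk]
  push_cast
  rw [← h1, ← h2]
  push_cast
  ring

lemma DI_PP (j : ℕ) (a : Fin 2) : DI 1 j (PP a) := by
  unfold PP; split_ifs
  · exact DI_FF j
  · exact DI_F2 j

lemma DI_QQ {q j : ℕ} (hq : ∀ k, 1 ≤ k → k ≤ 2 * j → k ∣ q) (a : Fin 2) : DI q j (QQ a) := by
  unfold QQ; split_ifs
  · exact DI_GG hq
  · exact DI_G2 hq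

lemma DI_beta {q j : ℕ} (hq : ∀ k, 1 ≤ k → k ≤ 2 * j → k ∣ q) {i : ℕ} (hi : i ≤ j)
    (a b : Fin 2) : DI (2 * q) j (ph (beta T0 A0 i a b)) := by
  obtain ⟨h1, h2⟩ := key i a
  have hd := detP
  have hs : DI 1 j (tau ^ i * bs i (PP a)) := (DI_tau_pow j i).mul (DI_bs (DI_PP j a) i)
  have ht : DI q j (tau ^ i * (bs i (QQ a) + ds i (PP a))) := by
    have := (DI_tau_pow j i).mul ((DI_bs (DI_QQ hq a) i).add (DI_ds hq hi (DI_PP j a)))
    simpa using this
  -- Cramer
  have hmul : ∀ {M : ℕ} {f g : (PowerSeries ℚ)}, DI M j g → (-2 : (PowerSeries ℚ)) * f = g → DI (2 * M) j f := by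
    intro M f g hg hfg n hn
    obtain ⟨z, hz⟩ := hg n hn
    refine ⟨-z, ?_⟩
    have h3 : (-2 : (PowerSeries ℚ)) = PowerSeries.C (-2 : ℚ) := by
      rw [map_neg, map_ofNat]
    rw [← hfg, h3, PowerSeries.coeff_C_mul] at hz
    push_cast
    rw [← hz]
    ring
  have h00 : DI q j (tau ^ i * bs i (PP a) * G2 - tau ^ i * (bs i (QQ a) + ds i (PP a)) * F2) := by
    have e1 := hs.mul (DI_G2 hq)
    have e2 := ht.mul (DI_F2 j)
    rw [one_mul] at e1
    rw [mul_one] at e2
    exact e1.sub e2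
  have h01 : DI q j (tau ^ i * (bs i (QQ a) + ds i (PP a)) * FF - tau ^ i * bs i (PP a) * GG) := by
    have e1 := hs.mul (DI_GG hq)
    have e2 := ht.mul (DI_FF j)
    rw [one_mul] at e1
    rw [mul_one] at e2
    exact e2.sub e1
  fin_cases b
  · refine hmul h00 ?_
    rw [← h1, ← h2, ← hd]
    simp only [Fin.zero_eta]
    ring
  · refine hmul h01 ?_
    rw [← h1, ← h2, ← hd]
    simp only [Fin.mk_one]
    ring

end LegGal

theorem legendre_galochkin : ∃ H₀ : ℕ, 2 ≤ H₀ ∧ Galochkin T0 A0 H₀ := by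
  refine ⟨4 ^ 11, by norm_num, ?_⟩
  intro j
  obtain ⟨q, hq0, hq1, hq⟩ := exists_den (2 * j)
  refine ⟨2 * q * 16 ^ j, by positivity, ?_, ?_⟩
  · have h1 : (16 : ℕ) ^ j = 4 ^ (2 * j) := by rw [pow_mul]; norm_num
    calc 2 * q * 16 ^ j ≤ 4 ^ 1 * 4 ^ (4 * (2 * j)) * 4 ^ (2 * j) := by
          rw [h1]; gcongr; norm_num
      _ = 4 ^ (10 * j + 1) := by rw [← pow_add, ← pow_add]; congr 1; ring
      _ ≤ 4 ^ (11 * (j + 1)) := Nat.pow_le_pow_right (by norm_num) (by omega)
      _ = (4 ^ 11) ^ (j + 1) := by rw [pow_mul]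
  · intro i hi a b n
    rcases le_or_gt n j with hn | hn
    · obtain ⟨z, hz⟩ := DI_beta hq hi a b n hn
      have h1 : PowerSeries.coeff n (ph (beta T0 A0 i a b)) = (beta T0 A0 i a b).coeff n := by
        simp [ph, Polynomial.coeToPowerSeries.ringHom_apply]
      rw [h1] at hz
      refine ⟨16 ^ (j - n) * z, ?_⟩
      push_cast
      rw [← hz]
      have h2 : (16 : ℚ) ^ j = 16 ^ (j - n) * 16 ^ n := by
        rw [← pow_add, Nat.sub_add_cancel hn]
      rw [h2]
      push_cast
      ring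
    · refine ⟨0, ?_⟩
      have h1 := natDegree_beta0 i a b
      rw [coeff_eq_zero_of_natDegree_lt (by omega)]
      simp

end Pool.Agent.Helper37.GP
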