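import Pool.Agent.Helper37.GP.SolCore
import Pool.Agent.Helper37.GP.LegGal
import Pool.Agent.Helper37.GP.RowSize

/-!
# The solution at infinity of the Legendre system (module GP-11): final statements

`sol_t_zero` is in `SolCore.lean`.
-/

open Polynomial

namespace Pool.Agent.Helper37.GP

theorem sol_t {al be ga : ℤ} (h0 : 0 < al) (h1 : al < ga) (b : Fin 2) :
    IsSol ((Tt al be ga).map (Int.castRingHom ℚ)) (At al be ga)
      (fun a => ps (Yt al be ga a b)) :=
  sol_t_of (fun n => beta0_left n) h0 h1 b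

theorem sol_t_det {al be ga : ℤ} (h0 : 0 < al) (h1 : al < ga) :
    Yt al be ga 0 0 * Yt al be ga 1 1 - Yt al be ga 0 1 * Yt al be ga 1 0 = 1 :=
  sol_t_det_of (fun n => beta0_left n) h0 h1

theorem sol_t_bound {al be ga : ℤ} (h0 : 0 < al) (h1 : al < ga) :
    ∃ H₁ : ℕ, 2 ≤ H₁ ∧ (∀ a b, GBound H₁ (Yt al be ga a b)) ∧
      GDen H₁ (fun p : Fin 2 × Fin 2 => Yt al be ga p.1 p.2) := by
  refine sol_t_bound_of natDegree_beta0 legendre_galochkin ?_ h0 h1
  obtain ⟨C₀, hC, h⟩ := size_beta 2 2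
  refine ⟨2 ^ C₀, Nat.one_le_two_pow, ?_⟩
  refine h 2 le_rfl T0 A0 ?_ ?_ ?_ ?_
  · unfold T0
    compute_degree
  · intro a b
    unfold A0
    fin_cases a <;> fin_cases b <;> simp
  · intro i
    have e : T0 = C 2 * X - C 2 * X ^ 2 := by
      unfold T0
      simp only [map_ofNat]
      ring
    rw [e, coeff_sub, coeff_C_mul, coeff_C_mul, coeff_X, coeff_X_pow]
    split_ifs <;> norm_num
  · intro a b i
    unfold A0
    fin_cases a <;> fin_cases b <;> simp [coeff_X, coeff_one] <;> split_ifs <;> norm_num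

end Pool.Agent.Helper37.GP
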