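import Pool.Agent.Helper37.GP.BigGal
import Pool.Agent.Helper37.GP.BigComm
import Pool.Agent.Helper37.GP.Bounds
import Pool.Agent.Helper37.GP.Sol
import Pool.Agent.Helper37.GP.LegGal
import Pool.Agent.Helper37.GP.FunSpace
import Pool.Agent.Helper37.GP.GThmAux
import Pool.Agent.Helper37.GP.Core

/-!
# The G-theorem for `SL₂^d`
-/

open Polynomial

namespace Pool.Agent.Helper37.GP

section Factor

/-- `T` after the substitution `t = a + k s`. -/
noncomputable def Tj (al be ga : ℤ) (a k : ℕ) : ℤ[X] :=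
  (Tt al be ga).comp (C (a : ℤ) + C (k : ℤ) * X)

/-- The matrix of the system after the substitution `t = a + k s`. -/
noncomputable def Aj (al be ga : ℤ) (a k : ℕ) : Matrix (Fin 2) (Fin 2) ℚ[X] :=
  (C (k : ℚ) : ℚ[X]) • (At al be ga).map (fun p => p.comp (C (a : ℚ) + C (k : ℚ) * X))

/-- The solution after the substitution `t = a + k s`. -/
noncomputable def Yj (al be ga : ℤ) (a k : ℕ) (x y : Fin 2) : PowerSeries ℚ :=
  (Yt al be ga x y).subst (gx k a)

/-- The solution as a matrix of Laurent series. -/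
noncomputable def Zj (al be ga : ℤ) (a k : ℕ) : Matrix (Fin 2) (Fin 2) (LaurentSeries ℚ) :=
  Matrix.of fun x y => ps (Yj al be ga a k x y)

theorem Tj_map (al be ga : ℤ) (a k : ℕ) : (Tj al be ga a k).map (Int.castRingHom ℚ) =
    ((Tt al be ga).map (Int.castRingHom ℚ)).comp (C (a : ℚ) + C (k : ℚ) * X) := by
  unfold Tj
  rw [Polynomial.map_comp]
  congr 1
  simp

theorem Tt_natDegree {al be ga : ℤ} (h0 : 0 < al) (h1 : al < ga) :
    (Tt al be ga).natDegree = 3 := by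
  unfold Tt
  have e1 : (C al * X + C be : ℤ[X]).natDegree = 1 := natDegree_linear (by omega)
  have e2 : (C (ga - al) * X - C be : ℤ[X]).natDegree = 1 := by
    rw [sub_eq_add_neg, ← C_neg]
    exact natDegree_linear (by omega)
  have e3 : (2 * X : ℤ[X]).natDegree = 1 := by
    have : (2 * X : ℤ[X]) = C 2 * X + C 0 := by simp
    rw [this]
    exact natDegree_linear (by norm_num)
  have n1 : (C al * X + C be : ℤ[X]) ≠ 0 := by
    intro h; rw [h] at e1; simp at e1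
  have n2 : (C (ga - al) * X - C be : ℤ[X]) ≠ 0 := by
    intro h; rw [h] at e2; simp at e2
  have n3 : (2 * X : ℤ[X]) ≠ 0 := by
    intro h; rw [h] at e3; simp at e3
  rw [natDegree_mul (mul_ne_zero n3 n1) n2, natDegree_mul n3 n1, e1, e2, e3]

theorem Tj_natDegree {al be ga : ℤ} (h0 : 0 < al) (h1 : al < ga) (a : ℕ) {k : ℕ} (hk : 1 ≤ k) :
    (Tj al be ga a k).natDegree = 3 := by
  unfold Tj
  have e : (C (a : ℤ) + C (k : ℤ) * X : ℤ[X]).natDegree = 1 := by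
    rw [add_comm]
    exact natDegree_linear (by omega)
  rw [natDegree_comp, e, Tt_natDegree h0 h1]

theorem det_Yj {al be ga : ℤ} (h0 : 0 < al) (h1 : al < ga) (a k : ℕ) :
    Yj al be ga a k 0 0 * Yj al be ga a k 1 1 - Yj al be ga a k 0 1 * Yj al be ga a k 1 0 = 1 := by
  unfold Yj
  have hs := Subst12.hasSubst_gx k a
  have h := congrArg (PowerSeries.substAlgHom (R := ℚ) hs) (sol_t_det (be := be) h0 h1)
  rw [map_sub, map_mul, map_mul, map_one] at h
  simp only [PowerSeries.coe_substAlgHom] at h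
  exact h

theorem Zj_det {al be ga : ℤ} (h0 : 0 < al) (h1 : al < ga) (a k : ℕ) :
    (Zj al be ga a k).det = 1 := by
  rw [Matrix.det_fin_two]
  simp only [Zj, Matrix.of_apply]
  have h := congrArg ps (det_Yj (be := be) h0 h1 a k)
  have e1 : ∀ f g : PowerSeries ℚ, ps (f - g) = ps f - ps g := fun f g => by
    unfold ps; exact map_sub _ _ _
  have e2 : ps 1 = 1 := by unfold ps; exact map_one _
  rw [e1, Subst12.ps_mul, Subst12.ps_mul, e2] at h
  exact h

theorem Zj_sol {al be ga : ℤ} (h0 : 0 < al) (h1 : al < ga) (a : ℕ) {k : ℕ} (hk : 1 ≤ k)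
    (b : Fin 2) : IsSol ((Tj al be ga a k).map (Int.castRingHom ℚ)) (Aj al be ga a k)
      (fun x => Zj al be ga a k x b) := by
  rw [Tj_map]
  exact isSol_subst (sol_t h0 h1 b) hk a

theorem Yj_zero (al be ga : ℤ) (a : ℕ) {k : ℕ} (hk : 1 ≤ k) (x y : Fin 2) :
    PowerSeries.constantCoeff (Yj al be ga a k x y) = (1 : Matrix (Fin 2) (Fin 2) ℚ) x y := by
  unfold Yj
  rw [← sol_t_zero al be ga x y, ← PowerSeries.coeff_zero_eq_constantCoeff_apply,
    ← PowerSeries.coeff_zero_eq_constantCoeff_apply, Subst12.coeff_subst_gx hk]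
  simp [Subst12.cc_zero]

theorem At_PB (al be ga : ℤ) : ∃ c : ℕ, ∀ K a k : ℕ, 1 ≤ K → a ≤ K → k ≤ K → ∀ x y,
    PB 1 c K (Aj al be ga a k x y) := by
  classical
  choose c hc using fun p : Fin 2 × Fin 2 => coeff_comp_le (At al be ga p.1 p.2)
  refine ⟨(∑ p, c p) + 1, ?_⟩
  intro K a k hK ha hk x y
  have hd : (At al be ga x y).natDegree ≤ 1 := by
    unfold At
    simp only [Matrix.smul_apply, smul_eq_mul]
    refine (natDegree_C_mul_le _ _).trans ?_
    have k1 : (C (al : ℚ) * X + C (be : ℚ) : ℚ[X]).natDegree ≤ 1 := natDegree_linear_le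
    have k2 : (-(C (ga : ℚ) * X) : ℚ[X]).natDegree ≤ 1 := by
      rw [natDegree_neg]; exact (natDegree_C_mul_le _ _).trans natDegree_X_le
    have k3 : (-(C (al : ℚ) * X + C (be : ℚ)) : ℚ[X]).natDegree ≤ 1 := by
      rw [natDegree_neg]; exact k1
    fin_cases x <;> fin_cases y
    · exact k1
    · exact k2
    · exact k1
    · exact k3
  have h1 : PB 1 (∑ p, c p) K ((At al be ga x y).comp (C (a : ℚ) + C (k : ℚ) * X)) := by
    refine ⟨?_, fun i => ?_⟩
    · refine natDegree_comp_le.trans ?_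
      have : (C (a : ℚ) + C (k : ℚ) * X : ℚ[X]).natDegree ≤ 1 := by
        rw [add_comm]; exact natDegree_linear_le
      nlinarith
    · refine (hc (x, y) K a k hK ha hk i).trans ?_
      exact pow_le_pow_right₀ (by have : (0 : ℚ) ≤ K := K.cast_nonneg; linarith)
        (Finset.single_le_sum (fun p _ => Nat.zero_le (c p)) (Finset.mem_univ (x, y)))
  have h2 := h1.C_mul (x := (k : ℚ)) (n := 1) (by
    rw [pow_one, abs_of_nonneg (by positivity)]
    have : (k : ℚ) ≤ K := by exact_mod_cast hk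
    linarith)
  exact h2

theorem Tj_PB (al be ga : ℤ) (h0 : 0 < al) (h1 : al < ga) : ∃ c : ℕ, ∀ K a k : ℕ, 1 ≤ K →
    a ≤ K → 1 ≤ k → k ≤ K → PB 3 c K ((Tj al be ga a k).map (Int.castRingHom ℚ)) := by
  obtain ⟨c, hc⟩ := coeff_comp_le ((Tt al be ga).map (Int.castRingHom ℚ))
  refine ⟨c, fun K a k hK ha hk1 hk => ⟨?_, ?_⟩⟩
  · exact natDegree_map_le.trans (Tj_natDegree h0 h1 a hk1).le
  · rw [Tj_map]
    exact hc K a k hK ha hk

/-- A common denominator, independent of the substitution. -/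
theorem den_common {al be ga : ℤ} {H₀ : ℕ} (h : Galochkin T0 A0 H₀) (J : ℕ) :
    ∃ q : ℕ, 0 < q ∧ q ≤ H₀ ^ (J + 1) ∧ ∀ i ≤ J, ∀ (a k : ℕ), ∀ x y,
      IntBy q (beta ((Tj al be ga a k).map (Int.castRingHom ℚ)) (Aj al be ga a k) i x y) := by
  obtain ⟨q, hq0, hq1, hq2⟩ := galochkin_t h al be ga J
  refine ⟨q, hq0, hq1, fun i hi a k x y => ?_⟩
  rw [Tj_map]
  unfold Aj
  rw [beta_comp]
  exact intBy_comp (hq2 i hi x y) k a i

end Factor

section Tensor

/-- The monomials in the entries as power series. -/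
noncomputable def ee {d R : ℕ} (al be ga : ℤ) (a : ℕ) (k : Fin d → ℕ)
    (mon : Fin R → (Var d →₀ ℕ)) (α : Fin R) : PowerSeries ℚ :=
  ∏ v : Var d, Yj al be ga a (k v.1) v.2.1 v.2.2 ^ mon α v

theorem ps_ee {d R : ℕ} (al be ga : ℤ) (a : ℕ) (k : Fin d → ℕ)
    (mon : Fin R → (Var d →₀ ℕ)) (α : Fin R) :
    ps (ee al be ga a k mon α) = mev (fun j => Zj al be ga a (k j)) (mon α) := by
  unfold ee mev ps
  rw [map_prod]
  refine Finset.prod_congr rfl fun v _ => ?_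
  rw [map_pow]
  rfl

theorem bde_sum {d δ : ℕ} {m : Var d →₀ ℕ} (h : BDe δ m) : ∑ v, m v ≤ d * δ := by
  rw [Fintype.sum_prod_type]
  calc ∑ j : Fin d, ∑ x : Fin 2 × Fin 2, m (j, x) ≤ ∑ _j : Fin d, δ := by
        refine Finset.sum_le_sum fun j _ => ?_
        rw [Fintype.sum_prod_type]
        exact h j
    _ = d * δ := by simp

theorem natle_pow {K : ℕ} (hK : 1 ≤ K) (n : ℕ) : n ≤ (K + 1) ^ n :=
  (Nat.lt_pow_self (by omega)).le

theorem ee_gbound {al be ga : ℤ} {H₁ : ℕ} (hH₁ : 2 ≤ H₁)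
    (hb : ∀ x y, GBound H₁ (Yt al be ga x y)) {d δ R : ℕ} (Φ : FSp d δ R) :
    ∃ c : ℕ, ∀ (K a : ℕ) (k : Fin d → ℕ), 1 ≤ K → a ≤ K → (∀ j, 1 ≤ k j ∧ k j ≤ K) →
      ∀ α, GBound ((K + 1) ^ c) (ee al be ga a k Φ.mon α) := by
  obtain ⟨c, hc⟩ := gbound_prod (ι := Var d) (d * δ)
  refine ⟨(4 * H₁ + 1) * c, ?_⟩
  intro K a k hK ha hk α
  rw [pow_mul]
  have h4 : 4 * H₁ * (a + 1) ≤ (K + 1) ^ (4 * H₁ + 1) := by
    rw [pow_succ]
    exact Nat.mul_le_mul (natle_pow hK _) (by omega)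
  have h2 : 2 ≤ (K + 1) ^ (4 * H₁ + 1) := by
    calc 2 ≤ (K + 1) ^ 1 := by rw [pow_one]; omega
      _ ≤ _ := Nat.pow_le_pow_right (by omega) (by omega)
  refine hc _ h2 (fun v : Var d => Yj al be ga a (k v.1) v.2.1 v.2.2) (fun v => ?_) _
    (bde_sum (Φ.hd α))
  exact (gbound_subst hH₁ (hb _ _) (hk v.1).1 a).mono h4

theorem ee_gden {al be ga : ℤ} {H₁ : ℕ} (hH₁ : 2 ≤ H₁)
    (hb : GDen H₁ (fun p : Fin 2 × Fin 2 => Yt al be ga p.1 p.2)) {d δ R : ℕ}
    (Φ : FSp d δ R) :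
    ∃ c : ℕ, ∀ (K a : ℕ) (k : Fin d → ℕ), 1 ≤ K → a ≤ K → (∀ j, 1 ≤ k j ∧ k j ≤ K) →
      GDen ((K + 1) ^ c) (ee al be ga a k Φ.mon) := by
  refine ⟨(H₁ + 1) * d * (d * δ), ?_⟩
  intro K a k hK ha hk
  rw [pow_mul _ ((H₁ + 1) * d) (d * δ), pow_mul _ (H₁ + 1) d]
  have h1 : ∀ j, GDen ((K + 1) ^ (H₁ + 1))
      (fun p : Fin 2 × Fin 2 => Yj al be ga a (k j) p.1 p.2) := by
    intro j
    refine (gden_subst hH₁ hb (hk j).1 a).mono ?_
    rw [pow_succ]
    exact Nat.mul_le_mul (natle_pow hK _) (by have := (hk j).2; omega)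
  have h2 := gden_blocks (f := fun j (p : Fin 2 × Fin 2) => Yj al be ga a (k j) p.1 p.2) h1
  exact gden_prod h2 (fun α v => Φ.mon α v) (fun α => bde_sum (Φ.hd α))

theorem ee_pev {al be ga : ℤ} {H₁ : ℕ} (hH₁ : 2 ≤ H₁)
    (hb : ∀ x y, GBound H₁ (Yt al be ga x y)) {d δ R : ℕ} (Φ : FSp d δ R) :
    ∃ c : ℕ, ∀ (K a : ℕ) (k : Fin d → ℕ), 1 ≤ K → a ≤ K → (∀ j, 1 ≤ k j ∧ k j ≤ K) →
      ∀ s : ℝ, ((K : ℝ) + 1) ^ c < s → ∀ α, pev (ee al be ga a k Φ.mon α) s =
        ∏ v : Var d, pev (Yt al be ga v.2.1 v.2.2) (a + k v.1 * s) ^ Φ.mon α v := by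
  obtain ⟨c, hc⟩ := pev_prod (ι := Var d) (d * δ)
  refine ⟨(4 * H₁ + 1) * (c + 2), ?_⟩
  intro K a k hK ha hk s hs α
  have hK1 : (1 : ℝ) ≤ (K : ℝ) + 1 := by
    have : (0 : ℝ) ≤ K := K.cast_nonneg
    linarith
  have h4 : 4 * H₁ * (a + 1) ≤ (K + 1) ^ (4 * H₁ + 1) := by
    rw [pow_succ]
    exact Nat.mul_le_mul (natle_pow hK _) (by omega)
  have h2 : 2 ≤ (K + 1) ^ (4 * H₁ + 1) := by
    calc 2 ≤ (K + 1) ^ 1 := by rw [pow_one]; omega
      _ ≤ _ := Nat.pow_le_pow_right (by omega) (by omega)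
  have h5 : ((((K + 1) ^ (4 * H₁ + 1) : ℕ) : ℝ)) ^ c < s := by
    refine lt_of_le_of_lt ?_ hs
    push_cast
    rw [← pow_mul]
    exact pow_le_pow_right₀ hK1 (by nlinarith)
  unfold ee
  rw [hc _ h2 (fun v : Var d => Yj al be ga a (k v.1) v.2.1 v.2.2)
    (fun v => (gbound_subst hH₁ (hb _ _) (hk v.1).1 a).mono h4) _ (bde_sum (Φ.hd α)) s h5]
  refine Finset.prod_congr rfl fun v _ => ?_
  congr 1
  refine pev_subst hH₁ (hb _ _) (hk v.1).1 a ?_
  refine lt_of_le_of_lt ?_ hs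
  have h6 : (4 * (H₁ : ℝ) * ((a : ℝ) + 1)) ≤ ((K : ℝ) + 1) ^ (4 * H₁ + 1) := by
    exact_mod_cast h4
  calc (4 * (H₁ : ℝ) * ((a : ℝ) + 1)) ^ 2 ≤ (((K : ℝ) + 1) ^ (4 * H₁ + 1)) ^ 2 :=
        pow_le_pow_left₀ (by positivity) h6 2
    _ = ((K : ℝ) + 1) ^ ((4 * H₁ + 1) * 2) := by rw [← pow_mul]
    _ ≤ _ := pow_le_pow_right₀ hK1 (Nat.mul_le_mul_left _ (by omega))

/-- The determinant of the numerical matrices. -/
theorem pev_det {al be ga : ℤ} (h0 : 0 < al) (h1 : al < ga) {H₁ : ℕ} (hH₁ : 2 ≤ H₁)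
    (hb : ∀ x y, GBound H₁ (Yt al be ga x y)) {t : ℝ} (ht : (H₁ : ℝ) ^ 3 < t) :
    (Matrix.of fun x y => pev (Yt al be ga x y) t : Matrix (Fin 2) (Fin 2) ℝ).det = 1 := by
  have hH : (2 : ℝ) ≤ H₁ := by exact_mod_cast hH₁
  have ht2 : (H₁ : ℝ) ^ 2 < t := lt_of_le_of_lt (pow_le_pow_right₀ (by linarith) (by norm_num)) ht
  rw [Matrix.det_fin_two]
  simp only [Matrix.of_apply]
  rw [← pev_mul hH₁ (hb _ _) (hb _ _) ht2, ← pev_mul hH₁ (hb _ _) (hb _ _) ht2]
  have h3 : Yt al be ga 0 0 * Yt al be ga 1 1 = 1 + Yt al be ga 0 1 * Yt al be ga 1 0 := by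
    have := sol_t_det (be := be) h0 h1
    linear_combination this
  have h4 : GBound (H₁ ^ 3) (1 : PowerSeries ℚ) := gbound_one (Nat.one_le_pow _ _ (by omega))
  rw [h3, pev_add h4 (gbound_mul hH₁ (hb _ _) (hb _ _)) (by push_cast; exact ht), pev_one]
  ring

theorem bigB_PB {d δ R : ℕ} (Φ : FSp d δ R) {al be ga : ℤ} (h0 : 0 < al) (h1 : al < ga) :
    ∃ c : ℕ, ∀ (K a : ℕ) (k : Fin d → ℕ), 1 ≤ K → a ≤ K → (∀ j, 1 ≤ k j ∧ k j ≤ K) →
      ∀ α μ, PB ((d - 1) * 3 + 1) c K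
        (bigB (fun j => (Tj al be ga a (k j)).map (Int.castRingHom ℚ))
          (fun j => Aj al be ga a (k j)) Φ.mon Φ.ρ α μ) := by
  classical
  obtain ⟨c1, hc1⟩ := Tj_PB al be ga h0 h1
  obtain ⟨c2, hc2⟩ := At_PB al be ga
  -- a bound for the constants
  have hx : ∃ n : ℕ, ∀ α μ (j : Fin d) (x y z : Fin 2), |((Φ.mon α (j, x, y) : ℚ) *
      Φ.ρ (Φ.mon α - Finsupp.single (j, x, y) 1 + Finsupp.single (j, z, y) 1) μ)| ≤ (n : ℚ) := by
    let g : Fin R × Fin R × Fin d × Fin 2 × Fin 2 × Fin 2 → ℚ := fun p =>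
      |((Φ.mon p.1 (p.2.2.1, p.2.2.2.1, p.2.2.2.2.1) : ℚ) *
        Φ.ρ (Φ.mon p.1 - Finsupp.single (p.2.2.1, p.2.2.2.1, p.2.2.2.2.1) 1 +
          Finsupp.single (p.2.2.1, p.2.2.2.2.2, p.2.2.2.2.1) 1) p.2.1)|
    obtain ⟨n, hn⟩ := exists_nat_ge (∑ p, g p)
    refine ⟨n, fun α μ j x y z => ?_⟩
    have := Finset.single_le_sum (f := g) (fun p _ => abs_nonneg _)
      (Finset.mem_univ (α, μ, j, x, y, z))
    exact this.trans hn
  obtain ⟨n, hn⟩ := hx
  refine ⟨((d - 1) * (c1 + 3 + 1) + (c2 + n + 2 + 2 + 2) + (d - 1) * 3 + 1) + d, ?_⟩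
  intro K a k hK ha hk α μ
  simp only [bigB, Matrix.of_apply]
  have hs := PB.sum (D := (d - 1) * 3 + 1)
    (c := (d - 1) * (c1 + 3 + 1) + (c2 + n + 2 + 2 + 2) + (d - 1) * 3 + 1) hK
    (Finset.univ : Finset (Fin d))
    (p := fun j => (∏ i ∈ Finset.univ.erase j, (Tj al be ga a (k i)).map (Int.castRingHom ℚ)) *
      ∑ x, ∑ y, ∑ z, Aj al be ga a (k j) x z * C ((Φ.mon α (j, x, y) : ℚ) *
        Φ.ρ (Φ.mon α - Finsupp.single (j, x, y) 1 + Finsupp.single (j, z, y) 1) μ)) ?_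
  · rw [Finset.card_univ, Fintype.card_fin] at hs
    exact hs
  · intro j _
    have e1 := PB.prod hK (Finset.univ.erase j)
      (p := fun i => (Tj al be ga a (k i)).map (Int.castRingHom ℚ))
      (fun i _ => hc1 K a (k i) hK ha (hk i).1 (hk i).2)
    rw [Finset.card_erase_of_mem (Finset.mem_univ j), Finset.card_univ, Fintype.card_fin] at e1
    have e2 : PB 1 (c2 + n + 2 + 2 + 2) K (∑ x, ∑ y, ∑ z, Aj al be ga a (k j) x z *
        C ((Φ.mon α (j, x, y) : ℚ) *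
        Φ.ρ (Φ.mon α - Finsupp.single (j, x, y) 1 + Finsupp.single (j, z, y) 1) μ)) := by
      have q1 : ∀ x y z, PB 1 (c2 + n) K (Aj al be ga a (k j) x z * C ((Φ.mon α (j, x, y) : ℚ) *
          Φ.ρ (Φ.mon α - Finsupp.single (j, x, y) 1 + Finsupp.single (j, z, y) 1) μ)) := by
        intro x y z
        rw [mul_comm]
        refine (hc2 K a (k j) hK ha (hk j).2 x z).C_mul ((hn α μ j x y z).trans ?_)
        exact_mod_cast natle_pow hK n
      have q2 : ∀ x y, PB 1 (c2 + n + 2) K (∑ z, Aj al be ga a (k j) x z *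
          C ((Φ.mon α (j, x, y) : ℚ) *
          Φ.ρ (Φ.mon α - Finsupp.single (j, x, y) 1 + Finsupp.single (j, z, y) 1) μ)) := by
        intro x y
        have := PB.sum hK Finset.univ (fun z _ => q1 x y z)
        simpa using this
      have q3 : ∀ x, PB 1 (c2 + n + 2 + 2) K (∑ y, ∑ z, Aj al be ga a (k j) x z *
          C ((Φ.mon α (j, x, y) : ℚ) *
          Φ.ρ (Φ.mon α - Finsupp.single (j, x, y) 1 + Finsupp.single (j, z, y) 1) μ)) := by
        intro x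
        have := PB.sum hK Finset.univ (fun y _ => q2 x y)
        simpa using this
      have := PB.sum hK Finset.univ (fun x _ => q3 x)
      simpa using this
    exact (e1.mul hK e2).mono (by omega) (by omega)

theorem bigT_PB {al be ga : ℤ} (h0 : 0 < al) (h1 : al < ga) (d : ℕ) :
    ∃ c : ℕ, ∀ (K a : ℕ) (k : Fin d → ℕ), 1 ≤ K → a ≤ K → (∀ j, 1 ≤ k j ∧ k j ≤ K) →
      PB (d * 3) c K (∏ j, (Tj al be ga a (k j)).map (Int.castRingHom ℚ)) := by
  obtain ⟨c1, hc1⟩ := Tj_PB al be ga h0 h1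
  refine ⟨d * (c1 + 3 + 1), ?_⟩
  intro K a k hK ha hk
  have e1 := PB.prod hK (Finset.univ : Finset (Fin d))
    (p := fun i => (Tj al be ga a (k i)).map (Int.castRingHom ℚ))
    (fun i _ => hc1 K a (k i) hK ha (hk i).1 (hk i).2)
  rw [Finset.card_univ, Fintype.card_fin] at e1
  exact e1

end Tensor

section Main

/-- Formal independence of the monomials. -/
theorem ee_indep {d δ R : ℕ} (Φ : FSp d δ R) {al be ga : ℤ} {a : ℕ} {k : Fin d → ℕ}
    (hFI : ∀ p : MvPolynomial (Var d) ℚ[X],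
      MvPolynomial.eval₂ emb (fun v : Var d =>
        ps ((Yt al be ga v.2.1 v.2.2).subst (gx (k v.1) a))) p = 0 →
      ∀ Z : Fin d → Matrix (Fin 2) (Fin 2) ℚ, (∀ j, (Z j).det = 1) →
        MvPolynomial.eval (fun v => (C (pt Z v) : ℚ[X])) p = 0)
    (P : Fin R → ℚ[X])
    (hP : ∑ α, emb (P α) * mev (fun j => Zj al be ga a (k j)) (Φ.mon α) = 0) : P = 0 := by
  classical
  set p : MvPolynomial (Var d) ℚ[X] := ∑ α, MvPolynomial.monomial (Φ.mon α) (P α) with hp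
  have h1 : MvPolynomial.eval₂ emb (fun v : Var d =>
        ps ((Yt al be ga v.2.1 v.2.2).subst (gx (k v.1) a))) p = 0 := by
    rw [hp, MvPolynomial.eval₂_sum, ← hP]
    refine Finset.sum_congr rfl fun α _ => ?_
    rw [MvPolynomial.eval₂_monomial, Finsupp.prod_fintype _ _ (by simp)]
    rfl
  funext α
  ext i
  have h2 : (fun α => (P α).coeff i) = (0 : Fin R → ℚ) := by
    apply Φ.ind
    intro Z hZ
    have h3 := hFI p h1 Z hZ
    rw [hp, map_sum] at h3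
    have h4 := congrArg (fun q : ℚ[X] => q.coeff i) h3
    simp only [finsetSum_coeff, coeff_zero] at h4
    rw [map_sum, ← h4]
    refine Finset.sum_congr rfl fun α _ => ?_
    rw [map_mul, MvPolynomial.eval_C, MvPolynomial.eval_monomial, MvPolynomial.eval_monomial,
      one_mul]
    have h5 : ((Φ.mon α).prod fun v e => (C (pt Z v) : ℚ[X]) ^ e) =
        C ((Φ.mon α).prod fun v e => pt Z v ^ e) := by
      rw [Finsupp.prod, Finsupp.prod, map_prod]
      simp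
    rw [h5, coeff_mul_C]
  exact congrFun h2 α

theorem gthm {al be ga : ℤ} (h0 : 0 < al) (h1 : al < ga) (d δ : ℕ) :
    ∃ C₃ : ℕ, ∀ (K a : ℕ) (k : Fin d → ℕ), 1 ≤ K → a ≤ K → (∀ j, 1 ≤ k j ∧ k j ≤ K) →
    -- functional independence
    (∀ p : MvPolynomial (Var d) ℚ[X],
      MvPolynomial.eval₂ emb (fun v : Var d =>
        ps ((Yt al be ga v.2.1 v.2.2).subst (gx (k v.1) a))) p = 0 →
      ∀ Z : Fin d → Matrix (Fin 2) (Fin 2) ℚ, (∀ j, (Z j).det = 1) →
        MvPolynomial.eval (fun v => (C (pt Z v) : ℚ[X])) p = 0) →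
    ∀ s : ℕ, (K + 1) ^ C₃ ≤ s → ∀ F : MvPolynomial (Var d) ℚ, BD δ F →
      MvPolynomial.aeval (fun v : Var d =>
        pev (Yt al be ga v.2.1 v.2.2) (a + k v.1 * s)) F = 0 → VanQ F := by
  classical
  rcases Nat.eq_zero_or_pos d with hd | hd
  · subst hd
    refine ⟨0, ?_⟩
    intro K a k _ _ _ _ s _ F _ hF Z hZ
    have hx : (fun v : Var 0 => pev (Yt al be ga v.2.1 v.2.2) (a + k v.1 * s)) =
        fun v => algebraMap ℚ ℝ (pt Z v) := funext fun v => v.1.elim0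
    rw [hx] at hF
    have h2 := MvPolynomial.aeval_algebraMap_apply (A := ℚ) (B := ℝ) (pt Z) F
    have h3 : algebraMap ℚ ℝ (MvPolynomial.aeval (pt Z) F) = 0 := by
      rw [← h2]; exact hF
    rw [MvPolynomial.aeval_eq_eval] at h3
    exact (map_eq_zero _).mp h3
  obtain ⟨R, mon, i₀, ρ, hm0, hmd, hred, hind⟩ := fspace d δ
  let Φ : FSp d δ R := ⟨mon, i₀, ρ, hm0, hmd, hred, hind⟩
  obtain ⟨H₀, hH₀, hG₀⟩ := legendre_galochkin
  obtain ⟨H₁, hH₁, hb1, hb2⟩ := sol_t_bound (be := be) h0 h1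
  obtain ⟨c1, hc1⟩ := ee_gbound hH₁ hb1 Φ
  obtain ⟨c2, hc2⟩ := ee_gden hH₁ hb2 Φ
  obtain ⟨c3, hc3⟩ := ee_pev hH₁ hb1 Φ
  obtain ⟨c4, hc4⟩ := bigB_PB (be := be) Φ h0 h1
  obtain ⟨c5, hc5⟩ := bigT_PB (be := be) h0 h1 d
  obtain ⟨c6, hc6⟩ := gal_big Φ
  obtain ⟨C₂, hC₂⟩ := gcore R (d * 3)
  set c := c1 + c2 + c4 + c5 + H₀ * c6 + 1 with hc
  refine ⟨c * C₂ + c3 + 3 * H₁ + 1, ?_⟩
  intro K a k hK ha hk hFI s hs F hF hF0
  have hKp : ∀ {m n : ℕ}, m ≤ n → (K + 1) ^ m ≤ (K + 1) ^ n := fun h =>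
    Nat.pow_le_pow_right (by omega) h
  set Z : Fin d → Matrix (Fin 2) (Fin 2) (LaurentSeries ℚ) := fun j => Zj al be ga a (k j) with hZ
  have hZdet : ∀ j, (Z j).det = 1 := fun j => Zj_det h0 h1 a (k j)
  have hZsol : ∀ j b, IsSol ((Tj al be ga a (k j)).map (Int.castRingHom ℚ))
      (Aj al be ga a (k j)) (fun x => Z j x b) := fun j b => Zj_sol h0 h1 a (hk j).1 b
  have hindep : ∀ P : Fin R → ℚ[X], ∑ α, emb (P α) * mev Z (Φ.mon α) = 0 → P = 0 :=
    ee_indep Φ hFI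
  set T : ℤ[X] := ∏ j, Tj al be ga a (k j) with hT
  set B := bigB (fun j => (Tj al be ga a (k j)).map (Int.castRingHom ℚ))
    (fun j => Aj al be ga a (k j)) Φ.mon Φ.ρ with hB
  have hTmap : T.map (Int.castRingHom ℚ) =
      ∏ j, (Tj al be ga a (k j)).map (Int.castRingHom ℚ) := by
    rw [hT, Polynomial.map_prod]
  have hTdeg : T.natDegree = d * 3 := by
    rw [hT, natDegree_prod]
    · rw [Finset.sum_congr rfl (fun j _ => Tj_natDegree h0 h1 a (hk j).1)]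
      simp
    · intro j _ h
      have := Tj_natDegree (be := be) h0 h1 a (hk j).1
      rw [h] at this
      simp at this
  -- the height
  set H := (K + 1) ^ c with hH
  have hH2 : 2 ≤ H := by
    calc 2 ≤ (K + 1) ^ 1 := by rw [pow_one]; omega
      _ ≤ _ := hKp (by omega)
  have g1 : ∀ i, |T.coeff i| ≤ (H : ℤ) := by
    intro i
    have h2 := (hc5 K a k hK ha hk).2 i
    rw [← hTmap, coeff_map] at h2
    have h3 : ((|T.coeff i| : ℤ) : ℚ) ≤ (((K + 1) ^ c5 : ℕ) : ℚ) := by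
      push_cast
      exact h2
    have h4 : |T.coeff i| ≤ (((K + 1) ^ c5 : ℕ) : ℤ) := by exact_mod_cast h3
    refine h4.trans ?_
    exact_mod_cast hKp (by omega : c5 ≤ c)
  have g2 : ∀ α μ i, |(B α μ).coeff i| ≤ (H : ℚ) := by
    intro α μ i
    refine ((hc4 K a k hK ha hk α μ).2 i).trans ?_
    have : ((K + 1) ^ c4 : ℕ) ≤ H := hKp (by omega)
    exact_mod_cast this
  have g3 : ∀ α μ, (B α μ).natDegree + 2 ≤ T.natDegree := by
    intro α μ
    have := (hc4 K a k hK ha hk α μ).1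
    rw [hTdeg]
    have h5 : (B α μ).natDegree ≤ (d - 1) * 3 + 1 := this
    omega
  have g4 : Galochkin (T.map (Int.castRingHom ℚ)) B H := by
    have h6 := hc6 H₀ hH₀ (fun j => Tj al be ga a (k j)) (fun j => Aj al be ga a (k j)) Z hZdet
      hZsol hindep (fun J => by
        obtain ⟨q, hq0, hq1, hq2⟩ := den_common (al := al) (be := be) (ga := ga) hG₀ J
        exact ⟨q, hq0, hq1, fun i hi j x y => hq2 i hi a (k j) x y⟩)
    rw [hTmap]
    refine h6.mono ?_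
    calc H₀ ^ c6 ≤ ((K + 1) ^ H₀) ^ c6 := Nat.pow_le_pow_left (natle_pow hK _) _
      _ = (K + 1) ^ (H₀ * c6) := by rw [← pow_mul]
      _ ≤ H := hKp (by omega)
  have g5 : IsSol (T.map (Int.castRingHom ℚ)) B (fun α => ps (ee al be ga a k Φ.mon α)) := by
    rw [hTmap]
    have := isSol_big Φ hZdet hZsol
    simp only [ps_ee]
    exact this
  have g6 : ∀ α, GBound H (ee al be ga a k Φ.mon α) := fun α =>
    (hc1 K a k hK ha hk α).mono (hKp (by omega))
  have g7 : GDen H (ee al be ga a k Φ.mon) := (hc2 K a k hK ha hk).mono (hKp (by omega))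
  have g8 : PowerSeries.constantCoeff (ee al be ga a k Φ.mon Φ.i₀) = 1 := by
    unfold ee
    rw [Φ.h0]
    simp
  have g9 : ∀ P : Fin R → ℚ[X], ∑ α, emb (P α) * ps (ee al be ga a k Φ.mon α) = 0 → P = 0 := by
    intro P hP
    simp only [ps_ee] at hP
    exact hindep P hP
  have g10 : ∀ x : Fin R → ℚ, ∃ S : Matrix (Fin R) (Fin R) ℚ, S.map C * B = B * S.map C ∧
      ∀ α, ∑ μ, S α μ * PowerSeries.constantCoeff (ee al be ga a k Φ.mon μ) = x α := by
    intro x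
    obtain ⟨S, hS1, hS2⟩ := comm_big Φ hZdet hZsol hindep x
    refine ⟨S, hS1, fun α => ?_⟩
    rw [← hS2 α]
    refine Finset.sum_congr rfl fun μ _ => ?_
    congr 1
    unfold ee mev
    rw [map_prod]
    refine Finset.prod_congr rfl fun v _ => ?_
    rw [map_pow, Yj_zero al be ga a (hk v.1).1]
    rfl
  have hsH : H ^ C₂ ≤ s := by
    refine le_trans ?_ hs
    rw [hH, ← pow_mul]
    exact hKp (by omega)
  have hcore := hC₂ H hH2 T B (ee al be ga a k Φ.mon) Φ.i₀ hTdeg.le g3 g1 g2 g4 g5 g6 g7 g8 g9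
    g10 s hsH
  -- the numerical matrices
  set W : Fin d → Matrix (Fin 2) (Fin 2) ℝ := fun j =>
    Matrix.of fun x y => pev (Yt al be ga x y) (a + k j * s) with hW
  have hspos : (1 : ℝ) ≤ s := by
    have : 1 ≤ s := le_trans (Nat.one_le_pow _ _ (by omega)) hs
    exact_mod_cast this
  have hWdet : ∀ j, (W j).det = 1 := by
    intro j
    refine pev_det h0 h1 hH₁ hb1 ?_
    have h7 : H₁ ^ 3 < s := by
      calc H₁ ^ 3 ≤ ((K + 1) ^ H₁) ^ 3 := Nat.pow_le_pow_left (natle_pow hK _) _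
        _ = (K + 1) ^ (H₁ * 3) := by rw [← pow_mul]
        _ < (K + 1) ^ (c * C₂ + c3 + 3 * H₁ + 1) := Nat.pow_lt_pow_right (by omega) (by
            have := Nat.zero_le (c * C₂); omega)
        _ ≤ s := hs
    have h8 : (H₁ : ℝ) ^ 3 < s := by exact_mod_cast h7
    have h9 : (1 : ℝ) ≤ k j := by exact_mod_cast (hk j).1
    have h10 : (0 : ℝ) ≤ a := a.cast_nonneg
    nlinarith
  have hpev : ∀ μ, pev (ee al be ga a k Φ.mon μ) s = mev W (Φ.mon μ) := by
    intro μ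
    refine hc3 K a k hK ha hk s ?_ μ
    have h7 : (K + 1) ^ c3 < s := by
      calc (K + 1) ^ c3 < (K + 1) ^ (c * C₂ + c3 + 3 * H₁ + 1) :=
            Nat.pow_lt_pow_right (by omega) (by have := Nat.zero_le (c * C₂); omega)
        _ ≤ s := hs
    exact_mod_cast h7
  -- reduction
  set A' : Fin R → ℚ := fun μ => ∑ m ∈ F.support, F.coeff m * Φ.ρ m μ with hA'
  have hredK : ∀ {L : Type} [Field L] [Algebra ℚ L] (Y : Fin d → Matrix (Fin 2) (Fin 2) L),
      (∀ j, (Y j).det = 1) → MvPolynomial.aeval (pt Y) F =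
        ∑ μ, algebraMap ℚ L (A' μ) * mev Y (Φ.mon μ) := by
    intro L _ _ Y hY
    conv_lhs => rw [F.as_sum]
    rw [map_sum]
    have h11 : ∀ m ∈ F.support, MvPolynomial.aeval (pt Y) (MvPolynomial.monomial m (F.coeff m)) =
        ∑ μ, algebraMap ℚ L (F.coeff m * Φ.ρ m μ) * mev Y (Φ.mon μ) := by
      intro m hm
      have h3 : MvPolynomial.monomial m (F.coeff m) =
          MvPolynomial.C (F.coeff m) * MvPolynomial.monomial m 1 := by
        rw [MvPolynomial.C_mul_monomial, mul_one]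
      rw [h3, map_mul, MvPolynomial.aeval_C, ← mev_eq_aeval, red_field Φ Y hY (hF m hm),
        Finset.mul_sum]
      refine Finset.sum_congr rfl fun μ _ => ?_
      rw [map_mul, mul_assoc]
    rw [Finset.sum_congr rfl h11, Finset.sum_comm]
    refine Finset.sum_congr rfl fun μ _ => ?_
    rw [← Finset.sum_mul, hA', map_sum]
  have hzero : ∑ μ, (A' μ : ℝ) * pev (ee al be ga a k Φ.mon μ) s = 0 := by
    simp only [hpev]
    have h13 : MvPolynomial.aeval (pt W) F = 0 := hF0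
    rw [hredK W hWdet] at h13
    exact h13
  -- clear denominators
  obtain ⟨⟨q, hq⟩, hq2⟩ := IsLocalization.exist_integer_multiples_of_finite
    (nonZeroDivisors ℤ) A'
  choose A hA using hq2
  have hq0 : (q : ℚ) ≠ 0 := by
    have := nonZeroDivisors.ne_zero hq
    exact_mod_cast this
  have hAA : ∀ μ, (A μ : ℚ) = q * A' μ := by
    intro μ
    have := hA μ
    simpa [Submonoid.smul_def] using this
  have hAz : ∑ μ, (A μ : ℝ) * pev (ee al be ga a k Φ.mon μ) s = 0 := by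
    have h12 : ∀ μ, (A μ : ℝ) = (q : ℝ) * (A' μ : ℝ) := by
      intro μ
      have := hAA μ
      exact_mod_cast congrArg (fun x : ℚ => (x : ℝ)) this
    simp only [h12]
    calc ∑ μ, (q : ℝ) * (A' μ : ℝ) * pev (ee al be ga a k Φ.mon μ) s
        = (q : ℝ) * ∑ μ, (A' μ : ℝ) * pev (ee al be ga a k Φ.mon μ) s := by
          rw [Finset.mul_sum]
          exact Finset.sum_congr rfl fun μ _ => by ring
      _ = 0 := by rw [hzero, mul_zero]
  have hA0 : A = 0 := hcore A hAz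
  have hA'0 : ∀ μ, A' μ = 0 := by
    intro μ
    have := hAA μ
    rw [hA0] at this
    simp only [Pi.zero_apply, Int.cast_zero] at this
    rcases mul_eq_zero.mp this.symm with h | h
    · exact absurd h hq0
    · exact h
  intro Y hY
  have := hredK (L := ℚ) Y hY
  rw [MvPolynomial.aeval_eq_eval] at this
  rw [this]
  simp [hA'0]

end Main

end Pool.Agent.Helper37.GP
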