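import Pool.Agent.Helper37.GP.Defs2

/-!
# GP-15 : the logarithm near `0`
-/

open Filter Topology

namespace Pool.Agent.Helper37.GP

namespace LogInd

/-- the path `t = i exp (-u)` -/
noncomputable def pL (u : ℝ) : ℂ := -(u : ℂ) + (Real.pi / 2 : ℝ) * Complex.I

/-- the path `t = i exp (-u)` -/
noncomputable def pt' (u : ℝ) : ℂ := Complex.exp (pL u)

theorem pL_re (u : ℝ) : (pL u).re = -u := by simp [pL]

theorem pL_im (u : ℝ) : (pL u).im = Real.pi / 2 := by simp [pL]

theorem log_pt (u : ℝ) : Complex.log (pt' u) = pL u := by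
  unfold pt'
  apply Complex.log_exp
  · rw [pL_im]; linarith [Real.pi_pos]
  · rw [pL_im]; linarith [Real.pi_pos]

theorem norm_pt (u : ℝ) : ‖pt' u‖ = Real.exp (-u) := by
  unfold pt'
  rw [Complex.norm_exp, pL_re]

theorem pt_im_pos (u : ℝ) : 0 < (pt' u).im := by
  unfold pt'
  rw [Complex.exp_im, pL_re, pL_im, Real.sin_pi_div_two]
  positivity

theorem pt_ne (u : ℝ) : pt' u ≠ 0 := Complex.exp_ne_zero _

theorem tendsto_pt : Tendsto pt' atTop (𝓝 0) := by
  rw [tendsto_zero_iff_norm_tendsto_zero]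
  simp_rw [norm_pt]
  exact Real.tendsto_exp_neg_atTop_nhds_zero

theorem norm_pL_ge (u : ℝ) : u ≤ ‖pL u‖ := by
  calc u ≤ |(pL u).re| := by rw [pL_re, abs_neg]; exact le_abs_self u
    _ ≤ ‖pL u‖ := Complex.abs_re_le_norm _

theorem norm_pL_le {u : ℝ} (hu : 2 ≤ u) : ‖pL u‖ ≤ 2 * u := by
  calc ‖pL u‖ ≤ ‖-(u : ℂ)‖ + ‖((Real.pi / 2 : ℝ) : ℂ) * Complex.I‖ := norm_add_le _ _
    _ = u + Real.pi / 2 := by
        rw [norm_neg, Complex.norm_real, norm_mul, Complex.norm_I, Complex.norm_real,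
          Real.norm_eq_abs, Real.norm_eq_abs, abs_of_nonneg (by linarith),
          abs_of_nonneg (by positivity)]
        ring
    _ ≤ 2 * u := by linarith [Real.pi_le_four]

theorem tendsto_norm_pL : Tendsto (fun u => ‖pL u‖) atTop atTop :=
  tendsto_atTop_mono norm_pL_ge tendsto_id

/-- a lower power of `log`, divided by a higher one, tends to `0` -/
theorem term_low {g : ℂ → ℂ} (hg : AnalyticAt ℂ g 0) {j k : ℕ} (hjk : j < k) :
    Tendsto (fun u => g (pt' u) * pL u ^ j / pL u ^ k) atTop (𝓝 0) := by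
  have h1 : Tendsto (fun u => g (pt' u)) atTop (𝓝 (g 0)) :=
    hg.continuousAt.tendsto.comp tendsto_pt
  have h2 : Tendsto (fun u => ((pL u) ^ (k - j))⁻¹) atTop (𝓝 0) := by
    rw [tendsto_zero_iff_norm_tendsto_zero]
    have h3 : Tendsto (fun u => (‖pL u‖ ^ (k - j))⁻¹) atTop (𝓝 0) :=
      ((tendsto_pow_atTop (by omega)).comp tendsto_norm_pL).inv_tendsto_atTop
    refine h3.congr fun u => ?_
    rw [norm_inv, norm_pow]
  have h4 := h1.mul h2
  rw [mul_zero] at h4
  refine h4.congr' ?_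
  filter_upwards [eventually_gt_atTop 0] with u hu
  have hne : pL u ≠ 0 := by
    intro h
    have := norm_pL_ge u
    rw [h, norm_zero] at this
    linarith
  have : pL u ^ k = pL u ^ j * pL u ^ (k - j) := by rw [← pow_add]; congr 1; omega
  rw [this]
  field_simp

/-- a higher power of `log` times a function vanishing at `0` tends to `0` -/
theorem term_high {g : ℂ → ℂ} (hg : AnalyticAt ℂ g 0) (h0 : g 0 = 0) {j k : ℕ} (hjk : k ≤ j) :
    Tendsto (fun u => g (pt' u) * pL u ^ j / pL u ^ k) atTop (𝓝 0) := by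
  have hO : (fun t => g t) =O[𝓝 0] fun t : ℂ => t := by
    have := hg.differentiableAt.isBigO_sub
    simpa [h0] using this
  obtain ⟨C, hC⟩ := hO.bound
  have hC' : ∀ᶠ u in atTop, ‖g (pt' u)‖ ≤ C * ‖pt' u‖ := tendsto_pt.eventually hC
  have hlim : Tendsto (fun u : ℝ => |C| * 2 ^ (j - k) * (u ^ (j - k) * Real.exp (-u))) atTop
      (𝓝 0) := by
    have := (Real.tendsto_pow_mul_exp_neg_atTop_nhds_zero (j - k)).const_mul (|C| * 2 ^ (j - k))
    rwa [mul_zero] at this
  apply squeeze_zero_norm' _ hlim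
  filter_upwards [hC', eventually_ge_atTop 2] with u hu hu2
  have hne : pL u ≠ 0 := by
    intro h
    have := norm_pL_ge u
    rw [h, norm_zero] at this
    linarith
  have e1 : g (pt' u) * pL u ^ j / pL u ^ k = g (pt' u) * pL u ^ (j - k) := by
    have : pL u ^ j = pL u ^ (j - k) * pL u ^ k := by rw [← pow_add]; congr 1; omega
    rw [this]
    field_simp
  rw [e1, norm_mul, norm_pow]
  rw [norm_pt] at hu
  calc ‖g (pt' u)‖ * ‖pL u‖ ^ (j - k) ≤ (|C| * Real.exp (-u)) * (2 * u) ^ (j - k) := by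
        apply mul_le_mul
        · exact hu.trans (mul_le_mul_of_nonneg_right (le_abs_self C) (Real.exp_pos _).le)
        · exact pow_le_pow_left₀ (norm_nonneg _) (norm_pL_le hu2) _
        · positivity
        · positivity
    _ = |C| * 2 ^ (j - k) * (u ^ (j - k) * Real.exp (-u)) := by rw [mul_pow]; ring

theorem core_step {m : ℕ} {g : ℕ → ℂ → ℂ} (hg : ∀ k, k ≤ m → AnalyticAt ℂ (g k) 0)
    (h : ∀ᶠ u in atTop, ∑ k ∈ Finset.range (m + 1), g k (pt' u) * pL u ^ k = 0)
    {k : ℕ} (hk : k ≤ m) (hhi : ∀ j, k < j → j ≤ m → g j 0 = 0) : g k 0 = 0 := by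
  classical
  have h1 : Tendsto (fun u => ∑ j ∈ Finset.range (m + 1), g j (pt' u) * pL u ^ j / pL u ^ k) atTop
      (𝓝 (∑ j ∈ Finset.range (m + 1), if j = k then g k 0 else 0)) := by
    apply tendsto_finsetSum
    intro j hj
    have hjm : j ≤ m := by simpa [Nat.lt_succ_iff] using hj
    rcases lt_trichotomy j k with hlt | heq | hgt
    · rw [if_neg hlt.ne]
      exact term_low (hg j hjm) hlt
    · subst heq
      rw [if_pos rfl]
      have h2 : Tendsto (fun u => g j (pt' u)) atTop (𝓝 (g j 0)) :=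
        (hg j hjm).continuousAt.tendsto.comp tendsto_pt
      refine h2.congr' ?_
      filter_upwards [eventually_gt_atTop 0] with u hu
      have hne : pL u ≠ 0 := by
        intro h
        have := norm_pL_ge u
        rw [h, norm_zero] at this
        linarith
      field_simp
    · rw [if_neg hgt.ne']
      exact term_high (hg j hjm) (hhi j hgt hjm) hgt.le
  have h2 : Tendsto (fun u => ∑ j ∈ Finset.range (m + 1), g j (pt' u) * pL u ^ j / pL u ^ k) atTop
      (𝓝 0) := by
    apply tendsto_const_nhds.congr'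
    filter_upwards [h] with u hu
    rw [← Finset.sum_div, hu, zero_div]
  have h3 := tendsto_nhds_unique h1 h2
  rw [Finset.sum_ite_eq' (Finset.range (m + 1)) k] at h3
  simpa [Nat.lt_succ_iff, hk] using h3

theorem core {m : ℕ} {g : ℕ → ℂ → ℂ} (hg : ∀ k, k ≤ m → AnalyticAt ℂ (g k) 0)
    (h : ∀ᶠ u in atTop, ∑ k ∈ Finset.range (m + 1), g k (pt' u) * pL u ^ k = 0) :
    ∀ k ≤ m, g k 0 = 0 := by
  have : ∀ d k, m - k ≤ d → k ≤ m → g k 0 = 0 := by
    intro d
    induction d with
    | zero =>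
      intro k h1 h2
      exact core_step hg h h2 (fun j h3 h4 => by omega)
    | succ d ih =>
      intro k h1 h2
      exact core_step hg h h2 (fun j h3 h4 => ih j (by omega) h4)
  intro k hk
  exact this (m - k) k le_rfl hk

end LogInd

open LogInd in
theorem log_indep {m : ℕ} {r : ℝ} (hr : 0 < r) (c : ℕ → ℂ → ℂ)
    (hc : ∀ k, AnalyticOnNhd ℂ (c k) (Metric.ball 0 r))
    (h : ∀ t : ℂ, t ∈ Metric.ball (0 : ℂ) r → 0 < t.im →
      ∑ k ∈ Finset.range (m + 1), c k t * Complex.log t ^ k = 0) :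
    ∀ k ≤ m, ∀ t ∈ Metric.ball (0 : ℂ) r, c k t = 0 := by
  have h0 : (0 : ℂ) ∈ Metric.ball (0 : ℂ) r := Metric.mem_ball_self hr
  have hin : ∀ᶠ u in atTop, pt' u ∈ Metric.ball (0 : ℂ) r :=
    tendsto_pt.eventually (Metric.ball_mem_nhds 0 hr)
  have key : ∀ N : ℕ, ∀ k ≤ m, (N : ℕ∞) ≤ analyticOrderAt (c k) 0 := by
    intro N
    induction N with
    | zero => intro k _; simp
    | succ N ih =>
      have hex : ∀ k, ∃ g : ℂ → ℂ, k ≤ m → AnalyticAt ℂ g 0 ∧
          ∀ᶠ z in 𝓝 (0 : ℂ), c k z = z ^ N * g z := by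
        intro k
        by_cases hk : k ≤ m
        · obtain ⟨g, hg, he⟩ := (natCast_le_analyticOrderAt (hc k 0 h0)).1 (ih k hk)
          exact ⟨g, fun _ => ⟨hg, by simpa using he⟩⟩
        · exact ⟨0, fun h => absurd h hk⟩
      choose g hg using hex
      have hz : ∀ k ≤ m, g k 0 = 0 := by
        apply core (fun k hk => (hg k hk).1)
        have hall : ∀ᶠ u in atTop, ∀ k ∈ Finset.range (m + 1), c k (pt' u) =
            pt' u ^ N * g k (pt' u) := by
          rw [Filter.eventually_all_finset]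
          intro k hk
          exact tendsto_pt.eventually (hg k (by simpa [Nat.lt_succ_iff] using hk)).2
        filter_upwards [hall, hin] with u hu hu2
        have e := h (pt' u) hu2 (pt_im_pos u)
        rw [log_pt] at e
        have e2 : ∑ k ∈ Finset.range (m + 1), c k (pt' u) * pL u ^ k =
            pt' u ^ N * ∑ k ∈ Finset.range (m + 1), g k (pt' u) * pL u ^ k := by
          rw [Finset.mul_sum]
          apply Finset.sum_congr rfl
          intro k hk
          rw [hu k hk]; ring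
        rw [e2] at e
        exact (mul_eq_zero.1 e).resolve_left (pow_ne_zero _ (pt_ne u))
      intro k hk
      obtain ⟨hga, hge⟩ := hg k hk
      have h1 : ((1 : ℕ) : ℕ∞) ≤ analyticOrderAt (g k) 0 := by
        have : analyticOrderAt (g k) 0 ≠ 0 := by
          rw [Ne, hga.analyticOrderAt_eq_zero]
          simpa using hz k hk
        exact Order.one_le_iff_ne_zero.2 this
      obtain ⟨g', hg', he'⟩ := (natCast_le_analyticOrderAt hga).1 h1
      rw [natCast_le_analyticOrderAt (hc k 0 h0)]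
      refine ⟨g', hg', ?_⟩
      filter_upwards [hge, he'] with z h1 h2
      rw [h1, h2]
      simp only [sub_zero, smul_eq_mul, pow_one]
      ring
  intro k hk t ht
  have htop : analyticOrderAt (c k) 0 = ⊤ := by
    rw [ENat.eq_top_iff_forall_ge]
    intro N
    exact key N k hk
  have hev : ∀ᶠ z in 𝓝 (0 : ℂ), c k z = 0 := analyticOrderAt_eq_top.1 htop
  exact (hc k).eqOn_zero_of_preconnected_of_eventuallyEq_zero
    (convex_ball (0 : ℂ) r).isPreconnected h0 hev ht

end Pool.Agent.Helper37.GP
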