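import Pool.Agent.Helper37.GP.Elim

/-!
# Norms of polynomials over number fields
-/

open Polynomial

namespace Pool.Agent.Helper37.GP

open Elim

namespace NormPoly

lemma BD_iff {L : Type} [Field L] {d δ : ℕ} (F : MvPolynomial (Var d) L) :
    BD δ F ↔ ∀ j, BW j δ F := by
  constructor
  · intro h j m hm
    exact h m (MvPolynomial.mem_support_iff.2 hm) j
  · intro h m hm j
    exact h j m (MvPolynomial.mem_support_iff.1 hm)

section

variable {d n : ℕ} {L : Type} [Field L] [Algebra ℚ L] (b : Module.Basis (Fin n) ℚ L)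

/-- multiplication by `F` in the basis `b` -/
noncomputable def mulMat (F : MvPolynomial (Var d) L) :
    Matrix (Fin n) (Fin n) (MvPolynomial (Var d) ℚ) :=
  Matrix.of fun i j => ∑ m ∈ F.support,
    MvPolynomial.monomial m (Algebra.leftMulMatrix b (MvPolynomial.coeff m F) i j)

lemma BW_mulMat {δ : ℕ} {F : MvPolynomial (Var d) L} (hF : BD δ F) (i j : Fin n) (k : Fin d) :
    BW k δ (mulMat b F i j) := by
  classical
  unfold mulMat
  rw [Matrix.of_apply]
  refine BW_sum _ _ _ fun m hm => ?_
  intro m' hm'
  rw [MvPolynomial.coeff_monomial] at hm'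
  split_ifs at hm' with h
  · subst h; exact hF m hm k
  · exact absurd rfl hm'

lemma aeval_mulMat (F : MvPolynomial (Var d) L) {A : Type} [CommRing A] [Algebra ℚ A]
    (z : Var d → A) (i j : Fin n) :
    MvPolynomial.aeval z (mulMat b F i j) = ∑ m ∈ F.support,
      algebraMap ℚ A (Algebra.leftMulMatrix b (MvPolynomial.coeff m F) i j)
        * m.prod (fun v e => z v ^ e) := by
  unfold mulMat
  rw [Matrix.of_apply, map_sum]
  refine Finset.sum_congr rfl fun m _ => ?_
  rw [MvPolynomial.aeval_monomial]

/-- the basis vector is an eigenvector -/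
lemma vec_mul [Algebra L ℂ] (x : L) (j : Fin n) :
    ∑ i, algebraMap L ℂ (b i) * algebraMap ℚ ℂ (Algebra.leftMulMatrix b x i j)
      = algebraMap L ℂ x * algebraMap L ℂ (b j) := by
  have h := Algebra.leftMulMatrix_eq_repr_mul b x
  have h2 : x * b j = ∑ i, Algebra.leftMulMatrix b x i j • b i := by
    conv_lhs => rw [← b.sum_repr (x * b j)]
    exact Finset.sum_congr rfl fun i _ => by rw [h]
  rw [← map_mul, h2, map_sum]
  refine Finset.sum_congr rfl fun i _ => ?_
  rw [Algebra.smul_def, map_mul, mul_comm]
  congr 1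
  simp

end

end NormPoly

open NormPoly

/-- The norm of a polynomial over a number field of degree `n`. -/
theorem norm_poly {d δ n : ℕ} {L : Type} [Field L] [Algebra ℚ L] [FiniteDimensional ℚ L]
    (hn : Module.finrank ℚ L = n) [Algebra L ℂ] (F : MvPolynomial (Var d) L) (hF : BD δ F) :
    ∃ F' : MvPolynomial (Var d) ℚ, BD (n * δ) F' ∧
      (∀ z : Var d → ℂ, MvPolynomial.aeval z F = 0 → MvPolynomial.aeval z F' = 0) ∧
      ∀ z : Var d → ℚ, MvPolynomial.eval z F' = 0 →
        MvPolynomial.eval (fun v => algebraMap ℚ L (z v)) F = 0 := by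
  classical
  have hnpos : 0 < n := by rw [← hn]; exact Module.finrank_pos
  let b : Module.Basis (Fin n) ℚ L := Module.finBasisOfFinrankEq ℚ L hn
  refine ⟨(mulMat b F).det, ?_, ?_, ?_⟩
  · rw [BD_iff]
    intro k
    rw [Matrix.det_apply]
    refine BW_sum _ _ _ fun π _ => ?_
    have h3 : BW k (∑ _i : Fin n, δ) (∏ i, mulMat b F (π i) i) :=
      BW_prod _ _ _ fun i _ => BW_mulMat b hF _ _ _
    have h4 : (∑ _i : Fin n, δ) = n * δ := by simp
    rw [h4] at h3
    exact BW_smul (Equiv.Perm.sign π : ℤ) h3
  · intro z hz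
    rw [AlgHom.map_det]
    refine (Matrix.exists_vecMul_eq_zero_iff).1 ⟨fun i => algebraMap L ℂ (b i), ?_, ?_⟩
    · intro h0
      have h1 := congrFun h0 ⟨0, hnpos⟩
      simp only [Pi.zero_apply] at h1
      have h2 : b ⟨0, hnpos⟩ = 0 := (map_eq_zero (algebraMap L ℂ)).1 h1
      exact b.ne_zero _ h2
    · funext j
      rw [Matrix.vecMul, dotProduct]
      simp only [AlgHom.mapMatrix_apply, Matrix.map_apply, Pi.zero_apply]
      simp only [aeval_mulMat, Finset.mul_sum]
      rw [Finset.sum_comm]
      have h1 : ∀ m ∈ F.support, ∑ i, algebraMap L ℂ (b i) *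
          (algebraMap ℚ ℂ (Algebra.leftMulMatrix b (MvPolynomial.coeff m F) i j)
            * m.prod (fun v e => z v ^ e))
          = (algebraMap L ℂ (MvPolynomial.coeff m F) * m.prod (fun v e => z v ^ e))
            * algebraMap L ℂ (b j) := by
        intro m _
        have h2 := vec_mul b (MvPolynomial.coeff m F) j
        calc ∑ i, algebraMap L ℂ (b i) *
            (algebraMap ℚ ℂ (Algebra.leftMulMatrix b (MvPolynomial.coeff m F) i j)
              * m.prod (fun v e => z v ^ e))
            = (∑ i, algebraMap L ℂ (b i) *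
              algebraMap ℚ ℂ (Algebra.leftMulMatrix b (MvPolynomial.coeff m F) i j))
                * m.prod (fun v e => z v ^ e) := by
              rw [Finset.sum_mul]
              exact Finset.sum_congr rfl fun i _ => by ring
          _ = _ := by rw [h2]; ring
      rw [Finset.sum_congr rfl h1, ← Finset.sum_mul]
      have h3 : ∑ m ∈ F.support, algebraMap L ℂ (MvPolynomial.coeff m F)
          * m.prod (fun v e => z v ^ e) = MvPolynomial.aeval z F := by
        rw [MvPolynomial.aeval_def, MvPolynomial.eval₂_eq]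
        rfl
      rw [h3, hz, zero_mul]
  · intro z hz
    have h1 : MvPolynomial.eval z (mulMat b F).det
        = (Algebra.leftMulMatrix b (MvPolynomial.eval (fun v => algebraMap ℚ L (z v)) F)).det := by
      rw [RingHom.map_det]
      congr 1
      ext i j
      simp only [RingHom.mapMatrix_apply, Matrix.map_apply]
      have h2 : MvPolynomial.eval z (mulMat b F i j) = MvPolynomial.aeval z (mulMat b F i j) := by
        rw [MvPolynomial.aeval_eq_eval]
      rw [h2, aeval_mulMat, MvPolynomial.eval_eq, map_sum, Matrix.sum_apply]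
      refine Finset.sum_congr rfl fun m _ => ?_
      have h3 : ∏ i ∈ m.support, algebraMap ℚ L (z i) ^ m i
          = algebraMap ℚ L (m.prod fun v e => z v ^ e) := by
        rw [Finsupp.prod, map_prod]
        exact Finset.prod_congr rfl fun v _ => by rw [map_pow]
      have h4 : MvPolynomial.coeff m F * algebraMap ℚ L (m.prod fun v e => z v ^ e)
          = (m.prod fun v e => z v ^ e) • MvPolynomial.coeff m F := by
        rw [Algebra.smul_def, mul_comm]
      rw [h3, h4, map_smul, Matrix.smul_apply, smul_eq_mul, mul_comm]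
      rfl
    rw [h1, ← Algebra.norm_eq_matrix_det] at hz
    exact Algebra.norm_eq_zero_iff.1 hz

end Pool.Agent.Helper37.GP
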