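import Pool.Agent.Helper37.GP.Ell

/-!
# GP-17 : the period matrix (helper76)
-/

open Polynomial

namespace Pool.Agent.Helper37.GP

open MeasureTheory Topology

theorem UU_open : IsOpen UU := by
  have h1 : IsOpen {z : ℂ | z.im ≠ 0} := isOpen_ne_fun Complex.continuous_im continuous_const
  have h2 : IsOpen {z : ℂ | 0 < z.re} := isOpen_lt continuous_const Complex.continuous_re
  have h3 : IsOpen {z : ℂ | z.re < 1} := isOpen_lt Complex.continuous_re continuous_const
  exact h1.union (h2.inter h3)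

theorem UU_preconnected : IsPreconnected UU := by
  have hstar : StarConvex ℝ (1 / 2 : ℂ) UU := by
    intro y hy a b ha hb hab
    have hre : (a • (1 / 2 : ℂ) + b • y).re = a / 2 + b * y.re := by
      simp
      ring
    have him : (a • (1 / 2 : ℂ) + b • y).im = b * y.im := by simp
    show (a • (1 / 2 : ℂ) + b • y).im ≠ 0 ∨ _
    rw [him, hre]
    rcases eq_or_lt_of_le hb with h | h
    · right
      have : a = 1 := by linarith
      rw [← h, this]
      norm_num
    · rcases hy with hy | hy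
      · left
        exact mul_ne_zero h.ne' hy
      · right
        constructor
        · nlinarith [hy.1, hy.2]
        · nlinarith [hy.1, hy.2]
  have hne : (1 / 2 : ℂ) ∈ UU := by
    right
    norm_num
  exact (hstar.isPathConnected hne).isConnected.isPreconnected

namespace PMatAux

lemma mem1 {t : ℂ} (ht : t ∈ UU) : t.im ≠ 0 ∨ t.re < 1 := by
  rcases ht with h | h
  · exact Or.inl h
  · exact Or.inr h.2

lemma mem2 {t : ℂ} (ht : t ∈ UU) : (1 - t).im ≠ 0 ∨ (1 - t).re < 1 := by
  rcases ht with h | h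
  · left
    simpa using h
  · right
    simp only [Complex.sub_re, Complex.one_re]
    linarith [h.1]

lemma ne0 {t : ℂ} (ht : t ∈ UU) : t ≠ 0 := by
  rintro rfl
  rcases ht with h | h
  · simp at h
  · simp at h

lemma ne1 {t : ℂ} (ht : t ∈ UU) : 1 - t ≠ 0 := by
  intro h
  have : t = 1 := by linear_combination -h
  subst this
  rcases ht with h | h
  · simp at h
  · simp at h

lemma d00 {t : ℂ} (ht : t ∈ UU) : HasDerivAt EK (deriv EK t) t :=
  (EK_differentiable (mem1 ht)).hasDerivAt

lemma d01 {t : ℂ} (ht : t ∈ UU) :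
    HasDerivAt (fun t => EK (1 - t)) (-deriv EK (1 - t)) t := by
  have h1 := (EK_differentiable (mem2 ht)).hasDerivAt
  have h2 := ((hasDerivAt_id t).const_sub (1 : ℂ))
  have h3 := HasDerivAt.comp t h1 h2
  refine h3.congr_deriv ?_
  ring

lemma d10 {t : ℂ} (ht : t ∈ UU) :
    HasDerivAt (fun t => EK t - EE t) (deriv EK t - deriv EE t) t :=
  (d00 ht).sub (EE_differentiable (mem1 ht)).hasDerivAt

lemma d11 {t : ℂ} (ht : t ∈ UU) :
    HasDerivAt (fun t => EE (1 - t)) (-deriv EE (1 - t)) t := by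
  have h1 := (EE_differentiable (mem2 ht)).hasDerivAt
  have h2 := ((hasDerivAt_id t).const_sub (1 : ℂ))
  have h3 := HasDerivAt.comp t h1 h2
  refine h3.congr_deriv ?_
  ring

lemma r00 {t : ℂ} (ht : t ∈ UU) :
    2 * t * (1 - t) * deriv EK t = t * EK t - (EK t - EE t) := by
  have := EK_deriv (mem1 ht)
  linear_combination this

lemma r10 {t : ℂ} (ht : t ∈ UU) :
    2 * t * (1 - t) * (deriv EK t - deriv EE t) = t * EK t - t * (EK t - EE t) := by
  have h1 := EK_deriv (mem1 ht)
  have h2 := EE_deriv (mem1 ht)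
  linear_combination h1 - (1 - t) * h2

lemma r01 {t : ℂ} (ht : t ∈ UU) :
    2 * t * (1 - t) * (-deriv EK (1 - t)) = t * EK (1 - t) - EE (1 - t) := by
  have := EK_deriv (mem2 ht)
  linear_combination -this

lemma r11 {t : ℂ} (ht : t ∈ UU) :
    2 * t * (1 - t) * (-deriv EE (1 - t)) = t * EK (1 - t) - t * EE (1 - t) := by
  have := EE_deriv (mem2 ht)
  linear_combination -t * this

end PMatAux

open PMatAux

theorem PR_analytic (a b : Fin 2) : AnalyticOnNhd ℂ (fun t => PR t a b) UU := by
  apply DifferentiableOn.analyticOnNhd _ UU_open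
  intro t ht
  apply DifferentiableAt.differentiableWithinAt
  fin_cases a <;> fin_cases b
  · exact (d00 ht).differentiableAt
  · exact (d01 ht).differentiableAt
  · exact (d10 ht).differentiableAt
  · exact (d11 ht).differentiableAt

theorem PR_ode {t : ℂ} (ht : t ∈ UU) (a b : Fin 2) :
    2 * t * (1 - t) * deriv (fun t => PR t a b) t =
      ∑ i, (!![t, -1; t, -t] : Matrix (Fin 2) (Fin 2) ℂ) a i * PR t i b := by
  fin_cases a <;> fin_cases b
  · have h : deriv (fun t => PR t 0 0) t = deriv EK t := (d00 ht).deriv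
    show 2 * t * (1 - t) * deriv (fun t => PR t 0 0) t = _
    rw [h, r00 ht]
    simp [PR, Fin.sum_univ_two]
    ring
  · have h : deriv (fun t => PR t 0 1) t = -deriv EK (1 - t) := (d01 ht).deriv
    show 2 * t * (1 - t) * deriv (fun t => PR t 0 1) t = _
    rw [h, r01 ht]
    simp [PR, Fin.sum_univ_two]
    ring
  · have h : deriv (fun t => PR t 1 0) t = deriv EK t - deriv EE t := (d10 ht).deriv
    show 2 * t * (1 - t) * deriv (fun t => PR t 1 0) t = _
    rw [h, r10 ht]
    simp [PR, Fin.sum_univ_two]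
    ring
  · have h : deriv (fun t => PR t 1 1) t = -deriv EE (1 - t) := (d11 ht).deriv
    show 2 * t * (1 - t) * deriv (fun t => PR t 1 1) t = _
    rw [h, r11 ht]
    simp [PR, Fin.sum_univ_two]
    ring

namespace PMatAux

lemma det_eq (t : ℂ) :
    (PR t).det = EK t * EE (1 - t) - EK (1 - t) * (EK t - EE t) := by
  unfold PR
  rw [Matrix.det_fin_two_of]

end PMatAux

theorem PR_det {t : ℂ} (ht : t ∈ UU) : (PR t).det = (PR (1 / 2)).det := by
  have hd : ∀ t ∈ UU, HasDerivAt (fun t => (PR t).det)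
      (deriv EK t * EE (1 - t) + EK t * (-deriv EE (1 - t)) -
        ((-deriv EK (1 - t)) * (EK t - EE t) + EK (1 - t) * (deriv EK t - deriv EE t))) t := by
    intro t ht
    have := ((d00 ht).mul (d11 ht)).sub ((d01 ht).mul (d10 ht))
    have e : (fun t => (PR t).det) =
        (EK * fun t => EE (1 - t)) - ((fun t => EK (1 - t)) * fun t => EK t - EE t) := by
      ext t
      simp [det_eq]
    rw [e]
    exact this
  have hne : (1 / 2 : ℂ) ∈ UU := by
    right
    norm_num
  refine UU_open.is_const_of_deriv_eq_zero UU_preconnected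
    (fun t ht => (hd t ht).differentiableAt.differentiableWithinAt) (fun t ht => ?_) ht hne
  rw [(hd t ht).deriv]
  have h0 : 2 * t * (1 - t) ≠ 0 := mul_ne_zero (mul_ne_zero two_ne_zero (ne0 ht)) (ne1 ht)
  have : 2 * t * (1 - t) * (deriv EK t * EE (1 - t) + EK t * (-deriv EE (1 - t)) -
        ((-deriv EK (1 - t)) * (EK t - EE t) + EK (1 - t) * (deriv EK t - deriv EE t))) = 0 := by
    linear_combination (EE (1 - t)) * r00 ht + EK t * r11 ht - (EK t - EE t) * r01 ht -
      EK (1 - t) * r10 ht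
  exact (mul_eq_zero.1 this).resolve_left h0

namespace PMatAux

/-- Near `t = 0`, on the whole slit disc. -/
theorem PR_zero' : ∃ (r : ℝ) (β : ℂ) (G : ℂ → Matrix (Fin 2) (Fin 2) ℂ), 0 < r ∧ β ≠ 0 ∧
    (∀ a b, AnalyticOnNhd ℂ (fun t => G t a b) (Metric.ball 0 r)) ∧
    ∀ t ∈ Metric.ball (0 : ℂ) r, t ∈ Complex.slitPlane →
      PR t = G t * !![1, β * Complex.log t; 0, 1] := by
  have hmem0 : (0 : ℂ).im ≠ 0 ∨ (0 : ℂ).re < 1 := by
    right
    norm_num
  have hK0 : EK 0 ≠ 0 := by
    rw [EK_zero]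
    have : (Real.pi : ℂ) ≠ 0 := by exact_mod_cast Real.pi_ne_zero
    exact div_ne_zero this two_ne_zero
  obtain ⟨ρ, hρ, hρK⟩ := Metric.eventually_nhds_iff.1
    ((EK_differentiable hmem0).continuousAt.eventually_ne hK0)
  set r : ℝ := min ρ (1 / 2) with hr
  have hr0 : 0 < r := lt_min hρ (by norm_num)
  have hK : ∀ t ∈ Metric.ball (0 : ℂ) r, EK t ≠ 0 := fun t ht =>
    hρK (lt_of_lt_of_le (Metric.mem_ball.1 ht) (min_le_left _ _))
  have hre : ∀ t ∈ Metric.ball (0 : ℂ) r, t.re < 1 := by
    intro t ht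
    have h1 : ‖t‖ < 1 / 2 := by
      have := lt_of_lt_of_le (Metric.mem_ball.1 ht) (min_le_right _ _)
      rwa [dist_zero_right] at this
    have h2 := Complex.re_le_norm t
    linarith
  have h1t : ∀ t ∈ Metric.ball (0 : ℂ) r, 1 - t ≠ 0 := by
    intro t ht h
    have h1 : t = 1 := by linear_combination -h
    have h2 := hre t ht
    rw [h1] at h2
    norm_num at h2
  have hKd : ∀ t ∈ Metric.ball (0 : ℂ) r, DifferentiableAt ℂ EK t := fun t ht =>
    EK_differentiable (Or.inr (hre t ht))
  have hEd : ∀ t ∈ Metric.ball (0 : ℂ) r, DifferentiableAt ℂ EE t := fun t ht =>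
    EE_differentiable (Or.inr (hre t ht))
  set W := (PR (1 / 2)).det with hW
  have hW0 : W ≠ 0 := det_half
  let h : ℂ → ℂ := fun t => 1 / ((1 - t) * EK t ^ 2)
  have hhd : DifferentiableOn ℂ h (Metric.ball 0 r) := by
    intro t ht
    apply DifferentiableAt.differentiableWithinAt
    refine DifferentiableAt.div (differentiableAt_const _) ?_
      (mul_ne_zero (h1t t ht) (pow_ne_zero _ (hK t ht)))
    exact (DifferentiableAt.sub (differentiableAt_const _) differentiableAt_id).mul
      ((hKd t ht).pow 2)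
  have hball : Metric.ball (0 : ℂ) r ∈ 𝓝 (0 : ℂ) := Metric.ball_mem_nhds 0 hr0
  have hh1 : DifferentiableOn ℂ (dslope h 0) (Metric.ball 0 r) :=
    (Complex.differentiableOn_dslope hball).2 hhd
  obtain ⟨H1, hH1⟩ := hh1.isExactOn_ball
  have hh0 : h 0 ≠ 0 := by
    show 1 / ((1 - 0) * EK 0 ^ 2) ≠ 0
    refine div_ne_zero one_ne_zero (mul_ne_zero (by norm_num) (pow_ne_zero _ hK0))
  -- the slit disc
  set S : Set ℂ := Complex.slitPlane ∩ Metric.ball 0 r with hS
  have hSU : ∀ t ∈ S, t ∈ UU := by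
    intro t ht
    rcases Complex.mem_slitPlane_iff.1 ht.1 with h | h
    · exact Or.inr ⟨h, hre t ht.2⟩
    · exact Or.inl h
  have hSo : IsOpen S := Complex.isOpen_slitPlane.inter Metric.isOpen_ball
  have hhalf : ((r / 2 : ℝ) : ℂ) ∈ Metric.ball (0 : ℂ) r := by
    rw [Metric.mem_ball, dist_zero_right, Complex.norm_real, Real.norm_of_nonneg (by positivity)]
    linarith
  have hSp : IsPreconnected S := by
    have h1 : StarConvex ℝ ((r / 2 : ℝ) : ℂ) Complex.slitPlane :=
      Complex.starConvex_slitPlane (by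
        rw [← Complex.ofReal_zero, Complex.real_lt_real]
        positivity)
    have h2 : StarConvex ℝ ((r / 2 : ℝ) : ℂ) (Metric.ball (0 : ℂ) r) :=
      (convex_ball (0 : ℂ) r).starConvex hhalf
    have h3 := h1.inter h2
    refine (h3.isPathConnected ⟨?_, hhalf⟩).isConnected.isPreconnected
    rw [Complex.mem_slitPlane_iff]
    left
    rw [Complex.ofReal_re]
    positivity
  let Φ : ℂ → ℂ := fun t => EK (1 - t) / EK t + (W / 2) * (h 0 * Complex.log t + H1 t)
  have hΦ : ∀ t ∈ S, HasDerivAt Φ 0 t := by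
    intro t ht
    have htU := hSU t ht
    have hKt := hK t ht.2
    have e1 := ((d01 htU).div (d00 htU) hKt)
    have e2 : HasDerivAt (fun t => (W / 2) * (h 0 * Complex.log t + H1 t))
        ((W / 2) * (h 0 * t⁻¹ + dslope h 0 t)) t :=
      (((Complex.hasDerivAt_log ht.1).const_mul (h 0)).add (hH1 t ht.2)).const_mul (W / 2)
    refine (e1.add e2).congr_deriv ?_
    have ht0 := ne0 htU
    have ht1 := ne1 htU
    have hds : t * dslope h 0 t = h t - h 0 := by
      have := sub_smul_dslope h 0 t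
      simpa using this
    have hWt : W = EK t * EE (1 - t) - EK (1 - t) * (EK t - EE t) := by
      rw [hW, ← PR_det htU, det_eq]
    have hht : h t = 1 / ((1 - t) * EK t ^ 2) := rfl
    have a0 := r00 htU
    have a1 := r01 htU
    have key : t * ((-deriv EK (1 - t) * EK t - EK (1 - t) * deriv EK t) / EK t ^ 2 +
        W / 2 * (h 0 * t⁻¹ + dslope h 0 t)) = 0 := by
      have e3 : t * (W / 2 * (h 0 * t⁻¹ + dslope h 0 t)) = W / 2 * h t := by
        have : t * t⁻¹ = 1 := mul_inv_cancel₀ ht0
        linear_combination (W / 2 * h 0) * this + W / 2 * hds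
      rw [mul_add, e3, hht]
      have e4 : 2 * t * (1 - t) * (-deriv EK (1 - t) * EK t - EK (1 - t) * deriv EK t) = -W := by
        rw [hWt]
        linear_combination EK t * a1 - EK (1 - t) * a0
      have e5 : t * ((-deriv EK (1 - t) * EK t - EK (1 - t) * deriv EK t) / EK t ^ 2) =
          -W / (2 * (1 - t) * EK t ^ 2) := by
        rw [← e4]
        field_simp
      rw [e5]
      field_simp
      ring
    exact (mul_eq_zero.1 key).resolve_left ht0
  obtain ⟨κ, hκ⟩ : ∃ κ, ∀ t ∈ S, Φ t = κ :=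
    hSo.exists_is_const_of_deriv_eq_zero hSp
      (fun t ht => (hΦ t ht).differentiableAt.differentiableWithinAt)
      (fun t ht => (hΦ t ht).deriv)
  let g : ℂ → ℂ := fun t => κ - (W / 2) * H1 t
  let g1 : ℂ → ℂ := fun t => -(W / 2) * dslope h 0 t
  let β : ℂ := -(W / 2) * h 0
  have hβ : β ≠ 0 := mul_ne_zero (neg_ne_zero.2 (div_ne_zero hW0 two_ne_zero)) hh0
  have hg : ∀ t ∈ Metric.ball (0 : ℂ) r, HasDerivAt g (g1 t) t := by
    intro t ht
    have := ((hH1 t ht).const_mul (W / 2)).const_sub κ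
    refine this.congr_deriv ?_
    show _ = -(W / 2) * dslope h 0 t
    ring
  have hg1 : ∀ t ∈ Metric.ball (0 : ℂ) r, DifferentiableAt ℂ g1 t := by
    intro t ht
    exact ((hh1 t ht).differentiableAt (Metric.isOpen_ball.mem_nhds ht)).const_mul _
  have hK1 : ∀ t ∈ S, EK (1 - t) = EK t * (β * Complex.log t + g t) := by
    intro t ht
    have h1 := hκ t ht
    have hKt := hK t ht.2
    have h2 : EK (1 - t) / EK t = κ - (W / 2) * (h 0 * Complex.log t + H1 t) := by
      rw [← h1]
      ring
    rw [div_eq_iff hKt] at h2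
    rw [h2]
    show _ = EK t * (-(W / 2) * h 0 * Complex.log t + (κ - (W / 2) * H1 t))
    ring
  have hE1 : ∀ t ∈ S, EE (1 - t) = (EK t - EE t) * (β * Complex.log t + g t) -
      2 * (1 - t) * EK t * (β + t * g1 t) := by
    intro t ht
    have htU := hSU t ht
    have h2 : HasDerivAt (fun t => EK t * (β * Complex.log t + g t))
        (deriv EK t * (β * Complex.log t + g t) + EK t * (β * t⁻¹ + g1 t)) t :=
      (d00 htU).mul (((Complex.hasDerivAt_log ht.1).const_mul β).add (hg t ht.2))
    have h3 : HasDerivAt (fun t => EK (1 - t))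
        (deriv EK t * (β * Complex.log t + g t) + EK t * (β * t⁻¹ + g1 t)) t := by
      refine h2.congr_of_eventuallyEq ?_
      filter_upwards [hSo.mem_nhds ht] with x hx
      exact hK1 x hx
    have h4 := (d01 htU).unique h3
    have h5 := r01 htU
    rw [h4] at h5
    have h6 := r00 htU
    have h7 : t * t⁻¹ = 1 := mul_inv_cancel₀ (ne0 htU)
    have h8 := hK1 t ht
    linear_combination h5 - (β * Complex.log t + g t) * h6 + t * h8 -
      2 * (1 - t) * EK t * β * h7
  refine ⟨r, β, fun t => !![EK t, EK t * g t; EK t - EE t, (EK t - EE t) * g t -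
    2 * (1 - t) * EK t * (β + t * g1 t)], hr0, hβ, ?_, ?_⟩
  · intro a b
    apply DifferentiableOn.analyticOnNhd _ Metric.isOpen_ball
    intro t ht
    apply DifferentiableAt.differentiableWithinAt
    have k1 := hKd t ht
    have k2 := hEd t ht
    have k3 := (hg t ht).differentiableAt
    have k4 := hg1 t ht
    fin_cases a <;> fin_cases b
    · exact k1
    · exact k1.mul k3
    · exact k1.sub k2
    · show DifferentiableAt ℂ (fun t => (EK t - EE t) * g t -
        2 * (1 - t) * EK t * (β + t * g1 t)) t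
      exact ((k1.sub k2).mul k3).sub
        ((((differentiableAt_const _).mul ((differentiableAt_const _).sub
          differentiableAt_id)).mul k1).mul
          ((differentiableAt_const _).add (differentiableAt_id.mul k4)))
  · intro t ht hts
    have hS' : t ∈ S := ⟨hts, ht⟩
    have h1 := hK1 t hS'
    have h2 := hE1 t hS'
    unfold PR
    rw [h1, h2]
    ext a b
    fin_cases a <;> fin_cases b
    · simp [Matrix.mul_apply, Fin.sum_univ_two]
    · simp [Matrix.mul_apply, Fin.sum_univ_two]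
      ring
    · simp [Matrix.mul_apply, Fin.sum_univ_two]
    · simp [Matrix.mul_apply, Fin.sum_univ_two]
      ring

end PMatAux

/-- Near `t = 0`: `PR = (analytic) * ((1, β log t), (0, 1))`, `β ≠ 0`. -/
theorem PR_zero : ∃ (r : ℝ) (β : ℂ) (G : ℂ → Matrix (Fin 2) (Fin 2) ℂ), 0 < r ∧ β ≠ 0 ∧
    (∀ a b, AnalyticOnNhd ℂ (fun t => G t a b) (Metric.ball 0 r)) ∧
    ∀ t ∈ Metric.ball (0 : ℂ) r, 0 < t.im → PR t = G t * !![1, β * Complex.log t; 0, 1] := by
  obtain ⟨r, β, G, h0, hβ, hG, h⟩ := PR_zero'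
  exact ⟨r, β, G, h0, hβ, hG, fun t ht him => h t ht (Complex.mem_slitPlane_iff.2
    (Or.inr him.ne'))⟩

namespace PMatAux

lemma PR_one_sub (t : ℂ) :
    PR (1 - t) = !![1, 0; 1, -1] * PR t * !![0, 1; 1, 0] := by
  unfold PR
  rw [show 1 - (1 - t) = t by ring]
  ext a b
  fin_cases a <;> fin_cases b <;> simp [Matrix.mul_apply, Fin.sum_univ_two, sub_eq_add_neg]

lemma log_neg {t : ℂ} (h : 0 < t.im) : Complex.log (-t) = Complex.log t - Real.pi * Complex.I := by
  unfold Complex.log
  rw [Complex.arg_neg_eq_arg_sub_pi_of_im_pos h, norm_neg]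
  push_cast
  ring

end PMatAux

/-- Near `t = 1` (from the upper half plane). -/
theorem PR_one : ∃ (r : ℝ) (β : ℂ) (G : ℂ → Matrix (Fin 2) (Fin 2) ℂ), 0 < r ∧ β ≠ 0 ∧
    (∀ a b, AnalyticOnNhd ℂ (fun t => G t a b) (Metric.ball 0 r)) ∧
    ∀ t ∈ Metric.ball (0 : ℂ) r, 0 < t.im →
      PR (1 + t) = G t * !![1, 0; β * Complex.log t, 1] := by
  obtain ⟨r, β, G, h0, hβ, hG, h⟩ := PR_zero'
  have hneg : ∀ t ∈ Metric.ball (0 : ℂ) r, -t ∈ Metric.ball (0 : ℂ) r := by
    intro t ht
    rw [Metric.mem_ball, dist_zero_right] at ht ⊢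
    rwa [norm_neg]
  set N : Matrix (Fin 2) (Fin 2) ℂ := !![0, 1; 1, 0] * !![1, 0; -(Real.pi * Complex.I * β), 1]
    with hN
  refine ⟨r, β, fun t => !![1, 0; 1, -1] * G (-t) * N, h0, hβ, ?_, ?_⟩
  · intro a b
    have hG' : ∀ a b, DifferentiableOn ℂ (fun t => G (-t) a b) (Metric.ball 0 r) := by
      intro a b t ht
      have h1 := (hG a b).differentiableOn (-t) (hneg t ht)
      have h2 := h1.differentiableAt (Metric.isOpen_ball.mem_nhds (hneg t ht))
      have h3 : DifferentiableAt ℂ (fun t : ℂ => -t) t := differentiableAt_id.neg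
      exact (DifferentiableAt.comp t h2 h3).differentiableWithinAt
    apply DifferentiableOn.analyticOnNhd _ Metric.isOpen_ball
    simp only [Matrix.mul_apply]
    refine DifferentiableOn.fun_sum fun i _ => ?_
    refine DifferentiableOn.mul_const ?_ _
    refine DifferentiableOn.fun_sum fun j _ => ?_
    exact (hG' j i).const_mul _
  · intro t ht him
    have h1 := h (-t) (hneg t ht) (Complex.mem_slitPlane_iff.2 (Or.inr (by
      simpa using him.ne')))
    have h2 := PR_one_sub (-t)
    rw [show 1 - -t = 1 + t by ring] at h2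
    rw [h2, h1, log_neg him, hN, ← Matrix.mul_assoc, Matrix.mul_assoc, Matrix.mul_assoc,
      Matrix.mul_assoc, Matrix.mul_assoc, Matrix.mul_assoc]
    congr 1
    congr 1
    ext a b
    fin_cases a <;> fin_cases b <;> simp [Matrix.mul_apply, Fin.sum_univ_two] <;> ring

end Pool.Agent.Helper37.GP
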