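import Pool.Agent.Helper37.GP.Defs3

/-!
# Taylor expansion of the periods of the Legendre family
-/

open Polynomial

namespace Pool.Agent.Helper37.GP

namespace TaylorAux

/-- evaluation of a rational polynomial at a complex number -/
noncomputable abbrev cev (t : ℂ) (p : ℚ[X]) : ℂ := Polynomial.aeval t p

lemma cev_T0 (t : ℂ) : cev t T0 = 2 * t * (1 - t) := by
  simp only [cev, T0, map_mul, map_sub, map_ofNat, map_one, Polynomial.aeval_X]

lemma cev_A0 (t : ℂ) (a b : Fin 2) : cev t (A0 a b) = (!![t, -1; t, -t] : Matrix (Fin 2) (Fin 2) ℂ) a b := by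
  fin_cases a <;> fin_cases b <;> simp [cev, A0]

/-- one step of the recursion, evaluated -/
lemma cev_beta_succ (t : ℂ) (j : ℕ) (a b : Fin 2) :
    ((j : ℂ) + 1) * cev t (beta T0 A0 (j + 1) a b) =
      cev t T0 * cev t (derivative (beta T0 A0 j a b))
        - j * cev t (derivative T0) * cev t (beta T0 A0 j a b)
        + ∑ k, cev t (beta T0 A0 j a k) * cev t (A0 k b) := by
  have hj : ((j : ℂ) + 1) ≠ 0 := by exact_mod_cast Nat.succ_ne_zero j
  rw [beta]
  simp only [Matrix.smul_apply, Matrix.add_apply, Matrix.sub_apply, Matrix.map_apply, smul_eq_mul,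
    Matrix.mul_apply, cev, map_mul, map_add, map_sub, map_sum, Polynomial.aeval_C, map_natCast]
  rw [← mul_assoc]
  have h1 : ((j : ℂ) + 1) * (algebraMap ℚ ℂ) (((j : ℚ) + 1)⁻¹) = 1 := by
    have : (algebraMap ℚ ℂ) (((j : ℚ) + 1)⁻¹) = ((j : ℂ) + 1)⁻¹ := by simp
    rw [this, mul_inv_cancel₀ hj]
  rw [h1, one_mul]

/-- `T₀^n f^(n) / n! = β_n f` -/
lemma iter_eq {V : Set ℂ} (hV : IsOpen V) (f : ℂ → Matrix (Fin 2) (Fin 2) ℂ)
    (han : ∀ a b, AnalyticOnNhd ℂ (fun t => f t a b) V)
    (hode : ∀ t ∈ V, ∀ a b, 2 * t * (1 - t) * deriv (fun t => f t a b) t =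
      ∑ i, (!![t, -1; t, -t] : Matrix (Fin 2) (Fin 2) ℂ) a i * f t i b) (n : ℕ) :
    ∀ t ∈ V, ∀ a b, (cev t T0) ^ n * iteratedDeriv n (fun t => f t a b) t =
      (n.factorial : ℂ) * ∑ k, cev t (beta T0 A0 n a k) * f t k b := by
  induction n with
  | zero =>
    intro t _ a b
    simp only [pow_zero, iteratedDeriv_zero, one_mul, Nat.factorial_zero, Nat.cast_one, beta]
    rw [Finset.sum_eq_single a]
    · simp [cev]
    · intro k _ hk
      rw [Matrix.one_apply_ne (Ne.symm hk)]
      simp [cev]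
    · intro h; exact absurd (Finset.mem_univ _) h
  | succ n ih =>
    intro t ht a b
    -- derivatives of both sides of the induction hypothesis
    have hdf : ∀ k b, HasDerivAt (fun t => f t k b) (deriv (fun t => f t k b) t) t := fun k b =>
      ((han k b) t ht).differentiableAt.hasDerivAt
    have hiter : HasDerivAt (iteratedDeriv n (fun t => f t a b))
        (iteratedDeriv (n + 1) (fun t => f t a b) t) t := by
      have h1 : AnalyticAt ℂ (iteratedDeriv n (fun t => f t a b)) t :=
        ((han a b).iterated_deriv n) t ht |> fun h => by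
          rwa [iteratedDeriv_eq_iterate]
      rw [iteratedDeriv_succ]
      exact h1.differentiableAt.hasDerivAt
    have hT : HasDerivAt (fun t => cev t T0) (cev t (derivative T0)) t :=
      Polynomial.hasDerivAt_aeval _ _
    have hl : HasDerivAt (fun t => (cev t T0) ^ n * iteratedDeriv n (fun t => f t a b) t)
        ((n : ℂ) * cev t T0 ^ (n - 1) * cev t (derivative T0) *
          iteratedDeriv n (fun t => f t a b) t + cev t T0 ^ n *
          iteratedDeriv (n + 1) (fun t => f t a b) t) t :=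
      (hT.pow n).mul hiter
    have hr : HasDerivAt (fun t => (n.factorial : ℂ) * ∑ k, cev t (beta T0 A0 n a k) * f t k b)
        ((n.factorial : ℂ) * ∑ k, (cev t (derivative (beta T0 A0 n a k)) * f t k b
          + cev t (beta T0 A0 n a k) * deriv (fun t => f t k b) t)) t := by
      refine HasDerivAt.const_mul _ ?_
      refine HasDerivAt.fun_sum fun k _ => ?_
      exact (Polynomial.hasDerivAt_aeval _ _).mul (hdf k b)
    have hEq : (fun t => (cev t T0) ^ n * iteratedDeriv n (fun t => f t a b) t) =ᶠ[nhds t]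
        (fun t => (n.factorial : ℂ) * ∑ k, cev t (beta T0 A0 n a k) * f t k b) := by
      filter_upwards [hV.mem_nhds ht] with u hu
      exact ih u hu a b
    have hD := (hr.congr_of_eventuallyEq hEq).unique hl
    have ih' := ih t ht a b
    have hode' : ∀ k, cev t T0 * deriv (fun t => f t k b) t =
        ∑ i, cev t (A0 k i) * f t i b := by
      intro k
      rw [cev_T0, hode t ht k b]
      exact Finset.sum_congr rfl fun i _ => by rw [cev_A0]
    -- multiply by `T₀`
    have hpow : (n : ℂ) * cev t T0 ^ (n - 1) * cev t T0 = n * cev t T0 ^ n := by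
      rcases n with _ | n
      · simp
      · simp [pow_succ]; ring
    have hkey : cev t T0 ^ (n + 1) * iteratedDeriv (n + 1) (fun t => f t a b) t
        = (n.factorial : ℂ) * ∑ k, (cev t T0 * cev t (derivative (beta T0 A0 n a k)) * f t k b
          + cev t (beta T0 A0 n a k) * ∑ i, cev t (A0 k i) * f t i b)
          - n * cev t (derivative T0) * ((n.factorial : ℂ) *
            ∑ k, cev t (beta T0 A0 n a k) * f t k b) := by
      have h1 : cev t T0 * ((n.factorial : ℂ) * ∑ k, (cev t (derivative (beta T0 A0 n a k)) * f t k b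
          + cev t (beta T0 A0 n a k) * deriv (fun t => f t k b) t))
          = (n.factorial : ℂ) * ∑ k, (cev t T0 * cev t (derivative (beta T0 A0 n a k)) * f t k b
          + cev t (beta T0 A0 n a k) * ∑ i, cev t (A0 k i) * f t i b) := by
        rw [mul_left_comm, Finset.mul_sum]
        congr 1
        refine Finset.sum_congr rfl fun k _ => ?_
        rw [← hode' k]
        ring
      rw [← h1, hD, ← ih']
      linear_combination (-(cev t (derivative T0) * iteratedDeriv n (fun t => f t a b) t)) * hpow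
    rw [hkey]
    have hsum : ∑ k, cev t (beta T0 A0 n a k) * ∑ i, cev t (A0 k i) * f t i b
        = ∑ i, (∑ k, cev t (beta T0 A0 n a k) * cev t (A0 k i)) * f t i b := by
      simp only [Finset.mul_sum, Finset.sum_mul]
      rw [Finset.sum_comm]
      refine Finset.sum_congr rfl fun i _ => Finset.sum_congr rfl fun k _ => by ring
    have hfin : ∑ k, (((n : ℂ) + 1) * cev t (beta T0 A0 (n + 1) a k)) * f t k b
        = ∑ k, (cev t T0 * cev t (derivative (beta T0 A0 n a k)) * f t k b
          + cev t (beta T0 A0 n a k) * ∑ i, cev t (A0 k i) * f t i b)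
          - n * cev t (derivative T0) * ∑ k, cev t (beta T0 A0 n a k) * f t k b := by
      simp only [cev_beta_succ]
      rw [Finset.sum_add_distrib, hsum, Finset.mul_sum, ← Finset.sum_add_distrib,
        ← Finset.sum_sub_distrib]
      refine Finset.sum_congr rfl fun k _ => by ring
    have hfac : ((n + 1).factorial : ℂ) = (n.factorial : ℂ) * (n + 1) := by
      rw [Nat.factorial_succ]; push_cast; ring
    rw [hfac]
    have hfin2 : ((n : ℂ) + 1) * ∑ k, cev t (beta T0 A0 (n + 1) a k) * f t k b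
        = ∑ k, (((n : ℂ) + 1) * cev t (beta T0 A0 (n + 1) a k)) * f t k b := by
      rw [Finset.mul_sum]
      exact Finset.sum_congr rfl fun k _ => by ring
    linear_combination (-(n.factorial : ℂ)) * (hfin2.trans hfin)

lemma cev_ratCast (x : ℚ) (p : ℚ[X]) : cev (x : ℂ) p = ((p.eval x : ℚ) : ℂ) := by
  have h := Polynomial.aeval_algebraMap_apply ℂ x p
  simpa [cev] using h

end TaylorAux

open TaylorAux

/-- Taylor expansion of the periods, from the facts on the period matrix. -/
theorem PR_taylor_of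
    (han : ∀ a b, AnalyticOnNhd ℂ (fun t => PR t a b) UU)
    (hode : ∀ t ∈ UU, ∀ a b, 2 * t * (1 - t) * deriv (fun t => PR t a b) t =
      ∑ i, (!![t, -1; t, -t] : Matrix (Fin 2) (Fin 2) ℂ) a i * PR t i b)
    (hdet : ∀ t ∈ UU, (PR t).det ≠ 0)
    {al be ga : ℤ} (h0 : 0 < al) (h1 : al < ga) : ∃ t₀ : ℝ,
    ∀ t : ℝ, t₀ ≤ t → ∀ a b : Fin 2,
      (PR ((al : ℂ) / ga + ((be : ℂ) / ga) / t) * (PR ((al : ℂ) / ga))⁻¹) a b =
        ((pev (Yt al be ga a b) t : ℝ) : ℂ) := by
  have hga : (0 : ℝ) < ga := by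
    have : 0 < ga := h0.trans h1
    exact_mod_cast this
  have hal : (0 : ℝ) < al := by exact_mod_cast h0
  have hag : (al : ℝ) < ga := by exact_mod_cast h1
  set s : ℝ := (al : ℝ) / ga with hs
  have hs0 : 0 < s := by positivity
  have hs1 : s < 1 := by rw [hs, div_lt_one hga]; exact hag
  set r : ℝ := min s (1 - s) with hr
  have hr0 : 0 < r := lt_min hs0 (by linarith)
  have hsC : ((al : ℂ) / ga) = (s : ℂ) := by rw [hs]; push_cast; ring
  set q : ℚ := (al : ℚ) / ga with hq
  have hsq : (s : ℂ) = (q : ℂ) := by rw [← hsC, hq]; push_cast; ring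
  have hball : Metric.ball (s : ℂ) r ⊆ UU := by
    intro z hz
    right
    rw [Metric.mem_ball, dist_eq_norm] at hz
    have h2 : |z.re - s| < r := by
      have := Complex.abs_re_le_norm (z - s)
      simp only [Complex.sub_re, Complex.ofReal_re] at this
      exact lt_of_le_of_lt this hz
    have h3 := abs_lt.1 h2
    constructor
    · have := min_le_left s (1 - s); linarith [h3.1]
    · have := min_le_right s (1 - s); linarith [h3.2]
  have hsU : (s : ℂ) ∈ UU := hball (Metric.mem_ball_self hr0)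
  have hUopen : IsOpen (Metric.ball (s : ℂ) r) := Metric.isOpen_ball
  have hT0 : cev (s : ℂ) T0 ≠ 0 := by
    rw [cev_T0]
    have hc1 : (s : ℂ) ≠ 0 := by exact_mod_cast hs0.ne'
    have hc2 : (1 - (s : ℂ)) ≠ 0 := by
      have : (1 - s : ℝ) ≠ 0 := by linarith
      exact_mod_cast this
    exact mul_ne_zero (mul_ne_zero two_ne_zero hc1) hc2
  set c : ℝ := (be : ℝ) / ga with hc
  refine ⟨|c| / r + 1, ?_⟩
  intro t ht a b
  have ht0 : 0 < t := by
    have : 0 ≤ |c| / r := by positivity
    linarith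
  have htC : (t : ℂ) ≠ 0 := by exact_mod_cast ht0.ne'
  have hcC : ((be : ℂ) / ga) = (c : ℂ) := by rw [hc]; push_cast; ring
  obtain ⟨z, hz⟩ : ∃ z : ℂ, z = (c : ℂ) / t := ⟨_, rfl⟩
  have hznorm : ‖z‖ < r := by
    rw [hz, norm_div, Complex.norm_real, Complex.norm_real, Real.norm_eq_abs, Real.norm_eq_abs,
      abs_of_pos ht0, div_lt_iff₀ ht0]
    have h2 : |c| = |c| / r * r := by field_simp
    rw [h2]
    have h3 : |c| / r < t := by linarith
    nlinarith
  rw [hsC, hcC, ← hz]
  -- the Taylor series of the entries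
  have hTay : ∀ i, HasSum (fun n : ℕ => (z / cev (s : ℂ) T0) ^ n *
      ∑ k, cev (s : ℂ) (beta T0 A0 n a k) * PR s k i) (PR (s + z) a i) := by
    intro i
    have hdiff : DifferentiableOn ℂ (fun t => PR t a i) (Metric.ball (s : ℂ) r) := fun u hu =>
      ((han a i) u (hball hu)).differentiableAt.differentiableWithinAt
    have hmem : (s : ℂ) + z ∈ Metric.ball (s : ℂ) r := by
      rw [Metric.mem_ball, dist_eq_norm]; simpa using hznorm
    have h2 := Complex.hasSum_taylorSeries_on_ball hdiff hmem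
    have e : (fun n : ℕ => (n.factorial : ℂ)⁻¹ • ((s : ℂ) + z - s) ^ n •
        iteratedDeriv n (fun t => PR t a i) s)
        = fun n : ℕ => (z / cev (s : ℂ) T0) ^ n *
          ∑ k, cev (s : ℂ) (beta T0 A0 n a k) * PR s k i := by
      funext n
      have h3 := iter_eq hUopen PR (fun a b u hu => han a b u (hball hu))
        (fun u hu => hode u (hball hu)) n s (Metric.mem_ball_self hr0) a i
      have hfac : (n.factorial : ℂ) ≠ 0 := by exact_mod_cast n.factorial_ne_zero
      have h4 : iteratedDeriv n (fun t => PR t a i) s = (n.factorial : ℂ) *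
          (∑ k, cev (s : ℂ) (beta T0 A0 n a k) * PR s k i) / (cev (s : ℂ) T0) ^ n := by
        rw [eq_div_iff (pow_ne_zero n hT0), mul_comm]
        exact h3
      rw [h4, smul_eq_mul, smul_eq_mul, add_sub_cancel_left, div_pow]
      have hTn := pow_ne_zero n hT0
      field_simp
    rw [e] at h2
    exact h2
  -- multiply by the inverse
  have hP : PR (s : ℂ) * (PR (s : ℂ))⁻¹ = 1 :=
    Matrix.mul_nonsing_inv _ (isUnit_iff_ne_zero.2 (hdet _ hsU))
  have hmul : HasSum (fun n : ℕ => (z / cev (s : ℂ) T0) ^ n * cev (s : ℂ) (beta T0 A0 n a b))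
      ((PR (s + z) * (PR (s : ℂ))⁻¹) a b) := by
    have h2 : HasSum (fun n : ℕ => ∑ i, ((z / cev (s : ℂ) T0) ^ n *
      ∑ k, cev (s : ℂ) (beta T0 A0 n a k) * PR s k i) * (PR (s : ℂ))⁻¹ i b)
        (∑ i, PR (s + z) a i * (PR (s : ℂ))⁻¹ i b) :=
      hasSum_sum fun i _ => (hTay i).mul_right _
    rw [Matrix.mul_apply]
    have e : (fun n : ℕ => ∑ i, ((z / cev (s : ℂ) T0) ^ n *
        ∑ k, cev (s : ℂ) (beta T0 A0 n a k) * PR s k i) * (PR (s : ℂ))⁻¹ i b)
        = fun n : ℕ => (z / cev (s : ℂ) T0) ^ n * cev (s : ℂ) (beta T0 A0 n a b) := by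
      funext n
      have h3 : ∑ k, cev (s : ℂ) (beta T0 A0 n a k) * (∑ i, PR s k i * (PR (s : ℂ))⁻¹ i b)
          = cev (s : ℂ) (beta T0 A0 n a b) := by
        have h4 : ∀ k, ∑ i, PR s k i * (PR (s : ℂ))⁻¹ i b = (1 : Matrix (Fin 2) (Fin 2) ℂ) k b := by
          intro k
          rw [← hP, Matrix.mul_apply]
        simp only [h4]
        rw [Finset.sum_eq_single b]
        · simp
        · intro k _ hk
          rw [Matrix.one_apply_ne hk, mul_zero]
        · intro h; exact absurd (Finset.mem_univ _) h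
      rw [← h3]
      simp only [Finset.mul_sum, Finset.sum_mul]
      rw [Finset.sum_comm]
      refine Finset.sum_congr rfl fun i _ => Finset.sum_congr rfl fun k _ => by ring
    rw [e] at h2
    exact h2
  -- rational coefficients
  have hterm : (fun n : ℕ => (z / cev (s : ℂ) T0) ^ n * cev (s : ℂ) (beta T0 A0 n a b))
      = fun n : ℕ => (((((PowerSeries.coeff n (Yt al be ga a b) : ℚ) : ℝ) * (1 / t) ^ n : ℝ)) : ℂ) := by
    funext n
    rw [Yt, PowerSeries.coeff_mk, yc, hsq, cev_ratCast, cev_ratCast]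
    rw [Matrix.smul_apply, Matrix.map_apply, smul_eq_mul, ← hq, hz, ← hcC]
    push_cast
    have e1 : ((be : ℂ) / ga / t / ((T0.eval q : ℚ) : ℂ)) ^ n
        = ((be : ℂ) / ga / ((T0.eval q : ℚ) : ℂ)) ^ n * (1 / t) ^ n := by
      rw [← mul_pow]
      congr 1
      ring
    rw [e1]
    ring
  rw [hterm] at hmul
  rw [← hmul.tsum_eq, pev, Complex.ofReal_tsum]

end Pool.Agent.Helper37.GP
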