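import Pool.Agent.Helper37.GP.Local
import Pool.Agent.Helper37.GP.GThms
import Pool.Agent.Helper37.GP.FIs

/-!
# Local sparsity of the exceptional points, general parameters (MP_290158_ag)
-/

open Polynomial

namespace Pool.Agent.Helper37.GP

open Pool.Agent.Helper64.Per

theorem functional_indeps {d : ℕ} {s₀ c : ℝ} (h0 : 0 < s₀) (h1 : s₀ < 1) (hc : c ≠ 0) {a : Fin d → ℝ}
    (ha : ∀ j, 0 ≤ a j) {k : Fin d → ℕ} (hk : ∀ j, 1 ≤ k j) (hS : Seps s₀ c a k)
    (p : MvPolynomial (Var d) ℂ[X]) {s₁ : ℝ}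
    (h : ∀ s : ℝ, s₁ ≤ s → MvPolynomial.eval₂ (evalRingHom (s : ℂ))
      (pt fun j => PR (s₀ + c / (a j + k j * s)) * (PR s₀)⁻¹) p = 0)
    (Z : Fin d → Matrix (Fin 2) (Fin 2) ℂ) (hZ : ∀ j, (Z j).det = 1) (s : ℂ) :
    MvPolynomial.eval₂ (evalRingHom s) (pt Z) p = 0 :=
  fis_indep PR_analytic log_indep PR_det det_half PR_zero PR_one h0 h1 hc ha hk hS p h
    Z hZ s

/-- The numerical identity attached to a formal one. -/
theorem numeric_of_formals {al be ga : ℤ} {H₁ : ℕ} (hH₁ : 2 ≤ H₁)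
    (hb : ∀ x y, GBound H₁ (Yt al be ga x y)) {d : ℕ} {a k : Fin d → ℕ}
    (hk : ∀ j, 1 ≤ k j) (p : MvPolynomial (Var d) ℚ[X])
    (hp : MvPolynomial.eval₂ emb (fun v : Var d =>
        ps ((Yt al be ga v.2.1 v.2.2).subst (gx (k v.1) (a v.1)))) p = 0) :
    ∃ s₁ : ℝ, ∀ s : ℝ, s₁ ≤ s →
      MvPolynomial.eval₂ ((evalRingHom s).comp (mapRingHom (algebraMap ℚ ℝ)))
        (fun v : Var d => pev (Yt al be ga v.2.1 v.2.2) (a v.1 + k v.1 * s)) p = 0 := by
  classical
  set Y : Var d → PowerSeries ℚ := fun v => (Yt al be ga v.2.1 v.2.2).subst (gx (k v.1) (a v.1)) with hY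
  set A₀ : ℕ := ∑ j, a j with hA₀
  have haA : ∀ j, a j ≤ A₀ := fun j =>
    Finset.single_le_sum (f := a) (fun _ _ => Nat.zero_le _) (Finset.mem_univ j)
  set H₂ := 4 * H₁ * (A₀ + 1) with hH₂
  have h2 : 2 ≤ H₂ := by nlinarith
  have hYb : ∀ v, GBound H₂ (Y v) := fun v =>
    (gbound_subst hH₁ (hb _ _) (hk v.1) (a v.1)).mono (by
      have := haA v.1
      rw [hH₂]
      exact Nat.mul_le_mul_left _ (by omega))
  set N : ℕ := ∑ m ∈ p.support, ∑ v, m v with hN
  have hmN : ∀ m ∈ p.support, ∑ v, m v ≤ N := fun m hm =>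
    Finset.single_le_sum (f := fun m : Var d →₀ ℕ => ∑ v, m v) (fun _ _ => Nat.zero_le _) hm
  obtain ⟨c, hc⟩ := gbound_prod (ι := Var d) N
  obtain ⟨c', hc'⟩ := pev_prod (ι := Var d) N
  set R := p.support.card with hR
  let f : Fin R ≃ p.support := p.support.equivFin.symm
  set e : Fin R → PowerSeries ℚ := fun i => ∏ v, Y v ^ ((f i : Var d →₀ ℕ) v) with he
  set Q : Fin R → ℚ[X] := fun i => p.coeff (f i : Var d →₀ ℕ) with hQ
  set D : ℕ := ∑ i, (Q i).natDegree with hD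
  have hQD : ∀ i, (Q i).natDegree ≤ D := fun i =>
    Finset.single_le_sum (f := fun i => (Q i).natDegree) (fun _ _ => Nat.zero_le _)
      (Finset.mem_univ i)
  have heb : ∀ i, GBound (H₂ ^ (c + 1)) (e i) := by
    intro i
    refine (hc H₂ h2 Y hYb _ (hmN _ (f i).2)).mono ?_
    exact Nat.pow_le_pow_right (by omega) (by omega)
  have hH3 : 2 ≤ H₂ ^ (c + 1) := by
    calc 2 ≤ H₂ ^ 1 := by rw [pow_one]; exact h2
      _ ≤ _ := Nat.pow_le_pow_right (by omega) (by omega)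
  have hform : ∑ i, emb (Q i) * ps (e i) = 0 := by
    rw [← hp, MvPolynomial.eval₂_eq', ← Finset.sum_coe_sort p.support, ← f.sum_comp]
    refine Finset.sum_congr rfl fun i _ => ?_
    congr 1
    rw [he]
    unfold ps
    rw [map_prod]
    exact Finset.prod_congr rfl fun v _ => map_pow _ _ _
  refine ⟨max (2 * ((H₂ ^ (c + 1) : ℕ) : ℝ)) (max ((H₂ : ℝ) ^ c' + 1)
    ((4 * H₁ * (A₀ + 1) : ℝ) ^ 2 + 1)), fun s hs => ?_⟩
  have hs1 := (le_max_left _ _).trans hs
  have hs2 := ((le_max_left _ _).trans (le_max_right _ _)).trans hs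
  have hs3 := ((le_max_right _ _).trans (le_max_right _ _)).trans hs
  have hz := form_zero hH3 Q hQD e heb hform hs1
  rw [MvPolynomial.eval₂_eq', ← Finset.sum_coe_sort p.support, ← f.sum_comp, ← hz]
  refine Finset.sum_congr rfl fun i _ => ?_
  congr 1
  rw [he]
  simp only
  rw [hc' H₂ h2 Y hYb _ (hmN _ (f i).2) s (by linarith)]
  refine Finset.prod_congr rfl fun v _ => ?_
  congr 1
  refine (pev_subst hH₁ (hb _ _) (hk v.1) (a v.1) ?_).symm
  have h7 : (4 * H₁ * (a v.1 + 1) : ℝ) ≤ 4 * H₁ * (A₀ + 1) := by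
    have h8 : (a v.1 : ℝ) ≤ A₀ := by exact_mod_cast haA v.1
    have h9 : (0 : ℝ) ≤ 4 * H₁ := by positivity
    nlinarith
  have h10 : (4 * H₁ * (a v.1 + 1) : ℝ) ^ 2 ≤ (4 * H₁ * (A₀ + 1) : ℝ) ^ 2 :=
    pow_le_pow_left₀ (by positivity) h7 2
  linarith

/-- The formal independence from the functional one. -/
theorem fi_formals {al be ga : ℤ} (h0 : 0 < al) (h1 : al < ga) (hbe : be ≠ 0) {d : ℕ}
    {a k : Fin d → ℕ} (hk : ∀ j, 1 ≤ k j) (hS : Seps ((al : ℝ) / ga) ((be : ℝ) / ga) (fun j => (a j : ℝ)) k)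
    (p : MvPolynomial (Var d) ℚ[X])
    (hp : MvPolynomial.eval₂ emb (fun v : Var d =>
        ps ((Yt al be ga v.2.1 v.2.2).subst (gx (k v.1) (a v.1)))) p = 0)
    (Z : Fin d → Matrix (Fin 2) (Fin 2) ℚ) (hZ : ∀ j, (Z j).det = 1) :
    MvPolynomial.eval (fun v => (C (pt Z v) : ℚ[X])) p = 0 := by
  classical
  have hga : (0 : ℝ) < ga := by
    have : 0 < ga := h0.trans h1
    exact_mod_cast this
  have hal : (0 : ℝ) < al := by exact_mod_cast h0
  have hag : (al : ℝ) < ga := by exact_mod_cast h1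
  have hbr : (be : ℝ) ≠ 0 := by exact_mod_cast hbe
  obtain ⟨H₁, hH₁, hb1, -⟩ := sol_t_bound (be := be) h0 h1
  obtain ⟨s₁, hs₁⟩ := numeric_of_formals hH₁ hb1 hk p hp
  obtain ⟨t₀, ht₀⟩ := PR_taylor (be := be) h0 h1
  set p' : MvPolynomial (Var d) ℂ[X] := MvPolynomial.map (mapRingHom (algebraMap ℚ ℂ)) p with hp'
  have hnum : ∀ s : ℝ, max s₁ (max t₀ 0) ≤ s → MvPolynomial.eval₂ (evalRingHom (s : ℂ))
      (pt fun j => PR ((((al : ℝ) / ga : ℝ) : ℂ) + (((be : ℝ) / ga : ℝ) : ℂ) /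
        (((a j : ℝ) : ℂ) + k j * s)) * (PR (((al : ℝ) / ga : ℝ) : ℂ))⁻¹) p' = 0 := by
    intro s hs
    have hs1 := (le_max_left _ _).trans hs
    have hs2 := ((le_max_left _ _).trans (le_max_right _ _)).trans hs
    have hs3 := ((le_max_right _ _).trans (le_max_right _ _)).trans hs
    have hz := hs₁ s hs1
    rw [hp', MvPolynomial.eval₂_map]
    have e1 : (evalRingHom (s : ℂ)).comp (mapRingHom (algebraMap ℚ ℂ)) =
        (algebraMap ℝ ℂ).comp ((evalRingHom s).comp (mapRingHom (algebraMap ℚ ℝ))) := by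
      refine Polynomial.ringHom_ext (fun x => ?_) ?_
      · simp
      · simp
    have e2 : (pt fun j => PR ((((al : ℝ) / ga : ℝ) : ℂ) + (((be : ℝ) / ga : ℝ) : ℂ) /
        (((a j : ℝ) : ℂ) + k j * s)) * (PR (((al : ℝ) / ga : ℝ) : ℂ))⁻¹) =
        (algebraMap ℝ ℂ) ∘ (fun v : Var d => pev (Yt al be ga v.2.1 v.2.2) (a v.1 + k v.1 * s)) := by
      funext v
      have h9 : (1 : ℝ) ≤ k v.1 := by exact_mod_cast hk v.1
      have h10 : (0 : ℝ) ≤ a v.1 := (a v.1).cast_nonneg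
      have := ht₀ (a v.1 + k v.1 * s) (by nlinarith) v.2.1 v.2.2
      simp only [pt, Function.comp_apply, Complex.coe_algebraMap]
      rw [← this]
      push_cast
      rfl
    rw [e1, e2, ← MvPolynomial.eval₂_comp_left, hz, map_zero]
  have hfi := functional_indeps (s₀ := (al : ℝ) / ga) (c := (be : ℝ) / ga) (by positivity)
    (by rw [div_lt_one hga]; exact hag) (div_ne_zero hbr hga.ne') (a := fun j => (a j : ℝ)) (fun j => by positivity)
    hk hS p' hnum (fun j => (Z j).map (algebraMap ℚ ℂ)) (fun j => by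
      have := (RingHom.map_det (algebraMap ℚ ℂ) (Z j))
      rw [hZ j, map_one] at this
      rw [this]; rfl)
  have hinj : Function.Injective (mapRingHom (algebraMap ℚ ℂ)) :=
    Polynomial.map_injective _ (algebraMap ℚ ℂ).injective
  apply hinj
  rw [map_zero]
  apply Polynomial.funext
  intro s
  rw [eval_zero, ← hfi s, hp', MvPolynomial.eval₂_map]
  have e3 : (evalRingHom s).comp (mapRingHom (algebraMap ℚ ℂ)) =
      ((evalRingHom s).comp (mapRingHom (algebraMap ℚ ℂ))).comp (RingHom.id _) := by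
    rw [RingHom.comp_id]
  have e4 := MvPolynomial.eval₂_comp_left ((evalRingHom s).comp (mapRingHom (algebraMap ℚ ℂ)))
    (RingHom.id _) (fun v => (C (pt Z v) : ℚ[X])) p
  rw [MvPolynomial.eval₂_id] at e4
  rw [← coe_evalRingHom, ← RingHom.comp_apply, e4, RingHom.comp_id]
  congr 1
  funext v
  simp [pt]

theorem local_sparses {al be ga : ℤ} (h0 : 0 < al) (h1 : al < ga) (hbe : be ≠ 0) (m δ N : ℕ)
    (hN : (δ + 4).choose 4 ≤ N) :
    ∃ C₂ : ℕ, ∀ (K s : ℕ) (a k : Fin (N + 1) → ℕ), 1 ≤ K → (∀ j, a j ≤ K) → (∀ j, 1 ≤ k j ∧ k j ≤ K) →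
      Seps ((al : ℝ) / ga) ((be : ℝ) / ga) (fun j => (a j : ℝ)) k → (K + 1) ^ C₂ ≤ s →
      ∃ j, a j + k j * s ∉ EE' al be ga m δ := by
  classical
  have hga : (0 : ℝ) < ga := by
    have : 0 < ga := h0.trans h1
    exact_mod_cast this
  have hal : (0 : ℝ) < al := by exact_mod_cast h0
  have hag : (al : ℝ) < ga := by exact_mod_cast h1
  set s₀ : ℝ := (al : ℝ) / ga with hs₀
  set c : ℝ := (be : ℝ) / ga with hc
  have hs₀0 : 0 < s₀ := by positivity
  have hs₀1 : s₀ < 1 := by rw [hs₀, div_lt_one hga]; exact hag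
  have hs₀U : (s₀ : ℂ) ∈ UU := Or.inr (by simpa using ⟨hs₀0, hs₀1⟩)
  choose C₃ hC₃ using fun d : ℕ => gthms (be := be) h0 h1 d (m ^ (N + 1) * δ)
  obtain ⟨t₀, ht₀⟩ := PR_taylor (be := be) h0 h1
  obtain ⟨n₀, hn₀⟩ := exists_nat_ge t₀
  refine ⟨(∑ d ∈ Finset.range (N + 2), C₃ d) + n₀, ?_⟩
  intro K s a k hK ha hk hS hs
  by_contra hcon
  push Not at hcon
  have hs1 : 1 ≤ s := le_trans (Nat.one_le_pow _ _ (by omega)) hs
  -- the points
  set lam : Fin (N + 1) → ℝ := fun j => s₀ + c / ((a j + k j * s : ℕ) : ℝ) with hlam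
  have hlamU : ∀ j, (lam j : ℂ) ∈ UU := by
    intro j
    obtain ⟨-, h3, -⟩ := hcon j
    exact mem_UU_real h3.1 h3.2
  have hexc : ∀ j, Exceptional m δ ((lam j : ℝ) : ℂ) := fun j => (hcon j).2.2
  choose κ hκ1 hκ2 hκ3 using hexc
  obtain ⟨L, hL1, hL2, hL3⟩ := common_field (N + 1) κ hκ1 hκ2
  choose r hr1 hr2 g hg1 hg2 using fun j => exists_rel (hlamU j) hs₀U (hκ3 j)
  -- the polynomials over `L`
  set q : Fin (N + 1) → MvPolynomial (Fin 2 × Fin 2) L := fun j =>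
    MvPolynomial.map (IntermediateField.inclusion (hL3 j)).toRingHom (r j) with hq
  have hqa : ∀ j (z : Fin 2 × Fin 2 → ℂ), MvPolynomial.aeval z (q j) =
      MvPolynomial.aeval z (r j) := by
    intro j z
    rw [hq]
    simp only
    rw [MvPolynomial.aeval_def, MvPolynomial.eval₂_map, MvPolynomial.aeval_def]
    rfl
  set Y : Fin (N + 1) → Matrix (Fin 2) (Fin 2) ℂ := fun j => PR (lam j) * (PR s₀)⁻¹ with hY
  have hu₀ : IsUnit (PR (s₀ : ℂ)).det := isUnit_iff_ne_zero.mpr (PR_det_ne hs₀U)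
  have hYdet : ∀ j, (Y j).det = 1 := by
    intro j
    rw [hY]
    simp only
    rw [Matrix.det_mul, Matrix.det_nonsing_inv, Ring.inverse_eq_inv', PR_det (hlamU j),
      PR_det hs₀U, mul_inv_cancel₀ det_half]
  have hYP : ∀ j, Y j * PP s₀ = PP (lam j) := by
    intro j
    rw [hY]
    simp only
    rw [PP_eq hs₀U, PP_eq (hlamU j), ← Matrix.mul_assoc, Matrix.mul_assoc (PR _),
      Matrix.nonsing_inv_mul _ hu₀, Matrix.mul_one]
  obtain ⟨d, hd, F, hF1, hF2, G, hG1, hG2⟩ := elimination (L := L) hN q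
    (fun j => le_trans (Finset.sup_mono (MvPolynomial.support_map_subset _ _)) (hr1 j))
    (PP s₀) Y hYdet
    (fun j => by rw [hqa, hYP]; exact hr2 j)
    (fun j => ⟨g j, hg1 j, by rw [hqa]; exact hg2 j⟩)
  obtain ⟨F', hF'1, hF'2, hF'3⟩ := norm_poly (n := Module.finrank ℚ L) rfl F hF1
  have hvan : VanQ F' := by
    refine hC₃ d K (fun j => a (Fin.castLE hd j)) (fun j => k (Fin.castLE hd j)) hK (fun j => ha _)
      (fun j => hk _) ?_ s ?_ F' ?_ ?_
    · intro p hp Z hZ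
      refine fi_formals (a := fun j => a (Fin.castLE hd j)) (k := fun j => k (Fin.castLE hd j))
        h0 h1 hbe (fun j => (hk _).1) ?_ p hp Z hZ
      intro i j hij u hu
      exact hS (Fin.castLE hd i) (Fin.castLE hd j) hij u hu
    · refine le_trans ?_ hs
      refine Nat.pow_le_pow_right (by omega) ?_
      refine le_trans ?_ (Nat.le_add_right _ _)
      exact Finset.single_le_sum (f := C₃) (fun _ _ => Nat.zero_le _)
        (Finset.mem_range.mpr (by omega))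
    · exact hF'1.mono (Nat.mul_le_mul_right _ hL2)
    · have h2 := hF'2 _ hF2
      have h3 : (pt fun j : Fin d => Y (Fin.castLE hd j)) = fun v : Var d =>
          algebraMap ℝ ℂ (pev (Yt al be ga v.2.1 v.2.2)
            (a (Fin.castLE hd v.1) + k (Fin.castLE hd v.1) * s)) := by
        funext v
        have h9 : 1 ≤ k (Fin.castLE hd v.1) := (hk _).1
        have h11 : n₀ ≤ s := by
          calc n₀ ≤ (K + 1) ^ n₀ := natle_pow hK n₀
            _ ≤ (K + 1) ^ ((∑ d ∈ Finset.range (N + 2), C₃ d) + n₀) :=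
              Nat.pow_le_pow_right (by omega) (by omega)
            _ ≤ s := hs
        have h12 : n₀ ≤ a (Fin.castLE hd v.1) + k (Fin.castLE hd v.1) * s := by nlinarith
        have h13 : (n₀ : ℝ) ≤ a (Fin.castLE hd v.1) + k (Fin.castLE hd v.1) * s := by exact_mod_cast h12
        have h14 := ht₀ (a (Fin.castLE hd v.1) + k (Fin.castLE hd v.1) * s) (hn₀.trans h13) v.2.1 v.2.2
        rw [Complex.coe_algebraMap, ← h14]
        simp only [pt, hY, hlam, hs₀, hc]
        push_cast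
        rfl
      have h5 := MvPolynomial.aeval_algebraMap_apply (A := ℝ) (B := ℂ)
        (fun v : Var d => pev (Yt al be ga v.2.1 v.2.2) (a (Fin.castLE hd v.1) + k (Fin.castLE hd v.1) * s)) F'
      rw [h3] at h2
      exact (algebraMap ℝ ℂ).injective (by rw [← h5, map_zero]; exact h2)
  apply hG2
  refine van_field (L := L) (K := ℂ) (F := F) (fun Z hZ => ?_) G hG1
  exact hF'3 _ (hvan Z hZ)

end Pool.Agent.Helper37.GP
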