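import Pool.Agent.Helper37.GP.Defs2

/-!
# GP-10: Galochkin's condition for the Legendre system in `t = ga⁻¹ ...` (a Moebius change)
-/

open Polynomial

namespace Pool.Agent.Helper37.GP

namespace Moeb

lemma beta_succ_apply {ι : Type} [Fintype ι] [DecidableEq ι] (T : ℚ[X])
    (B : Matrix ι ι ℚ[X]) (j : ℕ) (a b : ι) :
    ((j : ℚ[X]) + 1) * beta T B (j + 1) a b = T * derivative (beta T B j a b)
      - (j : ℚ[X]) * derivative T * beta T B j a b + ∑ i, beta T B j a i * B i b := by
  have hj : ((j : ℚ[X]) + 1) * C (((j : ℚ) + 1)⁻¹) = 1 := by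
    have h1 : ((j : ℚ[X]) + 1) = C ((j : ℚ) + 1) := by simp
    have h2 : (j : ℚ) + 1 ≠ 0 := by positivity
    rw [h1, ← C_mul, mul_inv_cancel₀ h2, C_1]
  rw [beta]
  simp only [Matrix.smul_apply, Matrix.add_apply, Matrix.sub_apply, Matrix.map_apply, smul_eq_mul,
    Matrix.mul_apply]
  rw [← mul_assoc, hj, one_mul]

lemma natDegree_beta0' (n : ℕ) (a b : Fin 2) : (beta T0 A0 n a b).natDegree ≤ n := by
  induction n generalizing a b with
  | zero =>
    rw [beta]
    fin_cases a <;> fin_cases b <;> simp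
  | succ n ih =>
    rw [beta]
    simp only [Matrix.smul_apply, Matrix.add_apply, Matrix.sub_apply, Matrix.map_apply,
      smul_eq_mul, Matrix.mul_apply]
    refine (natDegree_C_mul_le _ _).trans ?_
    refine (natDegree_add_le _ _).trans (max_le ((natDegree_sub_le _ _).trans (max_le ?_ ?_)) ?_)
    · by_cases h0 : n = 0
      · subst h0
        have : derivative (beta T0 A0 0 a b) = 0 := by
          rw [beta]; fin_cases a <;> fin_cases b <;> simp
        rw [this]; simp
      · have hT : T0.natDegree ≤ 2 := by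
          unfold T0; compute_degree
        have hd : (derivative (beta T0 A0 n a b)).natDegree ≤ n - 1 :=
          (natDegree_derivative_le _).trans (Nat.sub_le_sub_right (ih a b) 1)
        refine natDegree_mul_le.trans ?_
        omega
    · have hT : ((n : ℚ[X]) * derivative T0).natDegree ≤ 1 := by
        have : derivative T0 = 2 - 4 * X := by
          unfold T0
          have h2 : derivative (2 : ℚ[X]) = 0 := derivative_ofNat 2
          rw [derivative_mul, derivative_mul, derivative_sub, derivative_one, derivative_X, h2]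
          ring
        rw [this]
        have h2 : (n : ℚ[X]) = C (n : ℚ) := by simp
        rw [h2]
        compute_degree
      refine natDegree_mul_le.trans ?_
      have := ih a b
      omega
    · refine natDegree_sum_le_of_forall_le _ _ fun i _ => ?_
      have hA : (A0 i b).natDegree ≤ 1 := by
        unfold A0
        fin_cases i <;> fin_cases b <;> simp
      refine natDegree_mul_le.trans ?_
      have := ih a i
      omega

/-- homogenisation: `∑ p_k N^k D^(n-k)` -/
noncomputable def hom (N D : ℚ[X]) (n : ℕ) (p : ℚ[X]) : ℚ[X] :=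
  ∑ k ∈ Finset.range (n + 1), C (p.coeff k) * N ^ k * D ^ (n - k)

lemma hom_add (N D : ℚ[X]) (n : ℕ) (p q : ℚ[X]) :
    hom N D n (p + q) = hom N D n p + hom N D n q := by
  unfold hom
  rw [← Finset.sum_add_distrib]
  refine Finset.sum_congr rfl fun k _ => ?_
  rw [coeff_add, C_add]; ring

lemma hom_neg (N D : ℚ[X]) (n : ℕ) (p : ℚ[X]) :
    hom N D n (-p) = -hom N D n p := by
  unfold hom
  rw [← Finset.sum_neg_distrib]
  refine Finset.sum_congr rfl fun k _ => ?_
  rw [coeff_neg, C_neg]; ring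

lemma hom_sub (N D : ℚ[X]) (n : ℕ) (p q : ℚ[X]) :
    hom N D n (p - q) = hom N D n p - hom N D n q := by
  rw [sub_eq_add_neg, hom_add, hom_neg, sub_eq_add_neg]

lemma hom_C_mul (N D : ℚ[X]) (n : ℕ) (c : ℚ) (p : ℚ[X]) :
    hom N D n (C c * p) = C c * hom N D n p := by
  unfold hom
  rw [Finset.mul_sum]
  refine Finset.sum_congr rfl fun k _ => ?_
  rw [coeff_C_mul, C_mul]; ring

lemma hom_X_mul (N D : ℚ[X]) (n : ℕ) (p : ℚ[X]) :
    hom N D (n + 1) (X * p) = N * hom N D n p := by
  unfold hom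
  rw [Finset.sum_range_succ', Finset.mul_sum]
  simp only [coeff_X_mul, mul_coeff_zero, coeff_X_zero, zero_mul, C_0, add_zero]
  refine Finset.sum_congr rfl fun k _ => ?_
  rw [Nat.add_sub_add_right, pow_succ]; ring

lemma hom_succ (N D : ℚ[X]) (n : ℕ) (p : ℚ[X]) (hp : p.natDegree ≤ n) :
    hom N D (n + 1) p = D * hom N D n p := by
  unfold hom
  rw [Finset.sum_range_succ, coeff_eq_zero_of_natDegree_lt (by omega : p.natDegree < n + 1),
    Finset.mul_sum]
  simp only [C_0, zero_mul, add_zero]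
  refine Finset.sum_congr rfl fun k hk => ?_
  rw [Finset.mem_range] at hk
  have : n + 1 - k = (n - k) + 1 := by omega
  rw [this, pow_succ]; ring

lemma C2 : (C (2 : ℚ) : ℚ[X]) = 2 := map_ofNat C 2

lemma Cn (k : ℕ) : (C (k : ℚ) : ℚ[X]) = (k : ℚ[X]) := map_natCast C k

lemma deriv_pow_N {N : ℚ[X]} {be : ℚ} (hN : X * derivative N = N - C be) (k : ℕ) :
    X * derivative (N ^ k) = (k : ℚ[X]) * N ^ k - C be * ((k : ℚ[X]) * N ^ (k - 1)) := by
  rw [derivative_pow, Cn]
  rcases Nat.eq_zero_or_pos k with h0 | h0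
  · subst h0; simp
  · obtain ⟨m, rfl⟩ : ∃ m, k = m + 1 := ⟨k - 1, by omega⟩
    rw [Nat.add_sub_cancel, pow_succ]
    linear_combination (((m + 1 : ℕ) : ℚ[X]) * N ^ m) * hN

lemma deriv_pow_D {D : ℚ[X]} (hD : X * derivative D = D) (k : ℕ) :
    X * derivative (D ^ k) = (k : ℚ[X]) * D ^ k := by
  have := deriv_pow_N (N := D) (be := 0) (by rw [hD]; simp) k
  rw [this]; simp

lemma euler_alg (x c u u' v v' k l b w : ℚ[X]) (h1 : x * u' = k * u - b * w)
    (h2 : x * v' = l * v) : x * ((0 * u + c * u') * v + c * u * v') =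
      (k + l) * (c * u * v) - b * (c * w * v) := by
  linear_combination (c * v) * h1 + (c * u) * h2

lemma hom_deriv_key {N D : ℚ[X]} {be : ℚ} (hN : X * derivative N = N - C be)
    (hD : X * derivative D = D) (n : ℕ) (c : ℚ) (k : ℕ) (hk : k ≤ n + 1) :
    X * derivative (C c * N ^ k * D ^ (n + 1 - k)) =
      ((n : ℚ[X]) + 1) * (C c * N ^ k * D ^ (n + 1 - k)) -
      C be * (C c * ((k : ℚ[X]) * N ^ (k - 1)) * D ^ (n + 1 - k)) := by
  obtain ⟨l, hl⟩ : ∃ l, n + 1 = k + l := ⟨n + 1 - k, by omega⟩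
  have hl' : n + 1 - k = l := by omega
  have hcast : (n : ℚ[X]) + 1 = (k : ℚ[X]) + l := by exact_mod_cast hl
  rw [hl', hcast, derivative_mul, derivative_mul, derivative_C]
  exact euler_alg _ _ _ _ _ _ _ _ _ _ (deriv_pow_N hN k) (deriv_pow_D hD l)

/-- Euler's relation -/
lemma hom_deriv {N D : ℚ[X]} {be : ℚ} (hN : X * derivative N = N - C be)
    (hD : X * derivative D = D) (n : ℕ) (p : ℚ[X]) :
    X * derivative (hom N D (n + 1) p) = ((n : ℚ[X]) + 1) * hom N D (n + 1) p
      - C be * hom N D n (derivative p) := by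
  have h1 : X * derivative (hom N D (n + 1) p) =
      ∑ k ∈ Finset.range (n + 1 + 1), (((n : ℚ[X]) + 1) * (C (p.coeff k) * N ^ k * D ^ (n + 1 - k)) -
      C be * (C (p.coeff k) * ((k : ℚ[X]) * N ^ (k - 1)) * D ^ (n + 1 - k))) := by
    unfold hom
    rw [derivative_sum, Finset.mul_sum]
    exact Finset.sum_congr rfl fun k hk => hom_deriv_key hN hD n (p.coeff k) k
      (by rw [Finset.mem_range] at hk; omega)
  have h2 : ∑ k ∈ Finset.range (n + 1 + 1),
      (C (p.coeff k) * ((k : ℚ[X]) * N ^ (k - 1)) * D ^ (n + 1 - k)) =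
      hom N D n (derivative p) := by
    rw [Finset.sum_range_succ', Nat.cast_zero, zero_mul, mul_zero, zero_mul, add_zero]
    unfold hom
    refine Finset.sum_congr rfl fun k _ => ?_
    rw [coeff_derivative, Nat.add_sub_cancel, Nat.add_sub_add_right, C_mul]
    have : (C ((k : ℚ) + 1) : ℚ[X]) = ((k + 1 : ℕ) : ℚ[X]) := by
      rw [← Cn]; push_cast; rfl
    rw [this]
    ring
  rw [h1, Finset.sum_sub_distrib, ← Finset.mul_sum, ← Finset.mul_sum, h2]
  rfl

/-- the numerator of `λ` -/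
noncomputable def NN (al be : ℤ) : ℚ[X] := C (al : ℚ) * X + C (be : ℚ)
/-- the denominator of `λ` -/
noncomputable def DD (ga : ℤ) : ℚ[X] := C (ga : ℚ) * X
/-- `W = 2 N (D - N)` -/
noncomputable def WW (al be ga : ℤ) : ℚ[X] := 2 * NN al be * (DD ga - NN al be)
/-- `Ah` -/
noncomputable def AH (al be ga : ℤ) : Matrix (Fin 2) (Fin 2) ℚ[X] :=
  !![NN al be, -DD ga; NN al be, -NN al be]

lemma NN_deriv (al be : ℤ) : X * derivative (NN al be) = NN al be - C (be : ℚ) := by
  unfold NN; simp; ring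

lemma DD_deriv (ga : ℤ) : X * derivative (DD ga) = DD ga := by
  unfold DD; simp; ring

lemma WW_deriv (al be ga : ℤ) : X * derivative (WW al be ga) +
    2 * C (be : ℚ) * (DD ga - 2 * NN al be) = 2 * WW al be ga := by
  unfold WW
  rw [derivative_mul, derivative_mul, derivative_sub]
  have h2 : derivative (2 : ℚ[X]) = 0 := derivative_ofNat 2
  rw [h2]
  linear_combination (2 * (DD ga - NN al be)) * NN_deriv al be +
    (2 * NN al be) * (DD_deriv ga - NN_deriv al be)

lemma Tt_eq (al be ga : ℤ) : (Tt al be ga).map (Int.castRingHom ℚ) = X * WW al be ga := by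
  unfold Tt WW NN DD
  simp
  ring

lemma At_eq (al be ga : ℤ) : At al be ga = (C (-(be : ℚ)) : ℚ[X]) • AH al be ga := by
  rfl

/-- the homogenised iterates -/
noncomputable def hh (al be ga : ℤ) (n : ℕ) : Matrix (Fin 2) (Fin 2) ℚ[X] :=
  (beta T0 A0 n).map (hom (NN al be) (DD ga) n)

lemma hh_apply (al be ga : ℤ) (n : ℕ) (a b : Fin 2) :
    hh al be ga n a b = hom (NN al be) (DD ga) n (beta T0 A0 n a b) := rfl

lemma hh_succ (al be ga : ℤ) (m : ℕ) (a b : Fin 2) :
    ((m : ℚ[X]) + 2) * hh al be ga (m + 2) a b =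
      WW al be ga * hom (NN al be) (DD ga) m (derivative (beta T0 A0 (m + 1) a b))
      - 2 * ((m : ℚ[X]) + 1) * (DD ga - 2 * NN al be) * hh al be ga (m + 1) a b
      + ∑ i, hh al be ga (m + 1) a i * AH al be ga i b := by
  set N := NN al be with hN
  set D := DD ga with hD
  have hb := beta_succ_apply T0 A0 (m + 1) a b
  have hdeg : ∀ i, (beta T0 A0 (m + 1) a i).natDegree ≤ m + 1 := fun i => natDegree_beta0' _ _ _
  have hdeg' : (derivative (beta T0 A0 (m + 1) a b)).natDegree ≤ m :=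
    (natDegree_derivative_le _).trans (by have := hdeg b; omega)
  have h1 := congrArg (hom N D (m + 2)) hb
  have e1 : ((((m + 1 : ℕ)) : ℚ[X]) + 1) = C ((m : ℚ) + 2) := by
    have : (C ((m : ℚ) + 2) : ℚ[X]) = (m : ℚ[X]) + 2 := by rw [C_add, C2, Cn]
    rw [this]; push_cast; ring
  have e2 : T0 * derivative (beta T0 A0 (m + 1) a b) =
      C 2 * (X * (derivative (beta T0 A0 (m + 1) a b) -
        X * derivative (beta T0 A0 (m + 1) a b))) := by
    rw [C2]; unfold T0; ring
  have e3 : (((m + 1 : ℕ)) : ℚ[X]) * derivative T0 * beta T0 A0 (m + 1) a b =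
      C (2 * ((m : ℚ) + 1)) * (beta T0 A0 (m + 1) a b - C 2 * (X * beta T0 A0 (m + 1) a b)) := by
    have h2 := C2
    have h3 : (C (2 * ((m : ℚ) + 1)) : ℚ[X]) = 2 * ((m : ℚ[X]) + 1) := by
      rw [C_mul, C_add, C2, Cn, C_1]
    have h4 : derivative T0 = 2 - 4 * X := by
      unfold T0
      have h2 : derivative (2 : ℚ[X]) = 0 := derivative_ofNat 2
      rw [derivative_mul, derivative_mul, derivative_sub, derivative_one, derivative_X, h2]
      ring
    rw [h2, h3, h4]; push_cast; ring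
  have hC2 := C2
  have hC3 : (C (2 * ((m : ℚ) + 1)) : ℚ[X]) = 2 * ((m : ℚ[X]) + 1) := by
    rw [C_mul, C_add, C2, Cn, C_1]
  have hC4 : (C ((m : ℚ) + 2) : ℚ[X]) = (m : ℚ[X]) + 2 := by rw [C_add, C2, Cn]
  rw [e1, e2, e3, hom_C_mul, hom_add, hom_sub, hom_C_mul, hom_C_mul, hom_X_mul, hom_sub,
    hom_X_mul, hom_succ _ _ _ _ hdeg', hom_sub, hom_C_mul, hom_X_mul,
    hom_succ _ _ _ _ (hdeg b), hC2, hC3, hC4] at h1
  have e4 : hom N D (m + 2) (∑ i, beta T0 A0 (m + 1) a i * A0 i b) =
      ∑ i, hh al be ga (m + 1) a i * AH al be ga i b := by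
    rw [Fin.sum_univ_two, Fin.sum_univ_two, hom_add]
    have a00 : A0 0 0 = X := rfl
    have a01 : A0 0 1 = -1 := rfl
    have a10 : A0 1 0 = X := rfl
    have a11 : A0 1 1 = -X := rfl
    have b00 : AH al be ga 0 0 = N := rfl
    have b01 : AH al be ga 0 1 = -D := rfl
    have b10 : AH al be ga 1 0 = N := rfl
    have b11 : AH al be ga 1 1 = -N := rfl
    rw [hh_apply, hh_apply, ← hN, ← hD]
    obtain rfl | rfl : b = 0 ∨ b = 1 := by omega
    · rw [a00, a10, b00, b10, mul_comm _ X, mul_comm _ X, hom_X_mul, hom_X_mul]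
      ring
    · rw [a01, a11, b01, b11, mul_neg_one, hom_neg, hom_succ _ _ _ _ (hdeg 0), mul_neg, hom_neg,
        mul_comm _ X, hom_X_mul]
      ring
  rw [e4] at h1
  rw [hh_apply al be ga (m + 2), hh_apply al be ga (m + 1) a b]
  rw [h1]
  unfold WW
  rw [← hN, ← hD]
  ring

/-- one summand of the induction step -/
lemma summand (al be ga : ℤ) (e k : ℕ) (a b : Fin 2) :
    X * WW al be ga * derivative (C (be : ℚ) ^ (k + 1) * WW al be ga ^ e *
        hh al be ga (k + 1) a b)
      - ((e : ℚ[X]) + (k : ℚ[X]) + 1) * derivative (X * WW al be ga) *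
        (C (be : ℚ) ^ (k + 1) * WW al be ga ^ e * hh al be ga (k + 1) a b)
      + ∑ i, (C (be : ℚ) ^ (k + 1) * WW al be ga ^ e * hh al be ga (k + 1) a i) *
          At al be ga i b =
    -(((k : ℚ[X]) + ((e : ℚ[X]) + (k : ℚ[X])) + 2) * (C (be : ℚ) ^ (k + 1) * WW al be ga ^ (e + 1) *
        hh al be ga (k + 1) a b)
      + ((k : ℚ[X]) + 2) * (C (be : ℚ) ^ (k + 2) * WW al be ga ^ e *
        hh al be ga (k + 2) a b)) := by
  have F1 := hom_deriv (NN_deriv al be) (DD_deriv ga) k (beta T0 A0 (k + 1) a b)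
  have F2 := hh_succ al be ga k a b
  have F3 := WW_deriv al be ga
  rw [← hh_apply] at F1
  set W := WW al be ga with hW
  have F4 : W * derivative (W ^ e) = (e : ℚ[X]) * W ^ e * derivative W := by
    rw [derivative_pow]
    rcases Nat.eq_zero_or_pos e with h0 | h0
    · subst h0; simp
    · obtain ⟨m, rfl⟩ : ∃ m, e = m + 1 := ⟨e - 1, by omega⟩
      rw [Cn, Nat.add_sub_cancel, pow_succ]
      ring
  have hsum : ∑ i, (C (be : ℚ) ^ (k + 1) * W ^ e * hh al be ga (k + 1) a i) * At al be ga i b =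
      -(C (be : ℚ) ^ (k + 2) * W ^ e) *
        ∑ i, hh al be ga (k + 1) a i * AH al be ga i b := by
    rw [Finset.mul_sum]
    refine Finset.sum_congr rfl fun i _ => ?_
    rw [At_eq, Matrix.smul_apply, smul_eq_mul, C_neg]
    ring
  have hder : derivative (C (be : ℚ) ^ (k + 1) * W ^ e * hh al be ga (k + 1) a b) =
      C (be : ℚ) ^ (k + 1) * (derivative (W ^ e) * hh al be ga (k + 1) a b +
        W ^ e * derivative (hh al be ga (k + 1) a b)) := by
    have : derivative (C (be : ℚ) ^ (k + 1)) = 0 := by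
      rw [← C_pow, derivative_C]
    rw [derivative_mul, derivative_mul, this]; ring
  rw [hsum, hder, derivative_mul, derivative_X]
  set x := hh al be ga (k + 1) a b
  set g := hom (NN al be) (DD ga) k (derivative (beta T0 A0 (k + 1) a b))
  linear_combination (C (be : ℚ) ^ (k + 1)) * (X * x * F4 + W ^ (e + 1) * F1 +
    C (be : ℚ) * W ^ e * F2 - ((k : ℚ[X]) + 1) * W ^ e * x * F3)

lemma comb (J : ℕ) (f : ℕ → ℚ[X]) :
    ∑ k ∈ Finset.range (J + 1), (J.choose k : ℚ[X]) *
      (((k : ℚ[X]) + (J : ℚ[X]) + 2) * f k + ((k : ℚ[X]) + 2) * f (k + 1)) =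
    ((J : ℚ[X]) + 2) * ∑ k ∈ Finset.range (J + 1 + 1), ((J + 1).choose k : ℚ[X]) * f k := by
  have h1 : ∑ k ∈ Finset.range (J + 1), (J.choose k : ℚ[X]) * (((k : ℚ[X]) + (J : ℚ[X]) + 2) * f k) =
      ∑ k ∈ Finset.range (J + 1 + 1), (J.choose k : ℚ[X]) * (((k : ℚ[X]) + (J : ℚ[X]) + 2) * f k) := by
    rw [Finset.sum_range_succ _ (J + 1), Nat.choose_succ_self, Nat.cast_zero, zero_mul, add_zero]
  simp only [mul_add]
  rw [Finset.sum_add_distrib, h1]
  rw [Finset.sum_range_succ' _ (J + 1), Finset.sum_range_succ' _ (J + 1), mul_add,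
    Finset.mul_sum, add_right_comm, ← Finset.sum_add_distrib]
  congr 1
  · refine Finset.sum_congr rfl fun k _ => ?_
    have h2 := Nat.choose_succ_right_eq J k
    have h3 : (J.choose (k + 1) : ℚ[X]) * ((k : ℚ[X]) + 1) =
        (J.choose k : ℚ[X]) * ((J : ℚ[X]) - k) := by
      by_cases hk : k ≤ J
      · have := congrArg (Nat.cast : ℕ → ℚ[X]) h2
        push_cast [Nat.cast_sub hk] at this
        exact this
      · rw [Nat.choose_eq_zero_of_lt (by omega : J < k),
          Nat.choose_eq_zero_of_lt (by omega : J < k + 1)]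
        simp
    rw [Nat.choose_succ_succ]
    push_cast
    linear_combination f (k + 1) * h3
  · simp

lemma closed (al be ga : ℤ) (J : ℕ) (a b : Fin 2) :
    beta ((Tt al be ga).map (Int.castRingHom ℚ)) (At al be ga) (J + 1) a b =
      (-1) ^ (J + 1) * ∑ k ∈ Finset.range (J + 1), (J.choose k : ℚ[X]) *
        (C (be : ℚ) ^ (k + 1) * WW al be ga ^ (J - k) * hh al be ga (k + 1) a b) := by
  induction J generalizing a b with
  | zero =>
    have h0 := beta_succ_apply ((Tt al be ga).map (Int.castRingHom ℚ)) (At al be ga) 0 a b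
    have h1 := beta_succ_apply T0 A0 0 a b
    have hb0 : ∀ (T : ℚ[X]) (B : Matrix (Fin 2) (Fin 2) ℚ[X]), beta T B 0 = 1 := fun T B => rfl
    rw [hb0] at h0 h1
    have hd : derivative ((1 : Matrix (Fin 2) (Fin 2) ℚ[X]) a b) = 0 := by
      fin_cases a <;> fin_cases b <;> simp
    rw [hd] at h0 h1
    have hs : ∀ B : Matrix (Fin 2) (Fin 2) ℚ[X],
        ∑ i, (1 : Matrix (Fin 2) (Fin 2) ℚ[X]) a i * B i b = B a b := by
      intro B
      rw [← Matrix.mul_apply, one_mul]
    rw [hs] at h0 h1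
    simp only [Nat.cast_zero, zero_add, one_mul, mul_zero, zero_mul, sub_zero] at h0 h1
    rw [Finset.sum_range_one]
    simp only [zero_add, pow_one, Nat.choose_self, Nat.cast_one, one_mul, Nat.sub_self, pow_zero,
      mul_one]
    rw [h0, hh_apply, h1, At_eq, Matrix.smul_apply, smul_eq_mul, C_neg]
    have hA : hom (NN al be) (DD ga) 1 (A0 a b) = AH al be ga a b := by
      have q1 : hom (NN al be) (DD ga) 0 1 = 1 := by simp [hom]
      have q2 : hom (NN al be) (DD ga) 1 X = NN al be := by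
        have := hom_X_mul (NN al be) (DD ga) 0 1
        rwa [mul_one, q1, mul_one] at this
      have q3 : hom (NN al be) (DD ga) 1 1 = DD ga := by
        have := hom_succ (NN al be) (DD ga) 0 1 (by simp)
        rwa [q1, mul_one] at this
      obtain rfl | rfl : a = 0 ∨ a = 1 := by omega
      · obtain rfl | rfl : b = 0 ∨ b = 1 := by omega
        · exact q2
        · show hom (NN al be) (DD ga) 1 (-1) = -DD ga
          rw [hom_neg, q3]
      · obtain rfl | rfl : b = 0 ∨ b = 1 := by omega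
        · exact q2
        · show hom (NN al be) (DD ga) 1 (-X) = -NN al be
          rw [hom_neg, q2]
    rw [hA]
    ring
  | succ J ih =>
    have h0 := beta_succ_apply ((Tt al be ga).map (Int.castRingHom ℚ)) (At al be ga) (J + 1) a b
    have hc := comb J (fun k => C (be : ℚ) ^ (k + 1) * WW al be ga ^ (J + 1 - k) *
      hh al be ga (k + 1) a b)
    have hJ : ((((J + 1 : ℕ)) : ℚ[X]) + 1) ≠ 0 := by
      have : ((((J + 1 : ℕ)) : ℚ[X]) + 1) = (((J + 2 : ℕ)) : ℚ[X]) := by push_cast; ring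
      rw [this]
      exact Nat.cast_ne_zero.2 (by omega)
    apply mul_left_cancel₀ hJ
    rw [h0, Tt_eq] 
    simp only [Tt_eq] at ih
    rw [ih a b]
    have hsum : ∀ i, beta (X * WW al be ga) (At al be ga) (J + 1) a i * At al be ga i b =
        (-1) ^ (J + 1) * ∑ k ∈ Finset.range (J + 1), (J.choose k : ℚ[X]) *
        ((C (be : ℚ) ^ (k + 1) * WW al be ga ^ (J - k) * hh al be ga (k + 1) a i) *
          At al be ga i b) := by
      intro i
      rw [ih a i, mul_assoc, Finset.sum_mul, Finset.sum_congr rfl fun k _ => mul_assoc _ _ _]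
    rw [Finset.sum_congr rfl fun i _ => hsum i, ← Finset.mul_sum, Finset.sum_comm]
    have hder : derivative ((-1 : ℚ[X]) ^ (J + 1) * ∑ k ∈ Finset.range (J + 1),
        (J.choose k : ℚ[X]) *
        (C (be : ℚ) ^ (k + 1) * WW al be ga ^ (J - k) * hh al be ga (k + 1) a b)) =
        (-1 : ℚ[X]) ^ (J + 1) * ∑ k ∈ Finset.range (J + 1), (J.choose k : ℚ[X]) * derivative
        (C (be : ℚ) ^ (k + 1) * WW al be ga ^ (J - k) * hh al be ga (k + 1) a b) := by
      have e1 : ((-1 : ℚ[X]) ^ (J + 1)) = C ((-1 : ℚ) ^ (J + 1)) := by simp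
      have e2 : ∀ k : ℕ, derivative ((J.choose k : ℚ[X]) *
          (C (be : ℚ) ^ (k + 1) * WW al be ga ^ (J - k) * hh al be ga (k + 1) a b)) =
          (J.choose k : ℚ[X]) * derivative
          (C (be : ℚ) ^ (k + 1) * WW al be ga ^ (J - k) * hh al be ga (k + 1) a b) := by
        intro k
        rw [← Cn, derivative_C_mul]
      rw [e1, derivative_C_mul, derivative_sum, Finset.sum_congr rfl fun k _ => e2 k]
    rw [hder]
    have hterm : ∀ k ∈ Finset.range (J + 1), (J.choose k : ℚ[X]) *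
        (X * WW al be ga * derivative (C (be : ℚ) ^ (k + 1) * WW al be ga ^ (J - k) *
          hh al be ga (k + 1) a b)
        - (((J + 1 : ℕ)) : ℚ[X]) * derivative (X * WW al be ga) *
          (C (be : ℚ) ^ (k + 1) * WW al be ga ^ (J - k) * hh al be ga (k + 1) a b)
        + ∑ i, (C (be : ℚ) ^ (k + 1) * WW al be ga ^ (J - k) * hh al be ga (k + 1) a i) *
            At al be ga i b) =
        -((J.choose k : ℚ[X]) * (((k : ℚ[X]) + (J : ℚ[X]) + 2) *
          (C (be : ℚ) ^ (k + 1) * WW al be ga ^ (J + 1 - k) * hh al be ga (k + 1) a b) +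
          ((k : ℚ[X]) + 2) * (C (be : ℚ) ^ (k + 1 + 1) * WW al be ga ^ (J + 1 - (k + 1)) *
          hh al be ga (k + 1 + 1) a b))) := by
      intro k hk
      rw [Finset.mem_range] at hk
      obtain ⟨e, he⟩ : ∃ e, J = e + k := ⟨J - k, by omega⟩
      have e1 : J - k = e := by omega
      have e2 : J + 1 - k = e + 1 := by omega
      have e3 : J + 1 - (k + 1) = e := by omega
      have e4 : (((J + 1 : ℕ)) : ℚ[X]) = (e : ℚ[X]) + (k : ℚ[X]) + 1 := by
        rw [he]; push_cast; ring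
      have e5 : (J : ℚ[X]) = (e : ℚ[X]) + (k : ℚ[X]) := by
        rw [he]; push_cast; ring
      rw [e1, e2, e3, e4, e5, summand]
      ring
    have hT : ∀ (u v w : ℕ → ℚ[X]) (x y s : ℚ[X]),
        x * (s * ∑ k ∈ Finset.range (J + 1), (J.choose k : ℚ[X]) * u k) -
        y * (s * ∑ k ∈ Finset.range (J + 1), (J.choose k : ℚ[X]) * v k) +
        s * ∑ k ∈ Finset.range (J + 1), (J.choose k : ℚ[X]) * w k =
        s * ∑ k ∈ Finset.range (J + 1), (J.choose k : ℚ[X]) * (x * u k - y * v k + w k) := by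
      intro u v w x y s
      simp only [Finset.mul_sum, ← Finset.sum_sub_distrib, ← Finset.sum_add_distrib]
      exact Finset.sum_congr rfl fun k _ => by ring
    have hswap : ∑ k ∈ Finset.range (J + 1), ∑ i, (J.choose k : ℚ[X]) *
        ((C (be : ℚ) ^ (k + 1) * WW al be ga ^ (J - k) * hh al be ga (k + 1) a i) *
          At al be ga i b) = ∑ k ∈ Finset.range (J + 1), (J.choose k : ℚ[X]) *
        ∑ i, ((C (be : ℚ) ^ (k + 1) * WW al be ga ^ (J - k) * hh al be ga (k + 1) a i) *
          At al be ga i b) := by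
      exact Finset.sum_congr rfl fun k _ => by rw [Finset.mul_sum]
    rw [hswap, hT, Finset.sum_congr rfl hterm, Finset.sum_neg_distrib, hc]
    push_cast
    ring

/-! ### denominators -/

/-- the integral polynomials -/
noncomputable abbrev II : Subring ℚ[X] := (mapRingHom (Int.castRingHom ℚ)).range

lemma intBy_iff (q : ℕ) (p : ℚ[X]) : IntBy q p ↔ C (q : ℚ) * p ∈ II := by
  constructor
  · intro h
    choose z hz using h
    refine ⟨∑ n ∈ p.support, C (z n) * X ^ n, ?_⟩
    rw [coe_mapRingHom, Polynomial.map_sum]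
    conv_rhs => rw [p.as_sum_support_C_mul_X_pow, Finset.mul_sum]
    refine Finset.sum_congr rfl fun n _ => ?_
    rw [Polynomial.map_mul, Polynomial.map_C, Polynomial.map_pow, Polynomial.map_X, ← mul_assoc,
      ← C_mul, hz n]
    rfl
  · rintro ⟨P, hP⟩ n
    refine ⟨P.coeff n, ?_⟩
    have := congrArg (fun r => r.coeff n) hP
    simp only [coe_mapRingHom, coeff_map, coeff_C_mul] at this
    rw [← this]; rfl

lemma C_int_mem (z : ℤ) : (C (z : ℚ) : ℚ[X]) ∈ II := ⟨C z, by simp⟩

lemma X_mem : (X : ℚ[X]) ∈ II := ⟨X, by simp⟩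

lemma NN_mem (al be : ℤ) : NN al be ∈ II :=
  add_mem (mul_mem (C_int_mem _) X_mem) (C_int_mem _)

lemma DD_mem (ga : ℤ) : DD ga ∈ II := mul_mem (C_int_mem _) X_mem

lemma WW_mem (al be ga : ℤ) : WW al be ga ∈ II := by
  refine mul_mem (mul_mem ?_ (NN_mem _ _)) (sub_mem (DD_mem _) (NN_mem _ _))
  have := C_int_mem 2
  rwa [show (((2 : ℤ)) : ℚ) = 2 by norm_num, C2] at this

end Moeb

open Moeb

theorem galochkin_t {H₀ : ℕ} (h : Galochkin T0 A0 H₀) (al be ga : ℤ) :
    Galochkin ((Tt al be ga).map (Int.castRingHom ℚ)) (At al be ga) H₀ := by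
  intro j
  obtain ⟨q, hq0, hq1, hq2⟩ := h j
  refine ⟨q, hq0, hq1, fun i hi a b => ?_⟩
  rcases Nat.eq_zero_or_pos i with h0 | h0
  · subst h0
    rw [intBy_iff]
    have : beta ((Tt al be ga).map (Int.castRingHom ℚ)) (At al be ga) 0 = 1 := rfl
    rw [this, Matrix.one_apply]
    refine mul_mem ?_ ?_
    · exact ⟨C (q : ℤ), by simp⟩
    · split_ifs
      · exact one_mem _
      · exact zero_mem _
  · obtain ⟨I, rfl⟩ : ∃ I, i = I + 1 := ⟨i - 1, by omega⟩
    rw [intBy_iff, closed]
    have hh_int : ∀ n ≤ j, C (q : ℚ) * hh al be ga n a b ∈ II := by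
      intro n hn
      rw [hh_apply]
      unfold hom
      rw [Finset.mul_sum]
      refine Subring.sum_mem _ fun k _ => ?_
      have e1 : C (q : ℚ) * (C ((beta T0 A0 n a b).coeff k) * NN al be ^ k * DD ga ^ (n - k)) =
          C ((q : ℚ) * (beta T0 A0 n a b).coeff k) * NN al be ^ k * DD ga ^ (n - k) := by
        rw [C_mul]; ring
      rw [e1]
      obtain ⟨z, hz⟩ := hq2 n hn a b k
      rw [hz]
      exact mul_mem (mul_mem (C_int_mem z) (pow_mem (NN_mem _ _) _)) (pow_mem (DD_mem _) _)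
    have e2 : C (q : ℚ) * ((-1) ^ (I + 1) * ∑ k ∈ Finset.range (I + 1), (I.choose k : ℚ[X]) *
        (C (be : ℚ) ^ (k + 1) * WW al be ga ^ (I - k) * hh al be ga (k + 1) a b)) =
        (-1) ^ (I + 1) * ∑ k ∈ Finset.range (I + 1), (I.choose k : ℚ[X]) *
        (C (be : ℚ) ^ (k + 1) * WW al be ga ^ (I - k) *
          (C (q : ℚ) * hh al be ga (k + 1) a b)) := by
      rw [Finset.mul_sum, Finset.mul_sum, Finset.mul_sum]
      exact Finset.sum_congr rfl fun k _ => by ring
    rw [e2]
    refine mul_mem (pow_mem (neg_mem (one_mem _)) _) (Subring.sum_mem _ fun k hk => ?_)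
    rw [Finset.mem_range] at hk
    exact mul_mem (natCast_mem _ _) (mul_mem (mul_mem (pow_mem (C_int_mem _) _)
      (pow_mem (WW_mem _ _ _) _)) (hh_int (k + 1) (by omega)))

end Pool.Agent.Helper37.GP
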