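import Pool.Agent.Helper37.GP.Defs2

/-!
# The solution at infinity of the Legendre system (module GP-11)
-/

open Polynomial

namespace Pool.Agent.Helper37.GP

namespace SolAux

/-! ### Laurent series calculus -/

lemma ps_mul (f g : PowerSeries ℚ) : ps (f * g) = ps f * ps g := map_mul _ _ _

lemma ps_add (f g : PowerSeries ℚ) : ps (f + g) = ps f + ps g := map_add _ _ _

lemma ps_neg (f : PowerSeries ℚ) : ps (-f) = -ps f := map_neg _ _

lemma ps_coeff_nat (f : PowerSeries ℚ) (n : ℕ) : (ps f).coeff (n : ℤ) = PowerSeries.coeff n f :=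
  HahnSeries.ofPowerSeries_apply_coeff f n

lemma ps_coeff_neg (f : PowerSeries ℚ) {n : ℤ} (hn : n < 0) : (ps f).coeff n = 0 := by
  unfold ps
  rw [HahnSeries.ofPowerSeries_apply]
  apply HahnSeries.embDomain_of_notMem_range
  rintro ⟨m, hm⟩
  have h2 : ((m : ℕ) : ℤ) = n := hm
  omega

lemma derivative_ps (f : PowerSeries ℚ) :
    LaurentSeries.derivative ℚ (ps f) = ps (PowerSeries.derivative ℚ f) := by
  apply HahnSeries.ext
  funext n
  rw [LaurentSeries.derivative_apply, LaurentSeries.hasseDeriv_coeff]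
  rcases lt_or_ge n 0 with hn | hn
  · rw [ps_coeff_neg _ hn]
    rcases eq_or_lt_of_le (show n + 1 ≤ 0 by omega) with h1 | h1
    · have : n + ((1 : ℕ) : ℤ) = 0 := by exact_mod_cast h1
      rw [this]
      simp
    · rw [ps_coeff_neg _ (by exact_mod_cast h1)]
      simp
  · obtain ⟨m, rfl⟩ := Int.eq_ofNat_of_zero_le hn
    rw [ps_coeff_nat]
    have : (m : ℤ) + ((1 : ℕ) : ℤ) = ((m + 1 : ℕ) : ℤ) := by push_cast; ring
    rw [this, ps_coeff_nat, PowerSeries.coeff_derivative]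
    rw [Ring.choose_one_right]
    push_cast
    rw [zsmul_eq_mul]
    push_cast
    ring

lemma single_two : (HahnSeries.single (2 : ℤ) (1 : ℚ) : LaurentSeries ℚ) =
    ps (PowerSeries.X ^ 2) := by
  unfold ps
  rw [HahnSeries.ofPowerSeries_X_pow]
  norm_num

lemma dd_ps (f : PowerSeries ℚ) :
    dd (ps f) = -ps (PowerSeries.X ^ 2 * PowerSeries.derivative ℚ f) := by
  unfold dd
  rw [derivative_ps, single_two, ps_mul]

lemma emb_C_ps (c : ℚ) : emb (C c) = ps (PowerSeries.C c) := by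
  unfold emb ps
  rw [Polynomial.coe_eval₂RingHom, Polynomial.eval₂_C, HahnSeries.ofPowerSeries_C,
    eq_ratCast (algebraMap ℚ (LaurentSeries ℚ)),
    eq_ratCast (HahnSeries.C : ℚ →+* LaurentSeries ℚ)]

lemma emb_X_single : emb X = HahnSeries.single (-1 : ℤ) (1 : ℚ) := by
  unfold emb
  rw [Polynomial.coe_eval₂RingHom, Polynomial.eval₂_X]

lemma emb_X_mul : emb X * ps PowerSeries.X = 1 := by
  rw [emb_X_single]
  unfold ps
  rw [HahnSeries.ofPowerSeries_X, HahnSeries.single_mul_single]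
  norm_num

/-- `T₀(s₀ + c x) ga²` as a power series in `x` -/
noncomputable def P2 (al be ga : ℤ) : PowerSeries ℚ :=
  2 * (PowerSeries.C (al : ℚ) + PowerSeries.C (be : ℚ) * PowerSeries.X) *
    (PowerSeries.C ((ga : ℚ) - al) - PowerSeries.C (be : ℚ) * PowerSeries.X)

/-- `A₀(s₀ + c x) ga` as a matrix of power series in `x` -/
noncomputable def M2 (al be ga : ℤ) : Matrix (Fin 2) (Fin 2) (PowerSeries ℚ) :=
  !![PowerSeries.C (al : ℚ) + PowerSeries.C (be : ℚ) * PowerSeries.X, -PowerSeries.C (ga : ℚ);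
    PowerSeries.C (al : ℚ) + PowerSeries.C (be : ℚ) * PowerSeries.X,
    -(PowerSeries.C (al : ℚ) + PowerSeries.C (be : ℚ) * PowerSeries.X)]

lemma emb_Tt (al be ga : ℤ) :
    emb ((Tt al be ga).map (Int.castRingHom ℚ)) = emb X ^ 3 * ps (P2 al be ga) := by
  have h := emb_X_mul
  unfold Tt P2
  have e1 : ((2 * X * (C al * X + C be) * (C (ga - al) * X - C be) : ℤ[X])).map
      (Int.castRingHom ℚ) = 2 * X * (C (al : ℚ) * X + C (be : ℚ)) *
        (C ((ga : ℚ) - al) * X - C (be : ℚ)) := by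
    simp
  rw [e1]
  have e2 : ps (2 : PowerSeries ℚ) = 2 := map_ofNat (HahnSeries.ofPowerSeries ℤ ℚ) 2
  simp only [map_mul, map_add, map_sub, map_ofNat, emb_C_ps]
  unfold ps at h ⊢
  simp only [map_mul, map_add, map_sub, map_ofNat] at h ⊢
  set t := emb X
  set x := (HahnSeries.ofPowerSeries ℤ ℚ) PowerSeries.X
  set A := (HahnSeries.ofPowerSeries ℤ ℚ) (PowerSeries.C (al : ℚ))
  set B := (HahnSeries.ofPowerSeries ℤ ℚ) (PowerSeries.C (be : ℚ))
  set G := (HahnSeries.ofPowerSeries ℤ ℚ) (PowerSeries.C (ga : ℚ))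
  linear_combination (2 * t * (A * B * t - B * (G - A) * t + B ^ 2 * (t * x + 1))) * h

lemma emb_At (al be ga : ℤ) (a b : Fin 2) :
    emb (At al be ga a b) = -(emb X * ps (PowerSeries.C (be : ℚ) * M2 al be ga a b)) := by
  have h := emb_X_mul
  have h' : emb X * (HahnSeries.single (1 : ℤ) (1 : ℚ) : LaurentSeries ℚ) = 1 := by
    rw [← h]
    unfold ps
    rw [HahnSeries.ofPowerSeries_X]
  unfold At M2 ps
  fin_cases a <;> fin_cases b <;> simp
  · linear_combination (-(be : LaurentSeries ℚ) ^ 2) * h'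
  · ring
  · linear_combination (-(be : LaurentSeries ℚ) ^ 2) * h'
  · linear_combination ((be : LaurentSeries ℚ) ^ 2) * h'

/-! ### the recursion for the Taylor coefficients -/

/-- hypothesis: the recursion `beta0_left` -/
def Left : Prop := ∀ n : ℕ,
    ((n : ℚ[X]) + 2) • beta T0 A0 (n + 2) + (((n : ℚ[X]) + 1) * derivative T0) • beta T0 A0 (n + 1)
      - (2 * (n : ℚ[X]) * T0) • beta T0 A0 n =
      A0 * beta T0 A0 (n + 1) + T0 • ((A0.map derivative) * beta T0 A0 n)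

lemma eval_T0 (s : ℚ) : T0.eval s = 2 * s * (1 - s) := by
  unfold T0; simp

lemma eval_dT0 (s : ℚ) : (derivative T0).eval s = 2 - 4 * s := by
  unfold T0; simp; ring

lemma left_eval (hl : Left) (n : ℕ) (s : ℚ) (a b : Fin 2) :
    ((n : ℚ) + 2) * (beta T0 A0 (n + 2) a b).eval s
      + ((n : ℚ) + 1) * (2 - 4 * s) * (beta T0 A0 (n + 1) a b).eval s
      - 2 * n * (2 * s * (1 - s)) * (beta T0 A0 n a b).eval s =
    (A0 a 0).eval s * (beta T0 A0 (n + 1) 0 b).eval s
      + (A0 a 1).eval s * (beta T0 A0 (n + 1) 1 b).eval s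
      + 2 * s * (1 - s) * ((derivative (A0 a 0)).eval s * (beta T0 A0 n 0 b).eval s
        + (derivative (A0 a 1)).eval s * (beta T0 A0 n 1 b).eval s) := by
  have h := congrArg (Polynomial.eval s) (congrFun (congrFun (hl n) a) b)
  simp only [Matrix.sub_apply, Matrix.add_apply, Matrix.smul_apply, Matrix.mul_apply,
    Fin.sum_univ_two, Matrix.map_apply, smul_eq_mul, eval_add, eval_sub, eval_mul, eval_T0,
    eval_dT0, eval_natCast, eval_ofNat, eval_one] at h
  exact h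

lemma A0_eval (s : ℚ) : (A0 0 0).eval s = s ∧ (A0 0 1).eval s = -1 ∧ (A0 1 0).eval s = s ∧
    (A0 1 1).eval s = -s := by
  unfold A0
  refine ⟨by simp, by simp, by simp, by simp⟩

lemma dA0_eval (s : ℚ) : (derivative (A0 0 0)).eval s = 1 ∧ (derivative (A0 0 1)).eval s = 0 ∧
    (derivative (A0 1 0)).eval s = 1 ∧ (derivative (A0 1 1)).eval s = -1 := by
  unfold A0
  refine ⟨by simp, by simp, by simp, by simp⟩

lemma yc_apply (al be ga : ℤ) (n : ℕ) (a b : Fin 2) :
    yc al be ga n a b = (((be : ℚ) / ga) / T0.eval ((al : ℚ) / ga)) ^ n *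
      (beta T0 A0 n a b).eval ((al : ℚ) / ga) := by
  unfold yc
  simp [Matrix.smul_apply]

lemma yc_rec0 (hl : Left) {al be ga : ℤ} (h0 : 0 < al) (h1 : al < ga) (n : ℕ) (b : Fin 2) :
    2 * (al : ℚ) * (ga - al) * ((n + 2) * yc al be ga (n + 2) 0 b)
      + 2 * be * (ga - 2 * al) * ((n + 1) * yc al be ga (n + 1) 0 b)
      - 2 * be ^ 2 * (n * yc al be ga n 0 b) =
    be * (al * yc al be ga (n + 1) 0 b - ga * yc al be ga (n + 1) 1 b + be * yc al be ga n 0 b) := by
  have hga : (ga : ℚ) ≠ 0 := by exact_mod_cast (by omega : ga ≠ 0)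
  have hal : (al : ℚ) ≠ 0 := by exact_mod_cast (by omega : al ≠ 0)
  have hgal : (ga : ℚ) - al ≠ 0 := by
    have : (ga - al : ℤ) ≠ 0 := by omega
    exact_mod_cast this
  have h := left_eval hl n ((al : ℚ) / ga) 0 b
  obtain ⟨e1, e2, -, -⟩ := A0_eval ((al : ℚ) / ga)
  obtain ⟨f1, f2, -, -⟩ := dA0_eval ((al : ℚ) / ga)
  rw [e1, e2, f1, f2] at h
  simp only [yc_apply, eval_T0]
  set s : ℚ := (al : ℚ) / ga with hs
  set θ : ℚ := ((be : ℚ) / ga) / (2 * s * (1 - s)) with hθ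
  have hals : (al : ℚ) = s * ga := by rw [hs]; field_simp
  have hs0 : 2 * s * (1 - s) ≠ 0 := by
    have : s ≠ 0 := by rw [hs]; positivity
    have : 1 - s ≠ 0 := by
      rw [hs]
      intro h
      apply hgal
      field_simp at h
      linarith
    positivity
  have hbes : (be : ℚ) = θ * (2 * s * (1 - s)) * ga := by
    rw [hθ, div_mul_cancel₀ _ hs0, div_mul_cancel₀ _ hga]
  rw [hals, hbes]
  linear_combination ((ga : ℚ) ^ 2 * (θ * (2 * s * (1 - s))) * θ ^ (n + 1)) * h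

lemma yc_rec1 (hl : Left) {al be ga : ℤ} (h0 : 0 < al) (h1 : al < ga) (n : ℕ) (b : Fin 2) :
    2 * (al : ℚ) * (ga - al) * ((n + 2) * yc al be ga (n + 2) 1 b)
      + 2 * be * (ga - 2 * al) * ((n + 1) * yc al be ga (n + 1) 1 b)
      - 2 * be ^ 2 * (n * yc al be ga n 1 b) =
    be * (al * yc al be ga (n + 1) 0 b - al * yc al be ga (n + 1) 1 b + be * yc al be ga n 0 b
      - be * yc al be ga n 1 b) := by
  have hga : (ga : ℚ) ≠ 0 := by exact_mod_cast (by omega : ga ≠ 0)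
  have hal : (al : ℚ) ≠ 0 := by exact_mod_cast (by omega : al ≠ 0)
  have hgal : (ga : ℚ) - al ≠ 0 := by
    have : (ga - al : ℤ) ≠ 0 := by omega
    exact_mod_cast this
  have h := left_eval hl n ((al : ℚ) / ga) 1 b
  obtain ⟨-, -, e1, e2⟩ := A0_eval ((al : ℚ) / ga)
  obtain ⟨-, -, f1, f2⟩ := dA0_eval ((al : ℚ) / ga)
  rw [e1, e2, f1, f2] at h
  simp only [yc_apply, eval_T0]
  set s : ℚ := (al : ℚ) / ga with hs
  set θ : ℚ := ((be : ℚ) / ga) / (2 * s * (1 - s)) with hθ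
  have hals : (al : ℚ) = s * ga := by rw [hs]; field_simp
  have hs0 : 2 * s * (1 - s) ≠ 0 := by
    have : s ≠ 0 := by rw [hs]; positivity
    have : 1 - s ≠ 0 := by
      rw [hs]
      intro h
      apply hgal
      field_simp at h
      linarith
    positivity
  have hbes : (be : ℚ) = θ * (2 * s * (1 - s)) * ga := by
    rw [hθ, div_mul_cancel₀ _ hs0, div_mul_cancel₀ _ hga]
  rw [hals, hbes]
  linear_combination ((ga : ℚ) ^ 2 * (θ * (2 * s * (1 - s))) * θ ^ (n + 1)) * h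

lemma yc_zero (al be ga : ℤ) (a b : Fin 2) :
    yc al be ga 0 a b = (1 : Matrix (Fin 2) (Fin 2) ℚ) a b := by
  rw [yc_apply, pow_zero, one_mul]
  show ((1 : Matrix (Fin 2) (Fin 2) ℚ[X]) a b).eval _ = _
  fin_cases a <;> fin_cases b <;> simp

lemma beta_one : beta T0 A0 1 = A0 := by
  show (C ((((0 : ℕ) : ℚ) + 1)⁻¹) : ℚ[X]) • (T0 • (1 : Matrix (Fin 2) (Fin 2) ℚ[X]).map derivative
      - (((0 : ℕ) : ℚ[X]) * derivative T0) • (1 : Matrix (Fin 2) (Fin 2) ℚ[X])
      + (1 : Matrix (Fin 2) (Fin 2) ℚ[X]) * A0) = A0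
  have h1 : (1 : Matrix (Fin 2) (Fin 2) ℚ[X]).map derivative = 0 := by
    ext a b : 2
    fin_cases a <;> fin_cases b <;> simp
  rw [h1]
  simp

lemma yc_one0 {al be ga : ℤ} (h0 : 0 < al) (h1 : al < ga) (b : Fin 2) :
    2 * (al : ℚ) * (ga - al) * yc al be ga 1 0 b =
      be * (al * yc al be ga 0 0 b - ga * yc al be ga 0 1 b) := by
  have hga : (ga : ℚ) ≠ 0 := by exact_mod_cast (by omega : ga ≠ 0)
  have hal : (al : ℚ) ≠ 0 := by exact_mod_cast (by omega : al ≠ 0)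
  have hgal : (ga : ℚ) - al ≠ 0 := by
    have : (ga - al : ℤ) ≠ 0 := by omega
    exact_mod_cast this
  obtain ⟨e1, e2, -, -⟩ := A0_eval ((al : ℚ) / ga)
  rw [yc_zero, yc_zero, yc_apply, beta_one, eval_T0, pow_one]
  have hT : 2 * ((al : ℚ) / ga) * (1 - (al : ℚ) / ga) = 2 * al * (ga - al) / ga ^ 2 := by
    field_simp
  rw [hT]
  rcases (by fin_cases b <;> simp : b = 0 ∨ b = 1) with rfl | rfl
  · rw [e1]
    simp
    field_simp
  · rw [e2]
    simp
    field_simp

lemma yc_one1 {al be ga : ℤ} (h0 : 0 < al) (h1 : al < ga) (b : Fin 2) :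
    2 * (al : ℚ) * (ga - al) * yc al be ga 1 1 b =
      be * (al * yc al be ga 0 0 b - al * yc al be ga 0 1 b) := by
  have hga : (ga : ℚ) ≠ 0 := by exact_mod_cast (by omega : ga ≠ 0)
  have hal : (al : ℚ) ≠ 0 := by exact_mod_cast (by omega : al ≠ 0)
  have hgal : (ga : ℚ) - al ≠ 0 := by
    have : (ga - al : ℤ) ≠ 0 := by omega
    exact_mod_cast this
  obtain ⟨-, -, e1, e2⟩ := A0_eval ((al : ℚ) / ga)
  rw [yc_zero, yc_zero, yc_apply, beta_one, eval_T0, pow_one]
  have hT : 2 * ((al : ℚ) / ga) * (1 - (al : ℚ) / ga) = 2 * al * (ga - al) / ga ^ 2 := by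
    field_simp
  rw [hT]
  rcases (by fin_cases b <;> simp : b = 0 ∨ b = 1) with rfl | rfl
  · rw [e1]
    simp
    field_simp
  · rw [e2]
    simp
    field_simp

lemma coeff_X_mul_deriv (f : PowerSeries ℚ) (m : ℕ) :
    PowerSeries.coeff m (PowerSeries.X * PowerSeries.derivative ℚ f) =
      m * PowerSeries.coeff m f := by
  cases m with
  | zero => simp
  | succ m =>
    rw [PowerSeries.coeff_succ_X_mul, PowerSeries.coeff_derivative]
    push_cast
    ring

lemma P2_eq (al be ga : ℤ) : P2 al be ga = PowerSeries.C (2 * (al : ℚ) * (ga - al))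
    + PowerSeries.C (2 * (be : ℚ) * (ga - 2 * al)) * PowerSeries.X
    - PowerSeries.C (2 * (be : ℚ) ^ 2) * (PowerSeries.X * PowerSeries.X) := by
  unfold P2
  simp only [map_mul, map_sub, map_ofNat, map_pow]
  ring

lemma coeff_P2_mul (al be ga : ℤ) (f : PowerSeries ℚ) (m : ℕ) :
    PowerSeries.coeff (m + 1) (P2 al be ga * PowerSeries.derivative ℚ f) =
      2 * (al : ℚ) * (ga - al) * ((m + 2) * PowerSeries.coeff (m + 2) f)
      + 2 * be * (ga - 2 * al) * ((m + 1) * PowerSeries.coeff (m + 1) f)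
      - 2 * be ^ 2 * (m * PowerSeries.coeff m f) := by
  rw [P2_eq, sub_mul, add_mul, map_sub, map_add, PowerSeries.coeff_C_mul,
    PowerSeries.coeff_derivative, mul_assoc (PowerSeries.C (2 * (be : ℚ) * (ga - 2 * al))),
    PowerSeries.coeff_C_mul, coeff_X_mul_deriv,
    mul_assoc (PowerSeries.C (2 * (be : ℚ) ^ 2)), PowerSeries.coeff_C_mul,
    mul_assoc PowerSeries.X PowerSeries.X, PowerSeries.coeff_succ_X_mul, coeff_X_mul_deriv]
  push_cast
  ring

lemma coeff_P2_mul_zero (al be ga : ℤ) (f : PowerSeries ℚ) :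
    PowerSeries.coeff 0 (P2 al be ga * PowerSeries.derivative ℚ f) =
      2 * (al : ℚ) * (ga - al) * PowerSeries.coeff 1 f := by
  rw [P2_eq, sub_mul, add_mul, map_sub, map_add, PowerSeries.coeff_C_mul,
    PowerSeries.coeff_derivative, mul_assoc (PowerSeries.C (2 * (be : ℚ) * (ga - 2 * al))),
    PowerSeries.coeff_C_mul, coeff_X_mul_deriv,
    mul_assoc (PowerSeries.C (2 * (be : ℚ) ^ 2)), PowerSeries.coeff_C_mul,
    mul_assoc PowerSeries.X PowerSeries.X, PowerSeries.coeff_zero_X_mul]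
  push_cast
  ring

lemma coeff_Yt (al be ga : ℤ) (a b : Fin 2) (n : ℕ) :
    PowerSeries.coeff n (Yt al be ga a b) = yc al be ga n a b := by
  unfold Yt
  rw [PowerSeries.coeff_mk]

/-- the differential equation in `x` -/
lemma ode0 (hl : Left) {al be ga : ℤ} (h0 : 0 < al) (h1 : al < ga) (b : Fin 2) :
    P2 al be ga * PowerSeries.derivative ℚ (Yt al be ga 0 b) =
      PowerSeries.C (be : ℚ) * (M2 al be ga 0 0 * Yt al be ga 0 b +
        M2 al be ga 0 1 * Yt al be ga 1 b) := by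
  have e0 : M2 al be ga 0 0 = PowerSeries.C (al : ℚ) + PowerSeries.C (be : ℚ) * PowerSeries.X := by
    simp [M2]
  have e1 : M2 al be ga 0 1 = -PowerSeries.C (ga : ℚ) := by simp [M2]
  rw [e0, e1]
  apply PowerSeries.ext
  intro n
  cases n with
  | zero =>
    rw [coeff_P2_mul_zero, coeff_Yt, yc_one0 h0 h1, PowerSeries.coeff_C_mul, map_add, add_mul,
      map_add, PowerSeries.coeff_C_mul, mul_assoc, PowerSeries.coeff_C_mul,
      PowerSeries.coeff_zero_X_mul, neg_mul, map_neg, PowerSeries.coeff_C_mul, coeff_Yt, coeff_Yt]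
    ring
  | succ m =>
    rw [coeff_P2_mul, coeff_Yt, coeff_Yt, coeff_Yt, yc_rec0 hl h0 h1, PowerSeries.coeff_C_mul,
      map_add, add_mul,
      map_add, PowerSeries.coeff_C_mul, mul_assoc, PowerSeries.coeff_C_mul,
      PowerSeries.coeff_succ_X_mul, neg_mul, map_neg, PowerSeries.coeff_C_mul, coeff_Yt, coeff_Yt,
      coeff_Yt]
    ring

lemma ode1 (hl : Left) {al be ga : ℤ} (h0 : 0 < al) (h1 : al < ga) (b : Fin 2) :
    P2 al be ga * PowerSeries.derivative ℚ (Yt al be ga 1 b) =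
      PowerSeries.C (be : ℚ) * (M2 al be ga 1 0 * Yt al be ga 0 b +
        M2 al be ga 1 1 * Yt al be ga 1 b) := by
  have e0 : M2 al be ga 1 0 = PowerSeries.C (al : ℚ) + PowerSeries.C (be : ℚ) * PowerSeries.X := by
    simp [M2]
  have e1 : M2 al be ga 1 1 =
      -(PowerSeries.C (al : ℚ) + PowerSeries.C (be : ℚ) * PowerSeries.X) := by simp [M2]
  rw [e0, e1]
  apply PowerSeries.ext
  intro n
  cases n with
  | zero =>
    rw [coeff_P2_mul_zero, coeff_Yt, yc_one1 h0 h1, PowerSeries.coeff_C_mul, map_add, neg_mul,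
      map_neg, add_mul, add_mul,
      map_add, map_add, PowerSeries.coeff_C_mul, mul_assoc, PowerSeries.coeff_C_mul,
      PowerSeries.coeff_zero_X_mul, PowerSeries.coeff_C_mul, mul_assoc, PowerSeries.coeff_C_mul,
      PowerSeries.coeff_zero_X_mul, coeff_Yt, coeff_Yt]
    ring
  | succ m =>
    rw [coeff_P2_mul, coeff_Yt, coeff_Yt, coeff_Yt, yc_rec1 hl h0 h1, PowerSeries.coeff_C_mul,
      map_add, neg_mul,
      map_neg, add_mul, add_mul,
      map_add, map_add, PowerSeries.coeff_C_mul, mul_assoc, PowerSeries.coeff_C_mul,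
      PowerSeries.coeff_succ_X_mul, PowerSeries.coeff_C_mul, mul_assoc, PowerSeries.coeff_C_mul,
      PowerSeries.coeff_succ_X_mul, coeff_Yt, coeff_Yt, coeff_Yt, coeff_Yt]
    ring

end SolAux

open SolAux

theorem sol_t_of (hl : Left) {al be ga : ℤ} (h0 : 0 < al) (h1 : al < ga) (b : Fin 2) :
    IsSol ((Tt al be ga).map (Int.castRingHom ℚ)) (At al be ga)
      (fun a => ps (Yt al be ga a b)) := by
  have hX := emb_X_mul
  have hode : ∀ a : Fin 2, P2 al be ga * PowerSeries.derivative ℚ (Yt al be ga a b) =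
      PowerSeries.C (be : ℚ) * (M2 al be ga a 0 * Yt al be ga 0 b +
        M2 al be ga a 1 * Yt al be ga 1 b) := by
    intro a
    fin_cases a
    · exact ode0 hl h0 h1 b
    · exact ode1 hl h0 h1 b
  intro a
  show emb ((Tt al be ga).map (Int.castRingHom ℚ)) * dd (ps (Yt al be ga a b)) =
    ∑ i, emb (At al be ga a i) * ps (Yt al be ga i b)
  rw [emb_Tt, dd_ps, Fin.sum_univ_two, emb_At, emb_At]
  have h2 := congrArg ps (hode a)
  simp only [ps_mul, ps_add] at h2 ⊢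
  have hX2 : ps (PowerSeries.X ^ 2) = ps PowerSeries.X ^ 2 := map_pow _ _ _
  rw [hX2]
  set t := emb X
  set x := ps PowerSeries.X
  have h3 : t ^ 3 * x ^ 2 = t := by
    have : t ^ 3 * x ^ 2 = t * (t * x) ^ 2 := by ring
    rw [this, hX]; ring
  linear_combination (-t) * h2 - (ps (P2 al be ga) *
    ps (PowerSeries.derivative ℚ (Yt al be ga a b))) * h3

theorem sol_t_zero (al be ga : ℤ) (a b : Fin 2) :
    PowerSeries.constantCoeff (Yt al be ga a b) = (1 : Matrix (Fin 2) (Fin 2) ℚ) a b := by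
  rw [← PowerSeries.coeff_zero_eq_constantCoeff_apply, coeff_Yt, yc_zero]

theorem sol_t_det_of (hl : Left) {al be ga : ℤ} (h0 : 0 < al) (h1 : al < ga) :
    Yt al be ga 0 0 * Yt al be ga 1 1 - Yt al be ga 0 1 * Yt al be ga 1 0 = 1 := by
  set W := Yt al be ga 0 0 * Yt al be ga 1 1 - Yt al be ga 0 1 * Yt al be ga 1 0 with hW
  have hP : P2 al be ga ≠ 0 := by
    intro h
    have h2 := congrArg (PowerSeries.coeff 0) h
    rw [P2_eq] at h2
    simp at h2
    rcases h2 with h2 | h2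
    · omega
    · have : (ga : ℚ) = al := by linarith
      have : ga = al := by exact_mod_cast this
      omega
  have hd : PowerSeries.derivative ℚ W = 0 := by
    have h2 : P2 al be ga * PowerSeries.derivative ℚ W = 0 := by
      rw [hW, map_sub, Derivation.leibniz, Derivation.leibniz]
      simp only [smul_eq_mul]
      have a0 := ode0 (be := be) hl h0 h1 0
      have a1 := ode0 (be := be) hl h0 h1 1
      have b0 := ode1 (be := be) hl h0 h1 0
      have b1 := ode1 (be := be) hl h0 h1 1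
      have m00 : M2 al be ga 1 1 = -M2 al be ga 0 0 := by simp [M2]
      rw [m00] at b0 b1
      linear_combination Yt al be ga 1 1 * a0 + Yt al be ga 0 0 * b1 - Yt al be ga 1 0 * a1
        - Yt al be ga 0 1 * b0
    exact (mul_eq_zero.1 h2).resolve_left hP
  apply PowerSeries.ext
  intro n
  cases n with
  | zero =>
    rw [hW, PowerSeries.coeff_zero_eq_constantCoeff_apply, map_sub, map_mul, map_mul, sol_t_zero,
      sol_t_zero, sol_t_zero, sol_t_zero]
    simp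
  | succ m =>
    have h2 := congrArg (PowerSeries.coeff m) hd
    rw [PowerSeries.coeff_derivative, map_zero] at h2
    have h3 : ((m : ℚ) + 1) ≠ 0 := by positivity
    rw [(mul_eq_zero.1 h2).resolve_right h3]
    simp [PowerSeries.coeff_one]

namespace SolAux

lemma eval_abs_le {p : ℚ[X]} {n : ℕ} (hp : p.natDegree ≤ n) {K : ℚ} (hK : ∀ i, |p.coeff i| ≤ K)
    {s : ℚ} (hs0 : 0 ≤ s) (hs1 : s ≤ 1) : |p.eval s| ≤ (n + 1) * K := by
  rw [Polynomial.eval_eq_sum_range' (Nat.lt_succ_of_le hp)]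
  refine (Finset.abs_sum_le_sum_abs _ _).trans ?_
  have : ∀ i ∈ Finset.range (n + 1), |p.coeff i * s ^ i| ≤ K := by
    intro i _
    rw [abs_mul, abs_pow, abs_of_nonneg hs0]
    have h1 : s ^ i ≤ 1 := pow_le_one₀ hs0 hs1
    have h2 := hK i
    have h3 := abs_nonneg (p.coeff i)
    have h4 : 0 ≤ s ^ i := by positivity
    nlinarith
  refine (Finset.sum_le_card_nsmul _ _ _ this).trans ?_
  rw [Finset.card_range, nsmul_eq_mul]
  push_cast
  exact le_refl _

/-- integers inside `ℚ` -/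
def Zq : Subring ℚ := (Int.castRingHom ℚ).range

lemma mem_Zq {x : ℚ} : x ∈ Zq ↔ ∃ z : ℤ, (z : ℚ) = x := Iff.rfl

lemma int_mem (z : ℤ) : (z : ℚ) ∈ Zq := ⟨z, rfl⟩

lemma nat_mem (z : ℕ) : (z : ℚ) ∈ Zq := ⟨z, by simp⟩

end SolAux

theorem sol_t_bound_of (hdeg : ∀ n a b, (beta T0 A0 n a b).natDegree ≤ n)
    (hG : ∃ H₀ : ℕ, 2 ≤ H₀ ∧ Galochkin T0 A0 H₀)
    (hsize : ∃ C : ℕ, 1 ≤ C ∧ ∀ j a b i, |(beta T0 A0 j a b).coeff i| ≤ ((C : ℕ) : ℚ) ^ (j + 1))
    {al be ga : ℤ} (h0 : 0 < al) (h1 : al < ga) :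
    ∃ H₁ : ℕ, 2 ≤ H₁ ∧ (∀ a b, GBound H₁ (Yt al be ga a b)) ∧
      GDen H₁ (fun p : Fin 2 × Fin 2 => Yt al be ga p.1 p.2) := by
  obtain ⟨H₀, hH₀, hG⟩ := hG
  obtain ⟨C, hC, hsize⟩ := hsize
  have hga : (0 : ℚ) < ga := by exact_mod_cast (by omega : 0 < ga)
  have hal : (0 : ℚ) < al := by exact_mod_cast h0
  have hgal : (0 : ℚ) < (ga : ℚ) - al := by
    have : (0 : ℤ) < ga - al := by omega
    exact_mod_cast this
  set s : ℚ := (al : ℚ) / ga with hs
  have hs0 : 0 ≤ s := by positivity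
  have hs1 : s ≤ 1 := by
    rw [hs, div_le_one hga]; linarith
  set θ : ℚ := ((be : ℚ) / ga) / T0.eval s with hθ
  obtain ⟨Θ, hΘ⟩ := exists_nat_ge |θ|
  -- natural number versions
  obtain ⟨g, hg⟩ : ∃ g : ℕ, (g : ℤ) = ga := ⟨ga.toNat, Int.toNat_of_nonneg (by omega)⟩
  have hpos : 0 < 2 * al * (ga - al) := by
    have : 0 < ga - al := by omega
    positivity
  obtain ⟨k, hk⟩ : ∃ k : ℕ, (k : ℤ) = 2 * al * (ga - al) :=
    ⟨(2 * al * (ga - al)).toNat, Int.toNat_of_nonneg hpos.le⟩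
  have hg1 : 1 ≤ g := by omega
  have hk1 : 1 ≤ k := by omega
  have hgq : (g : ℚ) = ga := by exact_mod_cast hg
  have hkq : (k : ℚ) = 2 * al * (ga - al) := by exact_mod_cast hk
  have hkθ : (k : ℚ) * θ = be * ga := by
    rw [hkq, hθ, eval_T0, hs]
    have : 2 * ((al : ℚ) / ga) * (1 - (al : ℚ) / ga) = 2 * al * (ga - al) / ga ^ 2 := by
      field_simp
    rw [this]
    field_simp
  have hgs : (g : ℚ) * s = al := by
    rw [hgq, hs]; field_simp
  set K₁ : ℕ := 2 * (Θ + 1) * C with hK₁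
  set K₂ : ℕ := H₀ * k * g with hK₂
  have hK₁1 : 1 ≤ K₁ := by rw [hK₁]; nlinarith
  have hK₂1 : 1 ≤ K₂ := by
    rw [hK₂]
    have : 1 ≤ H₀ * k := by nlinarith
    nlinarith
  have hK₁2 : 2 ≤ K₁ := by rw [hK₁]; nlinarith
  refine ⟨K₁ * K₂, ?_, ?_, ?_⟩
  · calc 2 ≤ K₁ * 1 := by omega
      _ ≤ K₁ * K₂ := Nat.mul_le_mul_left _ hK₂1
  · intro a b n
    rw [coeff_Yt, yc_apply, abs_mul, abs_pow]
    have e1 : |(beta T0 A0 n a b).eval s| ≤ (n + 1) * (C : ℚ) ^ (n + 1) :=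
      eval_abs_le (hdeg n a b) (hsize n a b) hs0 hs1
    have e2 : |θ| ^ n ≤ ((Θ : ℚ) + 1) ^ (n + 1) := by
      calc |θ| ^ n ≤ ((Θ : ℚ) + 1) ^ n := by gcongr; linarith
        _ ≤ ((Θ : ℚ) + 1) ^ (n + 1) := pow_le_pow_right₀ (by linarith [Nat.cast_nonneg (α := ℚ) Θ])
            (Nat.le_succ n)
    have e3 : ((n : ℚ) + 1) ≤ 2 ^ (n + 1) := by
      have : n + 1 < 2 ^ (n + 1) := Nat.lt_two_pow_self
      exact_mod_cast this.le
    calc |θ| ^ n * |(beta T0 A0 n a b).eval s|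
        ≤ ((Θ : ℚ) + 1) ^ (n + 1) * (2 ^ (n + 1) * (C : ℚ) ^ (n + 1)) := by
          gcongr
          exact e1.trans (by gcongr)
      _ = ((K₁ : ℕ) : ℚ) ^ (n + 1) := by
          rw [hK₁]; push_cast; rw [← mul_pow, ← mul_pow]; ring
      _ ≤ ((K₁ * K₂ : ℕ) : ℚ) ^ (n + 1) := by
          have : K₁ ≤ K₁ * K₂ := Nat.le_mul_of_pos_right _ hK₂1
          gcongr
  · intro n
    obtain ⟨q, hq0, hq1, hq⟩ := hG n
    refine ⟨q * (k ^ n * g ^ n), by positivity, ?_, ?_⟩
    · calc q * (k ^ n * g ^ n) ≤ H₀ ^ (n + 1) * (k ^ (n + 1) * g ^ (n + 1)) := by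
            gcongr <;> omega
        _ = K₂ ^ (n + 1) := by rw [hK₂, mul_pow, mul_pow]; ring
        _ ≤ (K₁ * K₂) ^ (n + 1) := by
            have : K₂ ≤ K₁ * K₂ := Nat.le_mul_of_pos_left _ hK₁1
            gcongr
    · rintro m hm ⟨a, b⟩
      have hmem : ((q * (k ^ n * g ^ n) : ℕ) : ℚ) *
          PowerSeries.coeff m (Yt al be ga a b) ∈ Zq := by
        rw [coeff_Yt, yc_apply, Polynomial.eval_eq_sum_range' (Nat.lt_succ_of_le (hdeg m a b))]
        have e1 : ((q * (k ^ n * g ^ n) : ℕ) : ℚ) * (θ ^ m *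
            ∑ i ∈ Finset.range (m + 1), (beta T0 A0 m a b).coeff i * s ^ i) =
            ((k : ℚ) ^ (n - m) * ((be : ℚ) * ga) ^ m) *
              ∑ i ∈ Finset.range (m + 1), ((q : ℚ) * (beta T0 A0 m a b).coeff i) *
                ((g : ℚ) ^ (n - i) * (al : ℚ) ^ i) := by
          have e2 : (k : ℚ) ^ n * θ ^ m = (k : ℚ) ^ (n - m) * ((be : ℚ) * ga) ^ m := by
            rw [← hkθ, mul_pow, ← mul_assoc, ← pow_add, Nat.sub_add_cancel hm]
          rw [← e2, Finset.mul_sum, Finset.mul_sum, Finset.mul_sum]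
          refine Finset.sum_congr rfl fun i hi => ?_
          have hi' : i ≤ n := by
            have := Finset.mem_range.1 hi
            omega
          have e3 : (g : ℚ) ^ n * s ^ i = (g : ℚ) ^ (n - i) * (al : ℚ) ^ i := by
            rw [← hgs, mul_pow, ← mul_assoc, ← pow_add, Nat.sub_add_cancel hi']
          rw [← e3]
          push_cast
          ring
        rw [e1]
        refine Zq.mul_mem (Zq.mul_mem (Zq.pow_mem (nat_mem k) _)
          (Zq.pow_mem (Zq.mul_mem (int_mem be) (int_mem ga)) _)) ?_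
        refine Zq.sum_mem fun i _ => ?_
        refine Zq.mul_mem ?_ (Zq.mul_mem (Zq.pow_mem (nat_mem g) _) (Zq.pow_mem (int_mem al) _))
        obtain ⟨z, hz⟩ := hq m hm a b i
        rw [hz]
        exact int_mem z
      obtain ⟨z, hz⟩ := mem_Zq.1 hmem
      exact ⟨z, hz.symm⟩

end Pool.Agent.Helper37.GP
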